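import Pool.Agent.H44.V0F.Num

/-!
# The numbers of the class theorem, second part

`NS.vn`: the numbers `VN`. `NS.dj_c`, `NS.jt_c`, `NS.row_c`, `NS.k9_c`: the conditions of the other
inputs.
-/

set_option autoImplicit false

namespace Pool.V0F

open Finset Real
open Pool.LA91

namespace NS

variable {r K : ℕ} {s : ℝ} {sn : ℕ → ℝ → ℝ} {G : Set ℝ} {b o φ w u y ξ T Λ : ℝ}
  {lam : ℝ → ℝ} {j x x' xr v₀ w₁ vq oq : ℝ}

section

variable (N : NS r K s sn G b o φ w u y ξ T Λ lam j x x' xr v₀ w₁ vq oq)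

include N

/-- The windows between `b` and `o`, all bounds. -/
theorem wb : b ≤ w ∧ w ≤ o ∧ b ≤ o ∧ b ≤ j ∧ j ≤ o ∧ b ≤ x ∧ x ≤ o ∧ b ≤ x' ∧ x' ≤ o ∧ b ≤ xr ∧
    xr ≤ o ∧ b ≤ v₀ ∧ v₀ ≤ o ∧ b ≤ vq ∧ vq ≤ o ∧ b ≤ oq ∧ oq ≤ o := by
  obtain ⟨a1, a2, a3, a4, a5, a6, a7, a8, a9, a10, a11, a12, a13, a14⟩ := N.wins
  have := N.hq1
  refine ⟨by linarith, by linarith, by linarith, by linarith, by linarith, by linarith,
    by linarith, by linarith, by linarith, by linarith, by linarith, by linarith, by linarith,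
    by linarith, by linarith, by linarith, by linarith⟩

theorem li {i : ℕ} (hi : i < r) : φ ≤ ((r : ℝ) - i) * φ ∧ ((r : ℝ) - i) * φ ≤ r * φ ∧
    0 ≤ (i : ℝ) * φ := by
  have h1 : (i : ℝ) + 1 ≤ r := by exact_mod_cast hi
  have h2 := N.φ0
  have h3 : (0 : ℝ) ≤ i := Nat.cast_nonneg i
  refine ⟨?_, ?_, by positivity⟩
  · nlinarith
  · nlinarith

theorem lij {i l : ℕ} (hi : i < r) (hl : l < i) :
    ((r : ℝ) - i) * φ + φ ≤ ((r : ℝ) - l) * φ := by
  have h1 : (l : ℝ) + 1 ≤ i := by exact_mod_cast hl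
  have h2 := N.φ0
  nlinarith

/-- Products of the slope with the windows. -/
theorem sw : s * (j - w) ≤ u + s * φ ∧ u - s * φ ≤ s * (j - w) ∧ s * (x - w) ≤ s * u + s * φ ∧
    s * u - s * φ ≤ s * (x - w) ∧ s * (vq - w) ≤ u + 2 * (s * φ) ∧ s * (j - w) ≤ s * (vq - w) ∧
    s * (vq - w) ≤ s * (j - w) + s * φ ∧ (1 + ξ) * u + 505 * y ≤ s * (oq - w) ∧
    s * (oq - w) ≤ (1 + ξ) * u + 505 * y + s * φ ∧ (1 + ξ) * u + 2000 * y ≤ s * u ∧
    s * (w - v₀) ≤ 3 * (s * u) + s * φ ∧ 3 * (s * u) - s * φ ≤ s * (w - v₀) := by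
  have hs : 0 < s := by linarith [N.s1]
  have hj := abs_le.1 N.hj
  have hx := abs_le.1 N.hx
  have hv := abs_le.1 N.hv
  have hu : s * (u / s) = u := mul_div_cancel₀ _ hs.ne'
  have ho : s * (((1 + ξ) * u + 505 * y) / s) = (1 + ξ) * u + 505 * y :=
    mul_div_cancel₀ _ hs.ne'
  have e1 := mul_le_mul_of_nonneg_left hj.1 hs.le
  have e2 := mul_le_mul_of_nonneg_left hj.2 hs.le
  have e3 := mul_le_mul_of_nonneg_left hx.1 hs.le
  have e4 := mul_le_mul_of_nonneg_left hx.2 hs.le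
  have e5 := mul_le_mul_of_nonneg_left N.hq1 hs.le
  have e6 := mul_le_mul_of_nonneg_left N.hq2 hs.le
  have e7 := mul_le_mul_of_nonneg_left N.ho1 hs.le
  have e8 := mul_le_mul_of_nonneg_left N.ho2 hs.le
  have e9 := N.yd
  have e10 := mul_le_mul_of_nonneg_left hv.1 hs.le
  have e11 := mul_le_mul_of_nonneg_left hv.2 hs.le
  have e12 := N.hξ
  refine ⟨by linarith, by linarith, by linarith, by linarith, by linarith, by linarith,
    by linarith, by linarith, by linarith, by linarith, by linarith, by linarith⟩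

theorem ξu : 0 ≤ ξ * u ∧ ξ * u ≤ u := by
  have h1 := N.ξ0
  have h2 := N.ξ1
  have h3 := N.u0
  refine ⟨by positivity, by nlinarith⟩

/-- `T u` is large. -/
theorem Tu1 : 4 * (s * u) + 4 * (K * u) + 8 * (r * u) + 36 * u = T * u ∧ 0 ≤ (K : ℝ) * u ∧
    u ≤ r * u ∧ u ≤ s * u := by
  have h1 := N.hT
  have h2 := N.u0
  have h3 : (0 : ℝ) ≤ K := Nat.cast_nonneg K
  have h4 := N.rR
  have h5 := N.s1
  refine ⟨?_, by positivity, by nlinarith, by nlinarith⟩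
  rw [h1]
  ring

/-- **The numbers of the mutual informations.** -/
theorem vn : VN r sn G b o φ (fun l => sn l b - φ) (nnF r sn w u y φ) (nfF r sn w x' φ) w w₁ j vq x
    x x' (sn r w - φ) (sn r j - 30 * φ) (lam vq) (lam oq) (35 * y) (10 * y) := by
  obtain ⟨a1, a2, a3, a4, a5, a6, a7, a8, a9, a10, a11, a12, a13, a14⟩ := N.wins
  obtain ⟨b1, b2, b3, b4, b5, b6, b7, b8, b9, b10, b11, b12, b13, b14, b15, b16, b17⟩ := N.wb
  obtain ⟨h1, h2, h3, h4, h5, h6⟩ := N.sm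
  obtain ⟨c1, c2, c3, c4, c5, c6, c7, c8, c9, c10, c11, c12⟩ := N.sw
  obtain ⟨d1, d2⟩ := N.ξu
  have hj := abs_le.1 N.hj
  have hx := abs_le.1 N.hx
  have hx' := abs_le.1 N.hx'
  have hu := N.u0
  have hyu := N.yu
  have hr := N.room
  have hT := N.Tu0
  have hru := N.ru0
  have us := N.us
  have hbw := N.bw
  have hwo := N.wo
  have ho1 := N.o1
  obtain ⟨f1, f2, f3, f4⟩ := N.Tu1
  have jt := N.stv N.jG b4 b5
  have xt := N.stv N.xG b6 b7
  have vt := abs_le.1 (N.sv vq b14 b15)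
  have ot := abs_le.1 (N.sv oq b16 b17)
  have lr := N.lwb le_rfl
  refine
    { wG := N.wG
      jG := N.jG
      xG := N.xG
      x0G := N.xG
      xG' := N.xG'
      bw := b1
      ww := N.hw1
      wj := a3
      wx := a13
      jv := N.hq1
      v1 := by linarith
      jx := by linarith
      xx := by linarith
      xo := b9
      x1 := by linarith
      wx0 := a14
      x0x := by linarith
      hp := fun i _ => le_rfl
      hpr := le_rfl
      nj := fun i hi => ?_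
      nx := fun i hi => ?_
      nnf := fun i hi => ?_
      nf0 := fun i hi => ?_
      nfΔ := fun i hi => ?_
      nf1 := fun i hi => ?_
      tp := ⟨fun i hi => ?_, fun i hi l hl => ?_⟩
      st := ⟨fun i hi => ?_, fun i hi => ?_, fun i hi l hl => ?_⟩
      m0 := ?_
      mj := by linarith
      mw := fun i hi => ?_
      mv := by linarith
      vΔ := by linarith
      vf := by linarith
      f0 := by linarith
      f1 := by linarith
      t1 := fun l hl => ?_ }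
  · obtain ⟨i1, i2, i3⟩ := N.li hi
    have e1 := N.slv hi N.jG b4 b5
    unfold nnF
    linarith
  · obtain ⟨i1, i2, i3⟩ := N.li hi
    have e1 := N.slv hi N.xG b6 b7
    unfold nnF
    linarith
  · obtain ⟨i1, i2, i3⟩ := N.li hi
    unfold nnF nfF
    linarith
  · obtain ⟨i1, i2, i3⟩ := N.li hi
    have e1 := N.slv hi N.xG' b8 b9
    unfold nfF
    linarith
  · obtain ⟨i1, i2, i3⟩ := N.li hi
    have e1 := N.slv hi N.xG' b8 b9
    unfold nfF
    linarith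
  · obtain ⟨i1, i2, i3⟩ := N.li hi
    have e1 := N.lwb hi.le
    unfold nfF
    linarith
  · obtain ⟨i1, i2, i3⟩ := N.li hi
    have e1 := N.slv hi N.bG le_rfl b3
    unfold nfF
    linarith
  · obtain ⟨i1, i2, i3⟩ := N.li hi
    have e1 := N.slv hi N.bG le_rfl b3
    have e2 := N.slv (hl.trans hi) N.bG le_rfl b3
    have e3 := N.slv (hl.trans hi) N.oG b3 le_rfl
    have e4 := N.lo l (hl.trans hi).le
    unfold nfF
    linarith
  · obtain ⟨i1, i2, i3⟩ := N.li hi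
    unfold nnF
    linarith
  · obtain ⟨i1, i2, i3⟩ := N.li hi
    unfold nnF
    linarith
  · have i4 := N.lij hi hl
    unfold nnF
    linarith
  · linarith
  · obtain ⟨i1, i2, i3⟩ := N.li hi
    unfold nnF
    linarith
  · have e1 := N.lwb (Nat.le_of_lt hl)
    have e2 := N.lwb (Nat.le_refl r)
    linarith

/-- **The numbers of the codes of order `≥ 1`.** -/
theorem dj_c : b ≤ v₀ ∧ v₀ < w ∧ w ≤ o ∧ w₁ ≤ 1 ∧ 0 ≤ sn r v₀ ∧
    Nst r sn w φ (nfF r sn w x' φ) ∧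
    (∀ i < r, (sn r w - sn r v₀) + ((K : ℝ) + 2 * r + 8) * (w - v₀) + 60 * ((r : ℝ) + 2) * φ ≤
      nfF r sn w x' φ i - sn i w) ∧
    (sn r w - sn r v₀) + ((K : ℝ) + 2 * r + 8) * (w - v₀) + 60 * ((r : ℝ) + 2) * φ ≤ 1 - w ∧
    (∀ i < r, nfF r sn w x' φ i - sn i w + 60 * φ ≤ v₀ - b) ∧
    (sn r w + (1 + ξ) * u + 500 * y) + 60 * φ ≤ sn r w + (w - v₀) ∧ u ≤ w - v₀ ∧
    u ≤ sn r w - sn r v₀ ∧ |sn r v₀ - sn r w| ≤ Λ * u ∧ w - v₀ ≤ 4 * u := by
  obtain ⟨a1, a2, a3, a4, a5, a6, a7, a8, a9, a10, a11, a12, a13, a14⟩ := N.wins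
  obtain ⟨b1, b2, b3, b4, b5, b6, b7, b8, b9, b10, b11, b12, b13, b14, b15, b16, b17⟩ := N.wb
  obtain ⟨h1, h2, h3, h4, h5, h6⟩ := N.sm
  obtain ⟨c1, c2, c3, c4, c5, c6, c7, c8, c9, c10, c11, c12⟩ := N.sw
  obtain ⟨d1, d2⟩ := N.ξu
  have hv := abs_le.1 N.hv
  have hx' := abs_le.1 N.hx'
  have hu := N.u0
  have hyu := N.yu
  have hr := N.room
  have hT := N.Tu0
  have hru := N.ru0
  have hbw := N.bw
  have hwo := N.wo
  have ho1 := N.o1
  obtain ⟨f1, f2, f3, f4⟩ := N.Tu1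
  have vt := N.stv N.vG b12 b13
  have lr := N.lwb le_rfl
  have hK : ((K : ℝ) + 2 * r + 8) * (w - v₀) ≤ 4 * (K * u) + 8 * (r * u) + 32 * u -
      (K * u) + φ - 2 * (r * u) - 8 * u + (K * φ + 2 * (r * φ) + 8 * φ) := by
    have e1 : w - v₀ ≤ 3 * u + φ := by linarith
    have e2 : (0 : ℝ) ≤ (K : ℝ) + 2 * r + 8 := by positivity
    have e3 := mul_le_mul_of_nonneg_left e1 e2
    linarith
  have hKφ : (K : ℝ) * φ ≤ K * u := by
    refine mul_le_mul_of_nonneg_left ?_ (Nat.cast_nonneg K)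
    linarith
  have hKK : ((K : ℝ) + 2 * r + 8) * (w - v₀) ≤ 3 * (K * u) + 6 * (r * u) + 24 * u +
      (K * φ + 2 * (r * φ) + 8 * φ) := by
    have e1 : w - v₀ ≤ 3 * u + φ := by linarith
    have e2 : (0 : ℝ) ≤ (K : ℝ) + 2 * r + 8 := by positivity
    have e3 := mul_le_mul_of_nonneg_left e1 e2
    linarith
  refine ⟨b12, a9, b2, by linarith, by linarith, ⟨fun i hi => ?_, fun i hi => ?_,
    fun i hi l hl => ?_⟩, fun i hi => ?_, by linarith, fun i hi => ?_, by linarith, by linarith,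
    by linarith, ?_, by linarith⟩
  · obtain ⟨i1, i2, i3⟩ := N.li hi
    unfold nfF
    linarith
  · obtain ⟨i1, i2, i3⟩ := N.li hi
    unfold nfF
    linarith
  · have i4 := N.lij hi hl
    unfold nfF
    linarith
  · obtain ⟨i1, i2, i3⟩ := N.li hi
    unfold nfF
    linarith
  · obtain ⟨i1, i2, i3⟩ := N.li hi
    unfold nfF
    linarith
  · rw [abs_le]
    constructor <;> linarith

/-- The label at the earlier window. -/
theorem dj_e {E : ℕ → ℝ} (hE : ∀ l ≤ r, sn l v₀ + E l + Λ * u ≤ 1) : sn r w + E r + u ≤ 1 ∧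
    (∀ i < r, nfF r sn w x' φ i + E i + u ≤ 1) ∧ ∀ i ≤ r, E i ≤ 1 := by
  obtain ⟨b1, b2, b3, b4, b5, b6, b7, b8, b9, b10, b11, b12, b13, b14, b15, b16, b17⟩ := N.wb
  obtain ⟨h1, h2, h3, h4, h5, h6⟩ := N.sm
  obtain ⟨c1, c2, c3, c4, c5, c6, c7, c8, c9, c10, c11, c12⟩ := N.sw
  have hv := abs_le.1 N.hv
  have hx' := abs_le.1 N.hx'
  have hu := N.u0
  have hyu := N.yu
  have hr := N.room
  have hT := N.Tu0
  have hru := N.ru0
  obtain ⟨f1, f2, f3, f4⟩ := N.Tu1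
  have vt := N.stv N.vG b12 b13
  have lr := N.lwb le_rfl
  have er := hE r le_rfl
  refine ⟨by linarith, fun i hi => ?_, fun i hi => ?_⟩
  · obtain ⟨i1, i2, i3⟩ := N.li hi
    have e1 := N.slv hi N.vG b12 b13
    have e2 := hE i hi.le
    unfold nfF
    linarith
  · have e2 := hE i hi
    rcases Nat.lt_or_eq_of_le hi with h | h
    · have e1 := N.slv h N.vG b12 b13
      have e3 := N.lwb hi
      linarith
    · subst h
      linarith

/-- **The numbers of all codes.** -/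
theorem jt_c : b ≤ w ∧ w < x ∧ x ≤ o ∧ x ≤ 1 ∧ 0 ≤ sn r w ∧ x + u + 60 * ((r : ℝ) + 2) * φ ≤ 1 ∧
    Nst r sn w φ (nuF r sn w x y φ) ∧
    (∀ i < r, sn i x + 60 * ((r : ℝ) + 2) * φ ≤ nuF r sn w x y φ i) ∧
    (∀ i < r, u + 60 * ((r : ℝ) + 2) * φ ≤ nuF r sn w x y φ i - sn i w) ∧
    u + 60 * φ ≤ sn r x - sn r w ∧
    (∀ i < r, nuF r sn w x y φ i - sn i w + 60 * φ ≤ w - b) := by
  obtain ⟨a1, a2, a3, a4, a5, a6, a7, a8, a9, a10, a11, a12, a13, a14⟩ := N.wins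
  obtain ⟨b1, b2, b3, b4, b5, b6, b7, b8, b9, b10, b11, b12, b13, b14, b15, b16, b17⟩ := N.wb
  obtain ⟨h1, h2, h3, h4, h5, h6⟩ := N.sm
  obtain ⟨c1, c2, c3, c4, c5, c6, c7, c8, c9, c10, c11, c12⟩ := N.sw
  obtain ⟨d1, d2⟩ := N.ξu
  have hx := abs_le.1 N.hx
  have hu := N.u0
  have hyu := N.yu
  have hr := N.room
  have hT := N.Tu0
  have hru := N.ru0
  have hbw := N.bw
  have hwo := N.wo
  have ho1 := N.o1
  obtain ⟨f1, f2, f3, f4⟩ := N.Tu1
  have xt := N.stv N.xG b6 b7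
  have lr := N.lwb le_rfl
  refine ⟨b1, by linarith, b7, by linarith, by linarith, by linarith, ⟨fun i hi => ?_,
    fun i hi => ?_, fun i hi l hl => ?_⟩, fun i hi => ?_, fun i hi => ?_, by linarith,
    fun i hi => ?_⟩
  · obtain ⟨i1, i2, i3⟩ := N.li hi
    unfold nuF
    linarith
  · obtain ⟨i1, i2, i3⟩ := N.li hi
    unfold nuF
    linarith
  · have i4 := N.lij hi hl
    unfold nuF
    linarith
  · obtain ⟨i1, i2, i3⟩ := N.li hi
    have e1 := N.slv hi N.xG b6 b7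
    unfold nuF
    linarith
  · obtain ⟨i1, i2, i3⟩ := N.li hi
    unfold nuF
    linarith
  · obtain ⟨i1, i2, i3⟩ := N.li hi
    unfold nuF
    linarith

/-- The label at the window. -/
theorem jt_e {E : ℕ → ℝ} (hE : ∀ l ≤ r, sn l w + E l + Λ * u ≤ 1) : sn r w + u + E r + u ≤ 1 ∧
    (∀ i < r, nuF r sn w x y φ i + E i + u ≤ 1) ∧ ∀ i ≤ r, E i ≤ 1 := by
  obtain ⟨h1, h2, h3, h4, h5, h6⟩ := N.sm
  have hx := abs_le.1 N.hx
  have hu := N.u0
  have hyu := N.yu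
  have hr := N.room
  have hT := N.Tu0
  have hru := N.ru0
  have er := hE r le_rfl
  refine ⟨by linarith, fun i hi => ?_, fun i hi => ?_⟩
  · obtain ⟨i1, i2, i3⟩ := N.li hi
    have e2 := hE i hi.le
    unfold nuF
    linarith
  · have e2 := hE i hi
    have e3 := N.lwb hi
    linarith

/-- **The numbers of the rows.** -/
theorem row_c : w ≤ x ∧ x + 60 * ((r : ℝ) + 1) * φ ≤ xr ∧ xr ≤ o ∧
    xr + 60 * ((r : ℝ) + 1) * φ ≤ 1 ∧ (∀ i < r, sn i xr ≤ nbF sn w xr φ i ∧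
      nbF sn w xr φ i ≤ 1) ∧ Tp r sn b φ (nbF sn w xr φ) ∧
    ∀ P : ℝ, sn r w ≤ P → P ≤ sn r w + (1 + ξ) * u + 500 * y → 0 ≤ P - 2 * φ ∧ P ≤ 1 ∧
      P + 60 * ((r : ℝ) + 1) * φ ≤ sn r x ∧
      P + 60 * ((r : ℝ) + 1) * φ ≤ sn r w + (xr - w) ∧ |P - sn r w| ≤ Λ * u ∧
      |P - 2 * φ - sn r w| ≤ Λ * u := by
  obtain ⟨a1, a2, a3, a4, a5, a6, a7, a8, a9, a10, a11, a12, a13, a14⟩ := N.wins
  obtain ⟨b1, b2, b3, b4, b5, b6, b7, b8, b9, b10, b11, b12, b13, b14, b15, b16, b17⟩ := N.wb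
  obtain ⟨h1, h2, h3, h4, h5, h6⟩ := N.sm
  obtain ⟨c1, c2, c3, c4, c5, c6, c7, c8, c9, c10, c11, c12⟩ := N.sw
  obtain ⟨d1, d2⟩ := N.ξu
  have hx := abs_le.1 N.hx
  have hxr := abs_le.1 N.hxr
  have hu := N.u0
  have hyu := N.yu
  have hyξ := N.yξ
  have hr := N.room
  have hT := N.Tu0
  have hru := N.ru0
  have hbw := N.bw
  have hwo := N.wo
  have ho1 := N.o1
  obtain ⟨f1, f2, f3, f4⟩ := N.Tu1
  have xt := N.stv N.xG b6 b7
  have lr := N.lwb le_rfl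
  refine ⟨a14, by linarith, b11, by linarith, fun i hi => ⟨?_, ?_⟩, ⟨fun i hi => ?_,
    fun i hi l hl => ?_⟩, fun P hP1 hP2 => ⟨by linarith, by linarith,
    by linarith, by linarith, ?_, ?_⟩⟩
  · have e1 := N.slv hi N.rG b10 b11
    unfold nbF
    linarith
  · have e1 := N.lwb hi.le
    unfold nbF
    linarith
  · have e1 := N.slv hi N.bG le_rfl b3
    unfold nbF
    linarith
  · have e1 := N.slv hi N.bG le_rfl b3
    have e2 := N.slv (hl.trans hi) N.bG le_rfl b3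
    have e3 := N.slv (hl.trans hi) N.oG b3 le_rfl
    have e4 := N.lo l (hl.trans hi).le
    unfold nbF
    linarith
  · rw [abs_le]
    constructor <;> linarith
  · rw [abs_le]
    constructor <;> linarith

/-- **The numbers of the codes of order `≥ 2`** of the chain. -/
theorem k9_c : 0 ≤ b ∧ b ≤ w ∧ w < 1 ∧ ∀ l < r, sn l w + 3 * u ≤ (sn l b - φ) + 2 * (w - b) := by
  obtain ⟨b1, b2, b3, b4, b5, b6, b7, b8, b9, b10, b11, b12, b13, b14, b15, b16, b17⟩ := N.wb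
  obtain ⟨h1, h2, h3, h4, h5, h6⟩ := N.sm
  have hu := N.u0
  have hyu := N.yu
  have hr := N.room
  have hT := N.Tu0
  have hru := N.ru0
  have hbw := N.bw
  have hwo := N.wo
  have ho1 := N.o1
  have hb0 := N.b0
  refine ⟨by linarith, b1, by linarith, fun l hl => ?_⟩
  have e1 := N.slv hl N.bG le_rfl b3
  linarith

end

end NS

end Pool.V0F
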