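import Pool.Agent.H44.V0F.S
import Pool.Agent.H71.AVG.Rgh

/-!
# The base coordinates over the charts of an earlier window: statements, second part

The codes of the own path of the target over (rough) charts of the window `w`, from positions and
velocities of the chain over the charts of `b`; the rows of the target.
-/

set_option autoImplicit false

namespace Pool.V0F

open Finset Real MvPolynomial
open Pool.Agent.H49.Ent Pool.Agent.H32.Dense Pool.STK Pool.KA Pool.KSAT Pool.K2S Pool.PB Pool.GEN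
open Pool.S6C Pool.RCD Pool.LA91 Pool.OWN68 Pool.AVG96
open Pool.AVG71 (cod)

/-- **(DJ)** The codes of order `≥ 1` of the own path of the target over charts of the window `w`, to
`N` digits, from the record at `w` and from positions and velocities of the chain over the charts of
`b`; `v`: an earlier window. -/
def DjStmt : Prop :=
  ∀ (K : ℕ) {h : ℝ}, 0 < h → h ≤ 1 → ∀ {ε : ℝ}, 0 < ε → ∀ r : ℕ, ∃ δ : ℝ, 0 < δ ∧
    ∀ {m : ℕ} {S : PCl m} {c : ℕ → Fin m} {sn : ℕ → ℝ → ℝ} {G : Set ℝ} {b o φ : ℝ},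
    Lad S c r sn G b o φ → ∀ {α γ : ∀ J : ℕ, Fam m J → Type}
    {f : ∀ (J : ℕ) (F : Fam m J), F.Ω → α J F} {y : ∀ (J : ℕ) (F : Fam m J), F.Ω → γ J F},
    (∀ (J : ℕ) (F : Fam m J), ∃ χ : α J F → PtT F, ∀ ω, ptr F J ω = χ (f J F ω)) →
    Kn ((range 0).image c) 1 1 y → ∀ {v w ow N g₀ : ℝ} {p n rd : ℕ → ℝ}, v ∈ G → w ∈ G →
    b ≤ v → v < w → w ≤ o → w ≤ ow → ow ≤ 1 → 0 < g₀ → sn r w + g₀ ≤ 1 → w + g₀ ≤ 1 →
    (∀ i ≤ r, 0 ≤ rd i ∧ rd i + g₀ ≤ 1) → (∀ i < r, n i + g₀ ≤ 1) →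
    (∀ i < r, sn i b - φ ≤ p i) → Nst r sn w φ n →
    (∀ i < r, (sn r w - sn r v) + ((K : ℝ) + 2 * r + 8) * (w - v) + 60 * ((r : ℝ) + 2) * φ ≤
      n i - sn i w) →
    (∀ i < r, n i - sn i w + (w - v) + 60 * φ ≤ v - b) → 60 * ((r : ℝ) + 2) * φ ≤ δ * (w - v) →
    (∀ q' : ℝ, 0 ≤ q' → q' ≤ sn r w - sn r v →
      RawN S ((range r).image c) (c r) (sn r v) q' h (δ * (sn r w - sn r v))) →
    (∀ e : ℝ, 0 < e → Bas S (fun J F A => ∃ (V : Type) (z : PtT F → V) (z' : LnT F → V)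
      (g : V → ℕ → MvPolynomial (Option (Fin m)) ℝ),
      LbC F c 0 (r + 1) K e v rd (fun l => sn l v) A z z' g)) →
    N + 60 * φ ≤ sn r w + (w - v) →
    ∃ e₀ : ℝ, 0 < e₀ ∧ ∀ e : ℝ, 0 < e → e ≤ e₀ → ∀ (K₀ K' : ℕ) (P₂ rw : ℝ),
      K' ≤ K → sn r v ≤ P₂ → 0 ≤ rw →
      Bas S (fun J F A => ∀ u₀ : F.Ω → ℕ → ℕ → ℤ,
        (jetQ m c 0 r b p (fun l j' => n l - (j' : ℝ) * w)).P K₀ e J F A u₀ →
        ∀ (V : Type) (z : PtT F → V) (z' : LnT F → V)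
        (G' : V → MvPolynomial (Option (Fin m)) ℝ), LbOK F ((range r).image c) (c r) K'
          ⌊e * J⌋₊ J ⌊w * J⌋₊ ⌊(rw + e) * J⌋₊ ⌊(P₂ - e) * J⌋₊ A z z' G' →
        ∃ (V₁ : Type) (z₁ : F.Ω → V₁), Cl2 (f J F) (vg ow J F) A z₁ ∧
          ∀ s : ℝ, 0 < s → s ≤ 2 ^ (N * J) →
          CH (Pool.Agent.H49.Ent.cond F.p A True)
            (cod F ⌊w * J⌋₊ 1 (K' + 1) s (c r) z' G')
            (fun ω => (u₀ ω, (z₁ ω, y J F ω))) ≤ ε * (sn r w - sn r v) * J)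

/-- **(JT)** All codes of the own path of the target over charts of the window `w`, to the radius `q`,
from the record at `x` and from positions and velocities of the chain over the charts of `b`. -/
def JtStmt : Prop :=
  ∀ (K : ℕ) {h : ℝ}, 0 < h → h ≤ 1 → ∀ {ε : ℝ}, 0 < ε → ∀ r : ℕ, ∃ δ : ℝ, 0 < δ ∧
    ∀ {m : ℕ} {S : PCl m} {c : ℕ → Fin m} {sn : ℕ → ℝ → ℝ} {G : Set ℝ} {b o φ : ℝ},
    Lad S c r sn G b o φ → ∀ {α γ : ∀ J : ℕ, Fam m J → Type}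
    {f : ∀ (J : ℕ) (F : Fam m J), F.Ω → α J F} {y : ∀ (J : ℕ) (F : Fam m J), F.Ω → γ J F},
    (∀ (J : ℕ) (F : Fam m J), ∃ χ : α J F → PtT F, ∀ ω, ptr F J ω = χ (f J F ω)) →
    Kn ((range 0).image c) 1 1 y → ∀ {w x ox q g₀ : ℝ} {p n rd : ℕ → ℝ}, w ∈ G → x ∈ G →
    b ≤ w → w < x → x ≤ o → x ≤ ox → ox ≤ 1 → 0 < q → 0 < g₀ → sn r w + q + g₀ ≤ 1 →
    x + q + g₀ ≤ 1 → (∀ i ≤ r, 0 ≤ rd i ∧ rd i + g₀ ≤ 1) → (∀ i < r, n i + g₀ ≤ 1) →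
    (∀ i < r, sn i b - φ ≤ p i) → Nst r sn w φ n →
    (∀ i < r, sn i x + 60 * ((r : ℝ) + 2) * φ ≤ n i) →
    (∀ i < r, q + 60 * ((r : ℝ) + 2) * φ ≤ n i - sn i w) → q + 60 * φ ≤ sn r x - sn r w →
    (∀ i < r, n i - sn i w + 60 * φ ≤ w - b) → 60 * ((r : ℝ) + 2) ^ 2 * φ ≤ δ * q →
    (∀ q' : ℝ, 0 ≤ q' → q' ≤ q →
      RawN S ((range r).image c) (c r) (sn r w) q' h (δ * q)) →
    (∀ e : ℝ, 0 < e → Bas S (fun J F A => ∃ (V : Type) (z : PtT F → V) (z' : LnT F → V)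
      (g : V → ℕ → MvPolynomial (Option (Fin m)) ℝ),
      LbC F c 0 (r + 1) K e w rd (fun l => sn l w) A z z' g)) →
    ∃ e₀ : ℝ, 0 < e₀ ∧ ∀ e : ℝ, 0 < e → e ≤ e₀ → ∀ (K₀ K' : ℕ) (Pt rw : ℝ),
      sn r w - φ ≤ Pt → 0 ≤ rw →
      Bas S (fun J F A => ∀ u₀ : F.Ω → ℕ → ℕ → ℤ,
        (jetQ m c 0 r b p (fun l j' => n l - (j' : ℝ) * w)).P K₀ e J F A u₀ →
        ∀ (V : Type) (z : PtT F → V) (z' : LnT F → V)
        (G' : V → MvPolynomial (Option (Fin m)) ℝ), LbOK F ((range r).image c) (c r) K'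
          ⌊e * J⌋₊ J ⌊w * J⌋₊ ⌊(rw + e) * J⌋₊ ⌊(Pt - e) * J⌋₊ A z z' G' →
        ∃ (V₁ : Type) (z₁ : F.Ω → V₁), Cl2 (f J F) (vg ox J F) A z₁ ∧
          ∀ s : ℝ, 0 < s → s ≤ 2 ^ ((sn r w + q) * J) →
          CH (Pool.Agent.H49.Ent.cond F.p A True)
            (cod F ⌊w * J⌋₊ 0 (K' + 1) s (c r) z' G')
            (fun ω => (u₀ ω, (z₁ ω, y J F ω))) ≤ ε * q * J)

/-- **(ROW)** The digits `P₁, …, P₂` of the height of the target over the charts of `w`, given the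
positions of the chain over the charts of `b` to digits which the record at `x'` knows. -/
def RowStmt : Prop :=
  ∀ {m : ℕ} {S : PCl m} {c : ℕ → Fin m} {r : ℕ} {sn : ℕ → ℝ → ℝ} {G : Set ℝ} {b o φ : ℝ},
    Lad S c r sn G b o φ → (range r).image c = univ.erase (c r) → ∀ {w x x' : ℝ}
    {p n : ℕ → ℝ} {pr P₁ P₂ h δ : ℝ}, w ∈ G → x ∈ G → x' ∈ G → b ≤ w → w ≤ x →
    x + 60 * ((r : ℝ) + 1) * φ ≤ x' → x' ≤ o → x' + 60 * ((r : ℝ) + 1) * φ ≤ 1 →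
    (∀ i < r, sn i b - φ ≤ p i) → sn r w - φ ≤ pr → (∀ i < r, sn i x' ≤ n i ∧ n i ≤ 1) →
    0 ≤ P₁ → P₁ ≤ P₂ → P₂ ≤ 1 → P₂ + 60 * ((r : ℝ) + 1) * φ ≤ sn r x →
    P₂ + 60 * ((r : ℝ) + 1) * φ ≤ sn r w + (x' - w) →
    RawN S (univ.erase (c r)) (c r) P₁ (P₂ - P₁) h δ → ∀ ε : ℝ, 0 < ε → ∃ k : ℝ, 0 < k ∧
    ∃ e₀ : ℝ, 0 < e₀ ∧ ∀ K : ℕ, Bas S (fun J F A =>
      ∀ (V : Type) (z : F.Ω → V), Mx (fun J F => ptr F J) (vg w) k F A z → ∀ u u₁ u₂,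
      (qJets m c 0 r 0 (fun _ _ => b) (fun l _ => p l) (fun l _ => n l)).P K e₀ J F A u →
      (qJet m ((range r).image c) (c r) 0 w pr P₁).P K e₀ J F A u₁ →
      (qJet m ((range r).image c) (c r) 0 w pr P₂).P K e₀ J F A u₂ →
      CH (Pool.Agent.H49.Ent.cond F.p A True) u₂ (fun ω => (u₁ ω, (u ω, (z ω, F.W ω)))) ≤
        ((1 - h) * (P₂ - P₁) * Real.log 2 + δ + 40 * ((r : ℝ) + 1) ^ 2 * φ + ε) * J)

end Pool.V0F
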