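import Pool.Agent.H44.V0F.Vcl
import Pool.Agent.H44.V0F.S2
import Pool.Agent.H57.AVG.Jts
import Pool.Agent.H71.AVG.Pf2
import Pool.Agent.H92.V0F.Lbf
import Pool.Agent.H23.D2.V0g

/-!
# The base coordinates over the charts of an earlier window: the class theorem, statements

`CfbStmt`: own paths of closed labels have bounded coefficients on half of the event. `K9Stmt`: the
codes of order `≥ 2` over labels of an earlier window. `AcStmt`: the codes of the base coordinates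
from their jets. `RweStmt`: the rows on parts of the event. The class theorem itself: `V0cStmt`, file S6.
-/

set_option autoImplicit false

namespace Pool.V0F

open Finset Real MvPolynomial
open Pool.Agent.H49.Ent Pool.Agent.H32.Dense Pool.STK Pool.KA Pool.KSAT Pool.K2S Pool.PB Pool.GEN
open Pool.S6C Pool.RCD Pool.LA91 Pool.OWN68 Pool.AVG96
open Pool.AVG71 (cod)
open Pool.AJW (CfB)
open Pool.AVG57 (adM jet2 upw)
open Pool.GRD (LbP)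
open Pool.D2R (WinB gnh hyb hybH)
open Pool.BFL (Pb)
open Pool.PB.Trl (rt)

/-- **(CFB)** The own paths of finitely many closed labels have coefficients `≤ 2 ^ (E J)` on half
of the event. -/
def CfbStmt : Prop := ∀ {m : ℕ} {S : PCl m} {C₀ : ℝ}, TmC S C₀ →
  (∀ (τ : ℝ) (J : ℕ) (F : Fam m J) (A : F.Ω → Prop), S.St τ J F A → 0 < Pe F.p A) →
  ∀ (D N : ℕ) {E : ℝ} (w : ℕ → ℝ) (I : ℕ → Finset (Fin m)) (κ : ℕ → Fin m), 0 < E →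
  (∀ k < N, 0 ≤ w k ∧ w k < 1) →
  Bas S (fun J F A => ∀ (P : ℕ → ℕ) (V : ℕ → Type) (z : ∀ k, PtT F → V k)
    (z' : ∀ k, LnT F → V k) (G : ∀ k, V k → MvPolynomial (Option (Fin m)) ℝ),
    (∀ k < N, LbP F (I k) (κ k) D J ⌊w k * J⌋₊ (P k) A (z k) (z' k) (G k)) →
    ∃ B : F.Ω → Prop, Sub B A ∧ Pe F.p A / 2 ≤ Pe F.p B ∧
      ∀ k < N, CfB F ⌊w k * J⌋₊ E (κ k) B (z' k) (G k))

/-- **(K9)** The codes of order `≥ 2`, at windows after `w`, of the own path over labels of the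
earlier window `b`. -/
def K9Stmt : Prop := ∀ {m : ℕ} {S : PCl m} {C₀ : ℝ}, TmC S C₀ →
  (∀ (τ : ℝ) (J : ℕ) (F : Fam m J) (A : F.Ω → Prop), S.St τ J F A → 0 < Pe F.p A) →
  ∀ (K : ℕ) (I : Finset (Fin m)) (κ : Fin m) {b w p N E ε : ℝ}, 0 ≤ b → b ≤ w → w < 1 →
  N ≤ p + 2 * (w - b) → 0 < ε → ∃ e₀ : ℝ, 0 < e₀ ∧
  Bas S (fun J F A => ∀ (V : Type) (z : PtT F → V) (z' : LnT F → V)
    (G : V → MvPolynomial (Option (Fin m)) ℝ),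
    LbP F I κ K J ⌊b * J⌋₊ ⌊(p - e₀) * J⌋₊ A z z' G → CfB F ⌊b * J⌋₊ E κ A z' G →
    ∀ (W : ℕ) (σ : ℝ), ⌊w * J⌋₊ ≤ W → W ≤ J → 0 < σ → σ ≤ 2 ^ (N * J) →
    CH (Pool.Agent.H49.Ent.cond F.p A True)
      (cod F W 2 (K + 1) σ κ (fun s => z' (upw ⌊b * J⌋₊ W s)) G) F.W ≤ ε * J)

/-- **(AC)** The codes of the base coordinates from the jets of the orders `0`, `1` and from the
codes of order `≥ 2`. -/
def AcStmt : Prop := ∀ r K : ℕ, ∃ C : ℝ, 0 ≤ C ∧ ∀ {m J : ℕ} {F : Fam m J} {c : ℕ → Fin m}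
  {n q w W X mm D : ℕ} {γ : ℕ → ℕ} {G : ℕ → PtT F → ℕ → MvPolynomial (Option (Fin m)) ℝ}
  {H : LnT F → ℕ → MvPolynomial (Option (Fin m)) ℝ} {ζ : Type} {zw : F.Ω → ζ} {p : F.Ω → ℝ}
  {e : ℝ}, IsLaw p → w ≤ W → W ≤ J → (∀ s l, (H s l).totalDegree ≤ D) → D + 1 ≤ K → 0 ≤ e →
  (∀ l < r, CH p (cod F W 2 K (2 ^ (γ l + q + (X + mm))) (c l) (fun s => upw w W s)
    (fun s => H s l)) F.W ≤ e) →
  (∀ N : ℕ → ℕ → ℝ, (∀ l < r, ((γ l + q + (X + mm) : ℕ) : ℝ) ≤ N l 0 * J) →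
    (∀ l < r, ((γ l + q + (X + mm) : ℕ) : ℝ) ≤ N l 1 * J + W) →
    CH p ((adM F c 0 r n q w W X mm γ G H zw).ac K) (fun ω =>
      (jet2 F c w H 0 r N ω, ((adM F c 0 r n q w W X mm γ G H zw).th ω,
        (adM F c 0 r n q w W X mm γ G H zw).z ω))) ≤ r * e + C) ∧
  ∀ N : ℕ → ℕ → ℝ, (∀ l < r, ((γ l + q : ℕ) : ℝ) ≤ N l 0 * J) →
    (∀ l < r, ((γ l + q + (X + mm) : ℕ) : ℝ) ≤ N l 1 * J + W) →
    CH p (fun ω => ((adM F c 0 r n q w W X mm γ G H zw).v K ω).2) (fun ω =>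
      (jet2 F c w H 0 r N ω, ((adM F c 0 r n q w W X mm γ G H zw).th ω,
        (adM F c 0 r n q w W X mm γ G H zw).z ω))) ≤ r * e + C

/-- **(RWE)** The rows on parts of the event, given a closed function `zw` of a later window `w₁`
with small cells. -/
def RweStmt : Prop :=
  ∀ {m : ℕ} {S : PCl m} {c : ℕ → Fin m} {r : ℕ} {sn : ℕ → ℝ → ℝ} {G : Set ℝ} {b o φ : ℝ},
    Lad S c r sn G b o φ → (range r).image c = univ.erase (c r) → ∀ {w w₁ x x' η : ℝ}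
    {p n : ℕ → ℝ} {pr P₁ P₂ h δ : ℝ}, w ∈ G → x ∈ G → x' ∈ G → b ≤ w → w ≤ x →
    x + 60 * ((r : ℝ) + 1) * φ ≤ x' → x' ≤ o → x' + 60 * ((r : ℝ) + 1) * φ ≤ 1 →
    (∀ i < r, sn i b - φ ≤ p i) → sn r w - φ ≤ pr → (∀ i < r, sn i x' ≤ n i ∧ n i ≤ 1) →
    0 ≤ P₁ → P₁ ≤ P₂ → P₂ ≤ 1 → P₂ + 60 * ((r : ℝ) + 1) * φ ≤ sn r x →
    P₂ + 60 * ((r : ℝ) + 1) * φ ≤ sn r w + (x' - w) →
    RawN S (univ.erase (c r)) (c r) P₁ (P₂ - P₁) h δ → w ≤ w₁ → w₁ ≤ 1 →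
    RNum S (fun J F => ptr F J) (vg w₁) η → ∀ π₀ : ℝ, 0 < π₀ → ∀ ε : ℝ, 0 < ε → ∃ k : ℝ, 0 < k ∧
    ∃ e₀ : ℝ, 0 < e₀ ∧ ∀ K : ℕ, Bas S (fun J F A =>
      ∀ (V : Type) (z : F.Ω → V), Cl2 (ptr F J) (vg w₁ J F) A z →
      (∀ v, (cnt F.p (ptr F J) (fun ω => A ω ∧ z ω = v) : ℝ) ≤ Real.exp (-((-η - k) * J))) →
      ∀ u u₁ u₂,
      (qJets m c 0 r 0 (fun _ _ => b) (fun l _ => p l) (fun l _ => n l)).P K e₀ J F A u →
      (qJet m ((range r).image c) (c r) 0 w pr P₁).P K e₀ J F A u₁ →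
      (qJet m ((range r).image c) (c r) 0 w pr P₂).P K e₀ J F A u₂ →
      ∀ B : F.Ω → Prop, Sub B A → π₀ * Pe F.p A ≤ Pe F.p B →
      CH (Pool.Agent.H49.Ent.cond F.p B True) u₂ (fun ω => (u₁ ω, (u ω, (z ω, F.W ω)))) ≤
        ((1 - h) * (P₂ - P₁) * Real.log 2 + δ + 40 * ((r : ℝ) + 1) ^ 2 * φ + ε) * J)

end Pool.V0F
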