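import Pool.Agent.H44.V0F.Evd
import Pool.Agent.H44.V0F.Num2
import Pool.Agent.H50.V0F.Rwe
import Pool.Agent.H62.V0C.Cfb

/-!
# The codes and the rows, class level

`k9_fam`: the codes of order `≥ 2` of the chain. `dj_fam`, `jt_fam`: the codes of the target.
`row_fam`: the rows on parts of the event, all over the canonical records.
-/

set_option autoImplicit false

namespace Pool.V0F

open Finset Real MvPolynomial
open Pool.Agent.H49.Ent Pool.Agent.H32.Dense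
open Pool.STK hiding pr2
open Pool.KA Pool.KSAT Pool.K2S Pool.PB Pool.S6C
open Pool.GEN Pool.CHT Pool.CHX Pool.ISO Pool.LA91 Pool.AVG71 Pool.AVG5 Pool.D2F2 Pool.AVG57
open Pool.RCD Pool.AVG96 Pool.OWN68
open Pool.PB.Trl (rt rt_mem t_rt)
open Pool.GRD (LbP)
open Pool.AJW (CfB)
open Pool.KAF (rs Pr)

/-- A positive number below finitely many. -/
theorem min_fam (n : ℕ) (f : ℕ → ℝ) (hf : ∀ i, 0 < f i) : ∃ m : ℝ, 0 < m ∧ ∀ i < n, m ≤ f i := by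
  induction n with
  | zero => exact ⟨1, one_pos, fun i hi => absurd hi (Nat.not_lt_zero i)⟩
  | succ n ih =>
    obtain ⟨m, hm, h⟩ := ih
    refine ⟨min m (f n), lt_min hm (hf n), fun i hi => ?_⟩
    rcases Nat.lt_or_ge i n with h1 | h1
    · exact (min_le_left _ _).trans (h i h1)
    · obtain rfl : i = n := by omega
      exact min_le_right _ _

variable {m : ℕ}

/-- **The codes of order `≥ 2`** of the chain. -/
theorem k9_fam {S : PCl m} {C₀ : ℝ} (htm : TmC S C₀)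
    (hpos : ∀ (τ : ℝ) (J : ℕ) (F : Fam m J) (A : F.Ω → Prop), S.St τ J F A → 0 < Pe F.p A)
    (c : ℕ → Fin m) (r D : ℕ) (sn : ℕ → ℝ → ℝ) {b w φ u E ε : ℝ} (hb0 : 0 ≤ b) (hbw : b ≤ w)
    (hw1 : w < 1) (hN : ∀ l < r, sn l w + 3 * u ≤ (sn l b - φ) + 2 * (w - b)) (hε : 0 < ε) :
    Bas S (fun J F A => ∀ Hb Hw H : LnT F → ℕ → MvPolynomial (Option (Fin m)) ℝ,
      LD F c r D b w φ E sn A Hb Hw H → ∀ W : ℕ, ⌊w * J⌋₊ ≤ W → W ≤ J → ∀ l < r, ∀ N : ℕ,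
      (N : ℝ) ≤ (sn l w + 3 * u) * J →
      CH (Pool.Agent.H49.Ent.cond F.p A True) (Pool.AVG71.cod F W 2 (D + 1) (2 ^ N) (c l)
        (fun s => upw ⌊w * J⌋₊ W s) (fun s => H s l)) F.W ≤ ε * J) := by
  have hall : ∀ l < r, Bas S (fun J F A =>
      ∀ Hb Hw H : LnT F → ℕ → MvPolynomial (Option (Fin m)) ℝ,
      LD F c r D b w φ E sn A Hb Hw H → ∀ W : ℕ, ⌊w * J⌋₊ ≤ W → W ≤ J → ∀ N : ℕ,
      (N : ℝ) ≤ (sn l w + 3 * u) * J →
      CH (Pool.Agent.H49.Ent.cond F.p A True) (Pool.AVG71.cod F W 2 (D + 1) (2 ^ N) (c l)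
        (fun s => upw ⌊w * J⌋₊ W s) (fun s => H s l)) F.W ≤ ε * J) := by
    intro l hl
    obtain ⟨e₀, he₀, H0⟩ := Pool.V0C62.k9_stmt htm hpos D ((range l).image c) (c l) (E := E) hb0
      hbw hw1 (hN l hl) hε
    refine Bas.mono 0 H0 ?_
    rintro J - F A H1 Hb Hw H L W hwW hWJ N hN
    obtain ⟨V, z, z', G, h1, h2⟩ := L.lb l hl
    have hJ : (0 : ℝ) ≤ J := Nat.cast_nonneg J
    have h3 : LbP F ((range l).image c) (c l) D J ⌊b * J⌋₊ ⌊(sn l b - φ - e₀) * J⌋₊ A z z' G :=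
      h1.mono (Finset.Subset.refl _) le_rfl (Nat.floor_le_floor
        (mul_le_mul_of_nonneg_right (by linarith) hJ))
    have h4 := H1 V z z' G h3 (cfb_of (L.cb l hl) h2) W (2 ^ N) hwW hWJ (by positivity) (by
      rw [← Real.rpow_natCast]
      exact Real.rpow_le_rpow_of_exponent_le one_le_two hN)
    have hbw' : ⌊b * (J : ℝ)⌋₊ ≤ ⌊w * J⌋₊ :=
      Nat.floor_le_floor (mul_le_mul_of_nonneg_right hbw hJ)
    have e1 := cod_congr (F := F) (W := W) (j₀ := 2) (D := D + 1) (σ := 2 ^ N) (κ := c l)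
      (z := fun s => upw ⌊w * J⌋₊ W s) (z' := fun s => z' (upw ⌊b * J⌋₊ W s))
      (G := fun s => H s l) (G' := G) (fun ω => by
        show H (upw ⌊w * J⌋₊ W (slam F W ω)) l = G (z' (upw ⌊b * J⌋₊ W (slam F W ω)))
        rw [upw_slam F hwW hWJ, upw_slam F (hbw'.trans hwW) hWJ, L.hb ω l hl, h2])
    rw [e1]
    exact h4
  refine Bas.mono 0 (Bas.all r hall) ?_
  rintro J - F A H1 Hb Hw H L W hwW hWJ l hl N hN
  exact H1 l hl Hb Hw H L W hwW hWJ N hN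

/-- Functions closed at a window before `w₁` are determined by the canonical record. -/
theorem det_cR {J : ℕ} {F : Fam m J} {A : F.Ω → Prop} {w : ℝ} {V : Type} {z : F.Ω → V}
    (hz : Cl2 (ptr F J) (vg w J F) A z) {p : F.Ω → ℝ} (hp : ∀ ω, 0 < p ω → A ω) :
    Det p (cR F A w) z := by
  intro ω ν hω hν e
  have h1 := congrFun e ⟨fun ν' => z ν' = z ω, hz.comp fun v => v = z ω⟩
  have h2 : (z ω = z ω) = (z ν = z ω) := h1
  exact (h2.mp rfl).symm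

/-- **The codes of order `≥ 1`** of the target. -/
theorem dj_fam (D : ℕ) {h : ℝ} (hh : 0 < h) (hh1 : h ≤ 1) {ε : ℝ} (hε : 0 < ε) (r : ℕ) :
    ∃ δ : ℝ, 0 < δ ∧ ∀ {m : ℕ} {S : PCl m} {c : ℕ → Fin m} {sn : ℕ → ℝ → ℝ} {Gs : Set ℝ}
      {b o φ : ℝ}, Lad S c r sn Gs b o φ → (range r).image c = univ.erase (c r) →
      ∀ {K : ℕ} {s w u y ξ T Λ : ℝ} {lam : ℝ → ℝ} {j x x' xr v₀ w₁ vq oq : ℝ},
      NS r K s sn Gs b o φ w u y ξ T Λ lam j x x' xr v₀ w₁ vq oq → D ≤ K →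
      60 * ((r : ℝ) + 2) * φ ≤ δ * u →
      (∀ P₁ P₂ : ℝ, |P₁ - sn r w| ≤ Λ * u → |P₂ - sn r w| ≤ Λ * u → P₁ ≤ P₂ →
        RawN S (univ.erase (c r)) (c r) P₁ (P₂ - P₁) h φ) →
      (∃ (E rd : ℕ → ℝ) (ρ : ℝ), ρ < 1 ∧
        (∀ l ≤ r, 0 ≤ E l ∧ sn l v₀ + E l + Λ * u ≤ 1 ∧ 0 ≤ rd l ∧ rd l ≤ ρ) ∧ ∀ e : ℝ, 0 < e →
        Bas S (fun J F A => ∃ (V : Type) (z : PtT F → V) (z' : LnT F → V)
          (g : V → ℕ → MvPolynomial (Option (Fin m)) ℝ),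
          LbE F c (r + 1) D E e v₀ rd (fun l => sn l v₀) A z z' g)) →
      ∀ E Pv : ℕ → ℝ, ∀ Ec : ℝ, (∀ l < r, nfF r sn w x' φ l - w ≤ Pv l) →
      Bas S (fun J F A => ∀ Hb Hw H : LnT F → ℕ → MvPolynomial (Option (Fin m)) ℝ,
        LD F c r D b w φ Ec sn A Hb Hw H → ∀ N : ℕ,
        (N : ℝ) ≤ (sn r w + (1 + ξ) * u + 500 * y) * J →
        ∀ Nf : ℕ → ℕ → ℝ, (∀ l < r, Nf l 0 = nfF r sn w x' φ l) → (∀ l < r, Nf l 1 = Pv l) →
        CH (Pool.Agent.H49.Ent.cond F.p A True)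
          (Pool.AVG57.cod F ⌊w * J⌋₊ (fun s => H s r) (c r) N 1 (D + 1))
          (fun ω => (jet2 F c ⌊w * J⌋₊ H 0 r Nf ω, (cR F A w₁ ω, F.W ω))) ≤
          ε * (sn r w - sn r v₀) * J + r * Real.log 5) := by
  obtain ⟨δ, hδ, H0⟩ := dj_p D hh hh1 hε r
  refine ⟨min δ 1, lt_min hδ one_pos, ?_⟩
  intro m S c sn Gs b o φ L hI K s w u y ξ T Λ lam j x x' xr v₀ w₁ vq oq Nn hDK hφ hraw hlb E Pv Ec
    hPv
  obtain ⟨b1, b2, b3, b4, b5, b6, b7, b8, b9, b10, b11, b12, b13, b14, b15, b16, b17⟩ := Nn.wb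
  obtain ⟨n1, n2, n3, n4, n5, n6, n7, n8, n9, n10, n11, n12, n13, n14⟩ := Nn.dj_c
  obtain ⟨Ee, rd, ρ, hρ, hEe, hL⟩ := hlb
  obtain ⟨e1, e2, e3⟩ := Nn.dj_e (fun l hl => (hEe l hl).2.1)
  have hu := Nn.u0
  have hr0 : (0 : ℝ) ≤ r := Nat.cast_nonneg r
  have hφ0 := Nn.φ0
  have hDK' : (D : ℝ) ≤ K := by exact_mod_cast hDK
  have hDw : ((D : ℝ) + 2 * r + 8) * (w - v₀) ≤ ((K : ℝ) + 2 * r + 8) * (w - v₀) :=
    mul_le_mul_of_nonneg_right (by linarith) (by linarith)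
  have hδu : min δ 1 * u ≤ δ * u := mul_le_mul_of_nonneg_right (min_le_left _ _) hu.le
  have hδu1 : min δ 1 * u ≤ 1 * u := mul_le_mul_of_nonneg_right (min_le_right _ _) hu.le
  have hδw : δ * u ≤ δ * (w - v₀) := mul_le_mul_of_nonneg_left n11 hδ.le
  have hδs : δ * u ≤ δ * (sn r w - sn r v₀) := mul_le_mul_of_nonneg_left n12 hδ.le
  have hφδ : φ ≤ δ * u := by
    have : 1 * φ ≤ 60 * ((r : ℝ) + 2) * φ := mul_le_mul_of_nonneg_right (by linarith) hφ0.le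
    linarith
  obtain ⟨g₀, hg₀, hg1, hg2⟩ : ∃ g₀ : ℝ, 0 < g₀ ∧ g₀ ≤ u ∧ g₀ ≤ 1 - ρ :=
    ⟨min u (1 - ρ), lt_min hu (by linarith), min_le_left _ _, min_le_right _ _⟩
  have hru : (range r).image c = univ.erase (c r) := hI
  obtain ⟨e₀, he₀, H1⟩ := H0 L (f := fun J F => ptr F J) (y := fun _ F => F.W)
    (fun J F => ⟨fun x => x, fun _ => rfl⟩) kn_W (v := v₀) (w := w) (ow := w₁)
    (N := sn r w + (1 + ξ) * u + 500 * y) (g₀ := g₀) (p := fun l => sn l b - φ)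
    (n := nfF r sn w x' φ) (E := Ee) (rd := rd) Nn.vG Nn.wG n1 n2 n3 Nn.hw1 n4 hg₀ n5
    (by linarith) (fun i hi => ⟨(hEe i hi).1, e3 i hi⟩) (fun i hi => ⟨(hEe i hi).2.2.1, by
      have := (hEe i hi).2.2.2
      linarith⟩) (fun i hi => by
      have := e2 i hi
      linarith) (fun i _ => le_rfl) n6 (fun i hi => by
      have := n7 i hi
      linarith) (by linarith) n9 (by linarith) (fun q' h1 h2 => by
      have h3 := hraw (sn r v₀) (sn r v₀ + q') n13 (by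
        have := abs_le.1 n13
        rw [abs_le]
        have hΛu : 0 ≤ Λ * u := (abs_nonneg _).trans n13
        constructor <;> linarith [this.1]) (by linarith)
      rw [hru]
      rw [add_sub_cancel_left] at h3
      exact h3.mono (by linarith)) hL n10
  obtain ⟨M, J₁, hM⟩ := ld_j2 m D r (fun l j' => nfF r sn w x' φ l - (j' : ℝ) * w) (b := b)
    (E := Ec) (by linarith [Nn.k9_c.1]) (by linarith [Nn.k9_c.2.1, Nn.k9_c.2.2.1])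
  have H2 := H1 e₀ he₀ le_rfl M D (sn r w - φ) Ec le_rfl (by
    have := Nn.yu
    have := Nn.y0
    have := Nn.sm.2.2.2.1
    linarith [Nn.sm.1, Nn.sm.2.1, Nn.sm.2.2.1, Nn.sm.2.2.2.2.1])
  refine Bas.mono J₁ (H2.and (pos_bas L.pos)) ?_
  rintro J hJ F A ⟨H3, hA⟩ Hb Hw H LDh N hN Nf hNf0 hNf1
  have hcl := isLaw_cond F.isLaw hA
  have h0 := hcl.nonneg
  have hJ0 : (0 : ℝ) ≤ J := Nat.cast_nonneg J
  have hw1 : w ≤ 1 := by linarith [Nn.k9_c.2.2.1]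
  have hfw : ⌊w * (J : ℝ)⌋₊ ≤ J := floor_le hw1 J
  have q1 := hM M le_rfl J hJ LDh e₀ he₀.le
  obtain ⟨V, z, z', G, l1, l2⟩ := LDh.lt
  have l3 : LbP F ((range r).image c) (c r) D J ⌊w * J⌋₊ ⌊(sn r w - φ - e₀) * J⌋₊ A z z' G :=
    l1.mono (Finset.Subset.refl _) le_rfl (Nat.floor_le_floor
      (mul_le_mul_of_nonneg_right (by linarith) hJ0))
  obtain ⟨V₁, z₁, hz₁, H4⟩ := H3 _ q1 V z z' G l3 (cfb_of LDh.cw l2)
  have H5 := H4 (2 ^ N) (by positivity) (by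
    rw [← Real.rpow_natCast]
    exact Real.rpow_le_rpow_of_exponent_le one_le_two hN)
  have ec : Pool.AVG57.cod F ⌊w * J⌋₊ (fun s => H s r) (c r) N 1 (D + 1) =
      Pool.AVG71.cod F ⌊w * J⌋₊ 1 (D + 1) (2 ^ N) (c r) z' G := by
    have e4 := cod_congr (F := F) (W := ⌊w * J⌋₊) (j₀ := 1) (D := D + 1) (σ := 2 ^ N) (κ := c r)
      (z := fun s : LnT F => s) (z' := z') (G := fun s => H s r) (G' := G) (fun ω => by
        show H (slam F ⌊w * J⌋₊ ω) r = G (z' (slam F ⌊w * J⌋₊ ω))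
        rw [LDh.hw ω, l2])
    exact e4
  rw [ec]
  have hd : Det (Pool.Agent.H49.Ent.cond F.p A True) (cR F A w₁) z₁ :=
    det_cR hz₁ fun ω hω => of_cond_pos hω
  have s1 := CH_le_add h0 (Pool.AVG71.cod F ⌊w * J⌋₊ 1 (D + 1) (2 ^ N) (c r) z' G)
    (jet2 F c ⌊w * J⌋₊ H 0 r fun l j' => nfF r sn w x' φ l - (j' : ℝ) * w)
    (fun ω => (jet2 F c ⌊w * J⌋₊ H 0 r Nf ω, (cR F A w₁ ω, F.W ω)))
  have s2 := CH_j2 hcl (F := F) (c := c) (r := r) (w := ⌊w * J⌋₊) (H := H) (N := Nf)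
    (N' := fun l j' => nfF r sn w x' φ l - (j' : ℝ) * w) (fun l hl => by
      show nfF r sn w x' φ l - ((0 : ℕ) : ℝ) * w = Nf l 0
      rw [hNf0 l hl]
      push_cast
      ring) (fun l hl => by
      show nfF r sn w x' φ l - ((1 : ℕ) : ℝ) * w ≤ Nf l 1
      rw [hNf1 l hl]
      push_cast
      have := hPv l hl
      linarith) (fun ω => (jet2 F c ⌊w * J⌋₊ H 0 r Nf ω, (cR F A w₁ ω, F.W ω)))
    (fun ω ν _ _ e => (Prod.ext_iff.mp e).1)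
  have s3 : CH (Pool.Agent.H49.Ent.cond F.p A True)
      (Pool.AVG71.cod F ⌊w * J⌋₊ 1 (D + 1) (2 ^ N) (c r) z' G)
      (fun ω => (jet2 F c ⌊w * J⌋₊ H 0 r (fun l j' => nfF r sn w x' φ l - (j' : ℝ) * w) ω,
        (jet2 F c ⌊w * J⌋₊ H 0 r Nf ω, (cR F A w₁ ω, F.W ω)))) ≤
      CH (Pool.Agent.H49.Ent.cond F.p A True)
      (Pool.AVG71.cod F ⌊w * J⌋₊ 1 (D + 1) (2 ^ N) (c r) z' G)
      (fun ω => (jet2 F c ⌊w * J⌋₊ H 0 r (fun l j' => nfF r sn w x' φ l - (j' : ℝ) * w) ω,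
        (z₁ ω, F.W ω))) := CH_mono_cond h0 fun ω ν hω hν e => by
    simp only [Prod.mk.injEq] at e ⊢
    exact ⟨e.1, hd ω ν hω hν e.2.2.1, e.2.2.2⟩
  linarith

/-- **All codes** of the target. -/
theorem jt_fam (D : ℕ) {h : ℝ} (hh : 0 < h) (hh1 : h ≤ 1) {ε : ℝ} (hε : 0 < ε) (r : ℕ) :
    ∃ δ : ℝ, 0 < δ ∧ ∀ {m : ℕ} {S : PCl m} {c : ℕ → Fin m} {sn : ℕ → ℝ → ℝ} {Gs : Set ℝ}
      {b o φ : ℝ}, Lad S c r sn Gs b o φ → (range r).image c = univ.erase (c r) →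
      ∀ {K : ℕ} {s w u y ξ T Λ : ℝ} {lam : ℝ → ℝ} {j x x' xr v₀ w₁ vq oq : ℝ},
      NS r K s sn Gs b o φ w u y ξ T Λ lam j x x' xr v₀ w₁ vq oq →
      60 * ((r : ℝ) + 2) ^ 2 * φ ≤ δ * u →
      (∀ P₁ P₂ : ℝ, |P₁ - sn r w| ≤ Λ * u → |P₂ - sn r w| ≤ Λ * u → P₁ ≤ P₂ →
        RawN S (univ.erase (c r)) (c r) P₁ (P₂ - P₁) h φ) →
      (∃ (E rd : ℕ → ℝ) (ρ : ℝ), ρ < 1 ∧
        (∀ l ≤ r, 0 ≤ E l ∧ sn l w + E l + Λ * u ≤ 1 ∧ 0 ≤ rd l ∧ rd l ≤ ρ) ∧ ∀ e : ℝ, 0 < e →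
        Bas S (fun J F A => ∃ (V : Type) (z : PtT F → V) (z' : LnT F → V)
          (g : V → ℕ → MvPolynomial (Option (Fin m)) ℝ),
          LbE F c (r + 1) D E e w rd (fun l => sn l w) A z z' g)) →
      ∀ Ec : ℝ,
      Bas S (fun J F A => ∀ Hb Hw H : LnT F → ℕ → MvPolynomial (Option (Fin m)) ℝ,
        LD F c r D b w φ Ec sn A Hb Hw H → ∀ N : ℕ,
        (N : ℝ) - (sn r w + u) * J ≤ 500 * y * J →
        CH (Pool.Agent.H49.Ent.cond F.p A True)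
          (Pool.AVG57.cod F ⌊w * J⌋₊ (fun s => H s r) (c r) N 0 (D + 1))
          (fun ω => (jet2 F c ⌊w * J⌋₊ H 0 r (fun l j' => nuF r sn w x y φ l - (j' : ℝ) * w) ω,
            (cR F A x ω, F.W ω))) ≤
          ε * u * J + ((D : ℝ) + 2) * (500 * y * J * Real.log 2 + Real.log 5)) := by
  obtain ⟨δ, hδ, H0⟩ := jt_p D hh hh1 hε r
  refine ⟨min δ 1, lt_min hδ one_pos, ?_⟩
  intro m S c sn Gs b o φ L hI K s w u y ξ T Λ lam j x x' xr v₀ w₁ vq oq Nn hφ hraw hlb Ec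
  obtain ⟨n1, n2, n3, n4, n5, n6, n7, n8, n9, n10, n11⟩ := Nn.jt_c
  obtain ⟨Ee, rd, ρ, hρ, hEe, hL⟩ := hlb
  obtain ⟨e1, e2, e3⟩ := Nn.jt_e (fun l hl => (hEe l hl).2.1)
  have hu := Nn.u0
  have hr0 : (0 : ℝ) ≤ r := Nat.cast_nonneg r
  have hφ0 := Nn.φ0
  have hy0 := Nn.y0
  have hδu : min δ 1 * u ≤ δ * u := mul_le_mul_of_nonneg_right (min_le_left _ _) hu.le
  have hφδ : φ ≤ δ * u := by
    have h2 : (1 : ℝ) ≤ 60 * ((r : ℝ) + 2) ^ 2 := by nlinarith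
    have : 1 * φ ≤ 60 * ((r : ℝ) + 2) ^ 2 * φ := mul_le_mul_of_nonneg_right h2 hφ0.le
    linarith
  obtain ⟨g₀, hg₀, hg1, hg2⟩ : ∃ g₀ : ℝ, 0 < g₀ ∧ g₀ ≤ u ∧ g₀ ≤ 1 - ρ :=
    ⟨min u (1 - ρ), lt_min hu (by linarith), min_le_left _ _, min_le_right _ _⟩
  have hroom : u ≤ Λ * u := by
    have := Nn.room
    have := Nn.Tu0
    have := Nn.ru0
    linarith
  obtain ⟨e₀, he₀, H1⟩ := H0 L (f := fun J F => ptr F J) (y := fun _ F => F.W)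
    (fun J F => ⟨fun x => x, fun _ => rfl⟩) kn_W (w := w) (x := x) (ox := x) (q := u)
    (g₀ := g₀) (p := fun l => sn l b - φ) (n := nuF r sn w x y φ) (E := Ee) (rd := rd) Nn.wG
    Nn.xG n1 n2 n3 le_rfl n4 hu hg₀ n5 (by linarith) n6
    (fun i hi => ⟨(hEe i hi).1, e3 i hi⟩) (fun i hi => ⟨(hEe i hi).2.2.1, by
      have := (hEe i hi).2.2.2
      linarith⟩) (fun i hi => by
      have := e2 i hi
      linarith) (fun i _ => le_rfl) n7 n8 n9 n10 n11 (by linarith) (fun q' h1 h2 => by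
      have h3 := hraw (sn r w) (sn r w + q') (by
        rw [sub_self, abs_zero]
        linarith) (by
        rw [add_sub_cancel_left, abs_of_nonneg h1]
        linarith) (by linarith)
      rw [hI]
      rw [add_sub_cancel_left] at h3
      exact h3.mono (by linarith)) hL
  obtain ⟨M, J₁, hM⟩ := ld_j2 m D r (fun l j' => nuF r sn w x y φ l - (j' : ℝ) * w) (b := b)
    (E := Ec) (by linarith [Nn.k9_c.1]) (by linarith [Nn.k9_c.2.1, Nn.k9_c.2.2.1])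
  have H2 := H1 e₀ he₀ le_rfl M D (sn r w - φ) Ec le_rfl
  refine Bas.mono J₁ (H2.and (pos_bas L.pos)) ?_
  rintro J hJ F A ⟨H3, hA⟩ Hb Hw H LDh N hN
  have hcl := isLaw_cond F.isLaw hA
  have h0 := hcl.nonneg
  have hJ0 : (0 : ℝ) ≤ J := Nat.cast_nonneg J
  have q1 := hM M le_rfl J hJ LDh e₀ he₀.le
  obtain ⟨V, z, z', G, l1, l2⟩ := LDh.lt
  have l3 : LbP F ((range r).image c) (c r) D J ⌊w * J⌋₊ ⌊(sn r w - φ - e₀) * J⌋₊ A z z' G :=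
    l1.mono (Finset.Subset.refl _) le_rfl (Nat.floor_le_floor
      (mul_le_mul_of_nonneg_right (by linarith) hJ0))
  obtain ⟨V₁, z₁, hz₁, H4⟩ := H3 _ q1 V z z' G l3 (cfb_of LDh.cw l2)
  have H5 := H4 (2 ^ ((sn r w + u) * (J : ℝ))) (Real.rpow_pos_of_pos two_pos _) le_rfl
  have ec : Pool.AVG57.cod F ⌊w * J⌋₊ (fun s => H s r) (c r) N 0 (D + 1) =
      Pool.AVG71.cod F ⌊w * J⌋₊ 0 (D + 1) (2 ^ (N : ℝ)) (c r) z' G := by
    have e4 := cod_congr (F := F) (W := ⌊w * J⌋₊) (j₀ := 0) (D := D + 1) (σ := 2 ^ N) (κ := c r)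
      (z := fun s : LnT F => s) (z' := z') (G := fun s => H s r) (G' := G) (fun ω => by
        show H (slam F ⌊w * J⌋₊ ω) r = G (z' (slam F ⌊w * J⌋₊ ω))
        rw [LDh.hw ω, l2])
    rw [Real.rpow_natCast]
    exact e4
  rw [ec]
  have hd : Det (Pool.Agent.H49.Ent.cond F.p A True) (cR F A x) z₁ :=
    det_cR hz₁ fun ω hω => of_cond_pos hω
  have s1 := cod_more hcl (F := F) (W := ⌊w * J⌋₊) (j₀ := 0) (D := D + 1)
    (a := (sn r w + u) * (J : ℝ)) (b := (N : ℝ)) (d := 500 * y * J) hN (by positivity)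
    (κ := c r) z' G
    (fun ω => (jet2 F c ⌊w * J⌋₊ H 0 r (fun l j' => nuF r sn w x y φ l - (j' : ℝ) * w) ω,
      (cR F A x ω, F.W ω)))
  have s3 : CH (Pool.Agent.H49.Ent.cond F.p A True)
      (Pool.AVG71.cod F ⌊w * J⌋₊ 0 (D + 1) (2 ^ ((sn r w + u) * (J : ℝ))) (c r) z' G)
      (fun ω => (jet2 F c ⌊w * J⌋₊ H 0 r (fun l j' => nuF r sn w x y φ l - (j' : ℝ) * w) ω,
        (cR F A x ω, F.W ω))) ≤
      CH (Pool.Agent.H49.Ent.cond F.p A True)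
      (Pool.AVG71.cod F ⌊w * J⌋₊ 0 (D + 1) (2 ^ ((sn r w + u) * (J : ℝ))) (c r) z' G)
      (fun ω => (jet2 F c ⌊w * J⌋₊ H 0 r (fun l j' => nuF r sn w x y φ l - (j' : ℝ) * w) ω,
        (z₁ ω, F.W ω))) := CH_mono_cond h0 fun ω ν hω hν e => by
    simp only [Prod.mk.injEq] at e ⊢
    exact ⟨e.1, hd ω ν hω hν e.2.1, e.2.2⟩
  push_cast at s1
  linarith

/-- **The rows** on parts of the event. -/
theorem row_fam {S : PCl m} {c : ℕ → Fin m} {r D : ℕ} {sn : ℕ → ℝ → ℝ} {Gs : Set ℝ}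
    {b o φ : ℝ} (L : Lad S c r sn Gs b o φ) (hI : (range r).image c = univ.erase (c r)) {K : ℕ}
    {s w u y ξ T Λ : ℝ} {lam : ℝ → ℝ} {j x x' xr v₀ w₁ vq oq : ℝ}
    (Nn : NS r K s sn Gs b o φ w u y ξ T Λ lam j x x' xr v₀ w₁ vq oq) {h : ℝ}
    (hraw : ∀ P₁ P₂ : ℝ, |P₁ - sn r w| ≤ Λ * u → |P₂ - sn r w| ≤ Λ * u → P₁ ≤ P₂ →
      RawN S (univ.erase (c r)) (c r) P₁ (P₂ - P₁) h φ)
    (hatt : ∃ rk E : ℝ, rk < 1 ∧ 0 ≤ E ∧ AttG S ((range r).image c) (c r) w (sn r w) rk E ∧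
      sn r w + E + Λ * u ≤ 1) (hη : ∃ η : ℝ, RNum S (fun J F => ptr F J) (vg w₁) η)
    {κ π₀ ε : ℝ} (hκ : 0 < κ) (hπ : 0 < π₀) (hε : 0 < ε) (Ec : ℝ) :
    Bas S (fun J F A => ∀ Hb Hw H : LnT F → ℕ → MvPolynomial (Option (Fin m)) ℝ,
      LD F c r D b w φ Ec sn A Hb Hw H → ∀ a : ℕ, ((a : ℝ) + 1) * κ ≤ 1 →
      ∀ B : F.Ω → Prop, Sub B A → π₀ * Pe F.p A ≤ Pe F.p B →
      CH (Pool.Agent.H49.Ent.cond F.p B True)
        (th0 F c r ⌊w * J⌋₊ H (sn r w + u + 500 * y + (a + 1) * κ * ξ * u))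
        (fun ω => (th0 F c r ⌊w * J⌋₊ H (sn r w + u + 500 * y + a * κ * ξ * u - 2 * φ) ω,
          (jh F c r ⌊w * J⌋₊ H (nbF sn w xr φ) ω, (cR F A w₁ ω, F.W ω)))) ≤
        ((1 - h) * (κ * ξ * u + 2 * φ) * Real.log 2 + φ + 40 * ((r : ℝ) + 1) ^ 2 * φ + ε) *
          J) := by
  obtain ⟨rk, Ee, hrk, hEe, hat, hEs⟩ := hatt
  obtain ⟨η, hη⟩ := hη
  obtain ⟨n₀, hn₀⟩ := exists_nat_gt (1 / κ)
  obtain ⟨b1, b2, b3, b4, b5, b6, b7, b8, b9, b10, b11, b12, b13, b14, b15, b16, b17⟩ := Nn.wb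
  obtain ⟨c1, c2, c3, c4, c5, c6, c7⟩ := Nn.row_c
  have hu := Nn.u0
  have hφ0 := Nn.φ0
  have hy0 := Nn.y0
  have hyu := Nn.yu
  have hξ := Nn.ξu
  obtain ⟨k1, k2, k3, -⟩ := Nn.k9_c
  have hΛ : u ≤ Λ * u ∧ 40 * u ≤ Λ * u := by
    have := Nn.room
    have := Nn.Tu0
    have := Nn.ru0
    constructor <;> linarith
  have hw₁1 : w₁ ≤ 1 := Nn.dj_c.2.2.2.1
  -- one row
  have hone : ∀ a < n₀, Bas S (fun J F A =>
      ∀ Hb Hw H : LnT F → ℕ → MvPolynomial (Option (Fin m)) ℝ,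
      LD F c r D b w φ Ec sn A Hb Hw H → ((a : ℝ) + 1) * κ ≤ 1 →
      ∀ B : F.Ω → Prop, Sub B A → π₀ * Pe F.p A ≤ Pe F.p B →
      CH (Pool.Agent.H49.Ent.cond F.p B True)
        (th0 F c r ⌊w * J⌋₊ H (sn r w + u + 500 * y + (a + 1) * κ * ξ * u))
        (fun ω => (th0 F c r ⌊w * J⌋₊ H (sn r w + u + 500 * y + a * κ * ξ * u - 2 * φ) ω,
          (jh F c r ⌊w * J⌋₊ H (nbF sn w xr φ) ω, (cR F A w₁ ω, F.W ω)))) ≤
        ((1 - h) * (κ * ξ * u + 2 * φ) * Real.log 2 + φ + 40 * ((r : ℝ) + 1) ^ 2 * φ + ε) *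
          J) := by
    intro a _
    by_cases ha : ((a : ℝ) + 1) * κ ≤ 1
    swap
    · exact Bas.mono 0 (pos_bas L.pos) fun J _ F A _ Hb Hw H _ h => absurd h ha
    obtain ⟨P₁, hP₁⟩ : ∃ P₁ : ℝ, P₁ = sn r w + u + 500 * y + a * κ * ξ * u - 2 * φ := ⟨_, rfl⟩
    obtain ⟨P₂, hP₂⟩ : ∃ P₂ : ℝ, P₂ = sn r w + u + 500 * y + (a + 1) * κ * ξ * u := ⟨_, rfl⟩
    have ha0 : (0 : ℝ) ≤ a := Nat.cast_nonneg a
    have t0 : 0 ≤ (a : ℝ) * κ * ξ * u := by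
      have := mul_nonneg (mul_nonneg ha0 hκ.le) hξ.1
      linarith
    have t1 : ((a : ℝ) + 1) * κ * (ξ * u) ≤ 1 * (ξ * u) :=
      mul_le_mul_of_nonneg_right ha hξ.1
    have t2 : 0 ≤ κ * (ξ * u) := mul_nonneg hκ.le hξ.1
    have t3 : ((a : ℝ) + 1) * κ * ξ * u = a * κ * ξ * u + κ * (ξ * u) := by ring
    have d1 := c7 (sn r w + u + 500 * y + a * κ * ξ * u) (by linarith) (by linarith)
    have d2 := c7 P₂ (by rw [hP₂]; linarith) (by rw [hP₂]; linarith)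
    have hd : P₂ - P₁ = κ * ξ * u + 2 * φ := by
      rw [hP₂, hP₁]
      ring
    have hraw' := hraw P₁ P₂ (by
      rw [hP₁]
      have := d1.2.2.2.2.2
      exact this) d2.2.2.2.2.1 (by
      have : 0 ≤ κ * ξ * u + 2 * φ := by
        have : κ * ξ * u = κ * (ξ * u) := by ring
        linarith
      linarith)
    obtain ⟨k, hk, e₀, he₀, HR⟩ := rwe L hI (w := w) (w₁ := w₁) (x := x) (x' := xr)
      (p := fun l => sn l b - φ) (n := nbF sn w xr φ) (pr := sn r w - φ) (P₁ := P₁) (P₂ := P₂)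
      (h := h) (δ := φ) (rk := rk) (E := Ee) Nn.wG Nn.xG Nn.rG b1 c1 c2 c3 c4
      (fun i _ => le_rfl) le_rfl c5 c6 hrk hEe hat (by rw [hP₁]; exact d1.1) (by
        have : κ * ξ * u = κ * (ξ * u) := by ring
        linarith) (by
        have := abs_le.1 d2.2.2.2.2.1
        rw [hP₂]
        linarith [Nn.yu]) d2.2.2.1 d2.2.2.2.1 hraw' Nn.hw1 hw₁1 hη hπ hε
    obtain ⟨M₁, J₁, hM₁⟩ := ld_jh m D r (nbF sn w xr φ) (b := b) (E := Ec) k1 (by linarith)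
    obtain ⟨M₂, J₂, hM₂⟩ := ld_th m D r P₁ (w := w) (E := Ec) (by linarith) (by linarith)
    obtain ⟨M₃, J₃, hM₃⟩ := ld_th m D r P₂ (w := w) (E := Ec) (by linarith) (by linarith)
    obtain ⟨M, hM⟩ : ∃ M : ℕ, M = max M₁ (max M₂ M₃) := ⟨_, rfl⟩
    have m1 : M₁ ≤ M := by rw [hM]; exact le_max_left _ _
    have m2 : M₂ ≤ M := by rw [hM]; exact (le_max_left _ _).trans (le_max_right _ _)
    have m3 : M₃ ≤ M := by rw [hM]; exact (le_max_right _ _).trans (le_max_right _ _)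
    refine Bas.mono (max J₁ (max J₂ J₃)) ((HR M).and (hη.at' k hk)) ?_
    rintro J hJ F A ⟨H1, hq⟩ Hb Hw H LDh _ B hB hPB
    have j1 : J₁ ≤ J := (le_max_left _ _).trans hJ
    have j2 : J₂ ≤ J := ((le_max_left _ _).trans (le_max_right _ _)).trans hJ
    have j3 : J₃ ≤ J := ((le_max_right _ _).trans (le_max_right _ _)).trans hJ
    have hcR : Cl2 (ptr F J) (vg w₁ J F) A (cR F A w₁) := by
      refine ⟨?_, ?_⟩
      · choose φ hφ using fun D : {D : F.Ω → Prop // Cl2 (ptr F J) (vg w₁ J F) A D} => D.2.1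
        exact ⟨fun x D => φ D x, fun ω hω => funext fun D => hφ D ω hω⟩
      · choose φ hφ using fun D : {D : F.Ω → Prop // Cl2 (ptr F J) (vg w₁ J F) A D} => D.2.2
        exact ⟨fun x D => φ D x, fun ω hω => funext fun D => hφ D ω hω⟩
    have H2 := H1 _ (cR F A w₁) hcR (fun v => cR_cell hq v) (jh F c r ⌊w * J⌋₊ H (nbF sn w xr φ))
      (th0 F c r ⌊w * J⌋₊ H P₁) (th0 F c r ⌊w * J⌋₊ H P₂) (hM₁ M m1 J j1 LDh e₀ he₀.le)
      (hM₂ M m2 J j2 LDh e₀ he₀.le) (hM₃ M m3 J j3 LDh e₀ he₀.le) B hB hPB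
    rw [hd] at H2
    rw [← hP₁, ← hP₂]
    exact H2
  refine Bas.mono 0 (Bas.all n₀ hone) ?_
  rintro J - F A H1 Hb Hw H LDh a ha B hB hPB
  have han : a < n₀ := by
    have h1 : (a : ℝ) * κ ≤ 1 := by nlinarith
    have h2 : (a : ℝ) ≤ 1 / κ := by
      rw [le_div_iff₀ hκ]
      exact h1
    exact_mod_cast h2.trans_lt hn₀
  exact H1 a han Hb Hw H LDh ha B hB hPB

end Pool.V0F
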