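import Pool.Agent.H44.V0F.Win
import Pool.Agent.H23.D2.V0g

/-!
# The labels of one event

`LD`: the charts of the chain over the window `b` and the chart of the target over the window `w` are
closed labels with bounded own paths. `ld_jh`, `ld_jv`, `ld_j2`, `ld_th`: the digits are the
quantities of the class theorems. `ld_of`: the labels from `WinB`.
-/

set_option autoImplicit false

namespace Pool.V0F

open Finset Real MvPolynomial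
open Pool.Agent.H49.Ent Pool.Agent.H32.Dense
open Pool.STK hiding pr2
open Pool.KA Pool.KSAT Pool.K2S Pool.PB Pool.S6C
open Pool.GEN Pool.CHT Pool.CHX Pool.ISO Pool.LA91 Pool.AVG71 Pool.AVG5 Pool.D2F2 Pool.AVG57
open Pool.RCD Pool.AVG96
open Pool.PB.Trl (rt rt_mem t_rt)
open Pool.GRD (LbP)
open Pool.AJW (CfB)
open Pool.D2R (WinB hyb hybH hyb_cls)

/-- **The labels of one event.** -/
structure LD {m J : ℕ} (F : Fam m J) (c : ℕ → Fin m) (r D : ℕ) (b w φ E : ℝ) (sn : ℕ → ℝ → ℝ)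
    (A : F.Ω → Prop) (Hb Hw H : LnT F → ℕ → MvPolynomial (Option (Fin m)) ℝ) : Prop where
  lb : ∀ l < r, ∃ (V : Type) (z : PtT F → V) (z' : LnT F → V)
    (G : V → MvPolynomial (Option (Fin m)) ℝ),
    LbP F ((range l).image c) (c l) D J ⌊b * J⌋₊ ⌊(sn l b - φ) * J⌋₊ A z z' G ∧
      ∀ s, G (z' s) = Hb s l
  lt : ∃ (V : Type) (z : PtT F → V) (z' : LnT F → V) (G : V → MvPolynomial (Option (Fin m)) ℝ),
    LbP F ((range r).image c) (c r) D J ⌊w * J⌋₊ ⌊(sn r w - φ) * J⌋₊ A z z' G ∧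
      ∀ s, G (z' s) = Hw s r
  cb : ∀ l < r, CfB F ⌊b * J⌋₊ E (c l) A (fun s => s) (fun s => Hb s l)
  cw : CfB F ⌊w * J⌋₊ E (c r) A (fun s => s) (fun s => Hw s r)
  hb : ∀ ω, ∀ l < r, H (slam F ⌊w * J⌋₊ ω) l = Hb (slam F ⌊b * J⌋₊ ω) l
  hw : ∀ ω, H (slam F ⌊w * J⌋₊ ω) r = Hw (slam F ⌊w * J⌋₊ ω) r

/-- The coefficients of an own path. -/
theorem cfb_of {m J : ℕ} {F : Fam m J} {W : ℕ} {E : ℝ} {κ : Fin m} {A : F.Ω → Prop} {V : Type}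
    {z' : LnT F → V} {G : V → MvPolynomial (Option (Fin m)) ℝ}
    {H : LnT F → MvPolynomial (Option (Fin m)) ℝ} (h : CfB F W E κ A (fun s => s) H)
    (e : ∀ s, G (z' s) = H s) : CfB F W E κ A z' G := by
  intro ω hω a
  have e1 : (fun s (_ : Fin m) => G (z' s)) = fun s (_ : Fin m) => H s := by
    funext s _
    exact e s
  rw [e1]
  exact h ω hω a

/-- Finitely many own jets. -/
theorem qj_fam (m D j r : ℕ) (n : ℕ → ℝ) {w E : ℝ} (hw0 : 0 ≤ w) (hw1 : w ≤ 1) :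
    ∃ M J₁ : ℕ, ∀ K ≥ M, ∀ J ≥ J₁, ∀ l < r, ∀ (F : Fam m J) (I : Finset (Fin m)) (κ : Fin m)
      (A : F.Ω → Prop) (V : Type) (z : PtT F → V) (z' : LnT F → V)
      (G : V → MvPolynomial (Option (Fin m)) ℝ) (P : ℕ) (p e : ℝ),
      LbP F I κ D J ⌊w * J⌋₊ P A z z' G → CfB F ⌊w * J⌋₊ E κ A z' G →
      ⌊(p - e) * J⌋₊ ≤ P → (qJet m I κ j w p (n l)).P K e J F A
        (fun ω => ⌊(2 : ℝ) ^ (n l * J) * ojet F κ j (G (z' (slam F ⌊w * J⌋₊ ω))) ω⌋) := by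
  have h := fun l : ℕ => qj_win m D j (N := n l) (E := E) hw0 hw1
  choose M J₁ hM using h
  refine ⟨∑ l ∈ range r, M l, ∑ l ∈ range r, J₁ l, fun K hK J hJ l hl => ?_⟩
  have h1 : M l ≤ ∑ l ∈ range r, M l :=
    Finset.single_le_sum (f := M) (fun _ _ => Nat.zero_le _) (mem_range.2 hl)
  have h2 : J₁ l ≤ ∑ l ∈ range r, J₁ l :=
    Finset.single_le_sum (f := J₁) (fun _ _ => Nat.zero_le _) (mem_range.2 hl)
  exact hM l K (h1.trans hK) J (h2.trans hJ)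

section

variable {m : ℕ}

/-- **The positions** of the chain. -/
theorem ld_jh (m D r : ℕ) (n : ℕ → ℝ) {b E : ℝ} (hb0 : 0 ≤ b) (hb1 : b ≤ 1) :
    ∃ M J₁ : ℕ, ∀ K ≥ M, ∀ J ≥ J₁, ∀ {F : Fam m J} {c : ℕ → Fin m} {w φ : ℝ} {sn : ℕ → ℝ → ℝ}
      {A : F.Ω → Prop} {Hb Hw H : LnT F → ℕ → MvPolynomial (Option (Fin m)) ℝ},
      LD F c r D b w φ E sn A Hb Hw H → ∀ e : ℝ, 0 ≤ e →
      (qJets m c 0 r 0 (fun _ _ => b) (fun l _ => sn l b - φ) (fun l _ => n l)).P K e J F A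
        (jh F c r ⌊w * J⌋₊ H n) := by
  obtain ⟨M, J₁, hM⟩ := qj_fam m D 0 r n (E := E) hb0 hb1
  refine ⟨M, J₁, fun K hK J hJ F c w φ sn A Hb Hw H L e he => ⟨?_, ?_⟩⟩
  · intro i _ hi j' hj'
    obtain rfl : j' = 0 := by omega
    obtain ⟨V, z, z', G, h1, h2⟩ := L.lb i hi
    have h3 := hM K hK J hJ i hi F _ (c i) A V z z' G _ (sn i b - φ) e h1
      (cfb_of (L.cb i hi) h2) (Nat.floor_le_floor (mul_le_mul_of_nonneg_right (by linarith)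
        (Nat.cast_nonneg J)))
    have e1 : (fun ω => jh F c r ⌊w * J⌋₊ H n ω i 0) = fun ω =>
        ⌊(2 : ℝ) ^ (n i * J) * ojet F (c i) 0 (G (z' (slam F ⌊b * J⌋₊ ω))) ω⌋ := by
      funext ω
      unfold jh
      rw [if_pos ⟨hi, rfl⟩, L.hb ω i hi, h2]
    rw [e1]
    exact h3
  · intro ω _ i j' h
    unfold jh
    rw [if_neg (fun h' => h ⟨Nat.zero_le _, h'.1, by omega⟩)]

/-- **The velocities** of the chain. -/
theorem ld_jv (m D r : ℕ) (n : ℕ → ℝ) {b E : ℝ} (hb0 : 0 ≤ b) (hb1 : b ≤ 1) :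
    ∃ M J₁ : ℕ, ∀ K ≥ M, ∀ J ≥ J₁, ∀ {F : Fam m J} {c : ℕ → Fin m} {w φ : ℝ}
      {sn sp : ℕ → ℝ → ℝ} {A : F.Ω → Prop}
      {Hb Hw H : LnT F → ℕ → MvPolynomial (Option (Fin m)) ℝ},
      LD F c r D b w φ E sn A Hb Hw H → (∀ i < r, sp i b ≤ sn i b - φ) → ∀ e : ℝ, 0 ≤ e →
      (qG m c r sp b (fun l : Fin r => n l)).P K e J F A (jv F c r ⌊w * J⌋₊ H n) := by
  obtain ⟨M, J₁, hM⟩ := qj_fam m D 1 r n (E := E) hb0 hb1
  refine ⟨M, J₁, fun K hK J hJ F c w φ sn sp A Hb Hw H L hsp e he => fun i => ?_⟩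
  obtain ⟨V, z, z', G, h1, h2⟩ := L.lb i i.2
  have h3 := hM K hK J hJ i i.2 F _ (c i) A V z z' G _ (sp i b) e h1
    (cfb_of (L.cb i i.2) h2) (Nat.floor_le_floor (mul_le_mul_of_nonneg_right (by
      have := hsp i i.2
      linarith) (Nat.cast_nonneg J)))
  have e1 : (fun ω => jv F c r ⌊w * J⌋₊ H n ω i) = fun ω =>
      ⌊(2 : ℝ) ^ (n i * J) * ojet F (c i) 1 (G (z' (slam F ⌊b * J⌋₊ ω))) ω⌋ := by
    funext ω
    unfold jv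
    rw [L.hb ω i i.2, h2]
  rw [e1]
  exact h3

/-- **Positions and velocities** of the chain. -/
theorem ld_j2 (m D r : ℕ) (N : ℕ → ℕ → ℝ) {b E : ℝ} (hb0 : 0 ≤ b) (hb1 : b ≤ 1) :
    ∃ M J₁ : ℕ, ∀ K ≥ M, ∀ J ≥ J₁, ∀ {F : Fam m J} {c : ℕ → Fin m} {w φ : ℝ} {sn : ℕ → ℝ → ℝ}
      {A : F.Ω → Prop} {Hb Hw H : LnT F → ℕ → MvPolynomial (Option (Fin m)) ℝ},
      LD F c r D b w φ E sn A Hb Hw H → ∀ e : ℝ, 0 ≤ e →
      (jetQ m c 0 r b (fun l => sn l b - φ) N).P K e J F A (jet2 F c ⌊w * J⌋₊ H 0 r N) := by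
  obtain ⟨M, J₁, hM⟩ := qj_fam m D 0 r (fun l => N l 0) (E := E) hb0 hb1
  obtain ⟨M', J₁', hM'⟩ := qj_fam m D 1 r (fun l => N l 1) (E := E) hb0 hb1
  refine ⟨max M M', max J₁ J₁', fun K hK J hJ F c w φ sn A Hb Hw H L e he => ⟨?_, ?_⟩⟩
  · intro i h0 hi j' hj'
    obtain ⟨V, z, z', G, h1, h2⟩ := L.lb i hi
    have hfl : ⌊(sn i b - φ - e) * J⌋₊ ≤ ⌊(sn i b - φ) * J⌋₊ :=
      Nat.floor_le_floor (mul_le_mul_of_nonneg_right (by linarith) (Nat.cast_nonneg J))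
    have e1 : (fun ω => jet2 F c ⌊w * J⌋₊ H 0 r N ω i j') = fun ω =>
        ⌊(2 : ℝ) ^ (N i j' * J) * ojet F (c i) j' (G (z' (slam F ⌊b * J⌋₊ ω))) ω⌋ := by
      funext ω
      unfold jet2
      rw [if_pos ⟨h0, hi, hj'⟩, L.hb ω i hi, h2]
    have hj : j' = 0 ∨ j' = 1 := by omega
    rcases hj with rfl | rfl
    · rw [e1]
      exact hM K ((le_max_left _ _).trans hK) J ((le_max_left _ _).trans hJ) i hi F _ (c i) A V z
        z' G _ (sn i b - φ) e h1 (cfb_of (L.cb i hi) h2) hfl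
    · rw [e1]
      exact hM' K ((le_max_right _ _).trans hK) J ((le_max_right _ _).trans hJ) i hi F _ (c i) A
        V z z' G _ (sn i b - φ) e h1 (cfb_of (L.cb i hi) h2) hfl
  · intro ω _ i j' h
    unfold jet2
    rw [if_neg h]

/-- **The height** of the target. -/
theorem ld_th (m D r : ℕ) (N : ℝ) {w E : ℝ} (hw0 : 0 ≤ w) (hw1 : w ≤ 1) :
    ∃ M J₁ : ℕ, ∀ K ≥ M, ∀ J ≥ J₁, ∀ {F : Fam m J} {c : ℕ → Fin m} {b φ : ℝ} {sn : ℕ → ℝ → ℝ}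
      {A : F.Ω → Prop} {Hb Hw H : LnT F → ℕ → MvPolynomial (Option (Fin m)) ℝ},
      LD F c r D b w φ E sn A Hb Hw H → ∀ e : ℝ, 0 ≤ e →
      (qJet m ((range r).image c) (c r) 0 w (sn r w - φ) N).P K e J F A
        (th0 F c r ⌊w * J⌋₊ H N) := by
  obtain ⟨M, J₁, hM⟩ := qj_win m D 0 (N := N) (E := E) hw0 hw1
  refine ⟨M, J₁, fun K hK J hJ F c b φ sn A Hb Hw H L e he => ?_⟩
  obtain ⟨V, z, z', G, h1, h2⟩ := L.lt
  have h3 := hM K hK J hJ F _ (c r) A V z z' G _ (sn r w - φ) e h1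
    (cfb_of L.cw h2) (Nat.floor_le_floor (mul_le_mul_of_nonneg_right (by linarith)
      (Nat.cast_nonneg J)))
  have e1 : th0 F c r ⌊w * J⌋₊ H N = fun ω =>
      ⌊(2 : ℝ) ^ (N * J) * ojet F (c r) 0 (G (z' (slam F ⌊w * J⌋₊ ω))) ω⌋ := by
    funext ω
    unfold th0
    rw [L.hw ω, h2]
  rw [e1]
  exact h3

end

/-- **The labels of one event** from `WinB`. -/
theorem ld_of {m J : ℕ} {F : Fam m J} {c : ℕ → Fin m} {r D Dr N M : ℕ} {C₀ a Eb ηm : ℝ}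
    {o η σ : ℕ → ℝ} {lv bb : ℕ → ℕ → ℝ} {κ : ℝ} {z : ℕ → ℕ → ℕ} {A : F.Ω → Prop}
    {g₀ : ℕ → ℕ → ℕ} {G : ℕ → PtT F → ℕ → MvPolynomial (Option (Fin m)) ℝ}
    {H : ℕ → LnT F → ℕ → MvPolynomial (Option (Fin m)) ℝ}
    (W : WinB F c r D Dr N M C₀ a Eb ηm o η σ lv bb κ z A g₀ G H) {kb kw : ℕ} (hb : kb ≤ N)
    (hw : kw ≤ N) {φ E : ℝ} {sn : ℕ → ℝ → ℝ} (hbw : o kb ≤ o kw) (hw1 : o kw ≤ 1)
    (hC : C₀ * ηm ≤ φ) (lb : ∀ l ≤ r, lv kb l = sn l (o kb))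
    (lw : ∀ l ≤ r, lv kw l = sn l (o kw))
    (cb : ∀ l < r, CfB F ⌊o kb * J⌋₊ E (c l) A (fun s => s) (fun s => H kb s l))
    (cw : CfB F ⌊o kw * J⌋₊ E (c r) A (fun s => s) (fun s => H kw s r)) :
    LD F c r D (o kb) (o kw) φ E sn A (H kb) (H kw)
      (hybH H kb kw r ⌊o kb * J⌋₊ ⌊o kw * J⌋₊ ⌊o kw * J⌋₊) := by
  have hJ : (0 : ℝ) ≤ J := Nat.cast_nonneg J
  have hη0 : 0 ≤ ηm := (W.hη kb hb).1.trans (W.hη kb hb).2
  have hηφ : ηm ≤ φ := (le_mul_of_one_le_left hη0 W.C1).trans hC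
  have hfw : ⌊o kw * (J : ℝ)⌋₊ ≤ J := floor_le hw1 J
  have hfb : ⌊o kb * (J : ℝ)⌋₊ ≤ ⌊o kw * J⌋₊ :=
    Nat.floor_le_floor (mul_le_mul_of_nonneg_right hbw hJ)
  have pr : ∀ k ≤ N, ∀ l ≤ r, lv k l = sn l (o k) → ⌊(sn l (o k) - φ) * J⌋₊ ≤ g₀ k l := by
    intro k hk l hl he
    obtain ⟨-, -, h1, -⟩ := W.g_num hk hl
    refine Nat.floor_le_of_le ?_
    rw [he] at h1
    have : ηm * J ≤ φ * J := mul_le_mul_of_nonneg_right hηφ hJ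
    linarith
  refine ⟨fun l hl => ?_, ?_, cb, cw, fun ω l hl => ?_, fun ω => ?_⟩
  · exact ⟨_, _, _, _, lb_of (W.ev kb hb).ball (fun ω hω l hl => (W.ev kb hb).cls ω hω l hl)
      (show l < r + 1 by omega) (pr kb hb l hl.le (lb l hl.le)), fun s => rfl⟩
  · exact ⟨_, _, _, _, lb_of (W.ev kw hw).ball (fun ω hω l hl => (W.ev kw hw).cls ω hω l hl)
      (Nat.lt_succ_self r) (pr kw hw r le_rfl (lw r le_rfl)), fun s => rfl⟩
  · unfold hybH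
    rw [if_pos hl, upw_slam F hfb hfw]
  · unfold hybH
    rw [if_neg (lt_irrefl r), upw_slam F le_rfl hfw]

end Pool.V0F
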