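import Pool.Agent.H44.V0F.Num2
import Pool.Agent.H23.D2.V0g
import Pool.Agent.H23.D2.Adc

/-!
# The relative gradient of one event

`ev_grd`: `GrdE` for the hybrid charts, from `WinB` and the numbers `NS`. `ev_cell`: two samples of
one cell.
-/

set_option autoImplicit false

namespace Pool.V0F

open Finset Real MvPolynomial
open Pool.Agent.H49.Ent Pool.Agent.H32.Dense Pool.STK Pool.KA Pool.KSAT Pool.K2S Pool.PB Pool.S6C
open Pool.GEN Pool.CHT Pool.CHX Pool.ISO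
open Pool.D2R

/-- Monotone windows. -/
theorem mono_ch {o : ℕ → ℝ} {f : ℕ → ℕ} {n : ℕ} (h : ∀ k < n, o (f k) ≤ o (f (k + 1))) :
    ∀ k k', k ≤ k' → k' ≤ n → o (f k) ≤ o (f k') := by
  intro k k' hkk
  induction k', hkk using Nat.le_induction with
  | base => intro _; exact le_rfl
  | succ k' hk' ih =>
    intro h'
    exact (ih (by omega)).trans (h k' (by omega))

/-- A number of windows is small. -/
theorem le_two_pow {n : ℕ} {x : ℝ} {Y : ℕ} (h : (n : ℝ) ≤ x) (hY : x ≤ Y) : (n : ℝ) ≤ 2 ^ Y := by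
  have h1 : (Y : ℝ) ≤ 2 ^ Y := by exact_mod_cast Nat.lt_two_pow_self.le
  linarith

/-- **The relative gradient of one event.** -/
theorem ev_grd (D r : ℕ) : ∃ Cg : ℕ, 1 ≤ Cg ∧ ∀ {K : ℕ} {s : ℝ} {sn : ℕ → ℝ → ℝ} {Gs : Set ℝ}
    {b o φ w u y ξ T Λ : ℝ} {lam : ℝ → ℝ} {x' xr v₀ w₁ vq oq : ℝ} {m J : ℕ} {F : Fam m J}
    {c : ℕ → Fin m} {Dr N M : ℕ} {C₀ a Eb ηm : ℝ} {ow η σ : ℕ → ℝ} {lv bb : ℕ → ℕ → ℝ} {κ : ℝ}
    {z : ℕ → ℕ → ℕ} {A : F.Ω → Prop} {g₀ : ℕ → ℕ → ℕ}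
    {G : ℕ → PtT F → ℕ → MvPolynomial (Option (Fin m)) ℝ}
    {H : ℕ → LnT F → ℕ → MvPolynomial (Option (Fin m)) ℝ} {fb f : ℕ → ℕ} {nb n ks : ℕ},
    WinB F c r D Dr N M C₀ a Eb ηm ow η σ lv bb κ z A g₀ G H →
    NS r K s sn Gs b o φ w u y ξ T Λ lam (ow (f ks)) (ow (f n)) x' xr v₀ w₁ vq oq →
    Set.InjOn c (Set.Iio (r + 1)) → 1 ≤ n → ks ≤ n → (∀ k ≤ nb, fb k ≤ N) → (∀ k ≤ n, f k ≤ N) →
    f 0 = fb nb → ow (fb 0) = b → ow (f 0) = w →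
    (∀ k ≤ nb, ow (fb k) ∈ Gs) → (∀ k ≤ n, ow (f k) ∈ Gs) →
    (∀ k < nb, ow (fb k) ≤ ow (fb (k + 1)) ∧ ow (fb (k + 1)) ≤ ow (fb k) + φ) →
    (∀ k < n, ow (f k) ≤ ow (f (k + 1)) ∧ ow (f (k + 1)) ≤ ow (f k) + φ) →
    (∀ k ≤ N, ∀ l ≤ r, lv k l = sn l (ow k)) → C₀ * ηm ≤ φ →
    (∀ k < nb, ∃ j ≤ M, z (fb k) j = ⌊ow (fb (k + 1)) * J⌋₊ - ⌊ow (fb k) * J⌋₊) →
    (∀ k < n, ∃ j ≤ M, z (f k) j = ⌊ow (f (k + 1)) * J⌋₊ - ⌊ow (f k) * J⌋₊) →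
    10 ≤ φ * J → (nb : ℝ) ≤ φ * J → (n : ℝ) ≤ φ * J →
    GrdE F c 0 r ks n ⌊(u + 500 * y) * J⌋₊ ⌊ξ * u * J⌋₊ (g₀ (f 0))
      (2 ^ (Cg * (⌈1000 * y * J⌉₊ + 3))) A
      (fun k => if k = 0 then hyb G (fb 0) (f 0) r else G (f k)) := by
  obtain ⟨Cg, hCg, Hg⟩ := v0_grd D r
  refine ⟨Cg, hCg, ?_⟩
  intro K s sn Gs b o φ w u y ξ T Λ lam x' xr v₀ w₁ vq oq m J F c Dr N M C₀ a Eb ηm ow η σ lv bb κ z
    A g₀ G H fb f nb n ks W Nn hinj hn hks hfb hf hf0 hob how gfb gf stb st hlv hC zb zf big hnb hn'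
  obtain ⟨b1, b2, b3, b4, b5, b6, b7, b8, b9, b10, b11, b12, b13, b14, b15, b16, b17⟩ := Nn.wb
  obtain ⟨h1, h2, h3, h4, h5, h6⟩ := Nn.sm
  obtain ⟨c1, c2, c3, c4, c5, c6, c7, c8, c9, c10, c11, c12⟩ := Nn.sw
  obtain ⟨d1, d2⟩ := Nn.ξu
  have hJ : (0 : ℝ) ≤ J := Nat.cast_nonneg J
  have hs := Nn.s1
  have hu := Nn.u0
  have hy0 := Nn.y0
  have hx := abs_le.1 Nn.hx
  have hj := abs_le.1 Nn.hj
  have hyu := Nn.yu
  have hyξ := Nn.yξ
  have hus := Nn.us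
  obtain ⟨Y, hY⟩ : ∃ Y : ℕ, Y = ⌈1000 * y * (J : ℝ)⌉₊ + 3 := ⟨_, rfl⟩
  have hY1 : 1000 * y * (J : ℝ) + 3 ≤ Y := by
    rw [hY]
    push_cast
    have := Nat.le_ceil (1000 * y * (J : ℝ))
    linarith
  have mj : ∀ {a a' : ℝ}, a ≤ a' → a * J ≤ a' * J := fun h => mul_le_mul_of_nonneg_right h hJ
  have yJ : 10 ≤ y * J := by
    have := mj (show φ ≤ y by linarith)
    linarith
  have hφY : 1000 * (φ * J) ≤ Y := by
    have := mj (show φ ≤ y by linarith)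
    linarith
  have hsY : 1000 * (s * φ * J) ≤ Y := by
    have := mj (show s * φ ≤ y by linarith)
    linarith
  have hηm0 : 0 ≤ ηm := (W.hη _ (hf 0 (Nat.zero_le _))).1.trans (W.hη _ (hf 0 (Nat.zero_le _))).2
  -- monotone windows
  have mb := mono_ch fun k hk => (stb k hk).1
  have mf := mono_ch fun k hk => (st k hk).1
  have rb : ∀ k ≤ nb, b ≤ ow (fb k) ∧ ow (fb k) ≤ w := by
    intro k hk
    have e1 := mb 0 k (Nat.zero_le _) hk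
    have e2 := mb k nb hk le_rfl
    rw [hob] at e1
    rw [← hf0, how] at e2
    exact ⟨e1, e2⟩
  have rf : ∀ k ≤ n, w ≤ ow (f k) ∧ ow (f k) ≤ ow (f n) := by
    intro k hk
    have e1 := mf 0 k (Nat.zero_le _) hk
    have e2 := mf k n hk le_rfl
    rw [how] at e1
    exact ⟨e1, e2⟩
  have hq1 : (u + 500 * y) * J - 1 ≤ (⌊(u + 500 * y) * J⌋₊ : ℝ) := by
    have := Nat.lt_floor_add_one ((u + 500 * y) * (J : ℝ))
    linarith
  have hq2 : (⌊(u + 500 * y) * J⌋₊ : ℝ) ≤ (u + 500 * y) * J :=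
    Nat.floor_le (mul_nonneg (by linarith) hJ)
  have hX2 : (⌊ξ * u * J⌋₊ : ℝ) ≤ ξ * u * J := Nat.floor_le (mul_nonneg d1 hJ)
  choose! jb hjb using zb
  choose! jj hjj using zf
  rw [← hY]
  refine Hg W (fb := fb) (jb := jb) (f := f) (jj := jj) (nb := nb) (n := n) (i := r) (k₀ := 0)
    (ks := ks) (Y := Y) (S := 1) (b' := s) hfb
    (fun k hk => ⟨(hjb k hk).1, (hjb k hk).2, (stb k hk).1⟩)
    (le_two_pow hnb (by linarith)) (fun k hk l hl => ?_) hf0 hinj le_rfl hn hf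
    (fun k hk => ⟨(hjj k hk).1, (hjj k hk).2, (st k hk).1⟩) ?_ ?_ (le_two_pow hn' (by linarith))
    zero_le_one hs.le (fun k hk l hl => ?_) (fun k hk => ?_) (fun k k' hkk hk' l hl _ => ?_)
    (fun k hk => ?_) ?_ ?_ ?_ hks ?_
  · -- slopes one before `w`
    obtain ⟨r1, r2⟩ := rb k hk
    have e0 : ow (fb nb) = w := by rw [← hf0, how]
    rw [hlv _ (hfb k hk) l (by omega), hlv _ (hfb nb le_rfl) l (by omega), e0]
    have e1 := abs_le.1 (Nn.sl l hl _ (gfb k hk) r1 (r2.trans b2))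
    have e2 := mj e1.1
    have e3 := mj e1.2
    constructor <;> linarith
  · have e1 := mj hC
    have e2 : C₀ * (ηm * J) = C₀ * ηm * J := by ring
    rw [e2]
    linarith
  · rw [hY]
    omega
  · -- one step
    obtain ⟨r1, r2⟩ := rf k hk.le
    obtain ⟨r3, r4⟩ := rf (k + 1) (by omega)
    obtain ⟨r5, r6⟩ := st k hk
    rw [hlv _ (hf k hk.le) l hl, hlv _ (hf (k + 1) (by omega)) l hl]
    rcases Nat.lt_or_eq_of_le hl with h | h
    · have e1 := abs_le.1 (Nn.sl l h _ (gf k hk.le) (b1.trans r1) (r2.trans b7))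
      have e2 := abs_le.1 (Nn.sl l h _ (gf (k + 1) (by omega)) (b1.trans r3) (r4.trans b7))
      have e3 := mj (show sn l (ow (f (k + 1))) - sn l (ow (f k)) ≤ 5 * φ by linarith)
      have e4 := mj (show sn l (ow (f k)) - sn l (ow (f (k + 1))) ≤ 5 * φ by linarith)
      constructor <;> linarith
    · subst h
      have e1 := Nn.stv (gf k hk.le) (b1.trans r1) (r2.trans b7)
      have e2 := Nn.stv (gf (k + 1) (by omega)) (b1.trans r3) (r4.trans b7)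
      have e5 : s * (ow (f (k + 1)) - ow (f k)) ≤ s * φ :=
        mul_le_mul_of_nonneg_left (by linarith) (by linarith)
      have e6 : 0 ≤ s * (ow (f (k + 1)) - ow (f k)) := mul_nonneg (by linarith) (by linarith)
      have e3 := mj (show sn l (ow (f (k + 1))) - sn l (ow (f k)) ≤ s * φ + 2 * φ by linarith)
      have e4 := mj (show sn l (ow (f k)) - sn l (ow (f (k + 1))) ≤ 2 * φ by linarith)
      constructor <;> linarith
  · obtain ⟨r5, r6⟩ := st k hk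
    have e5 : s * (ow (f (k + 1)) - ow (f k)) ≤ s * φ :=
      mul_le_mul_of_nonneg_left (by linarith) (by linarith)
    have e6 := mj e5
    have e7 : s * ((ow (f (k + 1)) - ow (f k)) * J) = s * (ow (f (k + 1)) - ow (f k)) * J := by
      ring
    rw [e7]
    have : 0 ≤ s * φ * J := by positivity
    linarith
  · obtain ⟨r1, r2⟩ := rf k (hkk.trans hk')
    obtain ⟨r3, r4⟩ := rf k' hk'
    rw [hlv _ (hf k (hkk.trans hk')) l (by omega), hlv _ (hf k' hk') l (by omega)]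
    have e1 := abs_le.1 (Nn.sl l hl _ (gf k (hkk.trans hk')) (b1.trans r1) (r2.trans b7))
    have e2 := abs_le.1 (Nn.sl l hl _ (gf k' hk') (b1.trans r3) (r4.trans b7))
    have e3 := mj (show sn l (ow (f k')) - sn l (ow (f k)) ≤
      (ow (f k') - ow (f k)) + 4 * φ by linarith)
    linarith
  · obtain ⟨r1, r2⟩ := rf k hk
    rw [hlv _ (hf k hk) r le_rfl, hlv _ (hf 0 (Nat.zero_le _)) r le_rfl, how]
    have e1 := Nn.stv (gf k hk) (b1.trans r1) (r2.trans b7)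
    have e3 := mj (show s * (ow (f k) - w) ≤ sn r (ow (f k)) - sn r w + φ by linarith)
    have e7 : s * ((ow (f k) - w) * J) = s * (ow (f k) - w) * J := by ring
    rw [e7]
    linarith
  · rw [how]
    have e1 := mj (show ow (f n) - w + φ ≤ u + 500 * y by linarith)
    linarith
  · rw [how]
    have e1 := mj (show (u + 500 * y) + ξ * u ≤ s * (ow (f n) - w) by linarith)
    have e7 : s * ((ow (f n) - w) * J) = s * (ow (f n) - w) * J := by ring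
    rw [e7]
    have : (0 : ℝ) ≤ Y := Nat.cast_nonneg Y
    linarith
  · have e1 := mj (show ξ * u + y ≤ u + 500 * y by linarith)
    have e2 : (⌊ξ * u * J⌋₊ : ℝ) ≤ (⌊(u + 500 * y) * J⌋₊ : ℝ) := by linarith
    exact_mod_cast e2
  · rw [how]
    have e0 : (s - 1) * (ow (f ks) - w) = s * (ow (f ks) - w) - (ow (f ks) - w) := by ring
    have e1 := mj (show ξ * u ≤ (s - 1) * (ow (f ks) - w) + s * φ + φ by
      rw [e0]
      linarith)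
    have e7 : (s - 1) * ((ow (f ks) - w) * J) = (s - 1) * (ow (f ks) - w) * J := by ring
    rw [e7]
    linarith

/-- **Two samples of one cell.** -/
theorem ev_cell (m D r : ℕ) : ∃ Cc : ℕ, 1 ≤ Cc ∧ ∀ {K : ℕ} {s : ℝ} {sn : ℕ → ℝ → ℝ}
    {Gs : Set ℝ} {b o φ w u y ξ T Λ : ℝ} {lam : ℝ → ℝ} {jw xw x' xr v₀ w₁ vq oq : ℝ} {J : ℕ}
    {F : Fam m J} {c : ℕ → Fin m} {Dr N M : ℕ} {C₀ a Eb ηm : ℝ} {ow η σ : ℕ → ℝ}
    {lv bb : ℕ → ℕ → ℝ} {κ : ℝ} {z : ℕ → ℕ → ℕ} {A : F.Ω → Prop} {g₀ : ℕ → ℕ → ℕ}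
    {G : ℕ → PtT F → ℕ → MvPolynomial (Option (Fin m)) ℝ}
    {H : ℕ → LnT F → ℕ → MvPolynomial (Option (Fin m)) ℝ} {kb kw n : ℕ} {f : ℕ → ℕ},
    WinB F c r D Dr N M C₀ a Eb ηm ow η σ lv bb κ z A g₀ G H →
    NS r K s sn Gs b o φ w u y ξ T Λ lam jw xw x' xr v₀ w₁ vq oq →
    Set.InjOn c (Set.Iio (r + 1)) → kb ≤ N → kw ≤ N → ow kb = b → ow kw = w →
    (∀ k ≤ N, ∀ l ≤ r, lv k l = sn l (ow k)) → C₀ * ηm ≤ φ →
    (∀ l ≤ r, Eb + sn l w + Λ * u ≤ 1) →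
    (∃ jq ≤ M, ∃ jT ≤ M, (z kb jq : ℝ) ≤ u * J ∧ z kb jq + 1 ≤ z kb jT) →
    10 ≤ φ * J → (Cc : ℝ) * (2 * φ) ≤ u → ∀ ω ν, A ω → A ν → ptr F J ω = ptr F J ν → ∀ l < r,
      |hgt F c (hyb G kb kw r) ω l - hgt F c (hyb G kb kw r) ν l| ≤
        2 ^ 2 / 2 ^ (g₀ kw l + ⌊(u + 500 * y) * J⌋₊) := by
  obtain ⟨Cc, hCc, Hc⟩ := winb_cell m D r
  refine ⟨Cc, hCc, ?_⟩
  intro K s sn Gs b o φ w u y ξ T Λ lam jw xw x' xr v₀ w₁ vq oq J F c Dr N M C₀ a Eb ηm ow η σ lv bb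
    κ z A g₀ G H kb kw n f W Nn hinj hkb hkw hob how hlv hC hEb hz big hCu ω ν hω hν hpt l hl
  obtain ⟨b1, b2, b3, b4, b5, b6, b7, b8, b9, b10, b11, b12, b13, b14, b15, b16, b17⟩ := Nn.wb
  obtain ⟨h1, h2, h3, h4, h5, h6⟩ := Nn.sm
  have hJ : (0 : ℝ) ≤ J := Nat.cast_nonneg J
  have hs := Nn.s1
  have hu := Nn.u0
  have hyu := Nn.yu
  have hT := Nn.Tu0
  have hru := Nn.ru0
  have hroom := Nn.room
  have hbw := Nn.bw
  have mj : ∀ {a a' : ℝ}, a ≤ a' → a * J ≤ a' * J := fun h => mul_le_mul_of_nonneg_right h hJ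
  have hηm0 : 0 ≤ ηm := (W.hη _ hkb).1.trans (W.hη _ hkb).2
  have hηφ : ηm ≤ φ := (le_mul_of_one_le_left hηm0 W.C1).trans hC
  obtain ⟨Y, hY⟩ : ∃ Y : ℕ, Y = ⌈φ * (J : ℝ)⌉₊ := ⟨_, rfl⟩
  have hY1 : φ * J ≤ Y := by
    rw [hY]
    exact Nat.le_ceil _
  have hY2 : (Y : ℝ) ≤ φ * J + 1 := by
    rw [hY]
    exact (Nat.ceil_lt_add_one (by linarith)).le
  obtain ⟨q, hq⟩ : ∃ q : ℕ, q = ⌈(w - b + 4 * φ) * (J : ℝ)⌉₊ + ⌊(u + 500 * y) * J⌋₊ := ⟨_, rfl⟩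
  have hq1 : (w - b + 4 * φ) * J + (⌊(u + 500 * y) * J⌋₊ : ℝ) ≤ q := by
    rw [hq]
    push_cast
    have := Nat.le_ceil ((w - b + 4 * φ) * (J : ℝ))
    linarith
  have hq2 : (q : ℝ) ≤ (w - b + 4 * φ) * J + 1 + (u + 500 * y) * J := by
    rw [hq]
    push_cast
    have e1 := (Nat.ceil_lt_add_one (show 0 ≤ (w - b + 4 * φ) * (J : ℝ) from
      mul_nonneg (by linarith) hJ)).le
    have e2 := Nat.floor_le (show 0 ≤ (u + 500 * y) * (J : ℝ) from mul_nonneg (by linarith) hJ)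
    linarith
  obtain ⟨jq, hjq, jT, hjT, hz1, hz2⟩ := hz
  have hCY : (Cc : ℝ) * Y ≤ u * J := by
    have e1 : (Cc : ℝ) * Y ≤ Cc * (2 * φ * J) :=
      mul_le_mul_of_nonneg_left (by linarith) (Nat.cast_nonneg _)
    have e2 := mj hCu
    linarith
  have hl' : ∀ l ≤ r, sn l b + (w - b) ≤ sn l w + 2 * φ := by
    intro l hl
    rcases Nat.lt_or_eq_of_le hl with h | h
    · have e1 := Nn.slv h Nn.bG le_rfl b3
      linarith
    · subst h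
      have e1 := Nn.stv Nn.bG le_rfl b3
      have e2 : 1 * (w - b) ≤ s * (w - b) := mul_le_mul_of_nonneg_right hs.le (by linarith)
      linarith
  have h7 := Hc W (k₀ := kb) (jq := jq) (jT := jT) (q := q) (Y := Y) hinj hkb hjq hjT hz2 (by
    have e1 := mj hC
    have e2 : C₀ * (ηm * J) = C₀ * ηm * J := by ring
    rw [e2]
    linarith) (by
    have : (1 : ℝ) ≤ Y := by linarith
    exact_mod_cast this) (fun l hl => by
    rw [hlv _ hkb l hl, hob]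
    have e1 := hl' l hl
    have e2 := hEb l hl
    have e3 := mj (show Eb + sn l b + u + (w - b + 4 * φ) + φ + (u + 500 * y) + u ≤ 1 by
      linarith)
    linarith) ω ν hω hν hpt l hl.le
  have h8 : ∀ ω, hgt F c (hyb G kb kw r) ω l = hgt F c (G kb) ω l := by
    intro ω
    unfold hgt
    rw [hyb_lo G hl]
  rw [h8, h8]
  refine h7.trans (div_le_div_of_nonneg_left (by positivity) (by positivity)
    (pow_le_pow_right₀ (by norm_num) ?_))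
  obtain ⟨-, -, g1, -⟩ := W.g_num hkb hl.le
  obtain ⟨-, -, -, g2⟩ := W.g_num hkw hl.le
  rw [hlv _ hkb l hl.le, hob] at g1
  rw [hlv _ hkw l hl.le, how] at g2
  have e1 := Nn.slv hl Nn.bG le_rfl b3
  have e2 := mj hηφ
  have e3 := mj (show sn l w + φ ≤ sn l b + (w - b + 4 * φ) by linarith)
  have e4 : ((g₀ kw l + ⌊(u + 500 * y) * J⌋₊ : ℕ) : ℝ) ≤ ((g₀ kb l + q : ℕ) : ℝ) := by
    push_cast
    linarith
  exact_mod_cast e4

end Pool.V0F
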