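import Pool.Agent.H44.V0F.Num2

/-!
# The numbers of the class theorem, fourth part

`ns_ex`: the windows exist.
-/

set_option autoImplicit false

namespace Pool.V0F

open Finset Real MvPolynomial
open Pool.Agent.H49.Ent Pool.Agent.H32.Dense Pool.STK Pool.KA Pool.KSAT Pool.K2S Pool.PB Pool.GEN
open Pool.S6C Pool.RCD Pool.LA91 Pool.AVG96

/-- **The windows exist.** -/
theorem ns_ex {r K : ℕ} {s T Λ : ℝ} (hr : 1 ≤ r) (hs : 1 < s)
    (hT : T = 4 * (s + K + 2 * r + 9)) (hΛ : 4 * T + 4 * r + 40 ≤ Λ) {m : ℕ} {S : PCl m}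
    {c : ℕ → Fin m} {sn : ℕ → ℝ → ℝ} {G : Set ℝ} {b o φ : ℝ} (L : Lad S c r sn G b o φ)
    {w u y ξ : ℝ} {lam : ℝ → ℝ} (hy : y = ((r : ℝ) + 2 + s) * φ) (hξ : s * ξ = s - 1)
    (yu : 2000 * y ≤ u) (yξ : 2000 * y ≤ ξ * u) (yd : 2000 * y ≤ (s - 1 - ξ) * u) (hu : 0 < u)
    (hw : w ∈ G) (bw : b + Λ * u ≤ w) (wo : w + Λ * u ≤ o) (o1 : o + Λ * u ≤ 1)
    (b0 : Λ * u ≤ b) (hlb : ∀ l ≤ r, Λ * u ≤ sn l b ∧ sn l o + Λ * u ≤ 1)
    (st : ∀ v ∈ G, b ≤ v → v ≤ o → |sn r v - sn r w - s * (v - w)| ≤ φ)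
    (sv : ∀ v : ℝ, b ≤ v → v ≤ o → |lam v - sn r w - s * (v - w)| ≤ φ) {j x : ℝ} (jG : j ∈ G)
    (xG : x ∈ G) (hj : |j - (w + u / s)| ≤ φ) (hx : |x - (w + u)| ≤ φ) :
    ∃ (x' xr v₀ : ℝ) (w₁ vq oq : ℚ),
      NS r K s sn G b o φ w u y ξ T Λ lam j x x' xr v₀ w₁ vq oq := by
  have hφ := L.φ0
  have hr1 : (1 : ℝ) ≤ r := by exact_mod_cast hr
  have hK : (0 : ℝ) ≤ K := Nat.cast_nonneg K
  have hT1 : 44 ≤ T := by rw [hT]; linarith
  have hΛu : (4 * T + 4 * r + 40) * u ≤ Λ * u := mul_le_mul_of_nonneg_right hΛ hu.le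
  have hTu : 44 * u ≤ T * u := mul_le_mul_of_nonneg_right hT1 hu.le
  have hru : 0 ≤ (r : ℝ) * u := by positivity
  have hy0 : φ ≤ y := by
    rw [hy]
    nlinarith
  have hξ0 : 0 < ξ := by
    by_contra h
    push Not at h
    nlinarith
  have hξ1 : ξ < 1 := by
    by_contra h
    push Not at h
    nlinarith
  have hξu : 0 ≤ ξ * u ∧ ξ * u ≤ u := ⟨by positivity, by nlinarith⟩
  have hwo : w ≤ o := by linarith
  have hbw : b ≤ w := by linarith
  obtain ⟨x', hx', hx''⟩ := L.gap (w + T * u) (by linarith) (by linarith)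
  obtain ⟨xr, hxr, hxr'⟩ := L.gap (w + (1 + ξ) * u + 600 * y) (by linarith) (by linarith)
  obtain ⟨v₀, hv, hv'⟩ := L.gap (w - 3 * u) (by linarith) (by linarith)
  obtain ⟨w₁, h1, h2⟩ := exists_rat_btwn (show w < w + φ by linarith)
  obtain ⟨vq, h3, h4⟩ := exists_rat_btwn (show j < j + φ by linarith)
  obtain ⟨oq, h5, h6⟩ := exists_rat_btwn (show w + ((1 + ξ) * u + 505 * y) / s <
    w + ((1 + ξ) * u + 505 * y) / s + φ by linarith)
  refine ⟨x', xr, v₀, w₁, vq, oq,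
    { r1 := hr
      s1 := hs
      φ0 := hφ
      u0 := hu
      hy := hy
      hξ := hξ
      yu := yu
      yξ := yξ
      yd := yd
      hT := hT
      TΛ := hΛ
      bw := bw
      wo := wo
      o1 := o1
      b0 := b0
      lb := fun l hl => (hlb l hl).1
      lo := fun l hl => (hlb l hl).2
      sl := fun i hi v hv h1 h2 => ?_
      st := st
      sv := sv
      bG := L.bG
      oG := L.oG
      wG := hw
      jG := jG
      xG := xG
      xG' := hx'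
      rG := hxr
      vG := hv
      hj := hj
      hx := hx
      hx' := hx''
      hxr := hxr'
      hv := hv'
      hw1 := h1.le
      hw2 := h2.le
      hq1 := h3.le
      hq2 := h4.le
      ho1 := h5.le
      ho2 := h6.le }⟩
  have e1 := abs_le.1 (L.fl i hi v hv h1 h2)
  have e2 := abs_le.1 (L.fl i hi w hw hbw hwo)
  rw [abs_le]
  constructor <;> linarith

end Pool.V0F
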