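import Pool.Agent.H44.V0F.Num3

/-!
# The numbers of the class theorem, fifth part

`CS`: the small constants. `CS.e_le`, `CS.u_le`, `CS.mm`: all errors are small.
-/

set_option autoImplicit false

namespace Pool.V0F

open Finset Real

/-- The factor of the errors. -/
noncomputable def A2 (r D : ℕ) : ℝ := 65 * (35 * r + 20 * (r : ℝ) ^ 2 + 13) + 300 * r +
  ((r : ℝ) + 1) * (1 + 500 * ((D : ℝ) + 2)) + 1

theorem A2_pos (r D : ℕ) : 0 < A2 r D := by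
  unfold A2
  positivity

/-- The sum of the constants. -/
noncomputable def Z2 (r D : ℕ) (Ca : ℝ) : ℝ := 65 * (r * Real.log 5) + Real.log 2 +
  r * Real.log 5 + ((r : ℝ) + 1) * (r * Real.log 5 + ((D : ℝ) + 2) * Real.log 5) + Ca

theorem Z2_nonneg (r D : ℕ) {Ca : ℝ} (h : 0 ≤ Ca) : 0 ≤ Z2 r D Ca := by
  have hl2 : 0 < Real.log 2 := Real.log_pos one_lt_two
  have hl5 : 0 < Real.log 5 := Real.log_pos (by norm_num)
  unfold Z2
  positivity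

/-- **The small constants.** -/
structure CS (r D Cg Cc : ℕ) (s τ ξ ι δ₁ δ₂ θ β : ℝ) : Prop where
  θ0 : 0 < θ
  β0 : 0 < β
  β1 : β ≤ 1
  βξ : β ≤ ξ
  βs : β ≤ s - 1 - ξ
  β3 : β ≤ δ₁
  β4 : β ≤ δ₂
  β5 : β ≤ τ * ξ
  β6 : β ≤ ι
  t1 : 2000 * θ ≤ β
  t2 : 60 * ((r : ℝ) + 2) ^ 2 * θ ≤ β
  t3 : 2 * (Cc : ℝ) * θ ≤ β
  t4 : 8000 * (Cg : ℝ) * θ ≤ β
  t5 : 8 * A2 r D * θ ≤ β
  t6 : 4 * (4 + 40 * ((r : ℝ) + 1) ^ 2) * θ ≤ β

theorem cs_ex (r D Cg Cc : ℕ) {s τ ξ ι δ₁ δ₂ : ℝ} (hξ : 0 < ξ) (hs : 0 < s - 1 - ξ) (hτ : 0 < τ)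
    (hι : 0 < ι) (h1 : 0 < δ₁) (h2 : 0 < δ₂) : ∃ θ β : ℝ, CS r D Cg Cc s τ ξ ι δ₁ δ₂ θ β := by
  obtain ⟨β, hβ, b1, b2, b3, b4, b5, b6, b7⟩ : ∃ β : ℝ, 0 < β ∧ β ≤ 1 ∧ β ≤ ξ ∧ β ≤ s - 1 - ξ ∧
      β ≤ δ₁ ∧ β ≤ δ₂ ∧ β ≤ τ * ξ ∧ β ≤ ι := by
    refine ⟨min (min (min 1 ξ) (min (s - 1 - ξ) δ₁)) (min (min δ₂ (τ * ξ)) ι), by positivity,
      ?_, ?_, ?_, ?_, ?_, ?_, ?_⟩
    · exact (min_le_left _ _).trans ((min_le_left _ _).trans (min_le_left _ _))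
    · exact (min_le_left _ _).trans ((min_le_left _ _).trans (min_le_right _ _))
    · exact (min_le_left _ _).trans ((min_le_right _ _).trans (min_le_left _ _))
    · exact (min_le_left _ _).trans ((min_le_right _ _).trans (min_le_right _ _))
    · exact (min_le_right _ _).trans ((min_le_left _ _).trans (min_le_left _ _))
    · exact (min_le_right _ _).trans ((min_le_left _ _).trans (min_le_right _ _))
    · exact (min_le_right _ _).trans (min_le_right _ _)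
  have hA := A2_pos r D
  obtain ⟨B, hB⟩ : ∃ B : ℝ, B = 2000 + 60 * ((r : ℝ) + 2) ^ 2 + 2 * (Cc : ℝ) + 8000 * (Cg : ℝ) +
    8 * A2 r D + 4 * (4 + 40 * ((r : ℝ) + 1) ^ 2) := ⟨_, rfl⟩
  have hB0 : 0 < B := by rw [hB]; positivity
  obtain ⟨θ, hθ⟩ : ∃ θ : ℝ, θ = β / B := ⟨_, rfl⟩
  have hθ0 : 0 < θ := by rw [hθ]; positivity
  have hBθ : B * θ = β := by
    rw [hθ]
    field_simp
  have e1 : 0 ≤ 60 * ((r : ℝ) + 2) ^ 2 * θ := by positivity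
  have e2 : 0 ≤ 2 * (Cc : ℝ) * θ := by positivity
  have e3 : 0 ≤ 8000 * (Cg : ℝ) * θ := by positivity
  have e4 : 0 ≤ 8 * A2 r D * θ := by positivity
  have e5 : 0 ≤ 4 * (4 + 40 * ((r : ℝ) + 1) ^ 2) * θ := by positivity
  have e6 : β = 2000 * θ + 60 * ((r : ℝ) + 2) ^ 2 * θ + 2 * (Cc : ℝ) * θ + 8000 * (Cg : ℝ) * θ +
      8 * A2 r D * θ + 4 * (4 + 40 * ((r : ℝ) + 1) ^ 2) * θ := by
    rw [← hBθ, hB]
    ring
  refine ⟨θ, β, hθ0, hβ, b1, b2, b3, b4, b5, b6, b7, ?_, ?_, ?_, ?_, ?_, ?_⟩ <;> linarith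

namespace CS

variable {r D Cg Cc : ℕ} {s τ ξ ι δ₁ δ₂ θ β : ℝ}

/-- The radius is at least half. -/
theorem X_le (C : CS r D Cg Cc s τ ξ ι δ₁ δ₂ θ β) (hτ : 0 < τ) {u J X : ℝ} (hu : 0 < u)
    (hJ : 0 ≤ J) (hX : ξ * u * J - 1 ≤ X) (hZ : 1 ≤ θ * u * J) :
    ξ * u * J * (3 / 4) ≤ X - β * u * J / 8 ∧ β * u * J / 2 ≤ τ * X ∧
      τ * ξ * u * J / 2 ≤ τ * X := by
  have h1 : 2000 * θ * (u * J) ≤ β * (u * J) :=
    mul_le_mul_of_nonneg_right C.t1 (by positivity)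
  have h2 : β * (u * J) ≤ ξ * (u * J) := mul_le_mul_of_nonneg_right C.βξ (by positivity)
  have h3 : β * (u * J) ≤ τ * ξ * (u * J) := mul_le_mul_of_nonneg_right C.β5 (by positivity)
  have h4 : ξ * u * J / 2 ≤ X := by linarith
  have h5 : τ * (ξ * u * J / 2) ≤ τ * X := mul_le_mul_of_nonneg_left h4 hτ.le
  refine ⟨by linarith, by linarith, by linarith⟩

/-- **All errors are small.** -/
theorem e_le (C : CS r D Cg Cc s τ ξ ι δ₁ δ₂ θ β) (hs : 1 < s) (hτ : 0 < τ) (hξ : 0 < ξ)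
    {u J X y φ φ₀ dv Ca : ℝ} (hu : 0 < u) (hJ : 0 ≤ J) (hX : ξ * u * J - 1 ≤ X) (hy : 0 ≤ y)
    (hyu : y ≤ θ * u) (hφ : 0 ≤ φ) (hφu : φ ≤ θ * u) (hφ₀ : φ₀ * u ≤ θ * u)
    (hdv : dv ≤ 4 * s * u) (hZ : 1 + Z2 r D Ca ≤ θ * u * J) (hCa : 0 ≤ Ca) :
    65 * ((r * (35 * y) + 10 * y + 20 * (r : ℝ) ^ 2 * φ + φ₀ * u + φ₀ * u + θ * u) * J +
        r * Real.log 5) + Real.log 2 + r * (300 * y * J * Real.log 2 + Real.log 5) +
      (r + 1) * (θ * u * J + (τ * ξ / (64 * (r + 1) * s) * dv * J + r * Real.log 5) +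
        (τ * ξ / (16 * (r + 1)) * u * J + ((D : ℝ) + 2) * (500 * y * J * Real.log 2 +
          Real.log 5))) + Ca + θ * u * J ≤ τ * X := by
  have hr0 : (0 : ℝ) ≤ r := Nat.cast_nonneg r
  have hD0 : (0 : ℝ) ≤ D := Nat.cast_nonneg D
  have hl2 : 0 < Real.log 2 := Real.log_pos one_lt_two
  have hl2' : Real.log 2 ≤ 1 := by
    have := Real.log_two_lt_d9
    linarith
  have hZ0 := Z2_nonneg r D hCa
  obtain ⟨-, -, h3⟩ := C.X_le hτ hu hJ hX (by linarith)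
  obtain ⟨V, hV⟩ : ∃ V : ℝ, V = θ * u * J := ⟨_, rfl⟩
  have hV0 : 0 ≤ V := by
    rw [hV]
    have := C.θ0
    positivity
  have yV : y * J ≤ V := by
    rw [hV]
    exact mul_le_mul_of_nonneg_right hyu hJ
  have φV : φ * J ≤ V := by
    rw [hV]
    exact mul_le_mul_of_nonneg_right hφu hJ
  have φ₀V : φ₀ * u * J ≤ V := by
    rw [hV]
    exact mul_le_mul_of_nonneg_right hφ₀ hJ
  have yl : y * J * Real.log 2 ≤ V := by
    have : y * J * Real.log 2 ≤ y * J * 1 := mul_le_mul_of_nonneg_left hl2' (by positivity)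
    linarith
  have e1 : (r : ℝ) * (y * J) ≤ r * V := mul_le_mul_of_nonneg_left yV hr0
  have e2 : (r : ℝ) ^ 2 * (φ * J) ≤ r ^ 2 * V := mul_le_mul_of_nonneg_left φV (by positivity)
  have e3 : (r : ℝ) * (y * J * Real.log 2) ≤ r * V := mul_le_mul_of_nonneg_left yl hr0
  have e4 : (((r : ℝ) + 1) * ((D : ℝ) + 2)) * (y * J * Real.log 2) ≤
      (((r : ℝ) + 1) * ((D : ℝ) + 2)) * V := mul_le_mul_of_nonneg_left yl (by positivity)
  have e5 : ((r : ℝ) + 1) * (τ * ξ / (64 * (r + 1) * s) * dv * J) ≤ τ * ξ * u * J / 16 := by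
    have h6 : ((r : ℝ) + 1) * (τ * ξ / (64 * (r + 1) * s) * dv * J) =
        τ * ξ * J / (64 * s) * dv := by
      field_simp
    have h7 : τ * ξ * J / (64 * s) * dv ≤ τ * ξ * J / (64 * s) * (4 * s * u) :=
      mul_le_mul_of_nonneg_left hdv (by positivity)
    have h8 : τ * ξ * J / (64 * s) * (4 * s * u) = τ * ξ * u * J / 16 := by
      field_simp
      ring
    linarith
  have e6 : ((r : ℝ) + 1) * (τ * ξ / (16 * (r + 1)) * u * J) = τ * ξ * u * J / 16 := by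
    field_simp
  have e7 : 8 * (A2 r D * V) ≤ β * u * J := by
    have := mul_le_mul_of_nonneg_right C.t5 (show 0 ≤ u * J by positivity)
    rw [hV]
    linarith
  have e8 : β * (u * J) ≤ τ * ξ * (u * J) := mul_le_mul_of_nonneg_right C.β5 (by positivity)
  have e9 : 2000 * V ≤ β * u * J := by
    have := mul_le_mul_of_nonneg_right C.t1 (show 0 ≤ u * J by positivity)
    rw [hV]
    linarith
  have e10 : A2 r D * V = 65 * (35 * (r * V) + 20 * (r ^ 2 * V) + 13 * V) + 300 * (r * V) +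
      (r + 1) * V + 500 * (((r : ℝ) + 1) * ((D : ℝ) + 2) * V) + V := by
    unfold A2
    ring
  unfold Z2 at hZ
  rw [← hV] at hZ ⊢
  have hVe : θ * u * J = V := hV.symm
  nlinarith

/-- **The rows.** -/
theorem u_le (C : CS r D Cg Cc s τ ξ ι δ₁ δ₂ θ β) (hτ : 0 < τ) (hξ : 0 < ξ)
    {u J X φ h κ : ℝ} (hu : 0 < u) (hJ : 0 ≤ J) (hX : ξ * u * J - 1 ≤ X) (hφ : 0 ≤ φ)
    (hφu : φ ≤ θ * u) (hh : 0 < h) (hh1 : h ≤ 1) (hκ : 0 < κ) (hκ1 : κ ≤ 1)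
    (hZ : 2 + 2 * Real.log 5 ≤ θ * u * J) :
    ((1 - h) * (κ * ξ * u + 2 * φ) * Real.log 2 + φ + 40 * ((r : ℝ) + 1) ^ 2 * φ + θ * u) * J +
      2 * Real.log 5 ≤ (1 - 2 * (h / 2)) * (κ * X) * Real.log 2 + τ * X := by
  have hl2 : 0 < Real.log 2 := Real.log_pos one_lt_two
  have hl2' : Real.log 2 ≤ 1 := by
    have := Real.log_two_lt_d9
    linarith
  have hl5 : 0 < Real.log 5 := Real.log_pos (by norm_num)
  obtain ⟨-, -, h3⟩ := C.X_le hτ hu hJ hX (by linarith)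
  obtain ⟨V, hV⟩ : ∃ V : ℝ, V = θ * u * J := ⟨_, rfl⟩
  have hV0 : 0 ≤ V := by
    rw [hV]
    have := C.θ0
    positivity
  have φV : φ * J ≤ V := by
    rw [hV]
    exact mul_le_mul_of_nonneg_right hφu hJ
  have c0 : 0 ≤ (1 - h) * Real.log 2 := mul_nonneg (by linarith) hl2.le
  have c1 : (1 - h) * Real.log 2 ≤ 1 := by nlinarith
  have e1 : (1 - h) * Real.log 2 * (φ * J) ≤ φ * J :=
    mul_le_of_le_one_left (by positivity) c1
  have e2 : (1 - h) * Real.log 2 * κ * (ξ * u * J - 1) ≤ (1 - h) * Real.log 2 * κ * X :=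
    mul_le_mul_of_nonneg_left hX (by positivity)
  have e3 : (1 - h) * Real.log 2 * κ ≤ 1 := by nlinarith
  have e4 : ((r : ℝ) + 1) ^ 2 * (φ * J) ≤ ((r : ℝ) + 1) ^ 2 * V :=
    mul_le_mul_of_nonneg_left φV (by positivity)
  have e5 : 16 * V + 160 * (((r : ℝ) + 1) ^ 2 * V) ≤ β * u * J := by
    have := mul_le_mul_of_nonneg_right C.t6 (show 0 ≤ u * J by positivity)
    rw [hV]
    linarith
  have e8 : β * (u * J) ≤ τ * ξ * (u * J) := mul_le_mul_of_nonneg_right C.β5 (by positivity)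
  have hVe : θ * u * J = V := hV.symm
  nlinarith

/-- **The constants of the gradient.** -/
theorem mm_le (C : CS r D Cg Cc s τ ξ ι δ₁ δ₂ θ β) (hτ : 0 < τ) {u J X y κ₂ Y : ℝ}
    (hξ1 : ξ ≤ 1) (hu : 0 < u) (hJ : 0 ≤ J) (hX : ξ * u * J - 1 ≤ X) (hyu : y ≤ θ * u)
    (hκ₂ : κ₂ ≤ ξ / 2) (hY : Y ≤ 1000 * y * J + 4) (hZ : 4 * (Cg : ℝ) + 1 ≤ θ * u * J) :
    Cg * Y + 1 ≤ τ * X ∧ Cg * Y + 1 ≤ u / 2 * J ∧ Cg * Y ≤ ι * u * J ∧
      κ₂ * u * J + Cg * Y ≤ X := by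
  have hCg : (0 : ℝ) ≤ Cg := Nat.cast_nonneg Cg
  obtain ⟨h1, h2, h3⟩ := C.X_le hτ hu hJ hX (by linarith)
  have huJ : 0 ≤ u * J := by positivity
  have yV : y * J ≤ θ * u * J := mul_le_mul_of_nonneg_right hyu hJ
  have e1 : (Cg : ℝ) * Y ≤ Cg * (1000 * (θ * u * J) + 4) :=
    mul_le_mul_of_nonneg_left (by linarith) hCg
  have e2 : 8000 * (Cg : ℝ) * (θ * u * J) ≤ β * u * J := by
    have := mul_le_mul_of_nonneg_right C.t4 huJ
    linarith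
  have e3 : 2000 * (θ * u * J) ≤ β * u * J := by
    have := mul_le_mul_of_nonneg_right C.t1 huJ
    linarith
  have e4 : Cg * Y + 1 ≤ β * u * J / 4 := by linarith
  have e5 : β * (u * J) ≤ 1 * (u * J) := mul_le_mul_of_nonneg_right C.β1 huJ
  have e6 : β * (u * J) ≤ ι * (u * J) := mul_le_mul_of_nonneg_right C.β6 huJ
  have e7 : β * (u * J) ≤ ξ * (u * J) := mul_le_mul_of_nonneg_right C.βξ huJ
  have e8 : κ₂ * (u * J) ≤ ξ / 2 * (u * J) := mul_le_mul_of_nonneg_right hκ₂ huJ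
  have hβ : 0 ≤ β * (u * J) := by
    have := C.β0
    positivity
  refine ⟨by linarith, by linarith, by linarith, by linarith⟩

end CS

end Pool.V0F
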