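import Pool.Agent.H44.V0F.Clb
import Pool.Agent.H44.V0F.Evg
import Pool.Agent.H44.V0F.Num4
import Pool.Agent.H44.V0F.Num5

/-!
# The base coordinates over the charts of an earlier window: small steps

Small steps of the assembly `V0c.lean`.
-/

set_option autoImplicit false

namespace Pool.V0F

open Finset Real MvPolynomial
open Pool.Agent.H49.Ent Pool.Agent.H32.Dense
open Pool.STK hiding pr2
open Pool.KA Pool.KSAT Pool.K2S Pool.PB Pool.S6C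
open Pool.GEN Pool.CHT Pool.CHX Pool.ISO Pool.LA91 Pool.AVG71 Pool.AVG5 Pool.D2F2 Pool.AVG57
open Pool.RCD Pool.AVG96 Pool.OWN68
open Pool.PB.Trl (rt rt_mem t_rt)
open Pool.D2R (WinB gnh hgt hyb hybH GrdE chs hyb_hi hyb_lo)
open Pool.BFL (Pb)

theorem pb_le {Ω : Type} [Fintype Ω] {p : Ω → ℝ} (hp : ∀ ω, 0 ≤ p ω) {A B : Ω → Prop}
    (h : ∀ ω, A ω → B ω) : Pb p A ≤ Pb p B := by
  classical
  unfold Pb
  refine Finset.sum_le_sum fun ω _ => ?_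
  by_cases h1 : A ω
  · rw [if_pos h1, if_pos (h ω h1)]
  · rw [if_neg h1]
    split_ifs
    · exact hp ω
    · exact le_rfl

/-- The charts of the first windows are closed. -/
theorem chs_cl2 {m J : ℕ} {F : Fam m J} {A : F.Ω → Prop} {r n : ℕ} {o : ℝ} (ho : o ≤ 1)
    {G : ℕ → PtT F → ℕ → MvPolynomial (Option (Fin m)) ℝ} {W : ℕ → ℕ}
    {H : ℕ → LnT F → ℕ → MvPolynomial (Option (Fin m)) ℝ}
    (hW : ∀ k ≤ n, W k ≤ ⌊o * J⌋₊)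
    (h : ∀ k ≤ n, ∀ ω, A ω → ∀ l ≤ r, G k (ptr F J ω) l = H k (slam F (W k) ω) l) :
    Cl2 (ptr F J) (vg o J F) A (chs F r n G) := by
  refine ⟨⟨fun y k l => G k y l, fun ω _ => rfl⟩,
    fun s k l => H k (upw (W k) ⌊o * J⌋₊ s) l, fun ω hω => ?_⟩
  funext k l
  show G k (ptr F J ω) l = H k (upw (W k) ⌊o * J⌋₊ (slam F ⌊o * J⌋₊ ω)) l
  rw [upw_slam F (hW k (Nat.le_of_lt_succ k.2)) (floor_le ho J)]
  exact h k (Nat.le_of_lt_succ k.2) ω hω l (Nat.le_of_lt_succ l.2)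

/-- The canonical record at an earlier window. -/
theorem det_slam {m J : ℕ} {F : Fam m J} {A : F.Ω → Prop} {w : ℝ} {W : ℕ} (hw : ⌊w * J⌋₊ ≤ W)
    (hW : W ≤ J) {p : F.Ω → ℝ} (hp : ∀ ω, 0 < p ω → A ω) : Det p (slam F W) (cR F A w) := by
  intro ω ν hω hν e
  funext D
  obtain ⟨ψ, hψ⟩ := D.2.2
  show D.1 ω = D.1 ν
  rw [hψ ω (hp ω hω), hψ ν (hp ν hν)]
  congr 1
  show slam F ⌊w * J⌋₊ ω = slam F ⌊w * J⌋₊ ν
  rw [← upw_slam F hw hW ω, ← upw_slam F hw hW ν, e]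

/-- The number of coordinates. -/
theorem m_eq {m r : ℕ} {c : ℕ → Fin m} (hc : Set.InjOn c (Set.Iio (r + 1)))
    (hI : (range r).image c = univ.erase (c r)) : m = r + 1 := by
  have h1 : ((range r).image c).card = r := by
    rw [Finset.card_image_of_injOn, card_range]
    intro x hx y hy hxy
    have hx' : x < r := by simpa using hx
    have hy' : y < r := by simpa using hy
    exact hc (show x < r + 1 by omega) (show y < r + 1 by omega) hxy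
  have h2 : (univ.erase (c r)).card = m - 1 := by
    rw [Finset.card_erase_of_mem (mem_univ _), card_univ, Fintype.card_fin]
  rw [hI, h2] at h1
  have := Fin.pos (c r)
  omega

/-- **The digits of the velocities.** -/
theorem pq_ex {r K : ℕ} {s : ℝ} {sn : ℕ → ℝ → ℝ} {G : Set ℝ} {b o φ w u y ξ T Λ : ℝ}
    {lam : ℝ → ℝ} {j x x' xr v₀ w₁ vq oq : ℝ}
    (Nn : NS r K s sn G b o φ w u y ξ T Λ lam j x x' xr v₀ w₁ vq oq) : ∃ Pq : ℕ → ℚ,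
    (∀ l < r, sn l w - w + (T + 1) * u ≤ (Pq l : ℝ)) ∧
    (∀ l < r, nfF r sn w x' φ l - w ≤ (Pq l : ℝ)) ∧
    (∀ i : Fin r, sn i w - w + u ≤ (Pq i : ℝ) ∧ (Pq i : ℝ) ≤ sn i w - w + Λ * u) ∧
    (∀ l i : Fin r, l < i → (Pq i : ℝ) - (sn i w - w) + u / 2 ≤ Pq l - (sn l w - w)) ∧
    w₁ ≤ x' ∧ x' ≤ w + Λ * u ∧ w₁ ≤ vq ∧ vq ≤ oq ∧ oq ≤ w + Λ * u := by
  obtain ⟨i1, i2, i3, i4, i5, i6, i7, i8, i9, i10, i11, i12, i13, i14⟩ := Nn.wins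
  have hu := Nn.u0
  have hTu := Nn.Tu0
  have hroom := Nn.room
  have hru := Nn.ru0
  have hyu := Nn.yu
  obtain ⟨t1, t2, t3, t4, t5, t6⟩ := Nn.sm
  have hPex : ∀ l : ℕ, ∃ q : ℚ, sn l w - w + (T + 1 + ((r : ℝ) - l)) * u < q ∧
      (q : ℝ) < sn l w - w + (T + 1 + ((r : ℝ) - l)) * u + u / 4 := fun l =>
    exists_rat_btwn (by linarith only [hu])
  choose Pq hPq1 hPq2 using hPex
  have hrl : ∀ l < r, 0 ≤ ((r : ℝ) - l) * u ∧ ((r : ℝ) - l) * u ≤ r * u := by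
    intro l hl
    have h1 : (l : ℝ) ≤ r := by exact_mod_cast hl.le
    have h2 : (0 : ℝ) ≤ l := Nat.cast_nonneg l
    exact ⟨mul_nonneg (by linarith) hu.le, mul_le_mul_of_nonneg_right (by linarith) hu.le⟩
  refine ⟨Pq, fun l hl => ?_, fun l hl => ?_, fun i => ⟨?_, ?_⟩, fun l i hli => ?_,
    by linarith only [i2, i3, i4, i5, i6], by linarith only [i12, hroom, hTu, hru, t4, hyu, t1,
      t2, t3, hu], i3.trans Nn.hq1, i10, by linarith only [i11, i12, hroom, hTu, hru, t4, hyu,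
      t1, t2, t3, hu]⟩
  · have h1 := hPq1 l
    have h2 := hrl l hl
    linarith only [h1, h2.1]
  · have h1 := hPq1 l
    have h2 := hrl l hl
    obtain ⟨j1, j2, j3⟩ := Nn.li hl
    unfold nfF
    linarith only [h1, h2.1, j2, t4, t1, t2, t3, t5, t6, hyu, i12]
  · have h1 := hPq1 i
    have h2 := hrl i i.2
    linarith only [h1, h2.1, hTu, hu]
  · have h1 := hPq2 i
    have h2 := hrl i i.2
    linarith only [h1, h2.2, hTu, hu, hroom, hru]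
  · have h1 := hPq1 (l : ℕ)
    have h2 := hPq2 (i : ℕ)
    have h3 : ((l : ℕ) : ℝ) + 1 ≤ ((i : ℕ) : ℝ) := by exact_mod_cast hli
    have h4 : (((r : ℝ) - (i : ℕ)) + 1) * u ≤ ((r : ℝ) - (l : ℕ)) * u :=
      mul_le_mul_of_nonneg_right (by linarith only [h3]) hu.le
    linarith only [h1, h2, h4, hu]

/-- **The numbers from the small constants.** -/
theorem cst_u {r D Cg Cc : ℕ} {s τ ξ ι δ₁ δ₂ θ β φ φ₀ u y : ℝ}
    (C : CS r D Cg Cc s τ ξ ι δ₁ δ₂ θ β) (hs : 1 < s) (hφ₀' : φ₀ = θ / (r + 2 + s))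
    (hu : 0 < u) (hφ0 : 0 < φ) (hφ₀ : φ ≤ φ₀ * u) (hy : y = ((r : ℝ) + 2 + s) * φ) :
    φ₀ * u ≤ θ * u ∧ 0 ≤ φ₀ * u ∧ y ≤ θ * u ∧ 0 ≤ y ∧ φ ≤ θ * u ∧ 2000 * y ≤ u ∧
      2000 * y ≤ ξ * u ∧ 2000 * y ≤ (s - 1 - ξ) * u ∧ 60 * ((r : ℝ) + 2) * φ ≤ δ₁ * u ∧
      60 * ((r : ℝ) + 2) ^ 2 * φ ≤ δ₂ * u ∧ (Cc : ℝ) * (2 * φ) ≤ u := by
  have hr0 : (0 : ℝ) ≤ r := Nat.cast_nonneg r
  have hθ0 := C.θ0
  have hrs : (0 : ℝ) < (r : ℝ) + 2 + s := by linarith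
  have hφ₀0 : 0 < φ₀ := by rw [hφ₀']; positivity
  have hφ₀θ : φ₀ ≤ θ := by
    rw [hφ₀']
    exact div_le_self hθ0.le (by linarith)
  have hφ₀u : φ₀ * u ≤ θ * u := mul_le_mul_of_nonneg_right hφ₀θ hu.le
  have hyθ : y ≤ θ * u := by
    have h1 : ((r : ℝ) + 2 + s) * φ ≤ ((r : ℝ) + 2 + s) * (φ₀ * u) :=
      mul_le_mul_of_nonneg_left hφ₀ hrs.le
    have h2 : ((r : ℝ) + 2 + s) * (φ₀ * u) = θ * u := by
      rw [hφ₀']
      field_simp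
    rw [hy]
    linarith
  have hy0 : 0 ≤ y := by rw [hy]; positivity
  have hφθ : φ ≤ θ * u := hφ₀.trans hφ₀u
  have hβu : 2000 * (θ * u) ≤ β * u := by
    have := mul_le_mul_of_nonneg_right C.t1 hu.le
    linarith
  have c1 := mul_le_mul_of_nonneg_right C.β1 hu.le
  have c2 := mul_le_mul_of_nonneg_right C.βξ hu.le
  have c3 := mul_le_mul_of_nonneg_right C.βs hu.le
  have c4 := mul_le_mul_of_nonneg_right C.β3 hu.le
  have c5 := mul_le_mul_of_nonneg_right C.β4 hu.le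
  have c6 := mul_le_mul_of_nonneg_right C.t2 hu.le
  have c7 := mul_le_mul_of_nonneg_right C.t3 hu.le
  have hr2 : (0 : ℝ) ≤ 60 * ((r : ℝ) + 2) ^ 2 := by positivity
  have h1 := mul_le_mul_of_nonneg_left hφθ hr2
  have h4 : 60 * ((r : ℝ) + 2) * φ ≤ 60 * ((r : ℝ) + 2) ^ 2 * φ :=
    mul_le_mul_of_nonneg_right (by nlinarith) hφ0.le
  have h5 : 2 * (Cc : ℝ) * φ ≤ 2 * (Cc : ℝ) * (θ * u) :=
    mul_le_mul_of_nonneg_left hφθ (by positivity)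
  refine ⟨hφ₀u, by positivity, hyθ, hy0, hφθ, ?_, ?_, ?_, ?_, ?_, ?_⟩
  · linarith only [hyθ, hβu, c1]
  · linarith only [hyθ, hβu, c2]
  · linarith only [hyθ, hβu, c3]
  · linarith only [h4, h1, c6, c4]
  · linarith only [h1, c6, c5]
  · linarith only [h5, c7, c1]

/-- **The floors.** -/
structure Fl (u y ξ φ w w₁ : ℝ) (J q X Y I : ℕ) : Prop where
  y1 : 1000 * y * J + 3 ≤ Y
  y2 : (Y : ℝ) ≤ 1000 * y * J + 4
  q1 : (u + 500 * y) * J - 1 ≤ q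
  q2 : (q : ℝ) ≤ (u + 500 * y) * J
  x1 : ξ * u * J - 1 ≤ X
  x2 : (X : ℝ) ≤ ξ * u * J
  i1 : φ / 4 * J ≤ I
  i2 : (I : ℝ) ≤ φ / 4 * J + 1
  w1 : (⌊w₁ * J⌋₊ : ℝ) ≤ w * J + φ * J
  w2 : ⌊w * J⌋₊ ≤ ⌊w₁ * J⌋₊
  w3 : w * J - 1 ≤ ⌊w * J⌋₊

theorem fl_ex {u y ξ φ w w₁ : ℝ} (J : ℕ) (hu : 0 < u) (hy : 0 ≤ y) (hξ : 0 < ξ) (hφ : 0 < φ)
    (hw : 0 ≤ w) (h1 : w ≤ w₁) (h2 : w₁ ≤ w + φ) :
    Fl u y ξ φ w w₁ J ⌊(u + 500 * y) * (J : ℝ)⌋₊ ⌊ξ * u * (J : ℝ)⌋₊ (⌈1000 * y * (J : ℝ)⌉₊ + 3)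
      ⌈φ / 4 * (J : ℝ)⌉₊ := by
  have hJ0 : (0 : ℝ) ≤ J := Nat.cast_nonneg J
  have mj : ∀ {a a' : ℝ}, a ≤ a' → a * J ≤ a' * J := fun h => mul_le_mul_of_nonneg_right h hJ0
  refine ⟨?_, ?_, ?_, ?_, ?_, ?_, ?_, ?_, ?_, ?_, ?_⟩
  · push_cast
    have := Nat.le_ceil (1000 * y * (J : ℝ))
    linarith
  · push_cast
    have := (Nat.ceil_lt_add_one (show 0 ≤ 1000 * y * (J : ℝ) by positivity)).le
    linarith
  · have := Nat.lt_floor_add_one ((u + 500 * y) * (J : ℝ))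
    linarith
  · exact Nat.floor_le (by positivity)
  · have := Nat.lt_floor_add_one (ξ * u * (J : ℝ))
    linarith
  · exact Nat.floor_le (by positivity)
  · exact Nat.le_ceil _
  · exact (Nat.ceil_lt_add_one (by positivity)).le
  · have h3 : (⌊w₁ * (J : ℝ)⌋₊ : ℝ) ≤ w₁ * J := Nat.floor_le (mul_nonneg (by linarith) hJ0)
    have h4 := mj h2
    linarith
  · exact Nat.floor_le_floor (mj h1)
  · have := Nat.lt_floor_add_one (w * (J : ℝ))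
    linarith

/-- **The numbers of the event.** -/
theorem nj_of {r D Cg Cc : ℕ} {s τ ξ ι δ₁ δ₂ θ β : ℝ} (C : CS r D Cg Cc s τ ξ ι δ₁ δ₂ θ β)
    {u y φ w w₁ κ κ₂ κ₂' Ca Z : ℝ} {J q X Y I : ℕ} {sn : ℕ → ℝ → ℝ} {γ : ℕ → ℕ} {X₀ X₁ j₀ nb n i₀ : ℕ}
    (E : Fl u y ξ φ w w₁ J q X Y I) (hτ : 0 < τ) (hξ1 : ξ ≤ 1) (hu : 0 < u) (hκ : 0 < κ)
    (hφ : 0 < φ) (hyθ : y ≤ θ * u) (hφθ : φ ≤ θ * u) (hCg : 1 ≤ Cg) (hCa : 0 ≤ Ca)
    (hκ2 : κ₂' ≤ 1) (hκ0 : 0 < κ₂') (hκe : κ₂ = κ₂' * ξ / 2) (hξ0 : 0 < ξ)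
    (hZ : Z = 10 + 1 / κ + (1 + Z2 r D Ca) + (2 + 2 * Real.log 5) +
      (4 * (Cg : ℝ) + 1) + (X₀ + 1) + (X₁ + 1) + nb + n + j₀) (hZφ : Z ≤ φ * J)
    (hw3 : w + 3 * φ ≤ 1) (hg1 : ∀ l ≤ r, (sn l w - φ) * J ≤ γ l)
    (hg2 : ∀ l ≤ r, (γ l : ℝ) ≤ sn l w * J) (hi₀ : i₀ < I) :
    NJ r sn φ w u y ξ κ J γ q X (Cg * Y + 1) (⌊w₁ * J⌋₊ + i₀) ∧
    ((⌊w₁ * J⌋₊ + i₀ : ℕ) : ℝ) ≤ (w + 2 * φ) * J ∧ X₀ ≤ X ∧ X₁ ≤ X ∧
    ((Cg * Y + 1 : ℕ) : ℝ) ≤ τ * X ∧ (Cg : ℝ) * Y ≤ ι * u * J ∧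
    κ₂ * u * J + Cg * Y ≤ X ∧ κ₂ * u * J ≤ κ₂' * X ∧ 1 + Z2 r D Ca ≤ θ * u * J ∧
    2 + 2 * Real.log 5 ≤ θ * u * J ∧ (nb : ℝ) ≤ φ * J ∧ (n : ℝ) ≤ φ * J ∧ 10 ≤ φ * J := by
  have hJ0 : (0 : ℝ) ≤ J := Nat.cast_nonneg J
  have hl5 : 0 < Real.log 5 := Real.log_pos (by norm_num)
  have hZ2 := Z2_nonneg r D hCa
  have hκ' : 0 < 1 / κ := by positivity
  have hX0' : (0 : ℝ) ≤ X₀ := Nat.cast_nonneg _
  have hX1' : (0 : ℝ) ≤ X₁ := Nat.cast_nonneg _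
  have hnb0 : (0 : ℝ) ≤ nb := Nat.cast_nonneg _
  have hn0 : (0 : ℝ) ≤ n := Nat.cast_nonneg _
  have hj00 : (0 : ℝ) ≤ j₀ := Nat.cast_nonneg _
  have hCg0 : (0 : ℝ) ≤ Cg := Nat.cast_nonneg _
  have hφθJ : φ * J ≤ θ * u * J := mul_le_mul_of_nonneg_right hφθ hJ0
  have c1 : 10 + 1 / κ ≤ φ * J := by linarith
  have c2 : 1 + Z2 r D Ca ≤ θ * u * J := by linarith
  have c3 : 2 + 2 * Real.log 5 ≤ θ * u * J := by linarith
  have c4 : 4 * (Cg : ℝ) + 1 ≤ θ * u * J := by linarith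
  have c5 : (X₀ : ℝ) + 1 ≤ θ * u * J := by linarith
  have c6 : (X₁ : ℝ) + 1 ≤ θ * u * J := by linarith
  have c7 : (nb : ℝ) ≤ φ * J := by linarith
  have c8 : (n : ℝ) ≤ φ * J := by linarith
  have c9 : (10 : ℝ) ≤ φ * J := by linarith
  have hκ₂ξ : κ₂ ≤ ξ / 2 := by
    rw [hκe]
    have : κ₂' * ξ ≤ 1 * ξ := mul_le_mul_of_nonneg_right hκ2 hξ0.le
    linarith
  obtain ⟨m1, m2, m3, m4⟩ := C.mm_le hτ hξ1 hu hJ0 E.x1 hyθ hκ₂ξ E.y2 c4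
  obtain ⟨x1, x2, x3⟩ := C.X_le hτ hu hJ0 E.x1 (by linarith only [c2, hZ2])
  have hi₀R : (i₀ : ℝ) ≤ I := by exact_mod_cast hi₀.le
  have h1 : β * (u * J) ≤ ξ * (u * J) := mul_le_mul_of_nonneg_right C.βξ (by positivity)
  have h2 : 2000 * θ * (u * J) ≤ β * (u * J) := mul_le_mul_of_nonneg_right C.t1 (by positivity)
  have hβ0 : 0 ≤ β * (u * J) := by
    have := C.β0
    positivity
  have hX := E.x1
  have hX3 : θ * u * J ≤ X := by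
    have : 0 ≤ θ * u * J := by
      have := C.θ0
      positivity
    linarith only [h1, h2, hX, this, c2, hZ2]
  have hW2 : ((⌊w₁ * J⌋₊ + i₀ : ℕ) : ℝ) ≤ (w + 2 * φ) * J := by
    push_cast
    have e1 := E.w1
    have e2 := E.i2
    linarith only [e1, e2, hi₀R, c9]
  have hY0 : (1 : ℝ) * Y ≤ Cg * Y :=
    mul_le_mul_of_nonneg_right (by exact_mod_cast hCg) (Nat.cast_nonneg _)
  refine ⟨?_, hW2, ?_, ?_, ?_, m3, m4, ?_, c2, c3, c7, c8, c9⟩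
  · refine
      { κ0 := hκ
        big := c1
        g1 := hg1
        g2 := hg2
        q1 := E.q1
        q2 := E.q2
        X1 := E.x1
        X2 := E.x2
        mm1 := ?_
        mm2 := ?_
        W1 := ?_
        W2 := hW2 }
    · push_cast
      have := E.y1
      linarith only [this, hY0]
    · push_cast
      exact m2
    · push_cast
      have e1 := E.w3
      have e2 : (⌊w * J⌋₊ : ℝ) ≤ ⌊w₁ * J⌋₊ := by exact_mod_cast E.w2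
      have e3 : (0 : ℝ) ≤ i₀ := Nat.cast_nonneg _
      linarith only [e1, e2, e3]
  · have : (X₀ : ℝ) ≤ X := by linarith only [c5, hX3]
    exact_mod_cast this
  · have : (X₁ : ℝ) ≤ X := by linarith only [c6, hX3]
    exact_mod_cast this
  · push_cast
    exact m1
  · rw [hκe]
    have e3 : κ₂' * (ξ * u * J / 2) ≤ κ₂' * X := by
      refine mul_le_mul_of_nonneg_left ?_ hκ0.le
      linarith only [x1, hβ0, h1]
    linarith only [e3]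

end Pool.V0F
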