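import Pool.Agent.H44.V0F.Ev1

/-!
# The fields `mj`, `mx`, `vf` of the event from the law

`CH_dig`: digits of a number from other digits of it. `jh`, `jv`: digits of the own heights and of the
own velocities. `pr_mj`, `pr_mx`, `pr_vf`: the fields of `PrA` from `VLaw2`.
-/

set_option autoImplicit false

namespace Pool.V0F

open Finset Real MvPolynomial
open Pool.Agent.H49.Ent Pool.Agent.H32.Dense
open Pool.STK hiding pr2
open Pool.KA Pool.KSAT Pool.K2S Pool.PB Pool.S6C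
open Pool.GEN Pool.CHT Pool.CHX Pool.ISO Pool.LA91 Pool.AVG71 Pool.AVG5 Pool.D2F2 Pool.AVG57
open Pool.PB.Trl (rt rt_mem t_rt)
open Pool.KVA (MI)

section ent

variable {Ω 𝓡 𝓨 𝓦 𝓥 𝓐 𝓢 : Type} [Fintype Ω] {p : Ω → ℝ}

/-- **Digits of a number** from other digits of it. -/
theorem CH_dig (hp : IsLaw p) {a b : ℝ} (x : Ω → ℝ) (Z : Ω → 𝓦)
    (hZ : Det p Z (fun ω => ⌊(2 : ℝ) ^ a * x ω⌋)) :
    CH p (fun ω => ⌊(2 : ℝ) ^ b * x ω⌋) Z ≤ max (b - a) 0 * Real.log 2 + Real.log 5 := by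
  have pa : (0 : ℝ) < 2 ^ a := Real.rpow_pos_of_pos two_pos _
  have pb : (0 : ℝ) < 2 ^ b := Real.rpow_pos_of_pos two_pos _
  obtain ⟨L, hL⟩ : ∃ L : ℝ, L = 2 ^ (max (b - a) 0) := ⟨_, rfl⟩
  have hL1 : 1 ≤ L := by
    rw [hL]
    exact Real.one_le_rpow (by norm_num) (le_max_right _ _)
  have h1 : (2 : ℝ) ^ b * (1 / 2 ^ a) ≤ L := by
    rw [mul_one_div, ← Real.rpow_sub two_pos, hL]
    exact Real.rpow_le_rpow_of_exponent_le one_le_two (le_max_left _ _)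
  have h2 := CH_pair_int hp (fun ω => ⌊(2 : ℝ) ^ b * x ω⌋) Z (D := L + 1) (by linarith)
    (fun ω ν hω hν e => by
      have e1 := near_of_floor pa (hZ ω ν hω hν e)
      refine floor_near' ?_
      rw [← mul_sub, abs_mul, abs_of_pos pb]
      exact (mul_le_mul_of_nonneg_left e1 pb.le).trans h1)
  refine h2.trans ?_
  have h3 : Real.log (2 * (L + 1) + 1) ≤ Real.log (L * 5) :=
    Real.log_le_log (by linarith) (by linarith)
  refine h3.trans (le_of_eq ?_)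
  rw [Real.log_mul (by linarith) (by norm_num), hL, Real.log_rpow two_pos]

/-- A side variable in both places of the information. -/
theorem mi_side (h0 : ∀ ω, 0 ≤ p ω) (R : Ω → 𝓡) {A : Ω → 𝓨} {A' : Ω → 𝓐} {s : Ω → 𝓢} {W : Ω → 𝓦}
    {W' : Ω → 𝓥} {e : ℝ} (h1 : Det p (fun ω => (A ω, W' ω)) A') (h2 : Det p W' W)
    (h3 : Det p (fun ω => (A' ω, W' ω)) A) (h4 : Det p (fun ω => (s ω, W ω)) W')
    (hs : CH p s W ≤ e) : MI p R A' W' ≤ MI p R A W + e := by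
  rw [MI_eq' h0, MI_eq' h0]
  have a1 : CH p A' W' ≤ CH p A W' := by
    have b1 := CH_le_add h0 A' A W'
    have b2 : CH p A' (fun ω => (A ω, W' ω)) = 0 := CH_eq_zero h0 h1
    linarith
  have a2 : CH p A W' ≤ CH p A W := CH_mono_cond h0 h2
  have a3 : CH p A (fun ω => (R ω, W' ω)) ≤ CH p A' (fun ω => (R ω, W' ω)) := by
    have b1 := CH_le_add h0 A A' (fun ω => (R ω, W' ω))
    have b2 : CH p A (fun ω => (A' ω, (R ω, W' ω))) = 0 := CH_eq_zero h0 fun ω ν hω hν e => by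
      simp only [Prod.mk.injEq] at e
      exact h3 ω ν hω hν (Prod.ext e.1 e.2.2)
    linarith
  have a4 := CH_ge h0 A s (fun ω => (R ω, W ω))
  have a5 : CH p A (fun ω => (s ω, (R ω, W ω))) ≤ CH p A (fun ω => (R ω, W' ω)) :=
    CH_mono_cond h0 fun ω ν hω hν e => by
      simp only [Prod.mk.injEq] at e ⊢
      exact ⟨e.2.1, h4 ω ν hω hν (Prod.ext e.1 e.2.2)⟩
  have a6 : CH p s (fun ω => (R ω, W ω)) ≤ CH p s W :=
    CH_mono_cond h0 fun ω ν _ _ e => (Prod.ext_iff.mp e).2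
  linarith

/-- A number of absolute value less than one. -/
theorem CH_sgn (hp : IsLaw p) (x : Ω → ℝ) (Z : Ω → 𝓦) (h : ∀ ω, 0 < p ω → |x ω| < 1) :
    CH p (fun ω => ⌊x ω⌋) Z ≤ Real.log 2 := by
  have h1 := Pool.OWN83.CH_int hp (fun ω => ⌊x ω⌋) Z (fun _ => -(1 / 2)) (D := 1 / 2)
    (by norm_num) (fun ω hω => by
      have h2 := abs_lt.1 (h ω hω)
      have h3 : -1 ≤ ⌊x ω⌋ := Int.le_floor.2 (by push_cast; linarith [h2.1])
      have h4 : ⌊x ω⌋ ≤ 0 := by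
        have : ⌊x ω⌋ < 1 := Int.floor_lt.2 (by push_cast; linarith [h2.2])
        omega
      have h3' : (-1 : ℝ) ≤ ⌊x ω⌋ := by exact_mod_cast h3
      have h4' : (⌊x ω⌋ : ℝ) ≤ 0 := by exact_mod_cast h4
      rw [abs_le]
      constructor <;> linarith)
  refine h1.trans (le_of_eq ?_)
  norm_num

end ent

variable {m J : ℕ}

/-- The digits `n l` of the own heights. -/
noncomputable def jh (F : Fam m J) (c : ℕ → Fin m) (r w : ℕ)
    (H : LnT F → ℕ → MvPolynomial (Option (Fin m)) ℝ) (n : ℕ → ℝ) (ω : F.Ω) (l j' : ℕ) : ℤ :=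
  if l < r ∧ j' = 0 then ⌊(2 : ℝ) ^ (n l * J) * ojet F (c l) 0 (H (slam F w ω) l) ω⌋ else 0

/-- The digits `P l` of the own velocities. -/
noncomputable def jv (F : Fam m J) (c : ℕ → Fin m) (r w : ℕ)
    (H : LnT F → ℕ → MvPolynomial (Option (Fin m)) ℝ) (P : ℕ → ℝ) (ω : F.Ω) (l : Fin r) : ℤ :=
  ⌊(2 : ℝ) ^ (P l * J) * ojet F (c l) 1 (H (slam F w ω) l) ω⌋

/-- The digits `N` of the own height of the place `l`. -/
noncomputable def th0 (F : Fam m J) (c : ℕ → Fin m) (l w : ℕ)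
    (H : LnT F → ℕ → MvPolynomial (Option (Fin m)) ℝ) (N : ℝ) (ω : F.Ω) : ℤ :=
  ⌊(2 : ℝ) ^ (N * J) * ojet F (c l) 0 (H (slam F w ω) l) ω⌋

section

variable {F : Fam m J} {c : ℕ → Fin m} {r w : ℕ}
  {H : LnT F → ℕ → MvPolynomial (Option (Fin m)) ℝ} {p : F.Ω → ℝ}

theorem jet2_jh (N : ℕ → ℕ → ℝ) :
    Det p (jet2 F c w H 0 (0 + r) N) (jh F c r w H fun l => N l 0) := by
  intro ω ν _ _ e
  funext l j'
  unfold jh
  by_cases h : l < r ∧ j' = 0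
  · obtain ⟨h1, rfl⟩ := h
    have e1 := congrFun (congrFun e l) 0
    unfold jet2 at e1
    rw [if_pos ⟨Nat.zero_le _, by omega, by omega⟩, if_pos ⟨Nat.zero_le _, by omega, by omega⟩]
      at e1
    rw [if_pos ⟨h1, rfl⟩, if_pos ⟨h1, rfl⟩]
    exact e1
  · rw [if_neg h, if_neg h]

theorem jet2_jv (N : ℕ → ℕ → ℝ) :
    Det p (jet2 F c w H 0 (0 + r) N) (jv F c r w H fun l => N l 1) := by
  intro ω ν _ _ e
  funext l
  unfold jv
  have e1 := congrFun (congrFun e l) 1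
  unfold jet2 at e1
  rw [if_pos ⟨Nat.zero_le _, by omega, by omega⟩, if_pos ⟨Nat.zero_le _, by omega, by omega⟩] at e1
  exact e1

theorem jhv_jet2 (N : ℕ → ℕ → ℝ) :
    Det p (fun ω => (jh F c r w H (fun l => N l 0) ω, jv F c r w H (fun l => N l 1) ω))
      (jet2 F c w H 0 (0 + r) N) := by
  intro ω ν _ _ e
  simp only [Prod.mk.injEq] at e
  obtain ⟨e1, e2⟩ := e
  funext l j'
  unfold jet2
  by_cases h : 0 ≤ l ∧ l < 0 + r ∧ j' ≤ 1
  · rw [if_pos h, if_pos h]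
    have hl : l < r := by omega
    have hj : j' = 0 ∨ j' = 1 := by omega
    rcases hj with rfl | rfl
    · have e3 := congrFun (congrFun e1 l) 0
      unfold jh at e3
      rw [if_pos ⟨hl, rfl⟩, if_pos ⟨hl, rfl⟩] at e3
      exact e3
    · exact congrFun e2 ⟨l, hl⟩
  · rw [if_neg h, if_neg h]

theorem yv_W (p : F.Ω → ℝ) : Det p (yv c 0 J F) F.W := fun _ _ _ _ e => (Prod.ext_iff.mp e).1

theorem W_yv (p : F.Ω → ℝ) : Det p F.W (yv c 0 J F) := fun ω ν _ _ e => by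
  unfold yv
  simp only [range_zero, image_empty, notMem_empty, if_false]
  rw [e]

/-- Other digits of the own heights. -/
theorem CH_jh (hp : IsLaw p) {n n' : ℕ → ℝ} {d : ℝ} (hd : ∀ l < r, (n' l - n l) * J ≤ d)
    (hd0 : 0 ≤ d) {𝓦 : Type} (Z : F.Ω → 𝓦) (hZ : Det p Z (jh F c r w H n)) :
    CH p (jh F c r w H n') Z ≤ r * (d * Real.log 2 + Real.log 5) := by
  have h0 := hp.nonneg
  have hl2 : 0 < Real.log 2 := Real.log_pos one_lt_two
  have h1 : CH p (jh F c r w H n') Z ≤ CH p (fun ω (l : Fin r) =>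
      ⌊(2 : ℝ) ^ (n' l * J) * ojet F (c l) 0 (H (slam F w ω) l) ω⌋) Z := by
    refine CH_mono_left h0 fun ω ν _ _ e => ?_
    funext l j'
    unfold jh
    by_cases h : l < r ∧ j' = 0
    · rw [if_pos h, if_pos h]
      exact congrFun (Prod.ext_iff.mp e).1 ⟨l, h.1⟩
    · rw [if_neg h, if_neg h]
  refine h1.trans (ch_vec h0 Z r _ fun l => ?_)
  have h2 := CH_dig hp (a := n l * J) (b := n' l * J)
    (fun ω => ojet F (c l) 0 (H (slam F w ω) l) ω) Z (fun ω ν hω hν e => by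
      have e1 := congrFun (congrFun (hZ ω ν hω hν e) l) 0
      unfold jh at e1
      rw [if_pos ⟨l.2, rfl⟩, if_pos ⟨l.2, rfl⟩] at e1
      exact e1)
  refine h2.trans (add_le_add (mul_le_mul_of_nonneg_right (max_le ?_ hd0) hl2.le) le_rfl)
  have := hd l l.2
  linarith

/-- Other digits of the own velocities. -/
theorem CH_jv (hp : IsLaw p) {n n' : ℕ → ℝ} {d : ℝ} (hd : ∀ l < r, (n' l - n l) * J ≤ d)
    (hd0 : 0 ≤ d) {𝓦 : Type} (Z : F.Ω → 𝓦) (hZ : Det p Z (jv F c r w H n)) :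
    CH p (jv F c r w H n') Z ≤ r * (d * Real.log 2 + Real.log 5) := by
  have h0 := hp.nonneg
  have hl2 : 0 < Real.log 2 := Real.log_pos one_lt_two
  refine ch_vec h0 Z r _ fun l => ?_
  have h2 := CH_dig hp (a := n l * J) (b := n' l * J)
    (fun ω => ojet F (c l) 1 (H (slam F w ω) l) ω) Z (fun ω ν hω hν e =>
      congrFun (hZ ω ν hω hν e) l)
  refine h2.trans (add_le_add (mul_le_mul_of_nonneg_right (max_le ?_ hd0) hl2.le) le_rfl)
  have := hd l l.2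
  linarith

variable {ζ ρ₁ ρ₂ ρ₃ ξ₆ : Type} {zw : F.Ω → ζ} {Rj : F.Ω → ρ₁} {Rx : F.Ω → ρ₂} {R' : F.Ω → ρ₃}
  {XJ : F.Ω → ξ₆} {Fv Gf κ : ℝ} {Nn Nf Nv : ℕ → ℕ → ℝ} {Mf Mn : ℕ → ℝ}

/-- **The field `mx`.** -/
theorem pr_mx (V : VLaw2 p zw Rj Rx R' F.W (jh F c r w H fun l => Nn l 0)
      (jh F c r w H fun l => Nf l 0) (jv F c r w H fun l => Nn l 1)
      (jv F c r w H fun l => Nf l 1) (th0 F c r w H (Mn 0)) (th0 F c r w H (Mf 0)) XJ Fv Gf κ) :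
    MI p Rx (jet2 F c w H 0 (0 + r) Nf)
      (fun ω => (jet2 F c w H 0 (0 + r) Nn ω, (zw ω, yv c 0 J F ω))) ≤ 25 * κ := by
  have h1 := mi_side V.h0 Rx (A := fun ω => (jh F c r w H (fun l => Nf l 0) ω,
      jv F c r w H (fun l => Nf l 1) ω)) (A' := jet2 F c w H 0 (0 + r) Nf) (s := fun _ => ())
    (W := fun ω => ((jh F c r w H (fun l => Nn l 0) ω, jv F c r w H (fun l => Nn l 1) ω),
      (zw ω, F.W ω)))
    (W' := fun ω => (jet2 F c w H 0 (0 + r) Nn ω, (zw ω, yv c 0 J F ω))) (e := 0)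
    (fun ω ν hω hν e => jhv_jet2 Nf ω ν hω hν (Prod.ext_iff.mp e).1)
    (fun ω ν hω hν e => by
      simp only [Prod.mk.injEq] at e ⊢
      exact ⟨⟨jet2_jh Nn ω ν hω hν e.1, jet2_jv Nn ω ν hω hν e.1⟩, e.2.1,
        yv_W p ω ν hω hν e.2.2⟩)
    (fun ω ν hω hν e => by
      simp only [Prod.mk.injEq] at e ⊢
      exact ⟨jet2_jh Nf ω ν hω hν e.1, jet2_jv Nf ω ν hω hν e.1⟩)
    (fun ω ν hω hν e => by
      simp only [Prod.mk.injEq] at e ⊢
      exact ⟨jhv_jet2 Nn ω ν hω hν (Prod.ext e.2.1.1 e.2.1.2), e.2.2.1,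
        W_yv p ω ν hω hν e.2.2.2⟩)
    (le_of_eq (CH_eq_zero V.h0 fun _ _ _ _ _ => rfl))
  have h2 := V.mx
  linarith

/-- **The field `mj`.** -/
theorem pr_mj (hp : IsLaw p) (V : VLaw2 p zw Rj Rx R' F.W (jh F c r w H fun l => Nn l 0)
      (jh F c r w H fun l => Nf l 0) (jv F c r w H fun l => Nn l 1)
      (jv F c r w H fun l => Nf l 1) (th0 F c r w H (Mn 0)) (th0 F c r w H (Mf 0)) XJ Fv Gf κ)
    (hM : Mf 1 = Mn 1)
    (hs : ∀ ω, 0 < p ω → |(2 : ℝ) ^ (Mn 1 * J) * ojet F (c r) 1 (H (slam F w ω) r) ω| < 1) :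
    MI p Rj (fun ω => (jet2 F c w H 0 (0 + r) Nf ω, pr2 F c w H (0 + r) Mf ω))
      (fun ω => ((jet2 F c w H 0 (0 + r) Nn ω, pr2 F c w H (0 + r) Mn ω),
        (zw ω, yv c 0 J F ω))) ≤ 65 * κ + Real.log 2 := by
  have hr : 0 + r = r := Nat.zero_add r
  have hp1 : ∀ (M : ℕ → ℝ) (ω : F.Ω), pr2 F c w H (0 + r) M ω = (th0 F c r w H (M 0) ω,
      ⌊(2 : ℝ) ^ (M 1 * J) * ojet F (c r) 1 (H (slam F w ω) r) ω⌋) := by
    intro M ω
    unfold Pool.AVG57.pr2 th0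
    simp only [hr]
  have h1 := mi_side V.h0 Rj (A := fun ω => ((jh F c r w H (fun l => Nf l 0) ω,
      jv F c r w H (fun l => Nf l 1) ω), th0 F c r w H (Mf 0) ω))
    (A' := fun ω => (jet2 F c w H 0 (0 + r) Nf ω, pr2 F c w H (0 + r) Mf ω))
    (s := fun ω => ⌊(2 : ℝ) ^ (Mn 1 * J) * ojet F (c r) 1 (H (slam F w ω) r) ω⌋)
    (W := fun ω => (((jh F c r w H (fun l => Nn l 0) ω, jv F c r w H (fun l => Nn l 1) ω),
      th0 F c r w H (Mn 0) ω), (zw ω, F.W ω)))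
    (W' := fun ω => ((jet2 F c w H 0 (0 + r) Nn ω, pr2 F c w H (0 + r) Mn ω),
      (zw ω, yv c 0 J F ω))) (e := Real.log 2)
    (fun ω ν hω hν e => by
      simp only [Prod.mk.injEq, hp1, hM] at e ⊢
      exact ⟨jhv_jet2 Nf ω ν hω hν (Prod.ext e.1.1.1 e.1.1.2), e.1.2, e.2.1.2.2⟩)
    (fun ω ν hω hν e => by
      simp only [Prod.mk.injEq, hp1] at e ⊢
      exact ⟨⟨⟨jet2_jh Nn ω ν hω hν e.1.1, jet2_jv Nn ω ν hω hν e.1.1⟩, e.1.2.1⟩, e.2.1,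
        yv_W p ω ν hω hν e.2.2⟩)
    (fun ω ν hω hν e => by
      simp only [Prod.mk.injEq, hp1] at e ⊢
      exact ⟨⟨jet2_jh Nf ω ν hω hν e.1.1, jet2_jv Nf ω ν hω hν e.1.1⟩, e.1.2.1⟩)
    (fun ω ν hω hν e => by
      simp only [Prod.mk.injEq, hp1] at e ⊢
      exact ⟨⟨jhv_jet2 Nn ω ν hω hν (Prod.ext e.2.1.1.1 e.2.1.1.2), e.2.1.2, e.1⟩, e.2.2.1,
        W_yv p ω ν hω hν e.2.2.2⟩)
    (CH_sgn hp _ _ hs)
  have h2 := V.mj
  linarith

/-- **The field `vf`.** -/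
theorem pr_vf (hp : IsLaw p) (V : VLaw2 p zw Rj Rx R' F.W (jh F c r w H fun l => Nn l 0)
      (jh F c r w H fun l => Nf l 0) (jv F c r w H fun l => Nn l 1)
      (jv F c r w H fun l => Nf l 1) (th0 F c r w H (Mn 0)) (th0 F c r w H (Mf 0)) XJ Fv Gf κ)
    {δ : Type} {D : F.Ω → δ} {Fw d : ℝ} (hD : CH p D (fun ω => (R' ω, F.W ω)) ≤ κ)
    (hf : Fw - κ ≤ CH p D (fun ω => (jh F c r w H (fun l => Nn l 0) ω, (Rx ω, F.W ω))))
    (hv1 : ∀ l, Nv l 1 = Nn l 1) (hd0 : 0 ≤ d) (hv0 : ∀ l < r, (Nv l 0 - Nn l 0) * J ≤ d) :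
    Fw - 10 * κ - r * (d * Real.log 2 + Real.log 5) ≤
      CH p D (fun ω => (jet2 F c w H 0 (0 + r) Nv ω, (Rx ω, yv c 0 J F ω))) := by
  have h0 := V.h0
  have h1 := V.vf hD hf
  have h2 := CH_ge h0 D (jh F c r w H fun l => Nv l 0)
    (fun ω => ((jh F c r w H (fun l => Nn l 0) ω, jv F c r w H (fun l => Nn l 1) ω),
      (Rx ω, F.W ω)))
  have h3 := CH_jh hp hv0 hd0 (fun ω => ((jh F c r w H (fun l => Nn l 0) ω,
    jv F c r w H (fun l => Nn l 1) ω), (Rx ω, F.W ω))) (fun ω ν _ _ e =>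
      (Prod.ext_iff.mp (Prod.ext_iff.mp e).1).1)
  have h4 : CH p D (fun ω => (jh F c r w H (fun l => Nv l 0) ω,
      ((jh F c r w H (fun l => Nn l 0) ω, jv F c r w H (fun l => Nn l 1) ω),
        (Rx ω, F.W ω)))) ≤
      CH p D (fun ω => (jet2 F c w H 0 (0 + r) Nv ω, (Rx ω, yv c 0 J F ω))) := by
    refine CH_mono_cond h0 fun ω ν hω hν e => ?_
    simp only [Prod.mk.injEq] at e ⊢
    have e1 : (fun l : ℕ => Nv l 1) = fun l => Nn l 1 := funext hv1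
    refine ⟨jhv_jet2 Nv ω ν hω hν (Prod.ext e.1 ?_), e.2.2.1, W_yv p ω ν hω hν e.2.2.2⟩
    simp only [e1]
    exact e.2.1.2
  linarith

end

end Pool.V0F
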