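import Pool.Agent.H91.FR.QpG

/-!
# No look-ahead for the target: the property of a window

`lh`: the levels of the diagonal, continued from the closed set `G`. `NlaAt`, `NlaQ`: given the
exact positions of the other coordinates, the record at `v` does not see the digits of the target
behind its natural ones.
-/

set_option autoImplicit false

namespace Pool.V0F

open Finset Real MvPolynomial
open Pool.Agent.H49.Ent Pool.Agent.H32.Dense Pool.STK Pool.KA Pool.KSAT Pool.K2S Pool.PB Pool.GEN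
open Pool.S6C Pool.RCD Pool.LA91 Pool.PKG
open Pool.UNJ (ceI)

open Classical in
/-- The levels of the diagonal at the last window of `G` before `x`. -/
noncomputable def lh (L : ℝ → ℝ → ℝ) (G : Set ℝ) (x : ℝ) : ℝ :=
  if (G ∩ Set.Ioo 0 1 ∩ Set.Iic x).Nonempty then
    L (sSup (G ∩ Set.Ioo 0 1 ∩ Set.Iic x)) (sSup (G ∩ Set.Ioo 0 1 ∩ Set.Iic x)) else 0

/-- **No look-ahead** for the target `k` at all windows in the box of radius `ρ` around `x`. -/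
def NlaAt {m : ℕ} (S : PCl m) (k : Fin m) (Λ : ℝ → ℝ) (x ρ e : ℝ) : Prop :=
  ∀ w v o : ℚ, x - ρ ≤ w → w ≤ v → v ≤ o → (o : ℝ) ≤ x + ρ → ∃ κ : ℝ, 0 < κ ∧
    Bas S (fun J F A => ∀ (V : Type) (z : F.Ω → V) (V' : Type) (z' : F.Ω → V'),
      Mx (fun J F => ptr F J) (vg (w : ℝ)) κ F A z → Mx (fun J F => ptr F J) (vg (v : ℝ)) κ F A z' →
      CH (Pool.Agent.H49.Ent.cond F.p A True) (fun ω => F.X ⌊Λ o * J⌋₊ ω k)
          (fun ω => (F.X ⌊Λ v * J⌋₊ ω k, (z ω, (ceI (univ.erase k) (fun _ => J) (F.x ω), F.W ω)))) ≤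
        CH (Pool.Agent.H49.Ent.cond F.p A True) (fun ω => F.X ⌊Λ o * J⌋₊ ω k)
          (fun ω => (z' ω, (ceI (univ.erase k) (fun _ => J) (F.x ω), F.W ω))) + e * ρ * J)

/-- **No look-ahead** as a property of a window, error `1 / (p + 1)`, for the boxes of radius
`≤ 2 ^ (-k₀)`. -/
def NlaQ {n : ℕ} (p k₀ : ℕ) (S : PCl n) (_ : List (Fin n) × Fin n → ℝ → ℝ → ℝ) (_ : ℝ)
    (c : ℕ → Fin n) (_ : ℝ → ℝ → ℝ) (_ : ℝ → ℝ) (L _ : ℕ → ℝ → ℝ → ℝ) (_ : ℕ → Kg)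
    (G : Set ℝ) (x : ℝ) : Prop :=
  ∀ ρ : ℝ, 0 < ρ → ρ ≤ (1 / 2) ^ k₀ → NlaAt S (c (n - 1)) (lh (L (n - 1)) G) x ρ (1 / (p + 1))

/-- **(NLA)** It holds at almost every window. -/
def NlaStmt : Prop := ∀ n : ℕ, AePG n (NlaQ : PropG n ℕ)

theorem her_nla (n : ℕ) : HerQ (NlaQ : PropG n ℕ) := by
  intro p k₀ S S' P θ c Pt r L T κ G x hs h ρ hρ hρ1 w v o h1 h2 h3 h4
  obtain ⟨κ', hκ, H⟩ := h ρ hρ hρ1 w v o h1 h2 h3 h4
  exact ⟨κ', hκ, H.sub hs⟩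

end Pool.V0F
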