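import Pool.Agent.H96.AVG.Fam
import Pool.Agent.H91.FR.HtG
import Pool.Agent.H23.D2.Bwj

/-!
# The base coordinates over the charts of an earlier window: statements

`Lad`: a chain `c 0, …, c (r - 1)` of slopes one and a target `c r` with labels at the windows of a
closed set `G`, between the windows `b` and `o`. The codes of the chain are over (rough) charts of the
window `b`; the codes of the target are over charts of the later window `w`.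
-/

set_option autoImplicit false

namespace Pool.V0F

open Finset Real MvPolynomial
open Pool.Agent.H49.Ent Pool.Agent.H32.Dense Pool.STK Pool.KA Pool.KSAT Pool.K2S Pool.PB Pool.GEN
open Pool.S6C Pool.RCD Pool.LA91 Pool.AVG96

/-- **The ladder of windows**: `φ` is the error of the levels and of the gaps. -/
structure Lad {m : ℕ} (S : PCl m) (c : ℕ → Fin m) (r : ℕ) (sn : ℕ → ℝ → ℝ) (G : Set ℝ)
    (b o φ : ℝ) : Prop where
  tm : ∃ C₀, TmC S C₀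
  pos : ∀ (τ : ℝ) (J : ℕ) (F : Fam m J) (A : F.Ω → Prop), S.St τ J F A → 0 < Pe F.p A
  inj : Set.InjOn c (Set.Iio (r + 1))
  ch : ChG S c r sn G
  att : ∀ w ∈ G, ∃ rk E : ℝ, 0 ≤ rk ∧ rk < 1 ∧ 0 ≤ E ∧ E + sn r w < 1 ∧ ∀ e : ℝ, 0 < e → ∃ K : ℕ,
    Bas S (fun J F A => Lb F ((range r).image c) (c r) K ⌊(E + e) * J⌋₊ J ⌊w * J⌋₊
      ⌊(rk + e) * J⌋₊ ⌊(sn r w - e) * J⌋₊ A)
  bG : b ∈ G
  oG : o ∈ G
  b0 : 0 ≤ b
  bo : b ≤ o
  o1 : o < 1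
  φ0 : 0 < φ
  gap : ∀ x, b ≤ x → x ≤ o → ∃ v ∈ G, |v - x| ≤ φ
  fl : ∀ i < r, ∀ v ∈ G, b ≤ v → v ≤ o → |(sn i v - v) - (sn i o - o)| ≤ φ
  st : ∀ v ∈ G, ∀ v' ∈ G, b ≤ v → v ≤ v' → v' ≤ o → sn r v + (v' - v) ≤ sn r v' + φ

/-- **Nested digits** `n` behind the natural ones at the window `w`. -/
structure Nst (r : ℕ) (sn : ℕ → ℝ → ℝ) (w φ : ℝ) (n : ℕ → ℝ) : Prop where
  lo : ∀ i < r, sn i w + 20 * φ ≤ n i
  hi : ∀ i < r, n i + 20 * φ ≤ sn i w + (1 - w)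
  ne : ∀ i < r, ∀ l < i, n i - sn i w + 20 * φ ≤ n l - sn l w

/-- **(VUP)** Positions and velocities over the charts of `w` from those over the charts of `b`. -/
def VupStmt : Prop :=
  ∀ {m : ℕ} {S : PCl m} {c : ℕ → Fin m} {r : ℕ} {sn : ℕ → ℝ → ℝ} {G : Set ℝ} {b o φ : ℝ},
    Lad S c r sn G b o φ → ∀ {α γ : ∀ J : ℕ, Fam m J → Type}
    {f : ∀ (J : ℕ) (F : Fam m J), F.Ω → α J F} {y : ∀ (J : ℕ) (F : Fam m J), F.Ω → γ J F},
    (∀ (J : ℕ) (F : Fam m J), ∃ χ : α J F → PtT F, ∀ ω, ptr F J ω = χ (f J F ω)) →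
    Kn ((range 0).image c) 1 1 y → ∀ {w ow : ℝ} {p n : ℕ → ℝ}, w ∈ G → b ≤ w → w ≤ o → w ≤ ow →
    ow ≤ 1 → (∀ i < r, sn i b - φ ≤ p i) → Nst r sn w φ n →
    ∀ i < r, ∀ j ≤ 1, Few S f (vg ow) y (jetQ m c 0 r b p (fun l j' => n l - (j' : ℝ) * w))
      (qJet m ((range i).image c) (c i) j w (sn i w) (n i - (j : ℝ) * w))

/-- **(NUP)** The height of the target over the charts of `w`, from the record at `j` and from the
positions of the chain over the charts of `b`. -/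
def NupStmt : Prop :=
  ∀ {m : ℕ} {S : PCl m} {c : ℕ → Fin m} {r : ℕ} {sn : ℕ → ℝ → ℝ} {G : Set ℝ} {b o φ : ℝ},
    Lad S c r sn G b o φ → ∀ {α γ : ∀ J : ℕ, Fam m J → Type}
    {f : ∀ (J : ℕ) (F : Fam m J), F.Ω → α J F} {y : ∀ (J : ℕ) (F : Fam m J), F.Ω → γ J F},
    (∀ (J : ℕ) (F : Fam m J), ∃ χ : α J F → PtT F, ∀ ω, ptr F J ω = χ (f J F ω)) →
    Kn ((range 0).image c) 1 1 y → ∀ {w j oj pr N : ℝ} {p n : ℕ → ℝ}, w ∈ G → j ∈ G → b ≤ w →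
    w ≤ j → j ≤ o → j ≤ oj → oj ≤ 1 → (∀ i < r, sn i b - φ ≤ p i) → sn r w - φ ≤ pr →
    Nst r sn w φ n → (∀ i < r, sn i j + 20 * φ ≤ n i) → N + 20 * φ ≤ sn r j →
    (∀ i < r, N + 20 * φ ≤ sn r w + (n i - sn i w)) →
    Few S f (vg oj) y (qJets m c 0 r 0 (fun _ _ => b) (fun l _ => p l) (fun l _ => n l))
      (qJet m ((range r).image c) (c r) 0 w pr N)

/-- **(NU0)** The height of the target over the charts of `w` is few bits given a later record. -/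
def Nu0Stmt : Prop :=
  ∀ {m : ℕ} {S : PCl m} {c : ℕ → Fin m} {r : ℕ} {sn : ℕ → ℝ → ℝ} {G : Set ℝ} {b o φ : ℝ},
    Lad S c r sn G b o φ → ∀ {α γ : ∀ J : ℕ, Fam m J → Type}
    {f : ∀ (J : ℕ) (F : Fam m J), F.Ω → α J F} {y : ∀ (J : ℕ) (F : Fam m J), F.Ω → γ J F},
    (∀ (J : ℕ) (F : Fam m J), ∃ χ : α J F → PtT F, ∀ ω, ptr F J ω = χ (f J F ω)) →
    Kn ((range 0).image c) 1 1 y → ∀ {w x x' ox pr N : ℝ}, w ∈ G → x ∈ G → x' ∈ G → b ≤ w →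
    w ≤ x → x + 60 * ((r : ℝ) + 1) * φ ≤ x' → x' ≤ o → x' ≤ ox → ox ≤ 1 →
    x' + 60 * ((r : ℝ) + 1) * φ ≤ 1 → sn r w - φ ≤ pr → N + 60 * ((r : ℝ) + 1) * φ ≤ sn r x →
    N + 60 * ((r : ℝ) + 1) * φ ≤ sn r w + (x' - w) →
    Few0 S f (vg ox) y (qJet m ((range r).image c) (c r) 0 w pr N)

/-- **(FUP)** The positions of the chain over the charts of `b`, behind the natural digits of `x`,
are full given the record at `x`. -/
def FupStmt : Prop :=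
  ∀ {m : ℕ} {S : PCl m} {c : ℕ → Fin m} {r : ℕ} {sn : ℕ → ℝ → ℝ} {G : Set ℝ} {b o φ : ℝ},
    Lad S c r sn G b o φ → ∀ {x : ℝ} {p n q : ℕ → ℝ}, x ∈ G → b ≤ x → x ≤ o →
    (∀ i < r, sn i b - φ ≤ p i) → (∀ i < r, sn i x ≤ q i ∧ q i ≤ n i ∧ n i ≤ 1) →
    ∀ ε : ℝ, 0 < ε → ∃ k : ℝ, 0 < k ∧ ∃ e₀ : ℝ, 0 < e₀ ∧ ∀ K : ℕ, Bas S (fun J F A =>
      ∀ (V : Type) (z : F.Ω → V), Mx (fun J F => ptr F J) (vg x) k F A z → ∀ u u',
      (qJets m c 0 r 0 (fun _ _ => b) (fun l _ => p l) (fun l _ => n l)).P K e₀ J F A u →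
      (qJets m c 0 r 0 (fun _ _ => b) (fun l _ => p l) (fun l _ => q l)).P K e₀ J F A u' →
      ((∑ i ∈ range r, (n i - q i)) - 20 * (r : ℝ) ^ 2 * φ) * Real.log 2 * J - ε * J ≤
        CH (Pool.Agent.H49.Ent.cond F.p A True) u (fun ω => (u' ω, (z ω, F.W ω))))

/-- **(FUX)** The exact positions, behind the digits `n` over the charts of `b`, are full given the
record at `x`. -/
def FuxStmt : Prop :=
  ∀ {m : ℕ} {S : PCl m} {c : ℕ → Fin m} {r : ℕ} {sn : ℕ → ℝ → ℝ} {G : Set ℝ} {b o φ : ℝ},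
    Lad S c r sn G b o φ → ∀ {x : ℝ} {p n : ℕ → ℝ}, x ∈ G → b ≤ x → x ≤ o →
    (∀ i < r, sn i b - φ ≤ p i) → (∀ i < r, sn i x ≤ n i ∧ n i ≤ 1) →
    ∀ ε : ℝ, 0 < ε → ∃ k : ℝ, 0 < k ∧ ∃ e₀ : ℝ, 0 < e₀ ∧ ∀ K : ℕ, Bas S (fun J F A =>
      ∀ (V : Type) (z : F.Ω → V), Mx (fun J F => ptr F J) (vg x) k F A z → ∀ u,
      (qJets m c 0 r 0 (fun _ _ => b) (fun l _ => p l) (fun l _ => n l)).P K e₀ J F A u →
      ((∑ i ∈ range r, (1 - n i)) - 20 * (r : ℝ) ^ 2 * φ) * Real.log 2 * J - ε * J ≤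
        CH (Pool.Agent.H49.Ent.cond F.p A True) (fun ω => fun l : Fin r => F.X J ω (c l))
          (fun ω => (u ω, (z ω, F.W ω))) ∧
      ∀ (V' : Type) (z' : F.Ω → V'), Mx (fun J F => ptr F J) (vg b) k F A z' →
        CH (Pool.Agent.H49.Ent.cond F.p A True) (fun ω => fun l : Fin r => F.X J ω (c l))
          (fun ω => (u ω, (z' ω, F.W ω))) ≤
          (∑ i ∈ range r, (1 - n i)) * Real.log 2 * J + ε * J)

/-! ### Natural closeness of the charts of an earlier window -/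

/-- **(KAP)** A chain of charts `ψ 0, …, ψ n`, the differences bounded on the boxes of the later
chart; `s k`: the distance of the window `k + 1` from the last one. On the natural box of the last
chart, the first chart is near the last one, up to a constant. -/
def KapStmt : Prop :=
  ∀ D r : ℕ, ∃ C : ℕ, ∀ {m : ℕ} {c : ℕ → Fin m} {n P : ℕ}
    {ψ : ℕ → ℕ → MvPolynomial (Option (Fin m)) ℝ} {g X : ℕ → ℕ → ℕ} {a s : ℕ → ℕ}
    {κ : ℕ → ℕ → ℝ} {x : Option (Fin m) → ℝ}, Set.InjOn c (Set.Iio r) →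
    (∀ k l, (ψ k l).totalDegree ≤ D) → (∀ k l, DepC c l (ψ k l)) → (n : ℝ) ≤ 2 ^ P →
    (∀ k < n, ∀ l < r, ∀ b, NBx c (ψ (k + 1)) (g (k + 1)) (a (k + 1)) (x none) l b →
      |eval b (ψ k l) + κ k l - eval b (ψ (k + 1) l)| ≤ 2 ^ P / 2 ^ X k l) →
    (∀ k ≤ n, ∀ l < r, |x (some (c l)) - eval x (ψ k l)| ≤ 2 ^ P / 2 ^ g k l) →
    (∀ k < n, a (k + 1) + s k ≤ a n + P) → (∀ k < n, ∀ l < r, g (k + 1) l + s k ≤ g n l + P) →
    (∀ k < n, ∀ l < r, g n l ≤ X k l + s k + P) → ∃ κ' : ℕ → ℝ, ∀ l < r, ∀ b,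
      NBx c (ψ n) (g n) (a n) (x none) l b →
      |eval b (ψ 0 l) + κ' l - eval b (ψ n l)| ≤ 2 ^ (C * (P + 1)) / 2 ^ g n l

end Pool.V0F
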