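import Pool.Agent.H44.V0F.Law2
import Pool.Agent.H44.V0F.S3
import Pool.Agent.H71.V0F.Nup
import Pool.Agent.H91.V0F.Exj
import Pool.Agent.H91.V0F.Fup

/-!
# The mutual informations of the near digits, class level

`cR`: the canonical record of a window. `FrI`, `NlI`: free velocities and no look-ahead at given
windows. `vlaw_cls`: `VLaw2` on all large events, from `FrI`, `NlI` and the ladder.
-/

set_option autoImplicit false

namespace Pool.V0F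

open Finset Real MvPolynomial
open Pool.Agent.H49.Ent Pool.Agent.H32.Dense Pool.STK Pool.KA Pool.KSAT Pool.K2S Pool.PB Pool.GEN
open Pool.S6C Pool.RCD Pool.LA91
open Pool.UNJ (ceI)
open Pool.GRD (LbP)

variable {m : ℕ}

/-! ### Canonical records -/

/-- **The canonical record** of the window `w` on the event `A`. -/
def cR {J : ℕ} (F : Fam m J) (A : F.Ω → Prop) (w : ℝ) (ω : F.Ω)
    (D : {D : F.Ω → Prop // Cl2 (ptr F J) (vg w J F) A D}) : Prop := D.1 ω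

theorem mx_cR {J : ℕ} {F : Fam m J} {A : F.Ω → Prop} (hA : 0 < Pe F.p A) (w : ℝ) {k : ℝ}
    (hk : 0 ≤ k) : Mx (fun J F => ptr F J) (vg w) k F A (cR F A w) := by
  refine ⟨⟨?_, ?_⟩, fun V' z' hz' => ?_⟩
  · choose φ hφ using fun D : {D : F.Ω → Prop // Cl2 (ptr F J) (vg w J F) A D} => D.2.1
    exact ⟨fun x D => φ D x, fun ω hω => funext fun D => hφ D ω hω⟩
  · choose φ hφ using fun D : {D : F.Ω → Prop // Cl2 (ptr F J) (vg w J F) A D} => D.2.2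
    exact ⟨fun x D => φ D x, fun ω hω => funext fun D => hφ D ω hω⟩
  · have h0 := (isLaw_cond F.isLaw hA).nonneg
    rw [CH_eq_zero h0 (fun ω ω' _ _ e => ?_)]
    · positivity
    · have h1 := congrFun e ⟨fun ν => z' ν = z' ω, hz'.comp fun v => v = z' ω⟩
      have h2 : (z' ω = z' ω) = (z' ω' = z' ω) := h1
      exact (h2.mp rfl).symm

/-- A closed function of an earlier window is few bits given a record. -/
theorem mx_before {J : ℕ} {F : Fam m J} {A : F.Ω → Prop} {w v k : ℝ} {V V' : Type}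
    {z : F.Ω → V} {z' : F.Ω → V'} (h : Mx (fun J F => ptr F J) (vg v) k F A z) (hwv : w ≤ v)
    (hv : v ≤ 1) (hz' : Cl2 (ptr F J) (vg w J F) A z') :
    CH (Pool.Agent.H49.Ent.cond F.p A True) z' z ≤ k * J := by
  obtain ⟨χ, hχ⟩ := vg_mono hwv hv J F
  exact h.2 _ _ (hz'.mono ⟨fun x => x, fun _ _ => rfl⟩ ⟨χ, fun ω _ => hχ ω⟩)

/-! ### The two inputs at given windows -/

/-- **Free velocities** between the windows `w` and `w'`. -/
def FrI (S : PCl m) (c : ℕ → Fin m) (r : ℕ) (sp : ℕ → ℝ → ℝ) (b : ℝ) (P : Fin r → ℝ)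
    (w w' κ : ℝ) : Prop :=
  ∃ k₂ : ℝ, 0 < k₂ ∧ ∃ e₀ : ℝ, 0 < e₀ ∧ ∀ K : ℕ, Bas S (fun J F A =>
    ∀ (V : Type) (z : F.Ω → V) (V' : Type) (z' : F.Ω → V'),
    Mx (fun J F => ptr F J) (vg w) k₂ F A z → Mx (fun J F => ptr F J) (vg w') k₂ F A z' →
    ∀ u, (qG m c r sp b P).P K e₀ J F A u →
    CH (Pool.Agent.H49.Ent.cond F.p A True) u (fun ω => (z ω, F.W ω)) ≤
      CH (Pool.Agent.H49.Ent.cond F.p A True) u (fun ω => (z' ω, F.W ω)) + κ * J)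

/-- **No look-ahead** between the windows `w` and `v`, for the digits `Λv`, `Λo`. -/
def NlI (S : PCl m) (k : Fin m) (w v Λv Λo κ : ℝ) : Prop :=
  ∃ κ₁ : ℝ, 0 < κ₁ ∧ Bas S (fun J F A => ∀ (V : Type) (z : F.Ω → V) (V' : Type) (z' : F.Ω → V'),
    Mx (fun J F => ptr F J) (vg w) κ₁ F A z → Mx (fun J F => ptr F J) (vg v) κ₁ F A z' →
    CH (Pool.Agent.H49.Ent.cond F.p A True) (fun ω => F.X ⌊Λo * J⌋₊ ω k)
        (fun ω => (F.X ⌊Λv * J⌋₊ ω k, (z ω, (ceI (univ.erase k) (fun _ => J) (F.x ω), F.W ω)))) ≤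
      CH (Pool.Agent.H49.Ent.cond F.p A True) (fun ω => F.X ⌊Λo * J⌋₊ ω k)
        (fun ω => (z' ω, (ceI (univ.erase k) (fun _ => J) (F.x ω), F.W ω))) + κ * J)

/-- More digits of a position. -/
theorem X_more {J : ℕ} {F : Fam m J} {p : F.Ω → ℝ} (hp : IsLaw p) {a b : ℕ} (hab : a ≤ b)
    (k : Fin m) {δ : Type} (Z : F.Ω → δ) :
    CH p (fun ω => F.X b ω k) (fun ω => (F.X a ω k, Z ω)) ≤ ((b : ℝ) - a) * Real.log 2 := by
  obtain ⟨d, rfl⟩ := Nat.exists_eq_add_of_le hab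
  have h0 := hp.nonneg
  refine (CH_le_card h0 hp.sum_one (fun ω => F.X (a + d) ω k) (fun ω => (F.X a ω k, Z ω))
    (fun x => Finset.Ico (2 ^ d * x.1) (2 ^ d * x.1 + 2 ^ d)) ?_).trans (le_of_eq ?_)
  · intro ω _
    rw [Finset.mem_Ico]
    have e : (2 : ℝ) ^ (a + d) * F.x ω k = 2 ^ d * (2 ^ a * F.x ω k) := by
      rw [pow_add]
      ring
    have e1 : F.X (a + d) ω k = ⌊(2 : ℝ) ^ (a + d) * F.x ω k⌋ := rfl
    have e2 : F.X a ω k = ⌊(2 : ℝ) ^ a * F.x ω k⌋ := rfl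
    rw [e1, e2, e]
    have h2 := Int.floor_le ((2 : ℝ) ^ a * F.x ω k)
    have h3 := Int.lt_floor_add_one ((2 : ℝ) ^ a * F.x ω k)
    have hd : (0 : ℝ) < 2 ^ d := by positivity
    constructor
    · refine Int.le_floor.2 ?_
      push_cast
      exact mul_le_mul_of_nonneg_left h2 hd.le
    · refine Int.floor_lt.2 ?_
      push_cast
      have := mul_lt_mul_of_pos_left h3 hd
      linarith
  · have e : ∀ x : ℤ, ((Finset.Ico (2 ^ d * x) (2 ^ d * x + 2 ^ d)).card : ℝ) = 2 ^ d := by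
      intro x
      rw [Int.card_Ico, add_sub_cancel_left]
      have : ((2 : ℤ) ^ d).toNat = 2 ^ d := by
        have h : (2 : ℤ) ^ d = ((2 ^ d : ℕ) : ℤ) := by push_cast; rfl
        rw [h, Int.toNat_natCast]
      rw [this]
      push_cast
      ring
    simp only [e]
    rw [Ex_const hp.sum_one, Real.log_pow]
    push_cast
    ring

/-- Assembly of the no look-ahead. -/
theorem nl_asm {Ω : Type} [Fintype Ω] {p : Ω → ℝ} (h0 : ∀ ω, 0 ≤ p ω)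
    {α₁ α₂ α₃ α₄ α₅ α₆ α₇ α₈ α₉ β₁ β₂ β₃ : Type} {N1 : Ω → α₁} {N2 : Ω → α₂} {XJ : Ω → α₃}
    {C : Ω → α₄} {zw : Ω → α₅} {zc : Ω → α₆} {zv : Ω → α₇} {Rj : Ω → α₈} {Y : Ω → α₉}
    {Xo : Ω → β₁} {Xv : Ω → β₂} {Xn : Ω → β₃} {a e d κn : ℝ} (hXC : Det p XJ C) (hCX : Det p C XJ)
    (hzw : CH p zc zw ≤ a) (hzj : CH p zc Rj ≤ a) (hv : CH p Rj zv ≤ a)
    (h1 : CH p N2 (fun ω => (Xo ω, (C ω, (zc ω, Y ω)))) ≤ e)
    (h2 : CH p Xo (fun ω => (N2 ω, (C ω, (zc ω, Y ω)))) ≤ e)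
    (h3 : CH p Xn (fun ω => (N1 ω, (C ω, (zc ω, Y ω)))) ≤ e)
    (h4 : CH p Xv (fun ω => (Xn ω, (N1 ω, (XJ ω, (zw ω, Y ω))))) ≤ d)
    (h5 : CH p Xo (fun ω => (Xv ω, (zw ω, (C ω, Y ω)))) ≤
      CH p Xo (fun ω => (zv ω, (C ω, Y ω))) + κn) :
    CH p N2 (fun ω => (N1 ω, (XJ ω, (zw ω, Y ω)))) ≤
      CH p N2 (fun ω => (XJ ω, (Rj ω, Y ω))) + (4 * a + 3 * e + d + κn) := by
  -- from the digits `Xo`
  have s1 : CH p N2 (fun ω => (Xo ω, (N1 ω, (XJ ω, (zw ω, Y ω))))) ≤ a + e := by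
    refine CH_tr h0 N2 (A := zc) (le_trans (CH_mono_cond h0 fun ω ω' _ _ hh => ?_) hzw) h1
      fun ω ω' hω hω' hh => ?_
    · simp only [Prod.mk.injEq] at hh
      exact hh.2.2.2.1
    · simp only [Prod.mk.injEq] at hh ⊢
      exact ⟨hh.2.1, hXC ω ω' hω hω' hh.2.2.2.1, hh.1, hh.2.2.2.2.2⟩
  have s2 := CH_le_add h0 N2 Xo (fun ω => (N1 ω, (XJ ω, (zw ω, Y ω))))
  have s3 := CH_le_add h0 Xo Xv (fun ω => (N1 ω, (XJ ω, (zw ω, Y ω))))
  have s4 : CH p Xo (fun ω => (Xv ω, (N1 ω, (XJ ω, (zw ω, Y ω))))) ≤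
      CH p Xo (fun ω => (Xv ω, (zw ω, (C ω, Y ω)))) := CH_mono_cond h0 fun ω ω' hω hω' hh => by
    simp only [Prod.mk.injEq] at hh ⊢
    exact ⟨hh.1, hh.2.2.2.1, hXC ω ω' hω hω' hh.2.2.1, hh.2.2.2.2⟩
  have s5 := CH_le_add h0 Xv Xn (fun ω => (N1 ω, (XJ ω, (zw ω, Y ω))))
  have s6 : CH p Xn (fun ω => (N1 ω, (XJ ω, (zw ω, Y ω)))) ≤ a + e := by
    refine CH_tr h0 Xn (A := zc) (le_trans (CH_mono_cond h0 fun ω ω' _ _ hh => ?_) hzw) h3
      fun ω ω' hω hω' hh => ?_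
    · simp only [Prod.mk.injEq] at hh
      exact hh.2.2.1
    · simp only [Prod.mk.injEq] at hh ⊢
      exact ⟨hh.2.1, hXC ω ω' hω hω' hh.2.2.1, hh.1, hh.2.2.2.2⟩
  -- at the later record
  have s7 : CH p Xo (fun ω => (zv ω, (C ω, Y ω))) ≤
      a + CH p Xo (fun ω => (XJ ω, (Rj ω, Y ω))) := by
    refine CH_tr h0 Xo (A := Rj) (le_trans (CH_mono_cond h0 fun ω ω' _ _ hh => ?_) hv) le_rfl
      fun ω ω' hω hω' hh => ?_
    · exact (Prod.ext_iff.mp hh).1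
    · simp only [Prod.mk.injEq] at hh ⊢
      exact ⟨hCX ω ω' hω hω' hh.2.2.1, hh.1, hh.2.2.2⟩
  have s8 := CH_le_add h0 Xo N2 (fun ω => (XJ ω, (Rj ω, Y ω)))
  have s9 : CH p Xo (fun ω => (N2 ω, (XJ ω, (Rj ω, Y ω)))) ≤ a + e := by
    refine CH_tr h0 Xo (A := zc) (le_trans (CH_mono_cond h0 fun ω ω' _ _ hh => ?_) hzj) h2
      fun ω ω' hω hω' hh => ?_
    · simp only [Prod.mk.injEq] at hh
      exact hh.2.2.1
    · simp only [Prod.mk.injEq] at hh ⊢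
      exact ⟨hh.2.1, hXC ω ω' hω hω' hh.2.2.1, hh.1, hh.2.2.2.2⟩
  linarith

/-- The positions of the chain and the point without the target. -/
theorem det_cei {J : ℕ} {F : Fam m J} {c : ℕ → Fin m} {r : ℕ} {I : Finset (Fin m)}
    (hI : (range r).image c = I) (p : F.Ω → ℝ) :
    Det p (fun ω => fun l : Fin r => F.X J ω (c l)) (fun ω => ceI I (fun _ => J) (F.x ω)) := by
  intro ω ω' _ _ e
  funext i
  by_cases hi : i ∈ I
  · simp only [ceI, if_pos hi]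
    rw [← hI, mem_image] at hi
    obtain ⟨l, hl, rfl⟩ := hi
    exact congrFun e ⟨l, mem_range.1 hl⟩
  · simp only [ceI, if_neg hi]

theorem det_cei' {J : ℕ} {F : Fam m J} {c : ℕ → Fin m} {r : ℕ} {I : Finset (Fin m)}
    (hI : (range r).image c = I) (p : F.Ω → ℝ) :
    Det p (fun ω => ceI I (fun _ => J) (F.x ω)) (fun ω => fun l : Fin r => F.X J ω (c l)) := by
  intro ω ω' _ _ e
  funext l
  have h1 : c l ∈ I := by
    rw [← hI]
    exact mem_image_of_mem _ (mem_range.2 l.2)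
  have h2 := congrFun e (c l)
  simp only [ceI, if_pos h1] at h2
  exact h2

/-- **The numbers** of the windows and of the digits. -/
structure VN (r : ℕ) (sn : ℕ → ℝ → ℝ) (G : Set ℝ) (b o φ : ℝ) (p nn nf : ℕ → ℝ)
    (w w₁ j v x x₀ x' pr Mn Λv Mf Δ Δ' : ℝ) : Prop where
  wG : w ∈ G
  jG : j ∈ G
  xG : x ∈ G
  x0G : x₀ ∈ G
  xG' : x' ∈ G
  bw : b ≤ w
  ww : w ≤ w₁
  wj : w₁ ≤ j
  wx : w₁ ≤ x
  jv : j ≤ v
  v1 : v ≤ 1
  jx : j ≤ x'
  xx : x ≤ x'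
  xo : x' ≤ o
  x1 : x' + 60 * ((r : ℝ) + 1) * φ ≤ 1
  wx0 : w ≤ x₀
  x0x : x₀ + 60 * ((r : ℝ) + 1) * φ ≤ x'
  hp : ∀ i < r, sn i b - φ ≤ p i
  hpr : sn r w - φ ≤ pr
  nj : ∀ i < r, sn i j + 20 * φ ≤ nn i
  nx : ∀ i < r, sn i x ≤ nn i
  nnf : ∀ i < r, nn i ≤ nf i
  nf0 : ∀ i < r, sn i x' ≤ nf i
  nfΔ : ∀ i < r, nf i ≤ sn i x' + Δ
  nf1 : ∀ i < r, nf i ≤ 1
  tp : Tp r sn b φ nf
  st : Nst r sn w φ nn
  m0 : 0 ≤ Mn
  mj : Mn + 20 * φ ≤ sn r j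
  mw : ∀ i < r, Mn + 20 * φ ≤ sn r w + (nn i - sn i w)
  mv : Mn ≤ Λv
  vΔ : Λv ≤ Mn + Δ'
  vf : Λv ≤ Mf
  f0 : Mf + 60 * ((r : ℝ) + 1) * φ ≤ sn r x₀
  f1 : Mf + 60 * ((r : ℝ) + 1) * φ ≤ sn r w + (x' - w)
  t1 : ∀ l < r, Mf + 20 * ((r : ℝ) + 1) * φ ≤ sn r w + (1 - sn l w)

/-- **The mutual informations of the near digits**, on all large events. -/
theorem vlaw_cls {S : PCl m} {c : ℕ → Fin m} {r : ℕ} {sn : ℕ → ℝ → ℝ} {G : Set ℝ} {b o φ : ℝ}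
    (L : Lad S c r sn G b o φ) (hI : (range r).image c = univ.erase (c r)) {p nn nf : ℕ → ℝ}
    {w w₁ j v x x₀ x' pr Mn Λv Mf Δ Δ' : ℝ}
    (N : VN r sn G b o φ p nn nf w w₁ j v x x₀ x' pr Mn Λv Mf Δ Δ') {rk E : ℝ} (hrk : rk < 1)
    (hE : 0 ≤ E) (hatt : AttG S ((range r).image c) (c r) w (sn r w) rk E) (hEf : Mf + E ≤ 1)
    {sp : ℕ → ℝ → ℝ} {P : Fin r → ℝ} {κf κn : ℝ} (hfr : FrI S c r sp b P w₁ x' κf)
    (hnl : NlI S (c r) w₁ v Λv Mf κn) (hκf : 0 ≤ κf) (hκn : 0 ≤ κn) (ε : ℝ) (hε : 0 < ε) :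
    ∃ k : ℝ, 0 < k ∧ ∃ e₀ : ℝ, 0 < e₀ ∧ ∀ K : ℕ, Bas S (fun J F A =>
      ∀ (V₁ : Type) (zw : F.Ω → V₁) (V₂ : Type) (Rj : F.Ω → V₂) (V₃ : Type) (Rx : F.Ω → V₃)
        (V₄ : Type) (R' : F.Ω → V₄), Mx (fun J F => ptr F J) (vg w₁) k F A zw →
      Mx (fun J F => ptr F J) (vg j) k F A Rj → Mx (fun J F => ptr F J) (vg x) k F A Rx →
      Mx (fun J F => ptr F J) (vg x') k F A R' → ∀ Xq Xp Up N1 N2,
      (qJets m c 0 r 0 (fun _ _ => b) (fun l _ => p l) (fun l _ => nn l)).P K e₀ J F A Xq →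
      (qJets m c 0 r 0 (fun _ _ => b) (fun l _ => p l) (fun l _ => nf l)).P K e₀ J F A Xp →
      (qG m c r sp b P).P K e₀ J F A Up →
      (qJet m ((range r).image c) (c r) 0 w pr Mn).P K e₀ J F A N1 →
      (qJet m ((range r).image c) (c r) 0 w pr Mf).P K e₀ J F A N2 →
      ∀ (δ : Type) (Uq : F.Ω → δ) (κ : ℝ),
      (r * Δ + Δ' + 20 * (r : ℝ) ^ 2 * φ + κf + κn + ε) * J ≤ κ →
      CH (Pool.Agent.H49.Ent.cond F.p A True) Uq Up ≤ κ →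
      CH (Pool.Agent.H49.Ent.cond F.p A True) Xp (fun ω => (Xq ω, (zw ω, F.W ω))) ≤
        (∑ i ∈ range r, (nf i - nn i)) * Real.log 2 * J + κ →
      CH (Pool.Agent.H49.Ent.cond F.p A True) Xq (fun ω => (Xp ω, (zw ω, F.W ω))) ≤ κ →
      VLaw2 (Pool.Agent.H49.Ent.cond F.p A True) zw Rj Rx R' F.W Xq Xp Uq Up N1 N2
        (fun ω => fun l : Fin r => F.X J ω (c l)) ((∑ i ∈ range r, (nf i - nn i)) * Real.log 2 * J)
        ((∑ i ∈ range r, (1 - nf i)) * Real.log 2 * J) κ) := by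
  have hφ := L.φ0
  have hr0 : (0 : ℝ) ≤ r := Nat.cast_nonneg r
  have hrφ : 0 ≤ (r : ℝ) * φ := by positivity
  have hl2 : 0 < Real.log 2 := Real.log_pos one_lt_two
  have hl2' : Real.log 2 ≤ 1 := by
    have := Real.log_two_lt_d9
    linarith
  have hx1 : x' ≤ 1 := by nlinarith [N.x1]
  have hj1 : j ≤ 1 := N.jx.trans hx1
  have hxx1 : x ≤ 1 := N.xx.trans hx1
  have hbj : b ≤ j := N.bw.trans (N.ww.trans N.wj)
  have hbx : b ≤ x := N.bw.trans (N.ww.trans N.wx)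
  have hbx' : b ≤ x' := hbx.trans N.xx
  have hjo : j ≤ o := N.jx.trans N.xo
  have hxo : x ≤ o := N.xx.trans N.xo
  have hwo : w ≤ o := N.ww.trans (N.wj.trans hjo)
  have hf : ∀ (J : ℕ) (F : Fam m J), ∃ χ : PtT F → PtT F, ∀ ω, ptr F J ω = χ (ptr F J ω) :=
    fun J F => ⟨fun x => x, fun _ => rfl⟩
  obtain ⟨η, hη⟩ : ∃ η : ℝ, η = ε / 16 := ⟨_, rfl⟩
  have hη0 : 0 < η := by rw [hη]; positivity
  -- the levels at `b`
  have hb0 : ∀ i < r, sn i b ≤ nf i := by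
    intro i hi
    have e1 := abs_le.1 (lad_fl L N.xG' hbx' N.xo i hi b L.bG le_rfl hbx')
    have e2 := N.nf0 i hi
    have e3 : b + 60 * φ ≤ x' := by
      have := N.x0x
      have := N.wx0
      have := N.bw
      nlinarith
    linarith [e1.2]
  -- the classes
  have c1 := t_nup L (f := fun J F => ptr F J) (y := fun _ F => F.W) hf kn_W (w := w) (j := j)
    (oj := j) (pr := pr) (N := Mn) (p := p) (n := nn) N.wG N.jG N.bw (N.ww.trans N.wj) hjo le_rfl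
    hj1 N.hp N.hpr N.st N.nj N.mj N.mw
  have c2 := t_nu0 L (f := fun J F => ptr F J) (y := fun _ F => F.W) hf kn_W (w := w) (x := x₀)
    (x' := x') (ox := x') (pr := pr) (N := Mf) N.wG N.x0G N.xG' N.bw N.wx0 N.x0x N.xo le_rfl hx1
    N.x1 N.hpr N.f0 N.f1
  have c3 := fup L N.jG hbj hjo N.hp (q := nn) (n := nf) (fun i hi => ⟨by
    have := N.nj i hi
    linarith, N.nnf i hi, N.nf1 i hi⟩) N.tp η hη0
  have c4 := fup L N.xG hbx hxo N.hp (q := nn) (n := nf) (fun i hi => ⟨N.nx i hi, N.nnf i hi,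
    N.nf1 i hi⟩) N.tp η hη0
  have c5 := fux L L.bG le_rfl (hbx'.trans N.xo) N.hp (n := nf) (fun i hi => ⟨hb0 i hi,
    N.nf1 i hi⟩) N.tp η hη0
  have c6 := fux L N.xG' hbx' N.xo N.hp (n := nf) (fun i hi => ⟨N.nf0 i hi, N.nf1 i hi⟩) N.tp η
    hη0
  have hx' : x' - w ≤ 1 - w := by linarith
  have c7 := exj L le_rfl N.wG (pr := pr) (N := Mn) hrk hE hatt N.hpr N.m0
    (by linarith [N.mv, N.vf]) (by
      have := N.f1
      have := N.mv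
      have := N.vf
      nlinarith) (fun l hl => by
      have := N.t1 l hl
      have := N.mv
      have := N.vf
      linarith) η hη0
  have c8 := exj L le_rfl N.wG (pr := pr) (N := Mf) hrk hE hatt N.hpr
    (N.m0.trans (N.mv.trans N.vf)) hEf (by
      have := N.f1
      nlinarith) N.t1 η hη0
  have c9 := lad_fewC_heights (f := fun J F => ptr F J) (y := fun _ F => F.W) L hf kn_W N.xG' hbx'
    N.xo le_rfl hx1 N.hp N.nf0
  obtain ⟨e1, he1, H1⟩ := c1.mx L.pos η hη0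
  obtain ⟨e2, he2, H2⟩ := c2.mx L.pos η hη0
  obtain ⟨k3, hk3, e3, he3, H3⟩ := c3
  obtain ⟨k4, hk4, e4, he4, H4⟩ := c4
  obtain ⟨k5, hk5, e5, he5, H5⟩ := c5
  obtain ⟨k6, hk6, e6, he6, H6⟩ := c6
  obtain ⟨k7, hk7, e7, he7, H7⟩ := c7
  obtain ⟨k8, hk8, e8, he8, H8⟩ := c8
  obtain ⟨e9, he9, H9⟩ := c9.mx L.pos η hη0
  obtain ⟨k10, hk10, e10, he10, H10⟩ := hfr
  obtain ⟨k11, hk11, H11⟩ := hnl
  obtain ⟨k, hk, l3, l4, l5, l6, l7, l8, l10, l11, lη⟩ : ∃ k : ℝ, 0 < k ∧ k ≤ k3 ∧ k ≤ k4 ∧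
      k ≤ k5 ∧ k ≤ k6 ∧ k ≤ k7 ∧ k ≤ k8 ∧ k ≤ k10 ∧ k ≤ k11 ∧ k ≤ η / 2 := by
    refine ⟨min (min (min k3 k4) (min k5 k6)) (min (min k7 k8) (min (min k10 k11) (η / 2))),
      by positivity, ?_, ?_, ?_, ?_, ?_, ?_, ?_, ?_, ?_⟩
    · exact (min_le_left _ _).trans ((min_le_left _ _).trans (min_le_left _ _))
    · exact (min_le_left _ _).trans ((min_le_left _ _).trans (min_le_right _ _))
    · exact (min_le_left _ _).trans ((min_le_right _ _).trans (min_le_left _ _))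
    · exact (min_le_left _ _).trans ((min_le_right _ _).trans (min_le_right _ _))
    · exact (min_le_right _ _).trans ((min_le_left _ _).trans (min_le_left _ _))
    · exact (min_le_right _ _).trans ((min_le_left _ _).trans (min_le_right _ _))
    · exact (min_le_right _ _).trans ((min_le_right _ _).trans ((min_le_left _ _).trans
        (min_le_left _ _)))
    · exact (min_le_right _ _).trans ((min_le_right _ _).trans ((min_le_left _ _).trans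
        (min_le_right _ _)))
    · exact (min_le_right _ _).trans ((min_le_right _ _).trans (min_le_right _ _))
  obtain ⟨e₀, he₀, f1, f2, f3, f4, f5, f6, f7, f8, f9, f10⟩ : ∃ e₀ : ℝ, 0 < e₀ ∧ e₀ ≤ e1 ∧
      e₀ ≤ e2 ∧ e₀ ≤ e3 ∧ e₀ ≤ e4 ∧ e₀ ≤ e5 ∧ e₀ ≤ e6 ∧ e₀ ≤ e7 ∧ e₀ ≤ e8 ∧ e₀ ≤ e9 ∧
      e₀ ≤ e10 := by
    refine ⟨min (min (min e1 e2) (min e3 e4)) (min (min (min e5 e6) (min e7 e8)) (min e9 e10)),
      by positivity, ?_, ?_, ?_, ?_, ?_, ?_, ?_, ?_, ?_, ?_⟩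
    · exact (min_le_left _ _).trans ((min_le_left _ _).trans (min_le_left _ _))
    · exact (min_le_left _ _).trans ((min_le_left _ _).trans (min_le_right _ _))
    · exact (min_le_left _ _).trans ((min_le_right _ _).trans (min_le_left _ _))
    · exact (min_le_left _ _).trans ((min_le_right _ _).trans (min_le_right _ _))
    · exact (min_le_right _ _).trans ((min_le_left _ _).trans ((min_le_left _ _).trans
        (min_le_left _ _)))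
    · exact (min_le_right _ _).trans ((min_le_left _ _).trans ((min_le_left _ _).trans
        (min_le_right _ _)))
    · exact (min_le_right _ _).trans ((min_le_left _ _).trans ((min_le_right _ _).trans
        (min_le_left _ _)))
    · exact (min_le_right _ _).trans ((min_le_left _ _).trans ((min_le_right _ _).trans
        (min_le_right _ _)))
    · exact (min_le_right _ _).trans ((min_le_right _ _).trans (min_le_left _ _))
    · exact (min_le_right _ _).trans ((min_le_right _ _).trans (min_le_right _ _))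
  obtain ⟨J₁, hJ₁⟩ := exists_nat_gt (1 / η)
  refine ⟨k, hk, e₀, he₀, fun K => ?_⟩
  refine Bas.mono J₁ ((((H1 K).and (H2 K)).and ((H3 K).and (H4 K))).and
    ((((H5 K).and (H6 K)).and ((H7 K).and (H8 K))).and (((H9 K).and (H10 K)).and
      (H11.and (pos_bas L.pos))))) ?_
  rintro J hJ F A ⟨⟨⟨H1, H2⟩, H3, H4⟩, ⟨⟨H5, H6⟩, H7, H8⟩, ⟨H9, H10⟩, H11, hA⟩ V₁ zw V₂ Rj V₃ Rx
    V₄ R' hzw hRj hRx hR' Xq Xp Up N1 N2 hXq hXp hUp hN1 hN2 δ Uq κ hκ huq hcn hqp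
  have hcl := isLaw_cond F.isLaw hA
  have h0 := hcl.nonneg
  have hJ0 : (0 : ℝ) ≤ J := Nat.cast_nonneg J
  have hηJ : 1 ≤ η * J := by
    have h1 : 1 / η < J := hJ₁.trans_le (by exact_mod_cast hJ)
    rw [div_lt_iff₀ hη0] at h1
    linarith
  have hηJ0 : 0 ≤ η * J := by linarith
  have hkJ : k * J ≤ η / 2 * J := mul_le_mul_of_nonneg_right lη hJ0
  have hkJ0 : 0 ≤ k * J := by positivity
  have hΔ0 : 0 ≤ r * Δ := by
    rcases Nat.eq_zero_or_pos r with h | h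
    · rw [h]
      simp
    · have h1 := N.nf0 0 h
      have h2 := N.nfΔ 0 h
      have : 0 ≤ Δ := by linarith
      positivity
  have hΔ' : 0 ≤ Δ' := by linarith [N.mv, N.vΔ]
  have hrΔJ : 0 ≤ r * Δ * J := mul_nonneg hΔ0 hJ0
  have hΔJ : 0 ≤ Δ' * J := mul_nonneg hΔ' hJ0
  have hφJ : 0 ≤ 20 * (r : ℝ) ^ 2 * φ * J := by positivity
  have hκfJ : 0 ≤ κf * J := by positivity
  have hκnJ : 0 ≤ κn * J := by positivity
  have hκe : (r * Δ + Δ' + 20 * (r : ℝ) ^ 2 * φ + κf + κn + ε) * J = r * Δ * J + Δ' * J +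
      20 * (r : ℝ) ^ 2 * φ * J + κf * J + κn * J + 16 * (η * J) := by
    rw [hη]
    ring
  rw [hκe] at hκ
  -- the canonical records
  have zb : Mx (fun J F => ptr F J) (vg b) k F A (cR F A b) := mx_cR hA b hk.le
  have zc : Mx (fun J F => ptr F J) (vg w) k F A (cR F A w) := mx_cR hA w hk.le
  have zv : Mx (fun J F => ptr F J) (vg v) k F A (cR F A v) := mx_cR hA v hk.le
  have hw₁1 : w₁ ≤ 1 := N.wj.trans hj1
  have d1 : CH (Pool.Agent.H49.Ent.cond F.p A True) zw Rj ≤ k * J :=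
    mx_before hRj N.wj hj1 hzw.1
  have d2 : CH (Pool.Agent.H49.Ent.cond F.p A True) zw Rx ≤ k * J :=
    mx_before hRx N.wx hxx1 hzw.1
  have d3 : CH (Pool.Agent.H49.Ent.cond F.p A True) Rj R' ≤ k * J :=
    mx_before hR' N.jx hx1 hRj.1
  have d4 : CH (Pool.Agent.H49.Ent.cond F.p A True) Rx R' ≤ k * J :=
    mx_before hR' N.xx hx1 hRx.1
  have d5 : CH (Pool.Agent.H49.Ent.cond F.p A True) (cR F A b) zw ≤ k * J :=
    mx_before hzw (N.bw.trans N.ww) hw₁1 zb.1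
  have d6 : CH (Pool.Agent.H49.Ent.cond F.p A True) (cR F A w) zw ≤ k * J :=
    mx_before hzw N.ww hw₁1 zc.1
  have d7 : CH (Pool.Agent.H49.Ent.cond F.p A True) (cR F A w) Rj ≤ k * J :=
    mx_before hRj (N.ww.trans N.wj) hj1 zc.1
  have d8 : CH (Pool.Agent.H49.Ent.cond F.p A True) Rj (cR F A v) ≤ k * J :=
    mx_before zv N.jv N.v1 hRj.1
  -- the entropies
  have a1 := H1 V₂ Rj (hRj.le' lη) Xq N1 ((qJets m c 0 r 0 _ _ _).mono le_rfl f1 hXq)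
    ((qJet m _ _ _ _ _ _).mono le_rfl f1 hN1)
  have a2 := H2 V₄ R' (hR'.le' lη) N2 ((qJet m _ _ _ _ _ _).mono le_rfl f2 hN2)
  have a3 := H3 V₂ Rj (hRj.le' l3) Xp Xq ((qJets m c 0 r 0 _ _ _).mono le_rfl f3 hXp)
    ((qJets m c 0 r 0 _ _ _).mono le_rfl f3 hXq)
  have a4 := H4 V₃ Rx (hRx.le' l4) Xp Xq ((qJets m c 0 r 0 _ _ _).mono le_rfl f4 hXp)
    ((qJets m c 0 r 0 _ _ _).mono le_rfl f4 hXq)
  obtain ⟨-, a5, a5'⟩ := H5 _ (cR F A b) (zb.le' l5) Xp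
    ((qJets m c 0 r 0 _ _ _).mono le_rfl f5 hXp)
  have a5 := a5 _ (cR F A b) (zb.le' l5)
  have a5' := a5' _ (cR F A b) (zb.le' l5)
  have a6 := (H6 V₄ R' (hR'.le' l6) Xp ((qJets m c 0 r 0 _ _ _).mono le_rfl f6 hXp)).1
  have a7 := H7 _ (cR F A w) (zc.le' l7) N1 ((qJet m _ _ _ _ _ _).mono le_rfl f7 hN1)
  have a8 := H8 _ (cR F A w) (zc.le' l8) N2 ((qJet m _ _ _ _ _ _).mono le_rfl f8 hN2)
  have a9 := H9 V₄ R' (hR'.le' lη) (fun _ => ()) Xp (fun ω _ => rfl)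
    ((qJets m c 0 r 0 _ _ _).mono le_rfl f9 hXp)
  have a10 := H10 V₁ zw V₄ R' (hzw.le' l10) (hR'.le' l10) Up
    ((qG m c r sp b P).mono le_rfl f10 hUp)
  have a11 := H11 V₁ zw _ (cR F A v) (hzw.le' l11) (zv.le' l11)
  obtain ⟨XJ, hXJ⟩ : ∃ XJ : F.Ω → Fin r → ℤ, XJ = fun ω => fun l : Fin r => F.X J ω (c l) :=
    ⟨_, rfl⟩
  obtain ⟨Fv, hFv⟩ : ∃ Fv, Fv = (∑ i ∈ range r, (nf i - nn i)) * Real.log 2 * J := ⟨_, rfl⟩
  obtain ⟨Gf, hGf⟩ : ∃ Gf, Gf = (∑ i ∈ range r, (1 - nf i)) * Real.log 2 * J := ⟨_, rfl⟩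
  have hls : 20 * (r : ℝ) ^ 2 * φ * Real.log 2 * J ≤ 20 * (r : ℝ) ^ 2 * φ * J := by
    have : 20 * (r : ℝ) ^ 2 * φ * J * Real.log 2 ≤ 20 * (r : ℝ) ^ 2 * φ * J * 1 :=
      mul_le_mul_of_nonneg_left hl2' hφJ
    linarith
  have hF1 : ((∑ i ∈ range r, (nf i - nn i)) - 20 * (r : ℝ) ^ 2 * φ) * Real.log 2 * J - η * J =
      Fv - 20 * (r : ℝ) ^ 2 * φ * Real.log 2 * J - η * J := by
    rw [hFv]
    ring
  have hG1 : ((∑ i ∈ range r, (1 - nf i)) - 20 * (r : ℝ) ^ 2 * φ) * Real.log 2 * J - η * J =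
      Gf - 20 * (r : ℝ) ^ 2 * φ * Real.log 2 * J - η * J := by
    rw [hGf]
    ring
  rw [hF1] at a3 a4
  rw [hG1] at a6
  rw [← hGf] at a5
  have a5 : CH (Pool.Agent.H49.Ent.cond F.p A True) XJ
      (fun ω => (Xp ω, (cR F A b ω, F.W ω))) ≤ Gf + η * J := by
    rw [hXJ]
    exact a5
  have a5' : CH (Pool.Agent.H49.Ent.cond F.p A True) Xp
      (fun ω => (XJ ω, (cR F A b ω, F.W ω))) ≤ η * J := by
    rw [hXJ]
    exact a5'
  have a6 : Gf - 20 * (r : ℝ) ^ 2 * φ * Real.log 2 * J - η * J ≤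
      CH (Pool.Agent.H49.Ent.cond F.p A True) XJ (fun ω => (Xp ω, (R' ω, F.W ω))) := by
    rw [hXJ]
    exact a6
  rw [← hFv] at hcn ⊢
  rw [← hGf, ← hXJ]
  -- `px`
  have hpx : (∑ i ∈ range r, (nf i - sn i x' + 8 * ((i : ℝ) + 1) * φ) * Real.log 2) * J ≤
      r * Δ * J + 20 * (r : ℝ) ^ 2 * φ * J := by
    have s1 : ∑ i ∈ range r, (nf i - sn i x' + 8 * ((i : ℝ) + 1) * φ) * Real.log 2 ≤
        ∑ i ∈ range r, (Δ + 8 * ((i : ℝ) + 1) * φ) := by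
      refine Finset.sum_le_sum fun i hi => ?_
      rw [mem_range] at hi
      have e1 := N.nf0 i hi
      have e2 := N.nfΔ i hi
      have e3 : 0 ≤ 8 * ((i : ℝ) + 1) * φ := by positivity
      have e4 : (nf i - sn i x' + 8 * ((i : ℝ) + 1) * φ) * Real.log 2 ≤
          (nf i - sn i x' + 8 * ((i : ℝ) + 1) * φ) * 1 :=
        mul_le_mul_of_nonneg_left hl2' (by linarith)
      linarith
    have s2 := sum_loss r hφ.le
    have s3 : ∑ i ∈ range r, (Δ + 8 * ((i : ℝ) + 1) * φ) =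
        r * Δ + ∑ i ∈ range r, 8 * ((i : ℝ) + 1) * φ := by
      rw [Finset.sum_add_distrib, Finset.sum_const, card_range, nsmul_eq_mul]
    have s4 := mul_le_mul_of_nonneg_right (s1.trans (s3.le.trans (add_le_add le_rfl s2))) hJ0
    linarith
  have b9 : CH (Pool.Agent.H49.Ent.cond F.p A True) Xp (fun ω => (R' ω, F.W ω)) ≤
      CH (Pool.Agent.H49.Ent.cond F.p A True) Xp (fun ω => ((), (R' ω, F.W ω))) :=
    CH_mono_cond h0 fun ω ω' _ _ hh => Prod.ext rfl hh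
  -- the positions given the record of `zw`
  have b5 : CH (Pool.Agent.H49.Ent.cond F.p A True) XJ (fun ω => (Xp ω, (zw ω, F.W ω))) ≤
      k * J + (Gf + η * J) :=
    CH_tr h0 XJ (le_trans (CH_mono_cond h0 fun ω ω' _ _ hh => by
      simp only [Prod.mk.injEq] at hh
      exact hh.2.1) d5) a5 fun ω ω' _ _ hh => by
        simp only [Prod.mk.injEq] at hh ⊢
        exact ⟨hh.2.1, hh.1, hh.2.2.2⟩
  have b5' : CH (Pool.Agent.H49.Ent.cond F.p A True) Xp (fun ω => (XJ ω, (zw ω, F.W ω))) ≤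
      k * J + η * J :=
    CH_tr h0 Xp (le_trans (CH_mono_cond h0 fun ω ω' _ _ hh => by
      simp only [Prod.mk.injEq] at hh
      exact hh.2.1) d5) a5' fun ω ω' _ _ hh => by
        simp only [Prod.mk.injEq] at hh ⊢
        exact ⟨hh.2.1, hh.1, hh.2.2.2⟩
  -- the target
  have hfl : ⌊Mn * (J : ℝ)⌋₊ ≤ ⌊Λv * (J : ℝ)⌋₊ :=
    Nat.floor_le_floor (mul_le_mul_of_nonneg_right N.mv hJ0)
  have hmore := X_more hcl hfl (c r) (fun ω => (N1 ω, (XJ ω, (zw ω, F.W ω))))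
  have hmore' : ((⌊Λv * (J : ℝ)⌋₊ : ℝ) - ⌊Mn * (J : ℝ)⌋₊) * Real.log 2 ≤ Δ' * J + η * J := by
    have e1 : (⌊Λv * (J : ℝ)⌋₊ : ℝ) ≤ Λv * J :=
      Nat.floor_le (mul_nonneg (N.m0.trans N.mv) hJ0)
    have e2 : Mn * (J : ℝ) ≤ (⌊Mn * (J : ℝ)⌋₊ : ℝ) + 1 := (Nat.lt_floor_add_one _).le
    have e3 : Λv * J ≤ (Mn + Δ') * J := mul_le_mul_of_nonneg_right N.vΔ hJ0
    have e4 : 0 ≤ (⌊Λv * (J : ℝ)⌋₊ : ℝ) - ⌊Mn * (J : ℝ)⌋₊ := by
      have : (⌊Mn * (J : ℝ)⌋₊ : ℝ) ≤ ⌊Λv * (J : ℝ)⌋₊ := by exact_mod_cast hfl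
      linarith
    have e5 : ((⌊Λv * (J : ℝ)⌋₊ : ℝ) - ⌊Mn * (J : ℝ)⌋₊) * Real.log 2 ≤
        ((⌊Λv * (J : ℝ)⌋₊ : ℝ) - ⌊Mn * (J : ℝ)⌋₊) * 1 := mul_le_mul_of_nonneg_left hl2' e4
    linarith
  have hnl := nl_asm h0 (N1 := N1) (N2 := N2) (XJ := XJ)
    (C := fun ω => ceI ((range r).image c) (fun _ => J) (F.x ω)) (zw := zw) (zc := cR F A w)
    (zv := cR F A v) (Rj := Rj) (Y := F.W) (Xo := fun ω => F.X ⌊Mf * J⌋₊ ω (c r))
    (Xv := fun ω => F.X ⌊Λv * J⌋₊ ω (c r)) (Xn := fun ω => F.X ⌊Mn * J⌋₊ ω (c r))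
    (a := k * J) (e := η * J) (d := Δ' * J + η * J) (κn := κn * J)
    (by rw [hXJ]; exact det_cei rfl _) (by rw [hXJ]; exact det_cei' rfl _) d6 d7 d8 a8.1 a8.2
    a7.2 (hmore.trans hmore') (by
      rw [hI]
      exact a11)
  have hkn : κf * J + κn * J + 16 * (η * J) ≤ κ := by linarith
  exact ⟨h0, by linarith, by linarith, by linarith, by linarith, by linarith, huq,
    by linarith, by linarith, by linarith, by linarith, hqp, by linarith, by linarith,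
    by linarith, by linarith, by linarith, by linarith, by linarith⟩

end Pool.V0F
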