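import Pool.Agent.H44.V0F.Ev4
import Pool.Agent.H44.V0F.Vcl
import Pool.Agent.H83.OWN.Lbc
import Pool.Agent.H91.D2.Tlc5
import Pool.Agent.H71.AVG.Pf2
import Pool.Agent.H45.RPL.Hyp

/-!
# Codes and digits over the charts of the windows

`cod_congr`, `cod_more`: the codes over other labels, more digits of the codes. `CH_jhs`: more digits
of the own heights. `qj_win`, `qj_h`, `qj_v`, `qj_j2`: the digits of the own heights and velocities are
the quantities of the class theorems. `oj_sm`: the own velocity of the target is small. `cR_cell`: the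
cells of the canonical record.
-/

set_option autoImplicit false

namespace Pool.V0F

open Finset Real MvPolynomial
open Pool.Agent.H49.Ent Pool.Agent.H32.Dense
open Pool.STK hiding pr2
open Pool.KA Pool.KSAT Pool.K2S Pool.PB Pool.S6C
open Pool.GEN Pool.CHT Pool.CHX Pool.ISO Pool.LA91 Pool.AVG71 Pool.AVG5 Pool.D2F2 Pool.AVG57
open Pool.RCD
open Pool.PB.Trl (rt rt_mem t_rt)
open Pool.GRD (LbP)
open Pool.AJW (CfB)

variable {m J : ℕ}

/-! ### Windows -/

theorem upw_upw {F : Fam m J} {a b d : ℕ} (h1 : a ≤ b) (h2 : b ≤ d) (s : LnT F) :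
    upw a b (upw b d s) = upw a d s := by
  unfold upw
  refine Prod.ext rfl (Prod.ext rfl ?_)
  show s.2.2 / 2 ^ (d - b) / 2 ^ (b - a) = s.2.2 / 2 ^ (d - a)
  rw [Nat.div_div_eq_div_mul, ← pow_add, show d - b + (b - a) = d - a by omega]

/-! ### Codes -/

/-- The codes depend on the labels at the code of the line. -/
theorem cod_congr {F : Fam m J} {W j₀ D : ℕ} {σ : ℝ} {κ : Fin m} {V V' : Type}
    {z : LnT F → V} {z' : LnT F → V'} {G : V → MvPolynomial (Option (Fin m)) ℝ}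
    {G' : V' → MvPolynomial (Option (Fin m)) ℝ}
    (h : ∀ ω, G (z (slam F W ω)) = G' (z' (slam F W ω))) :
    Pool.AVG71.cod F W j₀ D σ κ z G = Pool.AVG71.cod F W j₀ D σ κ z' G' := by
  funext ω a
  have e : dv W (fun s (_ : Fin m) => G (z s)) κ (slam F W ω) =
      dv W (fun s (_ : Fin m) => G' (z' s)) κ (slam F W ω) := by
    show lc W (slam F W ω) (some κ) - (aeval (lc W (slam F W ω))) (G (z (slam F W ω))) =
      lc W (slam F W ω) (some κ) - (aeval (lc W (slam F W ω))) (G' (z' (slam F W ω)))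
    rw [h ω]
  unfold Pool.AVG71.cod
  rw [e]

/-- **More digits of the codes.** -/
theorem cod_more {F : Fam m J} {p : F.Ω → ℝ} (hp : IsLaw p) {W j₀ D : ℕ} {a b d : ℝ}
    (hd : b - a ≤ d) (hd0 : 0 ≤ d) {κ : Fin m} {V : Type} (z : LnT F → V)
    (G : V → MvPolynomial (Option (Fin m)) ℝ) {𝓦 : Type} (Z : F.Ω → 𝓦) :
    CH p (Pool.AVG71.cod F W j₀ D (2 ^ b) κ z G) Z ≤
      CH p (Pool.AVG71.cod F W j₀ D (2 ^ a) κ z G) Z +
        ((D : ℝ) + 1) * (d * Real.log 2 + Real.log 5) := by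
  have h0 := hp.nonneg
  have hl2 : 0 < Real.log 2 := Real.log_pos one_lt_two
  have hl5 : 0 < Real.log 5 := Real.log_pos (by norm_num)
  have h1 := CH_le_add h0 (Pool.AVG71.cod F W j₀ D (2 ^ b) κ z G)
    (Pool.AVG71.cod F W j₀ D (2 ^ a) κ z G) Z
  have h2 := ch_vec h0 (fun ω => (Pool.AVG71.cod F W j₀ D (2 ^ a) κ z G ω, Z ω)) (D + 1)
    (Pool.AVG71.cod F W j₀ D (2 ^ b) κ z G) (c := d * Real.log 2 + Real.log 5) fun i => by
    by_cases hi : j₀ ≤ (i : ℕ)
    · have e1 : (fun ω => Pool.AVG71.cod F W j₀ D (2 ^ b) κ z G ω i) = fun ω => ⌊(2 : ℝ) ^ b *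
          (dv W (fun s (_ : Fin m) => G (z s)) κ (slam F W ω)).coeff i⌋ := by
        funext ω
        unfold Pool.AVG71.cod
        rw [if_pos hi]
      rw [e1]
      have h3 := CH_dig hp (a := a) (b := b)
        (fun ω => (dv W (fun s (_ : Fin m) => G (z s)) κ (slam F W ω)).coeff i)
        (fun ω => (Pool.AVG71.cod F W j₀ D (2 ^ a) κ z G ω, Z ω)) (fun ω ν _ _ e => by
          have e2 := congrFun (Prod.ext_iff.mp e).1 i
          unfold Pool.AVG71.cod at e2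
          simp only [if_pos hi] at e2
          exact e2)
      refine h3.trans (add_le_add (mul_le_mul_of_nonneg_right (max_le hd hd0) hl2.le) le_rfl)
    · have e1 : (fun ω => Pool.AVG71.cod F W j₀ D (2 ^ b) κ z G ω i) = fun _ => (0 : ℤ) := by
        funext ω
        unfold Pool.AVG71.cod
        rw [if_neg hi]
      rw [e1, CH_eq_zero h0 (fun _ _ _ _ _ => rfl)]
      positivity
  push_cast at h2
  linarith

/-! ### Digits of the own heights -/

section

variable {F : Fam m J} {c : ℕ → Fin m} {r w : ℕ}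
  {H : LnT F → ℕ → MvPolynomial (Option (Fin m)) ℝ} {p : F.Ω → ℝ}

/-- More digits of the own heights, all places. -/
theorem CH_jhs (hp : IsLaw p) {n n' : ℕ → ℝ} (hn : ∀ l < r, n l ≤ n' l) {𝓦 : Type}
    (Z : F.Ω → 𝓦) (hZ : Det p Z (jh F c r w H n)) :
    CH p (jh F c r w H n') Z ≤ (∑ l ∈ range r, (n' l - n l)) * Real.log 2 * J +
      r * Real.log 5 := by
  have h0 := hp.nonneg
  have hl2 : 0 < Real.log 2 := Real.log_pos one_lt_two
  have hJ : (0 : ℝ) ≤ J := Nat.cast_nonneg J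
  have h1 : CH p (jh F c r w H n') Z ≤ CH p (fun ω (l : Fin r) =>
      ⌊(2 : ℝ) ^ (n' l * J) * ojet F (c l) 0 (H (slam F w ω) l) ω⌋) Z := by
    refine CH_mono_left h0 fun ω ν _ _ e => ?_
    funext l j'
    unfold jh
    by_cases h : l < r ∧ j' = 0
    · rw [if_pos h, if_pos h]
      exact congrFun (Prod.ext_iff.mp e).1 ⟨l, h.1⟩
    · rw [if_neg h, if_neg h]
  refine h1.trans ((Pool.OWN83.ch_vecs h0 Z r _ (fun l : Fin r => (n' l - n l) * J * Real.log 2 +
    Real.log 5) fun l => ?_).trans (le_of_eq ?_))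
  · have h2 := CH_dig hp (a := n l * J) (b := n' l * J)
      (fun ω => ojet F (c l) 0 (H (slam F w ω) l) ω) Z (fun ω ν hω hν e => by
        have e1 := congrFun (congrFun (hZ ω ν hω hν e) l) 0
        unfold jh at e1
        rw [if_pos ⟨l.2, rfl⟩, if_pos ⟨l.2, rfl⟩] at e1
        exact e1)
    refine h2.trans (add_le_add (mul_le_mul_of_nonneg_right (max_le (le_of_eq (by ring)) ?_)
      hl2.le) le_rfl)
    have := hn l l.2
    exact mul_nonneg (by linarith) hJ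
  · rw [Finset.sum_add_distrib, Finset.sum_const, Finset.card_univ, Fintype.card_fin,
      nsmul_eq_mul, Finset.sum_range (fun l => n' l - n l), Finset.sum_mul, Finset.sum_mul]
    congr 1
    exact Finset.sum_congr rfl fun l _ => by ring

/-- Position and velocities to fewer digits of the velocities. -/
theorem CH_j2 (hp : IsLaw p) {N N' : ℕ → ℕ → ℝ} (h0' : ∀ l < r, N' l 0 = N l 0)
    (h1' : ∀ l < r, N' l 1 ≤ N l 1) {𝓦 : Type} (Z : F.Ω → 𝓦)
    (hZ : Det p Z (jet2 F c w H 0 r N)) :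
    CH p (jet2 F c w H 0 r N') Z ≤ r * Real.log 5 := by
  have h0 := hp.nonneg
  have hJ : (0 : ℝ) ≤ J := Nat.cast_nonneg J
  have hr : 0 + r = r := Nat.zero_add r
  have e1 : ∀ (N : ℕ → ℕ → ℝ), jet2 F c w H 0 r N = jet2 F c w H 0 (0 + r) N := by
    intro N
    rw [hr]
  have hh : Det p Z (jh F c r w H fun l => N' l 0) := fun ω ν hω hν e => by
    have e2 := hZ ω ν hω hν e
    rw [e1] at e2
    have e3 := jet2_jh (p := p) N ω ν hω hν e2
    funext l j'
    have e4 := congrFun (congrFun e3 l) j'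
    unfold jh at e4 ⊢
    by_cases h : l < r ∧ j' = 0
    · rw [if_pos h, if_pos h] at e4 ⊢
      simp only [h0' l h.1]
      exact e4
    · rw [if_neg h, if_neg h]
  have hv : Det p Z (jv F c r w H fun l => N l 1) := fun ω ν hω hν e => by
    have e2 := hZ ω ν hω hν e
    rw [e1] at e2
    exact jet2_jv (p := p) N ω ν hω hν e2
  have h2 := CH_jv hp (n := fun l => N l 1) (n' := fun l => N' l 1) (d := 0) (fun l hl => by
    have := mul_nonneg (sub_nonneg.2 (h1' l hl)) hJ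
    linarith) le_rfl Z hv
  have h3 : CH p (jet2 F c w H 0 r N') Z ≤ CH p (fun ω => (jv F c r w H (fun l => N' l 1) ω,
      jh F c r w H (fun l => N' l 0) ω)) Z := by
    refine CH_mono_left h0 fun ω ν hω hν e => ?_
    have e2 := Prod.ext_iff.mp (Prod.ext_iff.mp e).1
    rw [e1]
    exact jhv_jet2 (p := p) N' ω ν hω hν (Prod.ext e2.2 e2.1)
  have h4 := CH_subadd h0 (jv F c r w H fun l => N' l 1) (jh F c r w H fun l => N' l 0) Z
  have h5 := CH_eq_zero h0 hh
  linarith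

end

/-! ### Quantities -/

/-- **The digits of an own jet** over a closed label are the quantity `qJet`. -/
theorem qj_win (m D j : ℕ) {N w E : ℝ} (hw0 : 0 ≤ w) (hw1 : w ≤ 1) : ∃ M J₁ : ℕ, ∀ K ≥ M,
    ∀ J ≥ J₁, ∀ (F : Fam m J) (I : Finset (Fin m)) (κ : Fin m) (A : F.Ω → Prop) (V : Type)
      (z : PtT F → V) (z' : LnT F → V) (G : V → MvPolynomial (Option (Fin m)) ℝ) (P : ℕ)
      (p e : ℝ), LbP F I κ D J ⌊w * J⌋₊ P A z z' G → CfB F ⌊w * J⌋₊ E κ A z' G →
      ⌊(p - e) * J⌋₊ ≤ P → (qJet m I κ j w p N).P K e J F A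
        (fun ω => ⌊(2 : ℝ) ^ (N * J) * ojet F κ j (G (z' (slam F ⌊w * J⌋₊ ω))) ω⌋) := by
  obtain ⟨M, J₁, hM⟩ := Pool.AJW.cnt_cfb m D j (N := N) (w := w) (E := E) hw0 hw1
  refine ⟨max M D, J₁, fun K hK J hJ F I κ A V z z' G P p e hl hc hP => ⟨?_, V, z, z', G,
    hl.mono (Finset.Subset.refl _) ((le_max_right _ _).trans hK) hP, fun ω _ => rfl⟩⟩
  refine (hM J hJ F κ A V z' G hl.deg hc).trans (Real.exp_le_exp.2 ?_)
  have h1 : (M : ℝ) ≤ K := by exact_mod_cast (le_max_left _ _).trans hK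
  exact mul_le_mul_of_nonneg_right h1 (Nat.cast_nonneg J)

/-- **The own velocity is small** in units `2 ^ ((|E| + 3) J)`. -/
theorem oj_sm (m D : ℕ) {E : ℝ} : ∃ J₁ : ℕ, ∀ J ≥ J₁, ∀ (F : Fam m J) (κ : Fin m)
    (A : F.Ω → Prop) (w : ℕ) (H : LnT F → MvPolynomial (Option (Fin m)) ℝ), w ≤ J →
    (∀ s, (H s).totalDegree ≤ D) → CfB F w E κ A (fun s => s) H → ∀ ω, A ω →
    |(2 : ℝ) ^ (-(|E| + 3) * J) * ojet F κ 1 (H (slam F w ω)) ω| < 1 := by
  refine ⟨D + 2, fun J hJ F κ A w H hw hdeg hc ω hω => ?_⟩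
  have hJ0 : (0 : ℝ) ≤ J := Nat.cast_nonneg J
  have hJD : (D : ℝ) + 2 ≤ J := by exact_mod_cast hJ
  obtain ⟨P, hP⟩ : ∃ P, P = dv w (fun s (_ : Fin m) => H s) κ (slam F w ω) := ⟨_, rfl⟩
  have hPd : P.natDegree ≤ D + 1 := by
    rw [hP]
    exact natDegree_dv w (K := D) (G := fun s (_ : Fin m) => H s) (fun s _ => hdeg s) _ _
  have hθ : |rt F w ω| ≤ 1 := by
    have h2 := rt_mem F w ω
    rw [abs_le]
    constructor <;> linarith [h2.1, h2.2]
  have e1 : jt P (rt F w ω) 1 = ojet F κ 1 (H (slam F w ω)) ω /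
      (((1 : ℕ).factorial : ℝ) * (2 ^ w) ^ 1) := by
    rw [hP]
    exact Pool.AVG57.ojet_tay F hw ω κ (fun s (_ : Fin m) => H s) 1
  have h2 : |jt P (rt F w ω) 1| ≤ 2 ^ (D + 2) * 2 ^ (E * J) :=
    jt_le hPd hθ (by positivity) fun i _ => by
      rw [hP]
      exact hc ω hω i
  have hf : (0 : ℝ) < 2 ^ w := by positivity
  rw [e1, Nat.factorial_one, Nat.cast_one, one_mul, pow_one, abs_div, abs_of_pos hf,
    div_le_iff₀ hf] at h2
  rw [abs_mul, abs_of_pos (Real.rpow_pos_of_pos two_pos _)]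
  have h3 : (2 : ℝ) ^ (-(|E| + 3) * J) * |ojet F κ 1 (H (slam F w ω)) ω| ≤
      2 ^ (-(|E| + 3) * J) * (2 ^ (D + 2) * 2 ^ (E * J) * 2 ^ w) :=
    mul_le_mul_of_nonneg_left h2 (Real.rpow_pos_of_pos two_pos _).le
  refine h3.trans_lt ?_
  have e2 : (2 : ℝ) ^ (-(|E| + 3) * J) * (2 ^ (D + 2) * 2 ^ (E * J) * 2 ^ w) =
      2 ^ (-(|E| + 3) * J + (((D + 2 : ℕ) : ℝ) + E * J + (w : ℝ))) := by
    rw [Real.rpow_add two_pos, Real.rpow_add two_pos, Real.rpow_add two_pos,
      Real.rpow_natCast, Real.rpow_natCast]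
  rw [e2]
  refine Real.rpow_lt_one_of_one_lt_of_neg one_lt_two ?_
  have h4 : E * J ≤ |E| * J := mul_le_mul_of_nonneg_right (le_abs_self E) hJ0
  have h5 : (w : ℝ) ≤ J := by exact_mod_cast hw
  have h6 : (0 : ℝ) ≤ D := Nat.cast_nonneg D
  push_cast
  linarith

/-! ### Cells -/

/-- **The cells of the canonical record.** -/
theorem cR_cell {F : Fam m J} {A : F.Ω → Prop} {w s : ℝ}
    (h : qRec (fun J F => ptr F J) (vg w) s J F A) (v) :
    (cnt F.p (ptr F J) (fun ω => A ω ∧ cR F A w ω = v) : ℝ) ≤ Real.exp (-(s * J)) := by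
  obtain ⟨V, z, hz, h2⟩ := h
  by_cases hA : ∃ ω, A ω ∧ cR F A w ω = v
  · obtain ⟨ω₀, h0, rfl⟩ := hA
    have h3 : Sub (fun ω => A ω ∧ cR F A w ω = cR F A w ω₀) (fun ω => A ω ∧ z ω = z ω₀) := by
      rintro ω ⟨h4, h5⟩
      refine ⟨h4, ?_⟩
      have h6 := congrFun h5 ⟨fun ν => z ν = z ω₀, hz.comp fun v => v = z ω₀⟩
      have h7 : (z ω = z ω₀) = (z ω₀ = z ω₀) := h6
      exact h7.mpr rfl
    refine le_trans ?_ (h2 (z ω₀))
    exact_mod_cast cnt_mono F.p (ptr F J) h3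
  · push Not at hA
    have h3 : Sub (fun ω => A ω ∧ cR F A w ω = v) (fun ω => A ω ∧ z ω = z ω ∧ False) := by
      rintro ω ⟨h4, h5⟩
      exact absurd h5 (hA ω h4)
    have h4 : cnt F.p (ptr F J) (fun ω => A ω ∧ cR F A w ω = v) = 0 := by
      rw [← cset_card, Finset.card_eq_zero, Finset.eq_empty_iff_forall_notMem]
      intro y hy
      obtain ⟨ω, -, h5, -⟩ := of_mem_cset hy
      exact hA ω h5.1 h5.2
    rw [h4, Nat.cast_zero]
    exact (Real.exp_pos _).le

end Pool.V0F
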