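import Pool.Agent.H44.V0F.Ev2

/-!
# Numbers and rows of the event

`v0_nums`: the numerical conditions of `v0_ev`. `kap_le`: the places of the rows. `row_ev`: the rows
of `v0_ev` from rows with fixed digits.
-/

set_option autoImplicit false

namespace Pool.V0F

open Finset Real MvPolynomial
open Pool.Agent.H49.Ent Pool.Agent.H32.Dense
open Pool.STK hiding pr2
open Pool.KA Pool.KSAT Pool.K2S Pool.PB Pool.S6C
open Pool.GEN Pool.CHT Pool.CHX Pool.ISO Pool.LA91 Pool.AVG71 Pool.AVG5 Pool.D2F2 Pool.AVG57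
open Pool.PB.Trl (rt rt_mem t_rt)
open Pool.KVA (MI)
open Pool.KAF (rs Pr)

/-- The logarithm of a multiple of `2 ^ n`. -/
theorem log_two_pow {a b U : ℝ} {n : ℕ} (ha : 0 ≤ a) (hb : 1 ≤ b) (h0 : 0 ≤ U)
    (hU : U ≤ 2 ^ n) : Real.log (a * U + b) ≤ n + Real.log (a + b) := by
  have p1 : (1 : ℝ) ≤ 2 ^ n := one_le_pow₀ (by norm_num)
  have h1 : a * U + b ≤ (a + b) * 2 ^ n := by nlinarith
  have h2 : 0 < a * U + b := by positivity
  refine (Real.log_le_log h2 h1).trans ?_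
  rw [Real.log_mul (by linarith) (by positivity), Real.log_pow]
  have hl2' : Real.log 2 ≤ 1 := by
    have := Real.log_two_lt_d9
    linarith
  have : (n : ℝ) * Real.log 2 ≤ n * 1 := mul_le_mul_of_nonneg_left hl2' (Nat.cast_nonneg n)
  linarith

/-- The constants `cE0`, `cR`. -/
theorem cE0_le (r K : ℕ) : ∃ B : ℝ, 0 ≤ B ∧ ∀ (U : ℝ) (n : ℕ), 0 ≤ U → U ≤ 2 ^ n →
    cE0 r K U ≤ B + (r + 1) * n ∧ cR r K (r * (U + 1) + 1) ≤ B + 2 * n := by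
  obtain ⟨B₁, hB₁⟩ : ∃ B₁ : ℝ, B₁ = cA K + (2 * r + 3) * cJ K + Real.log 5 +
    r * Real.log (2 + 3) + Real.log (2 + (8 * r + 4 * ((K + 1) * (r + 1)) + 3)) := ⟨_, rfl⟩
  obtain ⟨B₂, hB₂⟩ : ∃ B₂ : ℝ, B₂ = 2 * Real.log (2 * r + (2 * r + 4 * ((K + 1) * (r + 1)) + 11)) :=
    ⟨_, rfl⟩
  refine ⟨|B₁| + |B₂|, by positivity, fun U n h0 hU => ⟨?_, ?_⟩⟩
  · unfold cE0
    have e1 : Real.log (2 * (U + 1) + 1) ≤ n + Real.log (2 + 3) := by
      have := log_two_pow (a := 2) (b := 3) (by norm_num) (by norm_num) h0 hU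
      rwa [show 2 * (U + 1) + 1 = 2 * U + 3 by ring]
    have hx : (0 : ℝ) ≤ 8 * r + 4 * ((K + 1) * (r + 1)) := by positivity
    have e2 : Real.log (2 * (U + 4 * r + 2 * ((K + 1) * (r + 1)) + 1) + 1) ≤
        n + Real.log (2 + (8 * r + 4 * ((K + 1) * (r + 1)) + 3)) := by
      have := log_two_pow (a := 2) (b := 8 * r + 4 * ((K + 1) * (r + 1)) + 3) (by norm_num)
        (by linarith) h0 hU
      rwa [show 2 * (U + 4 * r + 2 * ((K + 1) * (r + 1)) + 1) + 1 =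
        2 * U + (8 * r + 4 * ((K + 1) * (r + 1)) + 3) by ring]
    have e3 : (r : ℝ) * Real.log (2 * (U + 1) + 1) ≤ r * (n + Real.log (2 + 3)) :=
      mul_le_mul_of_nonneg_left e1 (Nat.cast_nonneg r)
    have e4 := le_abs_self B₁
    have e5 := abs_nonneg B₂
    linarith
  · unfold cR
    have hx : (0 : ℝ) ≤ 2 * r + 4 * ((K + 1) * (r + 1)) := by positivity
    have e2 : Real.log (2 * ((r * (U + 1) + 1) + 2 * ((K + 1) * (r + 1)) + 4) + 1) ≤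
        n + Real.log (2 * r + (2 * r + 4 * ((K + 1) * (r + 1)) + 11)) := by
      have := log_two_pow (a := 2 * r) (b := 2 * r + 4 * ((K + 1) * (r + 1)) + 11) (by positivity)
        (by linarith) h0 hU
      rwa [show 2 * ((r * (U + 1) + 1) + 2 * ((K + 1) * (r + 1)) + 4) + 1 =
        2 * r * U + (2 * r + 4 * ((K + 1) * (r + 1)) + 11) by ring]
    have e4 := le_abs_self B₂
    have e5 := abs_nonneg B₁
    linarith

/-- **The numerical conditions** of `v0_ev`. -/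
theorem v0_nums (r K : ℕ) {cc κ π₀ ι : ℝ} (hcc : 0 < cc) (hκ : 0 < κ) (hκ1 : κ ≤ 1)
    (hπ : 0 < π₀) (hι : 0 < ι) : ∃ τ : ℝ, 0 < τ ∧ τ ≤ 1 ∧ ∃ X₁ : ℕ, ∀ (X mm : ℕ) (e U Ur : ℝ),
      X₁ ≤ X → 0 ≤ e → e ≤ τ * X → (mm : ℝ) ≤ τ * X → 0 ≤ U → U ≤ 2 ^ mm →
      Ur ≤ (1 - 2 * cc) * (κ * X) * Real.log 2 + τ * X →
      (mm : ℝ) ≤ ι * X ∧ 6 * (3 * e + cE0 r K U + r * cV K) ≤ ι * X ∧
      3 * (3 * e + cE0 r K U + r * cV K) + r * mm * Real.log 2 ≤ ι * X * Real.log 2 ∧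
      Ur + cR r K (r * (U + 1) + 1) + (4 * (3 * e + cE0 r K U + r * cV K) +
        r * mm * Real.log 2 + Real.log 2) / π₀ ≤ (1 - cc) * ⌊κ * X⌋₊ * Real.log 2 := by
  obtain ⟨B, hB0, hB⟩ := cE0_le r K
  have hl2 : 0 < Real.log 2 := Real.log_pos one_lt_two
  have hl2' : Real.log 2 ≤ 1 := by
    have := Real.log_two_lt_d9
    linarith
  have hcV := cV_nonneg K
  have hr0 : (0 : ℝ) ≤ r := Nat.cast_nonneg r
  -- the sum of all errors is at most `T₁ τ X + T₀`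
  obtain ⟨T₁, hT₁⟩ : ∃ T₁ : ℝ, T₁ = 6 * (r + 5) + 4 + 6 * (r + 5) / π₀ := ⟨_, rfl⟩
  obtain ⟨T₀, hT₀⟩ : ∃ T₀ : ℝ, T₀ = 6 * (B + r * cV K) + B + 1 +
    (4 * (B + r * cV K) + 1) / π₀ + |1 - cc| := ⟨_, rfl⟩
  have hT₁0 : 1 ≤ T₁ := by
    rw [hT₁]
    have : 0 ≤ 6 * ((r : ℝ) + 5) / π₀ := by positivity
    linarith
  have hT₀0 : 0 ≤ T₀ := by
    rw [hT₀]
    positivity
  obtain ⟨μ, hμ⟩ : ∃ μ : ℝ, μ = min (ι * Real.log 2) (cc * κ * Real.log 2) := ⟨_, rfl⟩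
  have hμ0 : 0 < μ := by
    rw [hμ]
    exact lt_min (by positivity) (by positivity)
  have hμ1 : μ ≤ ι * Real.log 2 := by rw [hμ]; exact min_le_left _ _
  have hμ2 : μ ≤ cc * κ * Real.log 2 := by rw [hμ]; exact min_le_right _ _
  obtain ⟨τ, hτ⟩ : ∃ τ : ℝ, τ = min 1 (μ / (4 * T₁)) := ⟨_, rfl⟩
  have hτ0 : 0 < τ := by
    rw [hτ]
    exact lt_min one_pos (by positivity)
  have hτ1 : τ * (4 * T₁) ≤ μ := by
    have : τ ≤ μ / (4 * T₁) := by rw [hτ]; exact min_le_right _ _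
    rwa [le_div_iff₀ (by positivity)] at this
  obtain ⟨X₁, hX₁⟩ := exists_nat_ge (4 * T₀ / μ)
  refine ⟨τ, hτ0, by rw [hτ]; exact min_le_left _ _, X₁, ?_⟩
  intro X mm e U Ur hX he heτ hmm hU0 hU hUr
  obtain ⟨c1, c2⟩ := hB U mm hU0 hU
  have hX0 : (0 : ℝ) ≤ X := Nat.cast_nonneg X
  have hXR : (X₁ : ℝ) ≤ X := by exact_mod_cast hX
  have hTX : 4 * T₀ ≤ μ * X := by
    have := hX₁.trans hXR
    rw [div_le_iff₀ hμ0] at this
    linarith
  obtain ⟨y, hy⟩ : ∃ y : ℝ, y = τ * X := ⟨_, rfl⟩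
  rw [← hy] at heτ hmm hUr
  have hy0 : 0 ≤ y := by rw [hy]; positivity
  have hyT : 4 * (T₁ * y) ≤ μ * X := by
    have := mul_le_mul_of_nonneg_right hτ1 hX0
    rw [hy]
    linarith
  have hmm0 : (0 : ℝ) ≤ mm := Nat.cast_nonneg mm
  have hrm : (r : ℝ) * mm * Real.log 2 ≤ r * y := by
    have h1 : (r : ℝ) * mm * Real.log 2 ≤ r * mm * 1 :=
      mul_le_mul_of_nonneg_left hl2' (by positivity)
    have h2 : (r : ℝ) * mm ≤ r * y := mul_le_mul_of_nonneg_left hmm hr0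
    linarith
  have hr1m : ((r : ℝ) + 1) * mm ≤ (r + 1) * y := mul_le_mul_of_nonneg_left hmm (by positivity)
  -- the basic error
  obtain ⟨Q, hQ⟩ : ∃ Q : ℝ, Q = 3 * e + cE0 r K U + r * cV K := ⟨_, rfl⟩
  have hQ1 : Q ≤ (r + 4) * y + (B + r * cV K) := by
    rw [hQ]
    nlinarith
  rw [← hQ]
  have hry : 0 ≤ (r : ℝ) * y := by positivity
  have hrc : 0 ≤ r * cV K := by positivity
  -- `T₁ y`, `T₀` against the errors
  have g1 : 6 * (r + 5) * y + 4 * y ≤ T₁ * y := by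
    rw [hT₁]
    have : 0 ≤ 6 * ((r : ℝ) + 5) / π₀ * y := by positivity
    nlinarith
  have g0 : 6 * (B + r * cV K) + B + 1 ≤ T₀ := by
    rw [hT₀]
    have h1 : 0 ≤ (4 * (B + r * cV K) + 1) / π₀ := by positivity
    have h2 := abs_nonneg (1 - cc)
    linarith
  have hμX0 : 0 ≤ μ * X := by positivity
  have hιX : μ * X ≤ ι * X * Real.log 2 := by
    have := mul_le_mul_of_nonneg_right hμ1 hX0
    linarith
  have hιX' : ι * X * Real.log 2 ≤ ι * X := by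
    have h1 : 0 ≤ ι * X := by positivity
    nlinarith
  refine ⟨?_, ?_, ?_, ?_⟩
  · nlinarith
  · nlinarith
  · nlinarith
  · have h1 : κ * X - 1 ≤ (⌊κ * X⌋₊ : ℝ) := by
      have := Nat.lt_floor_add_one (κ * (X : ℝ))
      linarith
    have h1' : (⌊κ * X⌋₊ : ℝ) ≤ κ * X := Nat.floor_le (by positivity)
    have h2 : (1 - cc) * (κ * X) - |1 - cc| ≤ (1 - cc) * ⌊κ * X⌋₊ := by
      have h3 : (1 - cc) * (κ * X - ⌊κ * X⌋₊) ≤ |1 - cc| * 1 := by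
        refine (le_abs_self _).trans ?_
        rw [abs_mul]
        refine mul_le_mul_of_nonneg_left ?_ (abs_nonneg _)
        rw [abs_le]
        constructor <;> linarith
      linarith
    have h4 : ((1 - cc) * (κ * X) - |1 - cc|) * Real.log 2 ≤
        (1 - cc) * ⌊κ * X⌋₊ * Real.log 2 := mul_le_mul_of_nonneg_right h2 hl2.le
    refine le_trans ?_ h4
    have h5 : (4 * Q + r * mm * Real.log 2 + Real.log 2) / π₀ ≤
        (6 * (r + 5) / π₀) * y + (4 * (B + r * cV K) + 1) / π₀ := by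
      have e1 : 4 * Q + r * mm * Real.log 2 + Real.log 2 ≤ 6 * (r + 5) * y +
          (4 * (B + r * cV K) + 1) := by nlinarith
      have e2 := div_le_div_of_nonneg_right e1 hπ.le
      refine e2.trans (le_of_eq ?_)
      field_simp
    have h6 : |1 - cc| * Real.log 2 ≤ |1 - cc| := mul_le_of_le_one_right (abs_nonneg _) hl2'
    have h7 : μ * X ≤ cc * (κ * X) * Real.log 2 := by
      have := mul_le_mul_of_nonneg_right hμ2 hX0
      linarith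
    have g2 : T₁ * y = (6 * (r + 5) + 4) * y + 6 * (r + 5) / π₀ * y := by
      rw [hT₁]
      ring
    have g3 : T₀ = 6 * (B + r * cV K) + B + 1 + (4 * (B + r * cV K) + 1) / π₀ + |1 - cc| := hT₀
    nlinarith

/-- The places of the rows. -/
theorem kap_le {κ : ℝ} (hκ : 0 < κ) : ∃ X₁ : ℕ, ∀ X : ℕ, X₁ ≤ X → ∀ j : ℕ,
    j * ⌊κ * X⌋₊ ≤ X → (j : ℝ) * κ ≤ 1 := by
  obtain ⟨n₀, hn₀⟩ : ∃ n₀ : ℕ, n₀ = ⌊1 / κ⌋₊ + 1 := ⟨_, rfl⟩
  have h1 : 1 < (n₀ : ℝ) * κ := by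
    have h2 := Nat.lt_floor_add_one (1 / κ)
    rw [div_lt_iff₀ hκ] at h2
    rw [hn₀]
    push_cast
    exact h2
  obtain ⟨X₁, hX₁⟩ := exists_nat_gt ((n₀ : ℝ) / (n₀ * κ - 1))
  refine ⟨X₁, fun X hX j hj => ?_⟩
  by_contra hcon
  push Not at hcon
  have hjn : n₀ ≤ j := by
    rw [hn₀]
    have h3 : 1 / κ < j := by
      rw [div_lt_iff₀ hκ]
      exact hcon
    have h4 : ⌊1 / κ⌋₊ < j := (Nat.floor_lt (by positivity)).2 h3
    omega
  have hXR : (X₁ : ℝ) ≤ X := by exact_mod_cast hX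
  have h5 : (n₀ : ℝ) < (n₀ * κ - 1) * X := by
    have := hX₁.trans_le hXR
    rw [div_lt_iff₀ (by linarith)] at this
    linarith
  have h6 : κ * X - 1 < (⌊κ * X⌋₊ : ℝ) := by
    have := Nat.lt_floor_add_one (κ * (X : ℝ))
    linarith
  have h7 : (n₀ * ⌊κ * X⌋₊ : ℕ) ≤ X := (Nat.mul_le_mul_right _ hjn).trans hj
  have h8 : ((n₀ * ⌊κ * X⌋₊ : ℕ) : ℝ) ≤ X := by exact_mod_cast h7
  push_cast at h8
  have hn0 : (1 : ℝ) ≤ n₀ := by
    rw [hn₀]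
    push_cast
    have : (0 : ℝ) ≤ ⌊1 / κ⌋₊ := Nat.cast_nonneg _
    linarith
  have h9 : (n₀ : ℝ) * (κ * X - 1) ≤ n₀ * ⌊κ * X⌋₊ :=
    mul_le_mul_of_nonneg_left h6.le (by linarith)
  linarith

section

variable {m J : ℕ} {F : Fam m J} {c : ℕ → Fin m} {r w : ℕ}
  {H : LnT F → ℕ → MvPolynomial (Option (Fin m)) ℝ} {p : F.Ω → ℝ}

/-- The digits `nb l` of the own heights. -/
theorem vv_jh (nb : ℕ → ℝ) :
    Det p (Vv F c r w H (fun l => nb l * J)) (jh F c r w H nb) := by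
  intro ω ν _ _ e
  funext l j'
  unfold jh
  by_cases h : l < r ∧ j' = 0
  · rw [if_pos h, if_pos h]
    exact congrFun e ⟨l, h.1⟩
  · rw [if_neg h, if_neg h]

theorem jh_vv (nb : ℕ → ℝ) :
    Det p (jh F c r w H nb) (Vv F c r w H (fun l => nb l * J)) := by
  intro ω ν _ _ e
  funext l
  have e1 := congrFun (congrFun e l) 0
  unfold jh at e1
  rw [if_pos ⟨l.2, rfl⟩, if_pos ⟨l.2, rfl⟩] at e1
  exact e1

/-- **The rows** from rows with fixed digits. -/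
theorem row_ev {q : F.Ω → ℝ} (hq : IsLaw q) {nb : ℕ → ℝ} {N₁ N₂ : ℕ} {P₁ P₂ : ℝ}
    (h1 : P₁ * J ≤ N₁) (h2 : N₂ ≤ P₂ * J) {ζ : Type} (zw : F.Ω → ζ) :
    CH q (Mh F c r w H N₂) (fun ω => (Mh F c r w H N₁ ω, (Vv F c r w H (fun l => nb l * J) ω,
      (F.W ω, zw ω)))) ≤
    CH q (th0 F c r w H P₂) (fun ω => (th0 F c r w H P₁ ω, (jh F c r w H nb ω,
      (zw ω, F.W ω)))) + 2 * Real.log 5 := by
  have h0 := hq.nonneg
  have e2 : ∀ N : ℕ, Mh F c r w H N = fun ω => ⌊(2 : ℝ) ^ (N : ℝ) *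
      ojet F (c r) 0 (H (slam F w ω) r) ω⌋ := by
    intro N
    funext ω
    unfold Mh
    rw [Real.rpow_natCast]
  obtain ⟨Z, hZ⟩ : ∃ Z : F.Ω → _, Z = fun ω => (Mh F c r w H N₁ ω,
    (Vv F c r w H (fun l => nb l * J) ω, (F.W ω, zw ω))) := ⟨_, rfl⟩
  rw [← hZ]
  have s1 := CH_le_add h0 (Mh F c r w H N₂) (th0 F c r w H P₂) Z
  have s2 : CH q (Mh F c r w H N₂) (fun ω => (th0 F c r w H P₂ ω, Z ω)) ≤ Real.log 5 := by
    have h3 := CH_dig hq (a := P₂ * J) (b := N₂) (fun ω => ojet F (c r) 0 (H (slam F w ω) r) ω)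
      (fun ω => (th0 F c r w H P₂ ω, Z ω)) (fun ω ν _ _ e => (Prod.ext_iff.mp e).1)
    rw [max_eq_right (by linarith), zero_mul, zero_add] at h3
    rw [e2]
    exact h3
  have s3 := CH_le_add h0 (th0 F c r w H P₂) (th0 F c r w H P₁) Z
  have s4 : CH q (th0 F c r w H P₁) Z ≤ Real.log 5 := by
    have h3 := CH_dig hq (a := N₁) (b := P₁ * J) (fun ω => ojet F (c r) 0 (H (slam F w ω) r) ω)
      Z (fun ω ν _ _ e => by
        rw [hZ] at e
        have e3 := (Prod.ext_iff.mp e).1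
        simp only [e2] at e3
        exact e3)
    rw [max_eq_right (by linarith), zero_mul, zero_add] at h3
    exact h3
  have s5 : CH q (th0 F c r w H P₂) (fun ω => (th0 F c r w H P₁ ω, Z ω)) ≤
      CH q (th0 F c r w H P₂) (fun ω => (th0 F c r w H P₁ ω, (jh F c r w H nb ω,
      (zw ω, F.W ω)))) := CH_mono_cond h0 fun ω ν hω hν e => by
    rw [hZ] at e
    simp only [Prod.mk.injEq] at e ⊢
    exact ⟨e.1, vv_jh nb ω ν hω hν e.2.2.1, e.2.2.2.2, e.2.2.2.1⟩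
  linarith

end

end Pool.V0F
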