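import Pool.Agent.H44.V0F.Cla

/-!
# The mutual informations over the canonical records, class level

`vl_fam`: the law `VLaw2`, the digits of the rows given the last record, and the fullness of the
digits of the rows.
-/

set_option autoImplicit false

namespace Pool.V0F

open Finset Real MvPolynomial
open Pool.Agent.H49.Ent Pool.Agent.H32.Dense
open Pool.STK hiding pr2
open Pool.KA Pool.KSAT Pool.K2S Pool.PB Pool.S6C
open Pool.GEN Pool.CHT Pool.CHX Pool.ISO Pool.LA91 Pool.AVG71 Pool.AVG5 Pool.D2F2 Pool.AVG57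
open Pool.RCD Pool.AVG96 Pool.OWN68
open Pool.PB.Trl (rt rt_mem t_rt)
open Pool.GRD (LbP)
open Pool.AJW (CfB)

variable {m : ℕ}

/-- **The mutual informations** over the canonical records. -/
theorem vl_fam {S : PCl m} {c : ℕ → Fin m} {r D : ℕ} {sn sp : ℕ → ℝ → ℝ} {Gs : Set ℝ}
    {b o φ : ℝ} (L : Lad S c r sn Gs b o φ) (hI : (range r).image c = univ.erase (c r)) {K : ℕ}
    {s w u y ξ T Λ : ℝ} {lam : ℝ → ℝ} {j x x' xr v₀ w₁ vq oq : ℝ}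
    (Nn : NS r K s sn Gs b o φ w u y ξ T Λ lam j x x' xr v₀ w₁ vq oq)
    (hatt : ∃ rk E : ℝ, rk < 1 ∧ 0 ≤ E ∧ AttG S ((range r).image c) (c r) w (sn r w) rk E ∧
      sn r w + E + Λ * u ≤ 1) {P : ℕ → ℝ} {κf κn : ℝ}
    (hfr : FrI S c r sp b (fun i : Fin r => P i) w₁ x' κf)
    (hnl : NlI S (c r) w₁ vq (lam vq) (lam oq) κn) (hκf : 0 ≤ κf) (hκn : 0 ≤ κn)
    (hsp : ∀ i < r, sp i b ≤ sn i b - φ) {ε : ℝ} (hε : 0 < ε) (Ec : ℝ) :
    Bas S (fun J F A => ∀ Hb Hw H : LnT F → ℕ → MvPolynomial (Option (Fin m)) ℝ,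
      LD F c r D b w φ Ec sn A Hb Hw H → ∀ (Na Nf : ℕ → ℕ → ℝ) (Mn Mf : ℕ → ℝ),
      (∀ l, Na l 0 = nnF r sn w u y φ l) → (∀ l, Nf l 0 = nfF r sn w x' φ l) →
      (∀ l < r, Na l 1 * J ≤ P l * J) → (∀ l, Nf l 1 = P l) → Mn 0 = sn r j - 30 * φ →
      Mf 0 = lam oq → ∀ κ' : ℝ, (r * (35 * y) + 10 * y + 20 * (r : ℝ) ^ 2 * φ + κf + κn + ε) * J +
        r * Real.log 5 ≤ κ' →
      VLaw2 (Pool.Agent.H49.Ent.cond F.p A True) (cR F A w₁) (cR F A j) (cR F A x) (cR F A x') F.W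
        (jh F c r ⌊w * J⌋₊ H fun l => Na l 0) (jh F c r ⌊w * J⌋₊ H fun l => Nf l 0)
        (jv F c r ⌊w * J⌋₊ H fun l => Na l 1) (jv F c r ⌊w * J⌋₊ H fun l => Nf l 1)
        (th0 F c r ⌊w * J⌋₊ H (Mn 0)) (th0 F c r ⌊w * J⌋₊ H (Mf 0))
        (fun ω => fun l : Fin r => F.X J ω (c l))
        ((∑ i ∈ range r, (nfF r sn w x' φ i - nnF r sn w u y φ i)) * Real.log 2 * J)
        ((∑ i ∈ range r, (1 - nfF r sn w x' φ i)) * Real.log 2 * J) κ' ∧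
      CH (Pool.Agent.H49.Ent.cond F.p A True)
        (Vv F c r ⌊w * J⌋₊ H fun l => nbF sn w xr φ l * J) (fun ω => (cR F A x' ω, F.W ω)) ≤ κ' ∧
      ∀ X : ℕ, (X : ℝ) ≤ ξ * u * J → r * (X * Real.log 2) - κ' ≤
        CH (Pool.Agent.H49.Ent.cond F.p A True)
          (Vv F c r ⌊w * J⌋₊ H fun l => nbF sn w xr φ l * J)
          (fun ω => (jh F c r ⌊w * J⌋₊ H (fun l => Na l 0) ω, (cR F A x ω, F.W ω)))) := by
  obtain ⟨rk, Ee, hrk, hEe, hat, hEs⟩ := hatt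
  obtain ⟨b1, b2, b3, b4, b5, b6, b7, b8, b9, b10, b11, b12, b13, b14, b15, b16, b17⟩ := Nn.wb
  obtain ⟨h1, h2, h3, h4, h5, h6⟩ := Nn.sm
  obtain ⟨k1, k2, k3, -⟩ := Nn.k9_c
  obtain ⟨r1, r2, r3, r4, r5, r6, r7⟩ := Nn.row_c
  obtain ⟨c1, c2, c3, c4, c5, c6, c7, c8, c9, c10, c11, c12⟩ := Nn.sw
  have hu := Nn.u0
  have hyu := Nn.yu
  have hy0 := Nn.y0
  have hroom := Nn.room
  have hTu := Nn.Tu0
  have hru := Nn.ru0
  obtain ⟨d1, d2⟩ := Nn.ξu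
  obtain ⟨f1, f2, f3, f4⟩ := Nn.Tu1
  have V := Nn.vn
  have hr0 : (0 : ℝ) ≤ r := Nat.cast_nonneg r
  have hl5 : 0 < Real.log 5 := Real.log_pos (by norm_num)
  have hl2 : 0 < Real.log 2 := Real.log_pos one_lt_two
  have hl2' : Real.log 2 ≤ 1 := by
    have := Real.log_two_lt_d9
    linarith
  have ot := abs_le.1 (Nn.sv oq b16 b17)
  have hEf : lam oq + Ee ≤ 1 := by linarith
  obtain ⟨ka, hka, ea, hea, Ha⟩ := vlaw_cls L hI V hrk hEe hat hEf hfr hnl hκf hκn ε hε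
  obtain ⟨kb, hkb, eb, heb, Hb'⟩ := fup L Nn.xG b6 b7 (p := fun l => sn l b - φ)
    (fun i _ => le_rfl) (q := nnF r sn w u y φ) (n := nbF sn w xr φ) (fun i hi => ⟨V.nx i hi, by
      obtain ⟨i1, i2, i3⟩ := Nn.li hi
      have := abs_le.1 Nn.hxr
      unfold nnF nbF
      linarith, (r5 i hi).2⟩) r6 ε hε
  obtain ⟨Ma, Ja, hMa⟩ := ld_jh m D r (nnF r sn w u y φ) (b := b) (E := Ec) k1 (by linarith)
  obtain ⟨Mb, Jb, hMb⟩ := ld_jh m D r (nfF r sn w x' φ) (b := b) (E := Ec) k1 (by linarith)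
  obtain ⟨Mc, Jc, hMc⟩ := ld_jh m D r (nbF sn w xr φ) (b := b) (E := Ec) k1 (by linarith)
  obtain ⟨Md, Jd, hMd⟩ := ld_jv m D r P (b := b) (E := Ec) k1 (by linarith)
  obtain ⟨Me, Je, hMe⟩ := ld_th m D r (sn r j - 30 * φ) (w := w) (E := Ec) (by linarith)
    (by linarith)
  obtain ⟨Mg, Jg, hMg⟩ := ld_th m D r (lam oq) (w := w) (E := Ec) (by linarith) (by linarith)
  obtain ⟨M, hM⟩ : ∃ M : ℕ, M = Ma + Mb + Mc + Md + Me + Mg := ⟨_, rfl⟩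
  obtain ⟨J₁, hJ₁⟩ := exists_nat_gt (r * Real.log 5 / ε)
  refine Bas.mono (Ja + Jb + Jc + Jd + Je + Jg + J₁) (((Ha M).and (Hb' M)).and
    (pos_bas L.pos)) ?_
  rintro J hJ F A ⟨⟨H1, H2⟩, hA⟩ Hb Hw H LDh Na Nf Mn Mf hNa hNf hNa1 hNf1 hMn hMf κ' hκ'
  have hcl := isLaw_cond F.isLaw hA
  have h0 := hcl.nonneg
  have hJ0 : (0 : ℝ) ≤ J := Nat.cast_nonneg J
  have q1 := hMa M (by omega) J (by omega) LDh ea hea.le
  have q2 := hMb M (by omega) J (by omega) LDh ea hea.le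
  have q3 := hMc M (by omega) J (by omega) LDh eb heb.le
  have q3' := hMa M (by omega) J (by omega) LDh eb heb.le
  have q4 := hMd M (by omega) J (by omega) LDh hsp ea hea.le
  have q5 := hMe M (by omega) J (by omega) LDh ea hea.le
  have q6 := hMg M (by omega) J (by omega) LDh ea hea.le
  have eNa : (fun l => Na l 0) = nnF r sn w u y φ := funext hNa
  have eNf : (fun l => Nf l 0) = nfF r sn w x' φ := funext hNf
  have eP : (fun l => Nf l 1) = P := funext hNf1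
  rw [eNa, eNf, eP, hMn, hMf]
  obtain ⟨κ₀, hκ₀⟩ : ∃ κ₀ : ℝ, κ₀ = (r * (35 * y) + 10 * y + 20 * (r : ℝ) ^ 2 * φ + κf + κn +
    ε) * J := ⟨_, rfl⟩
  rw [← hκ₀] at hκ'
  have hlog : r * Real.log 5 ≤ ε * J := by
    have e1 : (J₁ : ℝ) ≤ J := by
      have : J₁ ≤ J := by omega
      exact_mod_cast this
    have e2 := hJ₁.le.trans e1
    rw [div_le_iff₀ hε] at e2
    linarith
  have hlog0 : 0 ≤ r * Real.log 5 := by positivity
  have hκε : ε * J + 20 * (r : ℝ) ^ 2 * φ * J ≤ κ₀ := by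
    rw [hκ₀]
    have e1 : 0 ≤ (r * (35 * y) + 10 * y + κf + κn) * J := by positivity
    linarith
  have h20 : 0 ≤ 20 * (r : ℝ) ^ 2 * φ * J := by positivity
  have hZ1 : CH (Pool.Agent.H49.Ent.cond F.p A True) (jv F c r ⌊w * J⌋₊ H fun l => Na l 1)
      (jv F c r ⌊w * J⌋₊ H P) ≤ r * Real.log 5 := by
    have := CH_jv hcl (F := F) (c := c) (r := r) (w := ⌊w * J⌋₊) (H := H) (n := P)
      (n' := fun l => Na l 1) (d := 0) (fun l hl => by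
        have := hNa1 l hl
        show (Na l 1 - P l) * J ≤ 0
        linarith) le_rfl (jv F c r ⌊w * J⌋₊ H P) (fun _ _ _ _ e => e)
    rw [zero_mul, zero_add] at this
    exact this
  have hZ2 := CH_jhs hcl (F := F) (c := c) (r := r) (w := ⌊w * J⌋₊) (H := H)
    (n := nnF r sn w u y φ) (n' := nfF r sn w x' φ) V.nnf
    (fun ω => (jh F c r ⌊w * J⌋₊ H (nnF r sn w u y φ) ω, (cR F A w₁ ω, F.W ω)))
    (fun ω ν _ _ e => (Prod.ext_iff.mp e).1)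
  have hZ3 := CH_jh hcl (F := F) (c := c) (r := r) (w := ⌊w * J⌋₊) (H := H)
    (n := nfF r sn w x' φ) (n' := nnF r sn w u y φ) (d := 0) (fun l hl => by
      have := mul_le_mul_of_nonneg_right (V.nnf l hl) hJ0
      linarith) le_rfl
    (fun ω => (jh F c r ⌊w * J⌋₊ H (nfF r sn w x' φ) ω, (cR F A w₁ ω, F.W ω)))
    (fun ω ν _ _ e => (Prod.ext_iff.mp e).1)
  rw [zero_mul, zero_add] at hZ3
  have hV : ∀ κ'' : ℝ, κ₀ ≤ κ'' → _ := fun κ'' hκ'' => H1 _ (cR F A w₁) _ (cR F A j) _ (cR F A x) _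
    (cR F A x') (mx_cR hA w₁ hka.le) (mx_cR hA j hka.le) (mx_cR hA x hka.le) (mx_cR hA x' hka.le)
    (jh F c r ⌊w * J⌋₊ H (nnF r sn w u y φ)) (jh F c r ⌊w * J⌋₊ H (nfF r sn w x' φ))
    (jv F c r ⌊w * J⌋₊ H P) (th0 F c r ⌊w * J⌋₊ H (sn r j - 30 * φ))
    (th0 F c r ⌊w * J⌋₊ H (lam oq)) q1 q2 q4 q5 q6 _ (jv F c r ⌊w * J⌋₊ H fun l => Na l 1) κ''
    (by rw [← hκ₀]; exact hκ'') (hZ1.trans (by linarith)) (hZ2.trans (by linarith))
    (hZ3.trans (by linarith))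
  have hV0 := hV κ₀ le_rfl
  have hVv : ∀ {α : Type} (Z : F.Ω → α), CH (Pool.Agent.H49.Ent.cond F.p A True)
      (Vv F c r ⌊w * J⌋₊ H fun l => nbF sn w xr φ l * J) Z ≤
      CH (Pool.Agent.H49.Ent.cond F.p A True) (jh F c r ⌊w * J⌋₊ H (nbF sn w xr φ)) Z :=
    fun Z => CH_mono_left h0 fun ω ν hω hν e => jh_vv (nbF sn w xr φ) ω ν hω hν
      (Prod.ext_iff.mp e).1
  have hVv' : ∀ {α : Type} (Z : F.Ω → α), CH (Pool.Agent.H49.Ent.cond F.p A True)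
      (jh F c r ⌊w * J⌋₊ H (nbF sn w xr φ)) Z ≤ CH (Pool.Agent.H49.Ent.cond F.p A True)
      (Vv F c r ⌊w * J⌋₊ H fun l => nbF sn w xr φ l * J) Z :=
    fun Z => CH_mono_left h0 fun ω ν hω hν e => vv_jh (nbF sn w xr φ) ω ν hω hν
      (Prod.ext_iff.mp e).1
  refine ⟨hV κ' (by linarith), ?_, fun X hX => ?_⟩
  · refine (hVv _).trans ?_
    have e1 := CH_le_add h0 (jh F c r ⌊w * J⌋₊ H (nbF sn w xr φ))
      (jh F c r ⌊w * J⌋₊ H (nfF r sn w x' φ)) (fun ω => (cR F A x' ω, F.W ω))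
    have e2 := CH_jh hcl (F := F) (c := c) (r := r) (w := ⌊w * J⌋₊) (H := H)
      (n := nfF r sn w x' φ) (n' := nbF sn w xr φ) (d := 0) (fun l hl => by
        obtain ⟨i1, i2, i3⟩ := Nn.li hl
        have e3 := mul_le_mul_of_nonneg_right (show nbF sn w xr φ l ≤ nfF r sn w x' φ l by
          unfold nbF nfF
          linarith [Nn.wins.2.2.2.2.2.1]) hJ0
        linarith) le_rfl
      (fun ω => (jh F c r ⌊w * J⌋₊ H (nfF r sn w x' φ) ω, (cR F A x' ω, F.W ω)))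
      (fun ω ν _ _ e => (Prod.ext_iff.mp e).1)
    rw [zero_mul, zero_add] at e2
    have e3 := hV0.px
    linarith
  · have e1 := H2 _ (cR F A x) (mx_cR hA x hkb.le) _ _ q3 q3'
    have e2 := hVv' (fun ω => (jh F c r ⌊w * J⌋₊ H (nnF r sn w u y φ) ω, (cR F A x ω, F.W ω)))
    have e3 : r * (ξ * u) ≤ ∑ i ∈ range r, (nbF sn w xr φ i - nnF r sn w u y φ i) := by
      have e4 : ∑ i ∈ range r, ξ * u ≤ ∑ i ∈ range r, (nbF sn w xr φ i - nnF r sn w u y φ i) :=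
        Finset.sum_le_sum fun i hi => by
          obtain ⟨i1, i2, i3⟩ := Nn.li (mem_range.1 hi)
          have := abs_le.1 Nn.hxr
          unfold nbF nnF
          linarith
      rw [Finset.sum_const, card_range, nsmul_eq_mul] at e4
      exact e4
    have e5 : (r * (ξ * u) - 20 * (r : ℝ) ^ 2 * φ) * Real.log 2 * J ≤
        ((∑ i ∈ range r, (nbF sn w xr φ i - nnF r sn w u y φ i)) - 20 * (r : ℝ) ^ 2 * φ) *
          Real.log 2 * J :=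
      mul_le_mul_of_nonneg_right (mul_le_mul_of_nonneg_right (by linarith) hl2.le) hJ0
    have e6 : r * (X * Real.log 2) ≤ r * (ξ * u * J * Real.log 2) :=
      mul_le_mul_of_nonneg_left (mul_le_mul_of_nonneg_right hX hl2.le) hr0
    have e7 : 20 * (r : ℝ) ^ 2 * φ * J * Real.log 2 ≤ 20 * (r : ℝ) ^ 2 * φ * J * 1 :=
      mul_le_mul_of_nonneg_left hl2' h20
    linarith

end Pool.V0F
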