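import Pool.Agent.H71.AVG.Law

/-!
# Near digits of the base coordinates: the mutual informations

`VLaw`: the inputs for one law. `U`: velocities of the base coordinates, `Xq`, `Xp`: near and far
digits of their positions, `XJ`: exact positions, `N1`, `N2`: near and far digits of the target;
`zw`, `Rj`, `Rx`, `R'`: records at the windows `w ≤ j ≤ x ≤ x'`.
-/

set_option autoImplicit false

namespace Pool.V0F

open Finset Real
open Pool.Agent.H49.Ent Pool.Agent.H32.Dense Pool.STK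
open Pool.KVA (MI)

section

variable {Ω : Type} [Fintype Ω] {p : Ω → ℝ}

/-- Few more bits in the condition. -/
theorem CH_ge {α β γ : Type} (h0 : ∀ ω, 0 ≤ p ω) (X : Ω → α) (B : Ω → β) (W : Ω → γ) :
    CH p X W - CH p B W ≤ CH p X (fun ω => (B ω, W ω)) := by
  have := CH_le_add h0 X B W
  linarith

/-- A few bits through another condition. -/
theorem CH_tr {α β γ δ : Type} (h0 : ∀ ω, 0 ≤ p ω) (X : Ω → α) {W : Ω → β} {W' : Ω → γ}
    {A : Ω → δ} {e₁ e₂ : ℝ} (hA : CH p A W ≤ e₁) (hX : CH p X W' ≤ e₂)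
    (h : Det p (fun ω => (A ω, W ω)) W') : CH p X W ≤ e₁ + e₂ := by
  have h1 := CH_le_add h0 X A W
  have h2 : CH p X (fun ω => (A ω, W ω)) ≤ CH p X W' := CH_mono_cond h0 h
  linarith

variable {ζ ρ₁ ρ₂ ρ₃ υ ξ₁ ξ₂ ξ₃ ξ₄ ξ₅ ξ₆ : Type} {zw : Ω → ζ} {Rj : Ω → ρ₁} {Rx : Ω → ρ₂}
  {R' : Ω → ρ₃} {y : Ω → υ} {Xq : Ω → ξ₁} {Xp : Ω → ξ₂} {U : Ω → ξ₃} {N1 : Ω → ξ₄} {N2 : Ω → ξ₅}
  {XJ : Ω → ξ₆} {Fv Gf κ : ℝ}

/-- **The inputs.** -/
structure VLaw (p : Ω → ℝ) (zw : Ω → ζ) (Rj : Ω → ρ₁) (Rx : Ω → ρ₂) (R' : Ω → ρ₃) (y : Ω → υ)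
    (Xq : Ω → ξ₁) (Xp : Ω → ξ₂) (U : Ω → ξ₃) (N1 : Ω → ξ₄) (N2 : Ω → ξ₅) (XJ : Ω → ξ₆)
    (Fv Gf κ : ℝ) : Prop where
  h0 : ∀ ω, 0 ≤ p ω
  κ0 : 0 ≤ κ
  zj : CH p zw Rj ≤ κ
  zx : CH p zw Rx ≤ κ
  jr : CH p Rj R' ≤ κ
  xr : CH p Rx R' ≤ κ
  fr : CH p U (fun ω => (zw ω, y ω)) ≤ CH p U (fun ω => (R' ω, y ω)) + κ
  fj : Fv - κ ≤ CH p Xp (fun ω => (Xq ω, (Rj ω, y ω)))
  fx : Fv - κ ≤ CH p Xp (fun ω => (Xq ω, (Rx ω, y ω)))
  cn : CH p Xp (fun ω => (Xq ω, (zw ω, y ω))) ≤ Fv + κ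
  qp : CH p Xq (fun ω => (Xp ω, (zw ω, y ω))) ≤ κ
  px : CH p Xp (fun ω => (R' ω, y ω)) ≤ κ
  n1 : CH p N1 (fun ω => (Xq ω, (Rj ω, y ω))) ≤ κ
  n2 : CH p N2 (fun ω => (R' ω, y ω)) ≤ κ
  nl : CH p N2 (fun ω => (N1 ω, (XJ ω, (zw ω, y ω)))) ≤
    CH p N2 (fun ω => (XJ ω, (Rj ω, y ω))) + κ
  jp : CH p Xp (fun ω => (XJ ω, (zw ω, y ω))) ≤ κ
  gj : CH p XJ (fun ω => (Xp ω, (zw ω, y ω))) ≤ Gf + κ
  gx : Gf - κ ≤ CH p XJ (fun ω => (Xp ω, (R' ω, y ω)))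

namespace VLaw

/-- The record at `w` is few bits given the last record. -/
theorem zr (h : VLaw p zw Rj Rx R' y Xq Xp U N1 N2 XJ Fv Gf κ) : CH p zw R' ≤ 2 * κ := by
  have h1 := CH_tr h.h0 zw (W := R') (W' := Rj) (A := Rj) h.jr h.zj
    (fun ω ω' _ _ e => (Prod.ext_iff.mp e).1)
  linarith

/-- The near digits are few bits given the last record. -/
theorem qr (h : VLaw p zw Rj Rx R' y Xq Xp U N1 N2 XJ Fv Gf κ) :
    CH p Xq (fun ω => (R' ω, y ω)) ≤ 4 * κ := by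
  have h0 := h.h0
  have h1 : CH p (fun ω => (Xp ω, zw ω)) (fun ω => (R' ω, y ω)) ≤ κ + 2 * κ := by
    refine (CH_subadd h0 Xp zw _).trans (add_le_add h.px (le_trans (CH_mono_cond h0 ?_) h.zr))
    exact fun ω ω' _ _ e => (Prod.ext_iff.mp e).1
  have h2 := CH_tr h0 Xq (W := fun ω => (R' ω, y ω)) (W' := fun ω => (Xp ω, (zw ω, y ω)))
    (A := fun ω => (Xp ω, zw ω)) h1 h.qp (fun ω ω' _ _ e => by
      simp only [Prod.mk.injEq] at e ⊢
      tauto)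
  linarith

/-- The velocities are free of the positions and of the records. -/
theorem fru (h : VLaw p zw Rj Rx R' y Xq Xp U N1 N2 XJ Fv Gf κ) {δ : Type} {A : Ω → δ} {e : ℝ}
    (hA : CH p A (fun ω => (R' ω, y ω)) ≤ e) : CH p U (fun ω => (zw ω, y ω)) - κ - e ≤
      CH p U (fun ω => (A ω, y ω)) := by
  have h0 := h.h0
  have h1 := CH_ge h0 U A (fun ω => (R' ω, y ω))
  have h2 : CH p U (fun ω => (A ω, (R' ω, y ω))) ≤ CH p U (fun ω => (A ω, y ω)) :=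
    CH_mono_cond h0 fun ω ω' _ _ e => by
      simp only [Prod.mk.injEq] at e ⊢
      tauto
  have h3 := h.fr
  linarith

/-- The positions are full given the velocities. -/
theorem vfv (h : VLaw p zw Rj Rx R' y Xq Xp U N1 N2 XJ Fv Gf κ) {δ : Type} {Rv : Ω → δ}
    (hz : CH p zw Rv ≤ κ) (hr : CH p Rv R' ≤ κ)
    (hf : Fv - κ ≤ CH p Xp (fun ω => (Xq ω, (Rv ω, y ω)))) :
    Fv - 9 * κ ≤ CH p Xp (fun ω => ((Xq ω, U ω), (Rv ω, y ω))) := by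
  have h0 := h.h0
  obtain ⟨W, hW⟩ : ∃ W : Ω → _, W = fun ω => (Xq ω, (Rv ω, y ω)) := ⟨_, rfl⟩
  rw [← hW] at hf
  have c1 := CH_chain h0 Xp U W
  have c2 := CH_chain h0 U Xp W
  have c3 : CH p (fun ω => (Xp ω, U ω)) W = CH p (fun ω => (U ω, Xp ω)) W :=
    CH_congr h0 (fun ω ω' _ _ e => by
      simp only [Prod.mk.injEq] at e ⊢
      tauto) (fun ω ω' _ _ e => by
      simp only [Prod.mk.injEq] at e ⊢
      tauto) (fun _ _ _ _ e => e) (fun _ _ _ _ e => e)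
  -- `U` given `(Xp, W)`
  have hA : CH p (fun ω => (Xp ω, (Xq ω, Rv ω))) (fun ω => (R' ω, y ω)) ≤ κ + (4 * κ + κ) := by
    refine (CH_subadd h0 Xp _ _).trans (add_le_add h.px ((CH_subadd h0 Xq Rv _).trans
      (add_le_add h.qr (le_trans (CH_mono_cond h0 ?_) hr))))
    exact fun ω ω' _ _ e => (Prod.ext_iff.mp e).1
  have d1 := h.fru hA
  have d2 : CH p U (fun ω => ((Xp ω, (Xq ω, Rv ω)), y ω)) ≤ CH p U (fun ω => (Xp ω, W ω)) :=
    CH_mono_cond h0 fun ω ω' _ _ e => by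
      simp only [hW, Prod.mk.injEq] at e ⊢
      tauto
  have d3 : CH p U W ≤ κ + CH p U (fun ω => (zw ω, y ω)) := by
    have e1 := CH_tr h0 U (W := W) (W' := fun ω => (zw ω, y ω)) (A := zw) (e₁ := κ)
      (e₂ := CH p U (fun ω => (zw ω, y ω))) (le_trans (CH_mono_cond h0 (fun ω ω' _ _ e => by
        rw [hW] at e
        simp only [Prod.mk.injEq] at e
        exact e.2.1)) hz) le_rfl (fun ω ω' _ _ e => by
        simp only [hW, Prod.mk.injEq] at e ⊢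
        tauto)
    exact e1
  have d4 : CH p Xp (fun ω => (U ω, W ω)) ≤
      CH p Xp (fun ω => ((Xq ω, U ω), (Rv ω, y ω))) := CH_mono_cond h0 fun ω ω' _ _ e => by
    simp only [hW, Prod.mk.injEq] at e ⊢
    tauto
  linarith

/-- **The field `vf`.** -/
theorem vf (h : VLaw p zw Rj Rx R' y Xq Xp U N1 N2 XJ Fv Gf κ) :
    Fv - 9 * κ ≤ CH p Xp (fun ω => ((Xq ω, U ω), (Rx ω, y ω))) := h.vfv h.zx h.xr h.fx

/-- **The field `mx`.** -/
theorem mx (h : VLaw p zw Rj Rx R' y Xq Xp U N1 N2 XJ Fv Gf κ) :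
    MI p Rx (fun ω => (Xp ω, U ω)) (fun ω => ((Xq ω, U ω), (zw ω, y ω))) ≤ 11 * κ := by
  have h0 := h.h0
  rw [Pool.AVG71.MI_eq' h0]
  have h1 : CH p (fun ω => (Xp ω, U ω)) (fun ω => ((Xq ω, U ω), (zw ω, y ω))) ≤
      CH p Xp (fun ω => (Xq ω, (zw ω, y ω))) := by
    refine le_trans (CH_mono_left (X' := Xp) h0 fun ω ω' _ _ e => ?_) (CH_mono_cond h0 ?_)
    · simp only [Prod.mk.injEq] at e ⊢
      tauto
    · intro ω ω' _ _ e
      simp only [Prod.mk.injEq] at e ⊢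
      tauto
  have h2 := h.vf
  have h3 := CH_ge h0 Xp zw (fun ω => ((Xq ω, U ω), (Rx ω, y ω)))
  have h4 : CH p zw (fun ω => ((Xq ω, U ω), (Rx ω, y ω))) ≤ CH p zw Rx :=
    CH_mono_cond h0 fun ω ω' _ _ e => by
      simp only [Prod.mk.injEq] at e
      exact e.2.1
  have h5 : CH p Xp (fun ω => (zw ω, ((Xq ω, U ω), (Rx ω, y ω)))) ≤
      CH p (fun ω => (Xp ω, U ω)) (fun ω => (Rx ω, ((Xq ω, U ω), (zw ω, y ω)))) := by
    refine le_trans (CH_mono_cond h0 ?_) (CH_mono_left (X' := fun ω => (Xp ω, U ω)) h0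
      fun ω ω' _ _ e => ?_)
    · intro ω ω' _ _ e
      simp only [Prod.mk.injEq] at e ⊢
      tauto
    · simp only [Prod.mk.injEq] at e
      exact e.1.1
  have h6 := h.cn
  have h7 := h.zx
  linarith

/-- The far digits of the target given the far digits of the positions. -/
theorem al (h : VLaw p zw Rj Rx R' y Xq Xp U N1 N2 XJ Fv Gf κ) :
    CH p N2 (fun ω => (N1 ω, (Xp ω, (zw ω, y ω)))) ≤
      CH p N2 (fun ω => (XJ ω, (Rj ω, y ω))) + 16 * κ := by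
  have h0 := h.h0
  obtain ⟨W, hW⟩ : ∃ W : Ω → _, W = fun ω => (N1 ω, (Xp ω, (zw ω, y ω))) := ⟨_, rfl⟩
  rw [← hW]
  have c1 := CH_chain h0 N2 XJ W
  have c2 := CH_chain h0 XJ N2 W
  have c3 : CH p (fun ω => (N2 ω, XJ ω)) W = CH p (fun ω => (XJ ω, N2 ω)) W :=
    CH_congr h0 (fun ω ω' _ _ e => by
      simp only [Prod.mk.injEq] at e ⊢
      tauto) (fun ω ω' _ _ e => by
      simp only [Prod.mk.injEq] at e ⊢
      tauto) (fun _ _ _ _ e => e) (fun _ _ _ _ e => e)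
  have d1 : CH p XJ W ≤ CH p XJ (fun ω => (Xp ω, (zw ω, y ω))) := CH_mono_cond h0
    fun ω ω' _ _ e => by
      rw [hW] at e
      exact (Prod.ext_iff.mp e).2
  have d2 : CH p N2 (fun ω => (XJ ω, W ω)) ≤ CH p N2 (fun ω => (N1 ω, (XJ ω, (zw ω, y ω)))) :=
    CH_mono_cond h0 fun ω ω' _ _ e => by
      simp only [hW, Prod.mk.injEq] at e ⊢
      tauto
  -- `XJ` given `(N2, W)`
  obtain ⟨W', hW'⟩ : ∃ W' : Ω → _, W' = fun ω => (Xp ω, (R' ω, y ω)) := ⟨_, rfl⟩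
  have hgx := h.gx
  rw [← hW'] at hgx
  have hz : CH p zw W' ≤ 2 * κ := le_trans (CH_mono_cond h0 fun ω ω' _ _ e => by
    rw [hW'] at e
    simp only [Prod.mk.injEq] at e
    exact e.2.1) h.zr
  have hj : CH p Rj W' ≤ κ := le_trans (CH_mono_cond h0 fun ω ω' _ _ e => by
    rw [hW'] at e
    simp only [Prod.mk.injEq] at e
    exact e.2.1) h.jr
  have hq : CH p Xq W' ≤ 4 * κ := le_trans (CH_mono_cond h0 fun ω ω' _ _ e => by
    rw [hW'] at e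
    exact (Prod.ext_iff.mp e).2) h.qr
  have hn1 : CH p N1 W' ≤ (4 * κ + κ) + κ := by
    refine CH_tr h0 N1 (A := fun ω => (Xq ω, Rj ω)) (W' := fun ω => (Xq ω, (Rj ω, y ω)))
      ((CH_subadd h0 Xq Rj _).trans (add_le_add hq hj)) h.n1 fun ω ω' _ _ e => ?_
    simp only [hW', Prod.mk.injEq] at e ⊢
    tauto
  have hn2 : CH p N2 W' ≤ κ := le_trans (CH_mono_cond h0 fun ω ω' _ _ e => by
    rw [hW'] at e
    exact (Prod.ext_iff.mp e).2) h.n2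
  have hall : CH p (fun ω => (N2 ω, (N1 ω, zw ω))) W' ≤ κ + ((4 * κ + κ) + κ + 2 * κ) :=
    (CH_subadd h0 N2 _ _).trans (add_le_add hn2 ((CH_subadd h0 N1 zw _).trans
      (add_le_add hn1 hz)))
  have d3 := CH_ge h0 XJ (fun ω => (N2 ω, (N1 ω, zw ω))) W'
  have d4 : CH p XJ (fun ω => ((N2 ω, (N1 ω, zw ω)), W' ω)) ≤ CH p XJ (fun ω => (N2 ω, W ω)) :=
    CH_mono_cond h0 fun ω ω' _ _ e => by
      simp only [hW', hW, Prod.mk.injEq] at e ⊢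
      tauto
  have h1 := h.gj
  have h2 := h.nl
  have h3 := h.κ0
  linarith

/-- The far digits of the target given everything. -/
theorem be (h : VLaw p zw Rj Rx R' y Xq Xp U N1 N2 XJ Fv Gf κ) :
    CH p N2 (fun ω => (XJ ω, (Rj ω, y ω))) - 14 * κ ≤
      CH p N2 (fun ω => ((Xp ω, U ω), (Rj ω, (((Xq ω, U ω), N1 ω), (zw ω, y ω))))) := by
  have h0 := h.h0
  have hzj : ∀ {δ : Type} (A : Ω → δ), CH p zw (fun ω => (A ω, (Rj ω, y ω))) ≤ κ := fun A =>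
    le_trans (CH_mono_cond h0 fun ω ω' _ _ e => by
      simp only [Prod.mk.injEq] at e
      exact e.2.1) h.zj
  -- without `U`
  obtain ⟨W, hW⟩ : ∃ W : Ω → _, W = fun ω => (Xp ω, (Rj ω, y ω)) := ⟨_, rfl⟩
  have a1 : CH p N2 (fun ω => (XJ ω, (Rj ω, y ω))) - 2 * κ ≤ CH p N2 W := by
    have e1 := CH_ge h0 N2 Xp (fun ω => (XJ ω, (Rj ω, y ω)))
    have e2 : CH p Xp (fun ω => (XJ ω, (Rj ω, y ω))) ≤ κ + κ :=
      CH_tr h0 Xp (A := zw) (W' := fun ω => (XJ ω, (zw ω, y ω))) (hzj XJ) h.jp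
        fun ω ω' _ _ e => by
          simp only [Prod.mk.injEq] at e ⊢
          tauto
    have e3 : CH p N2 (fun ω => (Xp ω, (XJ ω, (Rj ω, y ω)))) ≤ CH p N2 W :=
      CH_mono_cond h0 fun ω ω' _ _ e => by
        simp only [hW, Prod.mk.injEq] at e ⊢
        tauto
    linarith
  -- with `U`
  have c1 := CH_chain h0 N2 U W
  have c2 := CH_chain h0 U N2 W
  have c3 : CH p (fun ω => (N2 ω, U ω)) W = CH p (fun ω => (U ω, N2 ω)) W :=
    CH_congr h0 (fun ω ω' _ _ e => by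
      simp only [Prod.mk.injEq] at e ⊢
      tauto) (fun ω ω' _ _ e => by
      simp only [Prod.mk.injEq] at e ⊢
      tauto) (fun _ _ _ _ e => e) (fun _ _ _ _ e => e)
  have d1 : CH p U W ≤ κ + CH p U (fun ω => (zw ω, y ω)) := by
    refine CH_tr h0 U (A := zw) (W' := fun ω => (zw ω, y ω)) ?_ le_rfl fun ω ω' _ _ e => ?_
    · rw [hW]
      exact hzj Xp
    · simp only [hW, Prod.mk.injEq] at e ⊢
      tauto
  have hA : CH p (fun ω => (N2 ω, (Xp ω, Rj ω))) (fun ω => (R' ω, y ω)) ≤ κ + (κ + κ) := by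
    refine (CH_subadd h0 N2 _ _).trans (add_le_add h.n2 ((CH_subadd h0 Xp Rj _).trans
      (add_le_add h.px (le_trans (CH_mono_cond h0 ?_) h.jr))))
    exact fun ω ω' _ _ e => (Prod.ext_iff.mp e).1
  have d2 := h.fru hA
  have d3 : CH p U (fun ω => ((N2 ω, (Xp ω, Rj ω)), y ω)) ≤ CH p U (fun ω => (N2 ω, W ω)) :=
    CH_mono_cond h0 fun ω ω' _ _ e => by
      simp only [hW, Prod.mk.injEq] at e ⊢
      tauto
  have a2 : CH p N2 W - 5 * κ ≤ CH p N2 (fun ω => (U ω, W ω)) := by linarith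
  -- the rest of the condition
  obtain ⟨W₂, hW₂⟩ : ∃ W₂ : Ω → _, W₂ = fun ω => (U ω, W ω) := ⟨_, rfl⟩
  rw [← hW₂] at a2
  have g1 : CH p zw W₂ ≤ κ := le_trans (CH_mono_cond h0 fun ω ω' _ _ e => by
    rw [hW₂, hW] at e
    simp only [Prod.mk.injEq] at e
    exact e.2.2.1) h.zj
  have g2 : CH p Xq W₂ ≤ κ + κ := CH_tr h0 Xq (A := zw) (W' := fun ω => (Xp ω, (zw ω, y ω))) g1
    h.qp fun ω ω' _ _ e => by
      simp only [hW₂, hW, Prod.mk.injEq] at e ⊢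
      tauto
  have g3 : CH p N1 W₂ ≤ (κ + κ) + κ := CH_tr h0 N1 (A := Xq)
    (W' := fun ω => (Xq ω, (Rj ω, y ω))) g2 h.n1 fun ω ω' _ _ e => by
      simp only [hW₂, hW, Prod.mk.injEq] at e ⊢
      tauto
  have g4 : CH p (fun ω => (Xq ω, (N1 ω, zw ω))) W₂ ≤ (κ + κ) + ((κ + κ) + κ + κ) :=
    (CH_subadd h0 Xq _ _).trans (add_le_add g2 ((CH_subadd h0 N1 zw _).trans
      (add_le_add g3 g1)))
  have g5 := CH_ge h0 N2 (fun ω => (Xq ω, (N1 ω, zw ω))) W₂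
  have g6 : CH p N2 (fun ω => ((Xq ω, (N1 ω, zw ω)), W₂ ω)) ≤
      CH p N2 (fun ω => ((Xp ω, U ω), (Rj ω, (((Xq ω, U ω), N1 ω), (zw ω, y ω))))) :=
    CH_mono_cond h0 fun ω ω' _ _ e => by
      simp only [hW₂, hW, Prod.mk.injEq] at e ⊢
      tauto
  have := h.κ0
  linarith

/-- **The field `mj`.** -/
theorem mj (h : VLaw p zw Rj Rx R' y Xq Xp U N1 N2 XJ Fv Gf κ) :
    MI p Rj (fun ω => ((Xp ω, U ω), N2 ω))
      (fun ω => (((Xq ω, U ω), N1 ω), (zw ω, y ω))) ≤ 45 * κ := by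
  have h0 := h.h0
  rw [Pool.AVG71.MI_eq' h0]
  obtain ⟨W, hW⟩ : ∃ W : Ω → _, W = fun ω => (((Xq ω, U ω), N1 ω), (zw ω, y ω)) := ⟨_, rfl⟩
  have hsw : ∀ {δ : Type} (Z : Ω → δ), CH p (fun ω => ((Xp ω, U ω), N2 ω)) Z =
      CH p (fun ω => (N2 ω, (Xp ω, U ω))) Z := fun Z =>
    CH_congr h0 (fun ω ω' _ _ e => by
      simp only [Prod.mk.injEq] at e ⊢
      tauto) (fun ω ω' _ _ e => by
      simp only [Prod.mk.injEq] at e ⊢
      tauto) (fun _ _ _ _ e => e) (fun _ _ _ _ e => e)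
  rw [hsw, hsw, CH_chain h0 N2 (fun ω => (Xp ω, U ω)), CH_chain h0 N2 (fun ω => (Xp ω, U ω))]
  have a1 : CH p (fun ω => (Xp ω, U ω)) (fun ω => (((Xq ω, U ω), N1 ω), (zw ω, y ω))) ≤
      CH p Xp (fun ω => (Xq ω, (zw ω, y ω))) := by
    refine le_trans (CH_mono_left (X' := Xp) h0 fun ω ω' _ _ e => ?_) (CH_mono_cond h0 ?_)
    · simp only [Prod.mk.injEq] at e ⊢
      tauto
    · intro ω ω' _ _ e
      simp only [Prod.mk.injEq] at e ⊢
      tauto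
  have a2 : CH p N2 (fun ω => ((Xp ω, U ω), (((Xq ω, U ω), N1 ω), (zw ω, y ω)))) ≤
      CH p N2 (fun ω => (N1 ω, (Xp ω, (zw ω, y ω)))) := CH_mono_cond h0 fun ω ω' _ _ e => by
    simp only [Prod.mk.injEq] at e ⊢
    tauto
  have a3 := h.vfv h.zj h.jr h.fj
  have a4 := CH_ge h0 Xp (fun ω => (N1 ω, zw ω)) (fun ω => ((Xq ω, U ω), (Rj ω, y ω)))
  have a5 : CH p (fun ω => (N1 ω, zw ω)) (fun ω => ((Xq ω, U ω), (Rj ω, y ω))) ≤ κ + κ := by
    refine (CH_subadd h0 N1 zw _).trans (add_le_add (le_trans (CH_mono_cond h0 ?_) h.n1)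
      (le_trans (CH_mono_cond h0 ?_) h.zj))
    · intro ω ω' _ _ e
      simp only [Prod.mk.injEq] at e ⊢
      tauto
    · intro ω ω' _ _ e
      simp only [Prod.mk.injEq] at e
      exact e.2.1
  have a6 : CH p Xp (fun ω => ((N1 ω, zw ω), ((Xq ω, U ω), (Rj ω, y ω)))) ≤
      CH p (fun ω => (Xp ω, U ω)) (fun ω => (Rj ω, (((Xq ω, U ω), N1 ω), (zw ω, y ω)))) := by
    refine le_trans (CH_mono_cond h0 ?_) (CH_mono_left (X' := fun ω => (Xp ω, U ω)) h0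
      fun ω ω' _ _ e => ?_)
    · intro ω ω' _ _ e
      simp only [Prod.mk.injEq] at e ⊢
      tauto
    · simp only [Prod.mk.injEq] at e
      exact e.1.1
  have b1 := h.al
  have b2 := h.be
  have b3 := h.cn
  have b4 := h.κ0
  linarith

end VLaw

end

end Pool.V0F
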