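import Pool.Agent.H71.AVG.Law
import Pool.Agent.H44.V0F.Law

/-!
# Near digits of the base coordinates: the mutual informations, second form

`VLaw2`: as `VLaw`, with near and far velocities `Uq`, `Up` of the base coordinates.
-/

set_option autoImplicit false

namespace Pool.V0F

open Finset Real
open Pool.Agent.H49.Ent Pool.Agent.H32.Dense Pool.STK
open Pool.KVA (MI)

section

variable {Ω : Type} [Fintype Ω] {p : Ω → ℝ}

variable {ζ ρ₁ ρ₂ ρ₃ υ ξ₁ ξ₂ ξ₃ ξ₄ ξ₅ ξ₆ ξ₇ : Type} {zw : Ω → ζ} {Rj : Ω → ρ₁} {Rx : Ω → ρ₂}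
  {R' : Ω → ρ₃} {y : Ω → υ} {Xq : Ω → ξ₁} {Xp : Ω → ξ₂} {Uq : Ω → ξ₃} {Up : Ω → ξ₇} {N1 : Ω → ξ₄}
  {N2 : Ω → ξ₅} {XJ : Ω → ξ₆} {Fv Gf κ : ℝ}

/-- **The inputs.** -/
structure VLaw2 (p : Ω → ℝ) (zw : Ω → ζ) (Rj : Ω → ρ₁) (Rx : Ω → ρ₂) (R' : Ω → ρ₃) (y : Ω → υ)
    (Xq : Ω → ξ₁) (Xp : Ω → ξ₂) (Uq : Ω → ξ₃) (Up : Ω → ξ₇) (N1 : Ω → ξ₄) (N2 : Ω → ξ₅)
    (XJ : Ω → ξ₆) (Fv Gf κ : ℝ) : Prop where
  h0 : ∀ ω, 0 ≤ p ω
  κ0 : 0 ≤ κ
  zj : CH p zw Rj ≤ κ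
  zx : CH p zw Rx ≤ κ
  jr : CH p Rj R' ≤ κ
  xr : CH p Rx R' ≤ κ
  uq : CH p Uq Up ≤ κ
  fr : CH p Up (fun ω => (zw ω, y ω)) ≤ CH p Up (fun ω => (R' ω, y ω)) + κ
  fj : Fv - κ ≤ CH p Xp (fun ω => (Xq ω, (Rj ω, y ω)))
  fx : Fv - κ ≤ CH p Xp (fun ω => (Xq ω, (Rx ω, y ω)))
  cn : CH p Xp (fun ω => (Xq ω, (zw ω, y ω))) ≤ Fv + κ
  qp : CH p Xq (fun ω => (Xp ω, (zw ω, y ω))) ≤ κ
  px : CH p Xp (fun ω => (R' ω, y ω)) ≤ κ
  n1 : CH p N1 (fun ω => (Xq ω, (Rj ω, y ω))) ≤ κ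
  n2 : CH p N2 (fun ω => (R' ω, y ω)) ≤ κ
  nl : CH p N2 (fun ω => (N1 ω, (XJ ω, (zw ω, y ω)))) ≤
    CH p N2 (fun ω => (XJ ω, (Rj ω, y ω))) + κ
  jp : CH p Xp (fun ω => (XJ ω, (zw ω, y ω))) ≤ κ
  gj : CH p XJ (fun ω => (Xp ω, (zw ω, y ω))) ≤ Gf + κ
  gx : Gf - κ ≤ CH p XJ (fun ω => (Xp ω, (R' ω, y ω)))

/-- With the far velocities only. -/
theorem VLaw2.toV (h : VLaw2 p zw Rj Rx R' y Xq Xp Uq Up N1 N2 XJ Fv Gf κ) :
    VLaw p zw Rj Rx R' y Xq Xp Up N1 N2 XJ Fv Gf κ :=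
  ⟨h.h0, h.κ0, h.zj, h.zx, h.jr, h.xr, h.fr, h.fj, h.fx, h.cn, h.qp, h.px, h.n1, h.n2, h.nl, h.jp,
    h.gj, h.gx⟩

/-- **Full digits** given the far velocities, for any digits which the last record knows. -/
theorem VLaw.vfg (h : VLaw p zw Rj Rx R' y Xq Xp Up N1 N2 XJ Fv Gf κ) {δ ε : Type} {Rv : Ω → δ}
    {V : Ω → ε} {Fw : ℝ} (hz : CH p zw Rv ≤ κ) (hr : CH p Rv R' ≤ κ)
    (hV : CH p V (fun ω => (R' ω, y ω)) ≤ κ)
    (hf : Fw - κ ≤ CH p V (fun ω => (Xq ω, (Rv ω, y ω)))) :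
    Fw - 9 * κ ≤ CH p V (fun ω => ((Xq ω, Up ω), (Rv ω, y ω))) := by
  have h0 := h.h0
  obtain ⟨W, hW⟩ : ∃ W : Ω → _, W = fun ω => (Xq ω, (Rv ω, y ω)) := ⟨_, rfl⟩
  rw [← hW] at hf
  have c1 := CH_chain h0 V Up W
  have c2 := CH_chain h0 Up V W
  have c3 : CH p (fun ω => (V ω, Up ω)) W = CH p (fun ω => (Up ω, V ω)) W :=
    CH_congr h0 (fun ω ω' _ _ e => by
      simp only [Prod.mk.injEq] at e ⊢
      tauto) (fun ω ω' _ _ e => by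
      simp only [Prod.mk.injEq] at e ⊢
      tauto) (fun _ _ _ _ e => e) (fun _ _ _ _ e => e)
  have hA : CH p (fun ω => (V ω, (Xq ω, Rv ω))) (fun ω => (R' ω, y ω)) ≤ κ + (4 * κ + κ) := by
    refine (CH_subadd h0 V _ _).trans (add_le_add hV ((CH_subadd h0 Xq Rv _).trans
      (add_le_add h.qr (le_trans (CH_mono_cond h0 ?_) hr))))
    exact fun ω ω' _ _ e => (Prod.ext_iff.mp e).1
  have d1 := h.fru hA
  have d2 : CH p Up (fun ω => ((V ω, (Xq ω, Rv ω)), y ω)) ≤ CH p Up (fun ω => (V ω, W ω)) :=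
    CH_mono_cond h0 fun ω ω' _ _ e => by
      simp only [hW, Prod.mk.injEq] at e ⊢
      tauto
  have d3 : CH p Up W ≤ κ + CH p Up (fun ω => (zw ω, y ω)) := by
    have e1 := CH_tr h0 Up (W := W) (W' := fun ω => (zw ω, y ω)) (A := zw) (e₁ := κ)
      (e₂ := CH p Up (fun ω => (zw ω, y ω))) (le_trans (CH_mono_cond h0 (fun ω ω' _ _ e => by
        rw [hW] at e
        simp only [Prod.mk.injEq] at e
        exact e.2.1)) hz) le_rfl (fun ω ω' _ _ e => by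
        simp only [hW, Prod.mk.injEq] at e ⊢
        tauto)
    exact e1
  have d4 : CH p V (fun ω => (Up ω, W ω)) ≤
      CH p V (fun ω => ((Xq ω, Up ω), (Rv ω, y ω))) := CH_mono_cond h0 fun ω ω' _ _ e => by
    simp only [hW, Prod.mk.injEq] at e ⊢
    tauto
  linarith

namespace VLaw2

/-- **The field `vf`**, for any digits `V` which the last record knows. -/
theorem vf (h : VLaw2 p zw Rj Rx R' y Xq Xp Uq Up N1 N2 XJ Fv Gf κ) {ε : Type} {V : Ω → ε} {Fw : ℝ}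
    (hV : CH p V (fun ω => (R' ω, y ω)) ≤ κ)
    (hf : Fw - κ ≤ CH p V (fun ω => (Xq ω, (Rx ω, y ω)))) :
    Fw - 10 * κ ≤ CH p V (fun ω => ((Xq ω, Uq ω), (Rx ω, y ω))) := by
  have h0 := h.h0
  have h1 := h.toV.vfg h.zx h.xr hV hf
  have h2 := CH_ge h0 V Uq (fun ω => ((Xq ω, Up ω), (Rx ω, y ω)))
  have h3 : CH p Uq (fun ω => ((Xq ω, Up ω), (Rx ω, y ω))) ≤ CH p Uq Up :=
    CH_mono_cond h0 fun ω ω' _ _ e => by
      simp only [Prod.mk.injEq] at e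
      exact e.1.2
  have h4 : CH p V (fun ω => (Uq ω, ((Xq ω, Up ω), (Rx ω, y ω)))) ≤
      CH p V (fun ω => ((Xq ω, Uq ω), (Rx ω, y ω))) := CH_mono_cond h0 fun ω ω' _ _ e => by
    simp only [Prod.mk.injEq] at e ⊢
    tauto
  have h5 := h.uq
  linarith

/-- The far velocities are free given the near ones. -/
theorem frq (h : VLaw2 p zw Rj Rx R' y Xq Xp Uq Up N1 N2 XJ Fv Gf κ) {δ : Type} {A : Ω → δ} {e : ℝ}
    (hA : CH p A (fun ω => (R' ω, y ω)) ≤ e) (hz : CH p zw A ≤ κ) :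
    CH p Up (fun ω => (Uq ω, (zw ω, y ω))) - 3 * κ - e ≤
      CH p Up (fun ω => (Uq ω, (A ω, y ω))) := by
  have h0 := h.h0
  have h1 := h.toV.fru hA
  -- `CH Up (A, y) ≤ CH Uq (A, y) + CH Up (Uq, A, y)`
  have h2 := CH_le_add h0 Up Uq (fun ω => (A ω, y ω))
  have h3 : CH p Uq (fun ω => (A ω, y ω)) ≤ κ + CH p Uq (fun ω => (zw ω, y ω)) :=
    CH_tr h0 Uq (A := zw) (W' := fun ω => (zw ω, y ω)) (le_trans (CH_mono_cond h0
      fun ω ω' _ _ e => (Prod.ext_iff.mp e).1) hz) le_rfl (fun ω ω' _ _ e => by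
        simp only [Prod.mk.injEq] at e ⊢
        tauto)
  -- `CH Uq (zw, y) + CH Up (Uq, zw, y) ≤ CH Up (zw, y) + κ`
  have c1 := CH_chain h0 Uq Up (fun ω => (zw ω, y ω))
  have c2 := CH_chain h0 Up Uq (fun ω => (zw ω, y ω))
  have c3 : CH p (fun ω => (Uq ω, Up ω)) (fun ω => (zw ω, y ω)) =
      CH p (fun ω => (Up ω, Uq ω)) (fun ω => (zw ω, y ω)) :=
    CH_congr h0 (fun ω ω' _ _ e => by
      simp only [Prod.mk.injEq] at e ⊢
      tauto) (fun ω ω' _ _ e => by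
      simp only [Prod.mk.injEq] at e ⊢
      tauto) (fun _ _ _ _ e => e) (fun _ _ _ _ e => e)
  have h4 : CH p Uq (fun ω => (Up ω, (zw ω, y ω))) ≤ κ := le_trans (CH_mono_cond h0
    fun ω ω' _ _ e => (Prod.ext_iff.mp e).1) h.uq
  linarith

/-- **The field `mx`.** -/
theorem mx (h : VLaw2 p zw Rj Rx R' y Xq Xp Uq Up N1 N2 XJ Fv Gf κ) :
    MI p Rx (fun ω => (Xp ω, Up ω)) (fun ω => ((Xq ω, Uq ω), (zw ω, y ω))) ≤ 25 * κ := by
  have h0 := h.h0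
  rw [Pool.AVG71.MI_eq' h0]
  have hsw : ∀ {δ : Type} (Z : Ω → δ), CH p (fun ω => (Xp ω, Up ω)) Z =
      CH p (fun ω => (Up ω, Xp ω)) Z := fun Z =>
    CH_congr h0 (fun ω ω' _ _ e => by
      simp only [Prod.mk.injEq] at e ⊢
      tauto) (fun ω ω' _ _ e => by
      simp only [Prod.mk.injEq] at e ⊢
      tauto) (fun _ _ _ _ e => e) (fun _ _ _ _ e => e)
  rw [CH_chain h0 Xp Up, CH_chain h0 Xp Up]
  -- upper bounds
  have a1 : CH p Up (fun ω => ((Xq ω, Uq ω), (zw ω, y ω))) ≤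
      CH p Up (fun ω => (Uq ω, (zw ω, y ω))) := CH_mono_cond h0 fun ω ω' _ _ e => by
    simp only [Prod.mk.injEq] at e ⊢
    tauto
  have a2 : CH p Xp (fun ω => (Up ω, ((Xq ω, Uq ω), (zw ω, y ω)))) ≤
      CH p Xp (fun ω => (Xq ω, (zw ω, y ω))) := CH_mono_cond h0 fun ω ω' _ _ e => by
    simp only [Prod.mk.injEq] at e ⊢
    tauto
  -- lower bounds
  have b1 := h.toV.vfg h.zx h.xr h.px h.fx
  have b2 := CH_ge h0 Xp (fun ω => (Uq ω, zw ω)) (fun ω => ((Xq ω, Up ω), (Rx ω, y ω)))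
  have b3 : CH p (fun ω => (Uq ω, zw ω)) (fun ω => ((Xq ω, Up ω), (Rx ω, y ω))) ≤ κ + κ := by
    refine (CH_subadd h0 Uq zw _).trans (add_le_add (le_trans (CH_mono_cond h0 ?_) h.uq)
      (le_trans (CH_mono_cond h0 ?_) h.zx))
    · intro ω ω' _ _ e
      simp only [Prod.mk.injEq] at e
      exact e.1.2
    · intro ω ω' _ _ e
      simp only [Prod.mk.injEq] at e
      exact e.2.1
  have b4 : CH p Xp (fun ω => ((Uq ω, zw ω), ((Xq ω, Up ω), (Rx ω, y ω)))) ≤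
      CH p Xp (fun ω => (Up ω, (Rx ω, ((Xq ω, Uq ω), (zw ω, y ω))))) :=
    CH_mono_cond h0 fun ω ω' _ _ e => by
      simp only [Prod.mk.injEq] at e ⊢
      tauto
  have hA : CH p (fun ω => (Rx ω, (Xq ω, zw ω))) (fun ω => (R' ω, y ω)) ≤
      κ + (4 * κ + 2 * κ) := by
    refine (CH_subadd h0 Rx _ _).trans (add_le_add (le_trans (CH_mono_cond h0 ?_) h.xr)
      ((CH_subadd h0 Xq zw _).trans (add_le_add h.toV.qr (le_trans (CH_mono_cond h0 ?_)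
        h.toV.zr))))
    · exact fun ω ω' _ _ e => (Prod.ext_iff.mp e).1
    · exact fun ω ω' _ _ e => (Prod.ext_iff.mp e).1
  have b5 := h.frq hA (by
    rw [CH_eq_zero h0 (fun ω ω' _ _ e => by
      simp only [Prod.mk.injEq] at e
      exact e.2.2)]
    exact h.κ0)
  have b6 : CH p Up (fun ω => (Uq ω, ((Rx ω, (Xq ω, zw ω)), y ω))) ≤
      CH p Up (fun ω => (Rx ω, ((Xq ω, Uq ω), (zw ω, y ω)))) :=
    CH_mono_cond h0 fun ω ω' _ _ e => by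
      simp only [Prod.mk.injEq] at e ⊢
      tauto
  have h6 := h.cn
  have h7 := h.κ0
  linarith

/-- **The field `mj`.** -/
theorem mj (h : VLaw2 p zw Rj Rx R' y Xq Xp Uq Up N1 N2 XJ Fv Gf κ) :
    MI p Rj (fun ω => ((Xp ω, Up ω), N2 ω))
      (fun ω => (((Xq ω, Uq ω), N1 ω), (zw ω, y ω))) ≤ 65 * κ := by
  have h0 := h.h0
  rw [Pool.AVG71.MI_eq' h0]
  obtain ⟨W, hW⟩ : ∃ W : Ω → _, W = fun ω => (((Xq ω, Uq ω), N1 ω), (zw ω, y ω)) := ⟨_, rfl⟩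
  have hsw : ∀ {δ : Type} (Z : Ω → δ), CH p (fun ω => ((Xp ω, Up ω), N2 ω)) Z =
      CH p (fun ω => (N2 ω, (Xp ω, Up ω))) Z := fun Z =>
    CH_congr h0 (fun ω ω' _ _ e => by
      simp only [Prod.mk.injEq] at e ⊢
      tauto) (fun ω ω' _ _ e => by
      simp only [Prod.mk.injEq] at e ⊢
      tauto) (fun _ _ _ _ e => e) (fun _ _ _ _ e => e)
  rw [hsw, hsw, CH_chain h0 N2 (fun ω => (Xp ω, Up ω)), CH_chain h0 N2 (fun ω => (Xp ω, Up ω)),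
    CH_chain h0 Xp Up, CH_chain h0 Xp Up]
  -- upper bounds
  have a1 : CH p Up (fun ω => (((Xq ω, Uq ω), N1 ω), (zw ω, y ω))) ≤
      CH p Up (fun ω => (Uq ω, (zw ω, y ω))) := CH_mono_cond h0 fun ω ω' _ _ e => by
    simp only [Prod.mk.injEq] at e ⊢
    tauto
  have a2 : CH p Xp (fun ω => (Up ω, (((Xq ω, Uq ω), N1 ω), (zw ω, y ω)))) ≤
      CH p Xp (fun ω => (Xq ω, (zw ω, y ω))) := CH_mono_cond h0 fun ω ω' _ _ e => by
    simp only [Prod.mk.injEq] at e ⊢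
    tauto
  have a3 : CH p N2 (fun ω => ((Xp ω, Up ω), (((Xq ω, Uq ω), N1 ω), (zw ω, y ω)))) ≤
      CH p N2 (fun ω => (N1 ω, (Xp ω, (zw ω, y ω)))) := CH_mono_cond h0 fun ω ω' _ _ e => by
    simp only [Prod.mk.injEq] at e ⊢
    tauto
  have a4 := h.toV.al
  -- lower bounds: positions
  have b1 := h.toV.vfg h.zj h.jr h.px h.fj
  have b2 := CH_ge h0 Xp (fun ω => (Uq ω, (N1 ω, zw ω))) (fun ω => ((Xq ω, Up ω), (Rj ω, y ω)))
  have b3 : CH p (fun ω => (Uq ω, (N1 ω, zw ω))) (fun ω => ((Xq ω, Up ω), (Rj ω, y ω))) ≤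
      κ + (κ + κ) := by
    refine (CH_subadd h0 Uq _ _).trans (add_le_add (le_trans (CH_mono_cond h0 ?_) h.uq)
      ((CH_subadd h0 N1 zw _).trans (add_le_add (le_trans (CH_mono_cond h0 ?_) h.n1)
        (le_trans (CH_mono_cond h0 ?_) h.zj))))
    · intro ω ω' _ _ e
      simp only [Prod.mk.injEq] at e
      exact e.1.2
    · intro ω ω' _ _ e
      simp only [Prod.mk.injEq] at e ⊢
      tauto
    · intro ω ω' _ _ e
      simp only [Prod.mk.injEq] at e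
      exact e.2.1
  have b4 : CH p Xp (fun ω => ((Uq ω, (N1 ω, zw ω)), ((Xq ω, Up ω), (Rj ω, y ω)))) ≤
      CH p Xp (fun ω => (Up ω, (Rj ω, (((Xq ω, Uq ω), N1 ω), (zw ω, y ω))))) :=
    CH_mono_cond h0 fun ω ω' _ _ e => by
      simp only [Prod.mk.injEq] at e ⊢
      tauto
  -- velocities
  have hn1 : CH p N1 (fun ω => (R' ω, y ω)) ≤ (4 * κ + κ) + κ := by
    refine CH_tr h0 N1 (A := fun ω => (Xq ω, Rj ω)) (W' := fun ω => (Xq ω, (Rj ω, y ω)))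
      ((CH_subadd h0 Xq Rj _).trans (add_le_add h.toV.qr (le_trans (CH_mono_cond h0 ?_) h.jr)))
      h.n1 fun ω ω' _ _ e => ?_
    · exact fun ω ω' _ _ e => (Prod.ext_iff.mp e).1
    · simp only [Prod.mk.injEq] at e ⊢
      tauto
  have hA : CH p (fun ω => (Rj ω, (Xq ω, (N1 ω, zw ω)))) (fun ω => (R' ω, y ω)) ≤
      κ + (4 * κ + (((4 * κ + κ) + κ) + 2 * κ)) := by
    refine (CH_subadd h0 Rj _ _).trans (add_le_add (le_trans (CH_mono_cond h0 ?_) h.jr)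
      ((CH_subadd h0 Xq _ _).trans (add_le_add h.toV.qr ((CH_subadd h0 N1 zw _).trans
        (add_le_add hn1 (le_trans (CH_mono_cond h0 ?_) h.toV.zr))))))
    · exact fun ω ω' _ _ e => (Prod.ext_iff.mp e).1
    · exact fun ω ω' _ _ e => (Prod.ext_iff.mp e).1
  have b5 := h.frq hA (by
    rw [CH_eq_zero h0 (fun ω ω' _ _ e => by
      simp only [Prod.mk.injEq] at e
      exact e.2.2.2)]
    exact h.κ0)
  have b6 : CH p Up (fun ω => (Uq ω, ((Rj ω, (Xq ω, (N1 ω, zw ω))), y ω))) ≤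
      CH p Up (fun ω => (Rj ω, (((Xq ω, Uq ω), N1 ω), (zw ω, y ω)))) :=
    CH_mono_cond h0 fun ω ω' _ _ e => by
      simp only [Prod.mk.injEq] at e ⊢
      tauto
  -- the target
  have c1 := h.toV.be
  have c2 := CH_ge h0 N2 Uq (fun ω => ((Xp ω, Up ω), (Rj ω, (((Xq ω, Up ω), N1 ω), (zw ω, y ω)))))
  have c3 : CH p Uq (fun ω => ((Xp ω, Up ω), (Rj ω, (((Xq ω, Up ω), N1 ω), (zw ω, y ω))))) ≤ κ :=
    le_trans (CH_mono_cond h0 fun ω ω' _ _ e => by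
      simp only [Prod.mk.injEq] at e
      exact e.1.2) h.uq
  have c4 : CH p N2 (fun ω => (Uq ω, ((Xp ω, Up ω),
      (Rj ω, (((Xq ω, Up ω), N1 ω), (zw ω, y ω)))))) ≤
      CH p N2 (fun ω => ((Xp ω, Up ω), (Rj ω, (((Xq ω, Uq ω), N1 ω), (zw ω, y ω))))) :=
    CH_mono_cond h0 fun ω ω' _ _ e => by
      simp only [Prod.mk.injEq] at e ⊢
      tauto
  have h6 := h.cn
  have h7 := h.κ0
  linarith

end VLaw2

end

end Pool.V0F
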