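import Pool.Agent.H57.AVG.Av1
import Pool.Agent.H44.V0F.Law2

/-!
# All base coordinates are moved: the closed gradient on one event

`Vv`: digits of the own heights of the base coordinates. `v0_ev`: from the inputs `PrA` with `k₀ = 0`
and the rows of the own height of the target: the gradient of the target in all directions is closed.
-/

set_option autoImplicit false

namespace Pool.V0F

open Finset Real MvPolynomial
open Pool.Agent.H49.Ent Pool.Agent.H32.Dense Pool.STK Pool.KA Pool.KSAT Pool.K2S Pool.PB Pool.S6C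
open Pool.GEN Pool.CHT Pool.CHX Pool.ISO Pool.LA91 Pool.AVG71 Pool.AVG5 Pool.D2F2 Pool.AVG57
open Pool.PB.Trl (rt rt_mem t_rt)
open Pool.D2R (AdW gnh hgt GrdE chs)
open Pool.KVA (MI)
open Pool.KAF (rs Pr)
open Pool.BFL (Pb)

variable {m J : ℕ}

/-- The digits of the own heights of the base coordinates. -/
noncomputable def Vv (F : Fam m J) (c : ℕ → Fin m) (r w : ℕ)
    (H : LnT F → ℕ → MvPolynomial (Option (Fin m)) ℝ) (Nb : ℕ → ℝ) (ω : F.Ω) (l : Fin r) : ℤ :=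
  ⌊(2 : ℝ) ^ Nb l * ojet F (c l) 0 (H (slam F w ω) l) ω⌋

section

variable {F : Fam m J} {c : ℕ → Fin m} {r n q w W X mm : ℕ} {γ : ℕ → ℕ}
  {G : ℕ → PtT F → ℕ → MvPolynomial (Option (Fin m)) ℝ}
  {H : LnT F → ℕ → MvPolynomial (Option (Fin m)) ℝ} {ζ : Type} {zw : F.Ω → ζ} {p : F.Ω → ℝ}

/-- The value of the own path of a base coordinate. -/
theorem adM_A0 (hwW : w ≤ W) (hW : W ≤ J) (ω : F.Ω) (j : Fin r) :
    ((adM F c 0 r n q w W X mm γ G H zw).A ω j).eval (rt F W ω) =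
      2 ^ (γ j + q) * ojet F (c j) 0 (H (slam F w ω) j) ω := by
  have h1 := jt_adM (c := c) (k₀ := 0) (k := r) (n := n) (q := q) (X := X) (mm := mm) (γ := γ)
    (G := G) (H := H) (zw := zw) hwW hW ω (some j) 0
  have h2 : jj (adM F c 0 r n q w W X mm γ G H zw) ω (some j) 0 =
      ((adM F c 0 r n q w W X mm γ G H zw).A ω j).eval (rt F W ω) := jt_zero _ _
  rw [h2] at h1
  simpa using h1

/-- The value of the own path of the target. -/
theorem adM_P0 (hwW : w ≤ W) (hW : W ≤ J) (ω : F.Ω) :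
    ((adM F c 0 r n q w W X mm γ G H zw).P ω).eval (rt F W ω) =
      2 ^ (γ r + q) * ojet F (c r) 0 (H (slam F w ω) r) ω := by
  have h1 := jt_adM (c := c) (k₀ := 0) (k := r) (n := n) (q := q) (X := X) (mm := mm) (γ := γ)
    (G := G) (H := H) (zw := zw) hwW hW ω none 0
  have h2 : jj (adM F c 0 r n q w W X mm γ G H zw) ω none 0 =
      ((adM F c 0 r n q w W X mm γ G H zw).P ω).eval (rt F W ω) := jt_zero _ _
  rw [h2] at h1
  simpa using h1

/-- The digits of the heights given the codes. -/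
theorem vv_h {K D : ℕ} (hp : IsLaw p) (hH : ∀ s l, (H s l).totalDegree ≤ D) (hK : D + 1 ≤ K)
    (hwW : w ≤ W) (hW : W ≤ J) {Nb : ℕ → ℝ}
    (hr : ∀ l < r, Nb l ≤ (γ l + q + (X + mm) : ℕ)) {𝓦 : Type} (Z : F.Ω → 𝓦)
    (hZ : ∀ ω ν, 0 < p ω → 0 < p ν → Z ω = Z ν → rt F W ω = rt F W ν ∧
      (adM F c 0 r n q w W X mm γ G H zw).Y K ω = (adM F c 0 r n q w W X mm γ G H zw).Y K ν ∧
      (adM F c 0 r n q w W X mm γ G H zw).g K ω =
        (adM F c 0 r n q w W X mm γ G H zw).g K ν) :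
    CH p (Vv F c r w H Nb) Z ≤ r * cV K := by
  have hP := adM_pth (c := c) (k₀ := 0) (k := r) (n := n) (q := q) (w := w) (X := X) (mm := mm)
    (γ := γ) (G := G) (zw := zw) hp hH hK hW
  refine ch_vec hp.nonneg Z r (Vv F c r w H Nb) fun j => ?_
  refine CH_pair_int hp _ Z (by positivity) fun ω ν hω hν e => ?_
  obtain ⟨h1, h2, h3⟩ := hZ ω ν hω hν e
  have h4 := A_near (d := adM F c 0 r n q w W X mm γ G H zw) (K := K)
    (j := j) h1 (hP.th ω hω) (ac_of h2 h3) (hP.dA ω hω j) (hP.dA ν hν j)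
  have a1 : ((adM F c 0 r n q w W X mm γ G H zw).A ω j).eval
      ((adM F c 0 r n q w W X mm γ G H zw).th ω) =
      2 ^ (γ j + q) * ojet F (c j) 0 (H (slam F w ω) j) ω := adM_A0 hwW hW ω j
  have a2 : ((adM F c 0 r n q w W X mm γ G H zw).A ν j).eval
      ((adM F c 0 r n q w W X mm γ G H zw).th ν) =
      2 ^ (γ j + q) * ojet F (c j) 0 (H (slam F w ν) j) ν := adM_A0 hwW hW ν j
  have a3 : (2 : ℝ) ^ ((adM F c 0 r n q w W X mm γ G H zw).X +
    (adM F c 0 r n q w W X mm γ G H zw).m) = 2 ^ (X + mm) := rfl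
  rw [a1, a2, a3] at h4
  unfold Vv
  refine floor_near' ?_
  have p1 : (0 : ℝ) < 2 ^ (X + mm) := by positivity
  have p2 : (0 : ℝ) < 2 ^ (γ j + q) := by positivity
  have p3 : (0 : ℝ) < (2 : ℝ) ^ Nb j := Real.rpow_pos_of_pos two_pos _
  rw [← mul_sub, abs_mul, abs_of_pos p2] at h4
  rw [← mul_sub, abs_mul, abs_of_pos p3]
  have h5 : (2 : ℝ) ^ Nb j ≤ 2 ^ (γ j + q) * 2 ^ (X + mm) := by
    rw [← pow_add, ← Real.rpow_natCast]
    exact Real.rpow_le_rpow_of_exponent_le one_le_two (hr j j.2)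
  rw [le_div_iff₀ p1] at h4
  calc _ ≤ 2 ^ (γ j + q) * 2 ^ (X + mm) * |ojet F (c j) 0 (H (slam F w ω) j) ω -
        ojet F (c j) 0 (H (slam F w ν) j) ν| := mul_le_mul_of_nonneg_right h5 (abs_nonneg _)
    _ = 2 ^ (γ j + q) * |ojet F (c j) 0 (H (slam F w ω) j) ω -
        ojet F (c j) 0 (H (slam F w ν) j) ν| * 2 ^ (X + mm) := by ring
    _ ≤ _ := h4

/-- The near digits of the positions. -/
theorem CH_Yk {Ω β : Type} [Fintype Ω] {q : Ω → ℝ} (hq : IsLaw q) {k : ℕ} (d : AD Ω β k) (K : ℕ)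
    {𝓦 : Type} (Z : Ω → 𝓦) : CH q (d.Y K) Z ≤ k * (d.X * Real.log 2) := by
  have h0 := hq.nonneg
  refine ch_vec h0 Z k (d.Y K) fun j => ?_
  have s4 := CH_le_card h0 hq.sum_one (fun ω => d.Y K ω j) Z
      (fun _ => Finset.Ico (0 : ℤ) (2 ^ d.X)) (fun ω _ => by
        rw [Finset.mem_Ico]
        exact AD.Y_mem ω j)
  rw [Ex_const hq.sum_one, Int.card_Ico, sub_zero] at s4
  have e2 : ((2 : ℤ) ^ d.X).toNat = 2 ^ d.X := by
    have : (2 : ℤ) ^ d.X = ((2 ^ d.X : ℕ) : ℤ) := by push_cast; rfl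
    rw [this, Int.toNat_natCast]
  rw [e2] at s4
  push_cast at s4
  rw [Real.log_pow] at s4
  linarith

/-- The field `qv`. -/
theorem qv_v {U : ℝ} (hU : 0 ≤ U) (hwW : w ≤ W) (hW : W ≤ J) {Nb : ℕ → ℝ}
    (hr : ∀ l < r, ((γ l + q + X : ℕ) : ℝ) ≤ Nb l) {ω ν : F.Ω}
    (hb : ∀ j, |(adM F c 0 r n q w W X mm γ G H zw).bb ω j| ≤ U)
    (hV : Vv F c r w H Nb ω = Vv F c r w H Nb ν)
    (hT : (adM F c 0 r n q w W X mm γ G H zw).T ω =
      (adM F c 0 r n q w W X mm γ G H zw).T ν) :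
    |((adM F c 0 r n q w W X mm γ G H zw).Q ω - Mh F c r w H (γ r + q + X) ω) -
      ((adM F c 0 r n q w W X mm γ G H zw).Q ν - Mh F c r w H (γ r + q + X) ν)| ≤
      r * U + 1 := by
  have b1 : (adM F c 0 r n q w W X mm γ G H zw).bb ω =
      (adM F c 0 r n q w W X mm γ G H zw).bb ν := (Prod.ext_iff.mp hT).2
  have hv2 : ∀ j : Fin r, 2 ^ (γ j + q + X) * |ojet F (c j) 0 (H (slam F w ω) j) ω -
      ojet F (c j) 0 (H (slam F w ν) j) ν| ≤ 1 := by
    intro j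
    have p1 : (0 : ℝ) < 2 ^ (γ j + q + X) := by positivity
    have p3 : (0 : ℝ) < (2 : ℝ) ^ Nb j := Real.rpow_pos_of_pos two_pos _
    have hv := near_of_floor p3 (congrFun hV j)
    have h1 : (1 : ℝ) / 2 ^ Nb j ≤ 1 / 2 ^ (γ j + q + X) := by
      refine one_div_le_one_div_of_le p1 ?_
      rw [← Real.rpow_natCast]
      exact Real.rpow_le_rpow_of_exponent_le one_le_two (hr j j.2)
    have h2 := hv.trans h1
    rw [le_div_iff₀ p1] at h2
    linarith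
  have q1 : ∀ o : F.Ω, (adM F c 0 r n q w W X mm γ G H zw).Q o =
      2 ^ (γ r + q + X) * ojet F (c r) 0 (H (slam F w o) r) o -
        ∑ j, (adM F c 0 r n q w W X mm γ G H zw).bb o j *
          (2 ^ (γ j + q + X) * ojet F (c j) 0 (H (slam F w o) j) o) := by
    intro o
    have e1 : (adM F c 0 r n q w W X mm γ G H zw).Q o =
        2 ^ X * (((adM F c 0 r n q w W X mm γ G H zw).P o).eval (rt F W o) -
          ∑ j, (adM F c 0 r n q w W X mm γ G H zw).bb o j *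
            ((adM F c 0 r n q w W X mm γ G H zw).A o j).eval (rt F W o)) := rfl
    rw [e1, adM_P0 hwW hW, mul_sub, Finset.mul_sum]
    congr 1
    · rw [pow_add _ (γ r + q) X]
      ring
    · refine Finset.sum_congr rfl fun j _ => ?_
      rw [adM_A0 hwW hW, pow_add _ (γ j + q) X]
      ring
  obtain ⟨b, hbe⟩ : ∃ b, b = (adM F c 0 r n q w W X mm γ G H zw).bb ω := ⟨_, rfl⟩
  rw [← hbe] at hb
  rw [q1 ω, q1 ν, ← b1, ← hbe]
  unfold Mh
  obtain ⟨x, hx⟩ : ∃ x, x = (2 : ℝ) ^ (γ r + q + X) * ojet F (c r) 0 (H (slam F w ω) r) ω :=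
    ⟨_, rfl⟩
  obtain ⟨x', hx'⟩ : ∃ x, x = (2 : ℝ) ^ (γ r + q + X) * ojet F (c r) 0 (H (slam F w ν) r) ν :=
    ⟨_, rfl⟩
  rw [← hx, ← hx']
  have f1 := Int.floor_le x
  have f2 := Int.lt_floor_add_one x
  have f3 := Int.floor_le x'
  have f4 := Int.lt_floor_add_one x'
  have h6 : |∑ j, b j * (2 ^ (γ j + q + X) * ojet F (c j) 0 (H (slam F w ω) j) ω) -
      ∑ j, b j * (2 ^ (γ j + q + X) * ojet F (c j) 0 (H (slam F w ν) j) ν)| ≤ r * U := by
    rw [← Finset.sum_sub_distrib]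
    refine (Finset.abs_sum_le_sum_abs _ _).trans ((Finset.sum_le_sum (g := fun _ => U)
      fun j _ => ?_).trans (le_of_eq ?_))
    · rw [← mul_sub, ← mul_sub, abs_mul, abs_mul,
        abs_of_pos (by positivity : (0 : ℝ) < 2 ^ (γ j + q + X))]
      calc _ ≤ U * 1 := mul_le_mul (hb j) (hv2 j) (by positivity) hU
        _ = U := mul_one _
    · rw [Finset.sum_const, Finset.card_univ, Fintype.card_fin, nsmul_eq_mul]
  have h7 := abs_le.mp h6
  rw [abs_le]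
  constructor <;> linarith [h7.1, h7.2]

/-- The upper digits of `Mh`. -/
theorem mh_div {N X a : ℕ} (ha : a ≤ X) (ω : F.Ω) :
    Mh F c r w H (N + X) ω / 2 ^ (X - a) = Mh F c r w H (N + a) ω := by
  unfold Mh
  obtain ⟨x, hx⟩ : ∃ x, x = ojet F (c r) 0 (H (slam F w ω) r) ω := ⟨_, rfl⟩
  rw [← hx]
  have h1 := Int.floor_div_natCast ((2 : ℝ) ^ (N + X) * x) (2 ^ (X - a))
  have e1 : (2 : ℝ) ^ (N + X) * x / ((2 ^ (X - a) : ℕ) : ℝ) = 2 ^ (N + a) * x := by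
    have e2 : (2 : ℝ) ^ (N + X) = 2 ^ (N + a) * 2 ^ (X - a) := by
      rw [← pow_add]
      congr 1
      omega
    rw [e2]
    push_cast
    field_simp
  rw [e1] at h1
  push_cast at h1
  exact h1.symm

end

/-- **Closed gradient in all directions**, on one event. -/
theorem v0_ev (r K : ℕ) (cc ε : ℝ) (hcc : 0 < cc) (hε : 0 < ε) :
    ∃ (κ₂ κ π₀ ι ε₀ : ℝ) (k₁ j₀ X₀ : ℕ), 0 < κ₂ ∧ κ₂ ≤ 1 ∧ 0 < κ ∧ κ ≤ 1 ∧ 0 < π₀ ∧ 0 < ι ∧
      0 < ε₀ ∧
      ∀ {m J : ℕ} {F : Fam m J} {c : ℕ → Fin m} {ks n q w W X mm D : ℕ} {γ : ℕ → ℕ}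
        {B : F.Ω → Prop} {G : ℕ → PtT F → ℕ → MvPolynomial (Option (Fin m)) ℝ}
        {H : LnT F → ℕ → MvPolynomial (Option (Fin m)) ℝ} {ζ : Type} {zw : F.Ω → ζ}
        {ρ₁ ρ₂ : Type} {Rj : F.Ω → ρ₁} {Rx : F.Ω → ρ₂} {Nb : ℕ → ℝ}
        {p : F.Ω → ℝ} {Nf Nn Nx Nu Nv : ℕ → ℕ → ℝ} {Mf Mn : ℕ → ℝ} {U e : ℝ}
        (_ : PrA F c 0 r ks n q w W X mm D K γ B G H zw Rj Rx (Vv F c r w H Nb) p Nf Nn Nx Nu Nv
          Mf Mn U (r * (X * Real.log 2)) e)
        {Ur ψ : ℝ}, (∀ l < r, ((γ l + q + X : ℕ) : ℝ) ≤ Nb l) →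
        (∀ l < r, Nb l ≤ (γ l + q + (X + mm) : ℕ)) →
        (∀ j : ℕ, (j + 1) * ⌊κ * X⌋₊ ≤ X → ∀ E : Set F.Ω, π₀ ≤ Pr p E →
          CH (rs p E) (Mh F c r w H (γ r + q + (j + 1) * ⌊κ * X⌋₊))
            (fun ω => (Mh F c r w H (γ r + q + j * ⌊κ * X⌋₊) ω, (Vv F c r w H Nb ω,
              (F.W ω, zw ω)))) ≤ Ur) →
        TimW F p W j₀ ε₀ ψ → Det p (slam F W) zw → X₀ ≤ X → W + X ≤ J →
        ψ * J ≤ ι * X * Real.log 2 → (mm : ℝ) ≤ ι * X →
        6 * (3 * e + cE0 r K U + r * cV K) ≤ ι * X →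
        3 * (3 * e + cE0 r K U + r * cV K) + r * mm * Real.log 2 ≤ ι * X * Real.log 2 →
        Ur + cR r K (r * (U + 1) + 1) + (4 * (3 * e + cE0 r K U + r * cV K) +
          r * mm * Real.log 2 + Real.log 2) / π₀ ≤ (1 - cc) * ⌊κ * X⌋₊ * Real.log 2 →
        ∃ mu : LnT F → ℕ → Polynomial ℝ, (∀ s i, (mu s i).natDegree ≤ K) ∧
          (∀ s i (u : ℝ), |(mu s i).eval u| ≤
            (K + 1) * (2 ^ k₁ * (|u| + 1)) ^ K * (2 : ℝ) ^ (ι * X)) ∧
          Pb p (fun ω => ∃ i < r, (2 : ℝ) ^ (-(κ₂ * X)) <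
            |gnh F c r γ (G 0) (G n) ω i - (mu (slam F W ω) i).eval (rt F W ω)|) ≤ ε := by
  obtain ⟨κ₂, κ, π₀, ι, ε₀, k₁, j₀, X₀, a1, a2, a3, a4, a5, a6, a7, Hm⟩ :=
    avg_ev r K cc ε hcc hε
  refine ⟨κ₂, κ, π₀, ι, ε₀, k₁, j₀, X₀, a1, a2, a3, a4, a5, a6, a7, ?_⟩
  intro m J F c ks n q w W X mm D γ B G H ζ zw ρ₁ ρ₂ Rj Rx Nb p Nf Nn Nx Nu Nv Mf Mn U e P Ur ψ
    hN1 hN2 hrow hT hz hX hJ hψ hmm n1 n2 n3
  have hp := P.law
  have h0 := hp.nonneg
  have hwW := P.wW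
  have hW := P.WJ
  have hU := P.grd.U0
  have hl2 : 0 < Real.log 2 := Real.log_pos one_lt_two
  have hcV := cV_nonneg K
  have hr0 : (0 : ℝ) ≤ r := Nat.cast_nonneg r
  have hrcV : 0 ≤ r * cV K := mul_nonneg hr0 hcV
  have hbm : ∀ ω, 0 < p ω → ∀ j,
      |(adM F c 0 r n q w W X mm γ G H zw).bb ω j| ≤ U + 1 :=
    fun ω hω j => P.adw.bm P.grd (P.sup ω hω) j
  obtain ⟨mu, m1, m2, m3⟩ := Hm P (Ur := Ur) (Bq := r * (U + 1) + 1) (eV := r * cV K) (ψ := ψ)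
    (M := Mh F c r w H (γ r + q + X)) (by positivity) hrcV
    (fun q' hq' hpos => by
      have s1 := CH_le_add hq'.nonneg (Vv F c r w H Nb)
        ((adM F c 0 r n q w W X mm γ G H zw).Y K)
        (fun ω => ((adM F c 0 r n q w W X mm γ G H zw).T ω,
          (adM F c 0 r n q w W X mm γ G H zw).g K ω))
      have s2 := CH_Yk hq' (adM F c 0 r n q w W X mm γ G H zw) K
        (fun ω => ((adM F c 0 r n q w W X mm γ G H zw).T ω,
          (adM F c 0 r n q w W X mm γ G H zw).g K ω))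
      have s3 := vv_h (c := c) (r := r) (n := n) (γ := γ) (G := G) (zw := zw) hq' P.deg P.DK hwW
        hW hN2 (fun ω => ((adM F c 0 r n q w W X mm γ G H zw).Y K ω,
        ((adM F c 0 r n q w W X mm γ G H zw).T ω,
          (adM F c 0 r n q w W X mm γ G H zw).g K ω)))
        (fun ω ν _ _ e => by
          simp only [Prod.mk.injEq] at e
          exact ⟨(Prod.ext_iff.mp e.2.1).1, e.1, e.2.2⟩)
      have s4 : ((adM F c 0 r n q w W X mm γ G H zw).X : ℝ) = X := rfl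
      rw [s4] at s2
      linarith)
    (by
      have s3 := vv_h (c := c) (r := r) (n := n) (γ := γ) (G := G) (zw := zw) hp P.deg P.DK hwW
        hW hN2 (fun ω => ((adM F c 0 r n q w W X mm γ G H zw).Y K ω,
        ((adM F c 0 r n q w W X mm γ G H zw).th ω,
          (adM F c 0 r n q w W X mm γ G H zw).g K ω)))
        (fun ω ν _ _ e => by
          simp only [Prod.mk.injEq] at e
          exact ⟨e.2.1, e.1, e.2.2⟩)
      linarith)
    (fun ω ν hω _ hV hTT _ => qv_v (by linarith) hwW hW hN1 (hbm ω hω) hV hTT)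
    (fun j hj E hE => by
      have hj1 : j * ⌊κ * X⌋₊ ≤ X := le_trans (Nat.mul_le_mul_right _ (Nat.le_succ j)) hj
      have r1 := hrow j hj E hE
      have r2 : (fun ω => Mh F c r w H (γ r + q + X) ω / 2 ^ (X - (j + 1) * ⌊κ * X⌋₊)) =
          Mh F c r w H (γ r + q + (j + 1) * ⌊κ * X⌋₊) := by
        funext ω
        exact mh_div hj ω
      have hE0 : 0 < law p (fun ω => ω ∈ E) True := lt_of_lt_of_le a5 hE
      have hE' : IsLaw (rs p E) :=
        ⟨cond_nonneg h0 (fun ω => ω ∈ E) True, sum_cond p (fun ω => ω ∈ E) hE0.ne'⟩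
      rw [r2]
      refine le_trans (CH_mono_cond hE'.nonneg fun ω ν _ _ e => ?_) r1
      simp only [Prod.mk.injEq] at e ⊢
      obtain ⟨e2, e3, e4, e5⟩ := e
      rw [mh_div hj1 ω, mh_div hj1 ν] at e2
      have z1 : (adM F c 0 r n q w W X mm γ G H zw).z ω =
        (adM F c 0 r n q w W X mm γ G H zw).z ν := (Prod.ext_iff.mp e5).1
      have z2 : zw ω = zw ν := (Prod.ext_iff.mp z1).1
      have z3 : (slam F W ω).2 = (slam F W ν).2 := (Prod.ext_iff.mp (Prod.ext_iff.mp z1).2).1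
      have t2 : rt F W ω = rt F W ν := (Prod.ext_iff.mp e4).1
      exact ⟨e2, e3, adM_T hW t2 z3, z2⟩)
    hT hz hX hJ hψ hmm n1 n2 n3
  have hr : 0 + r = r := Nat.zero_add r
  refine ⟨fun s i => if hi : i < r then mu s ⟨i, hi⟩ else 0, fun s i => ?_, fun s i u => ?_,
    le_trans ?_ m3⟩
  · dsimp only
    split_ifs
    · exact m1 _ _
    · simp
  · dsimp only
    split_ifs
    · exact m2 _ _ u
    · simp only [Polynomial.eval_zero, abs_zero]
      positivity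
  unfold Pb
  refine Finset.sum_le_sum fun ω _ => ?_
  by_cases h6 : ∃ i < r, (2 : ℝ) ^ (-(κ₂ * X)) <
            |gnh F c r γ (G 0) (G n) ω i - ((if hi : i < r then mu (slam F W ω) ⟨i, hi⟩ else
              0 : Polynomial ℝ)).eval (rt F W ω)|
  · rw [if_pos h6, if_pos ?_]
    obtain ⟨i, hi, h7⟩ := h6
    refine ⟨⟨i, hi⟩, ?_⟩
    rw [dif_pos hi] at h7
    rw [Nat.zero_add, Nat.zero_add]
    exact h7
  · rw [if_neg h6]
    split_ifs
    · exact h0 ω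
    · exact le_rfl

end Pool.V0F
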