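import Pool.Agent.H44.V0F.Ev3
import Pool.Agent.H97.V0F.Ac2

/-!
# Closed gradient on one event, all errors small

`v0_fin`: `v0_ev` with the inputs in the letters of the class theorem.
-/

set_option autoImplicit false

namespace Pool.V0F

open Finset Real MvPolynomial
open Pool.Agent.H49.Ent Pool.Agent.H32.Dense
open Pool.STK hiding pr2
open Pool.KA Pool.KSAT Pool.K2S Pool.PB Pool.S6C
open Pool.GEN Pool.CHT Pool.CHX Pool.ISO Pool.LA91 Pool.AVG71 Pool.AVG5 Pool.D2F2 Pool.AVG57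
open Pool.PB.Trl (rt rt_mem t_rt)
open Pool.D2R (AdW gnh hgt GrdE chs)
open Pool.KVA (MI)
open Pool.KAF (rs Pr)
open Pool.BFL (Pb)

/-- **Closed gradient in all directions**, on one event, all errors at most `τ X`. -/
theorem v0_fin (r K : ℕ) (cc ε : ℝ) (hcc : 0 < cc) (hε : 0 < ε) :
    ∃ (κ₂ κ π₀ τ ε₀ Ca : ℝ) (j₀ X₀ : ℕ), 0 < κ₂ ∧ κ₂ ≤ 1 ∧ 0 < κ ∧ κ ≤ 1 ∧ 0 < π₀ ∧ 0 < τ ∧
      0 < ε₀ ∧ 0 ≤ Ca ∧
      ∀ {m J : ℕ} {F : Fam m J} {c : ℕ → Fin m} {ks n q w W X mm D : ℕ} {γ : ℕ → ℕ}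
        {B : F.Ω → Prop} {G : ℕ → PtT F → ℕ → MvPolynomial (Option (Fin m)) ℝ}
        {H : LnT F → ℕ → MvPolynomial (Option (Fin m)) ℝ} {ζ ρ₁ ρ₂ ρ₃ ξ₆ : Type} {zw : F.Ω → ζ}
        {Rj : F.Ω → ρ₁} {Rx : F.Ω → ρ₂} {R' : F.Ω → ρ₃} {XJ : F.Ω → ξ₆} {p : F.Ω → ℝ}
        {Nf Nn Nu Nv : ℕ → ℕ → ℝ} {nb : ℕ → ℝ} {Mf Mn : ℕ → ℝ} {U Fv Gf κ' e e₁ d ψ Ur : ℝ},
        IsLaw p → (∀ ω, 0 < p ω → B ω) → Gd F → w ≤ W → W + X ≤ J →
        (∀ s l, (H s l).totalDegree ≤ D) → D + 1 ≤ K → Clsd F (0 + r + 1) w B (G 0) H →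
        GrdE F c 0 (0 + r) ks n q X γ U B G → U + 1 ≤ 2 ^ mm →
        VLaw2 p zw Rj Rx R' F.W (jh F c r w H fun l => Nn l 0)
          (jh F c r w H fun l => Nf l 0) (jv F c r w H fun l => Nn l 1)
          (jv F c r w H fun l => Nf l 1) (th0 F c r w H (Mn 0)) (th0 F c r w H (Mf 0)) XJ Fv Gf
          κ' →
        Det p Rj (chs F (0 + r) ks G) → Det p Rx (chs F (0 + r) n G) →
        Det p (slam F W) zw →
        (∀ l < r, Nn l 0 * J ≤ (γ l + q : ℕ)) →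
        (∀ l < r, Nn l 1 * J + W ≤ (γ l + q + (X + mm) : ℕ)) →
        (∀ l < r, Nu l 0 * J ≤ (γ l + q : ℕ)) →
        (∀ l < r, Nu l 1 * J + W ≤ (γ l + q + (X + mm) : ℕ)) →
        Mn 0 * J ≤ (γ r + q : ℕ) → Mn 1 * J + W ≤ (γ r + q : ℕ) →
        ((γ r + q + X : ℕ) : ℝ) ≤ Mf 0 * J → Mf 1 = Mn 1 →
        (∀ ω, 0 < p ω → |(2 : ℝ) ^ (Mn 1 * J) * ojet F (c r) 1 (H (slam F w ω) r) ω| < 1) →
        (∀ l < r, CH p (Pool.AVG71.cod F W 2 K (2 ^ (γ l + q + (X + mm))) (c l)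
          (fun s => upw w W s) (fun s => H s l)) F.W ≤ e₁) →
        (∀ l < r, ((γ l + q + (X + mm) : ℕ) : ℝ) ≤ Nf l 0 * J) →
        (∀ l < r, ((γ l + q + (X + mm) : ℕ) : ℝ) ≤ Nf l 1 * J + W) →
        (∀ l < r, ((γ l + q : ℕ) : ℝ) ≤ Nv l 0 * J) →
        (∀ l < r, ((γ l + q + (X + mm) : ℕ) : ℝ) ≤ Nv l 1 * J + W) →
        (∀ l, Nv l 1 = Nn l 1) → 0 ≤ d → (∀ l < r, (Nv l 0 - Nn l 0) * J ≤ d) →
        CH p (Pool.AVG57.cod F w (fun s => H s r) (c r) (γ r + q + X) 1 K)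
          (fun ω => (jet2 F c w H 0 r Nf ω, (zw ω, F.W ω))) ≤ e₁ →
        CH p (Pool.AVG57.cod F w (fun s => H s r) (c r) (γ r + q) 0 K)
          (fun ω => (jet2 F c w H 0 r Nu ω, (Rx ω, F.W ω))) ≤ e₁ →
        CH p (Vv F c r w H fun l => nb l * J) (fun ω => (R' ω, F.W ω)) ≤ κ' →
        r * (X * Real.log 2) - κ' ≤ CH p (Vv F c r w H fun l => nb l * J)
          (fun ω => (jh F c r w H (fun l => Nn l 0) ω, (Rx ω, F.W ω))) →
        (∀ l < r, ((γ l + q + X : ℕ) : ℝ) ≤ nb l * J) →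
        (∀ l < r, nb l * J ≤ (γ l + q + (X + mm) : ℕ)) →
        (∀ j : ℕ, (j + 1) * ⌊κ * X⌋₊ ≤ X → ∀ E : Set F.Ω, π₀ ≤ Pr p E →
          CH (rs p E) (Mh F c r w H (γ r + q + (j + 1) * ⌊κ * X⌋₊))
            (fun ω => (Mh F c r w H (γ r + q + j * ⌊κ * X⌋₊) ω,
              (Vv F c r w H (fun l => nb l * J) ω, (F.W ω, zw ω)))) ≤ Ur) →
        TimW F p W j₀ ε₀ ψ → X₀ ≤ X →
        65 * κ' + Real.log 2 + r * (d * Real.log 2 + Real.log 5) + (r + 1) * e₁ + Ca + ψ * J ≤ e →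
        e ≤ τ * X → (mm : ℝ) ≤ τ * X → Ur ≤ (1 - 2 * cc) * (κ * X) * Real.log 2 + τ * X →
        ∃ mu : LnT F → ℕ → Polynomial ℝ, (∀ s i, (mu s i).natDegree ≤ K) ∧
          Pb p (fun ω => ∃ i < r, (2 : ℝ) ^ (-(κ₂ * X)) <
            |gnh F c r γ (G 0) (G n) ω i - (mu (slam F W ω) i).eval (rt F W ω)|) ≤ ε := by
  obtain ⟨κ₂, κ, π₀, ι, ε₀, k₁, j₀, X₀, a1, a2, a3, a4, a5, a6, a7, Hm⟩ := v0_ev r K cc ε hcc hε
  obtain ⟨Ca, hCa, hac⟩ := Pool.V0F97.acStmt r K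
  obtain ⟨τ₁, hτ₁, hτ₁', X₁, hnum⟩ := v0_nums r K hcc a3 a4 a5 a6
  have hl2 : 0 < Real.log 2 := Real.log_pos one_lt_two
  have hl5 : 0 < Real.log 5 := Real.log_pos (by norm_num)
  refine ⟨κ₂, κ, π₀, min τ₁ (ι * Real.log 2), ε₀, Ca, j₀, max (max X₀ X₁) K, a1, a2, a3, a4, a5,
    lt_min hτ₁ (by positivity), a7, hCa, ?_⟩
  intro m J F c ks n q w W X mm D γ B G H ζ ρ₁ ρ₂ ρ₃ ξ₆ zw Rj Rx R' XJ p Nf Nn Nu Nv nb Mf Mn U Fv
    Gf κ' e e₁ d ψ Ur hp sup gd wW hWX deg DK cls grd mU V hj hx zL n0 n1 u0 u1 m0 m1 mf hM hs hc2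
    f0 f1 v0 v1 hv1 hd0 hv0 dj jt hD hf nb1 nb2 row T hX he heτ hmm hUr
  have h0 := hp.nonneg
  have hW : W ≤ J := by omega
  have hr : 0 + r = r := Nat.zero_add r
  have hX0 : (0 : ℝ) ≤ X := Nat.cast_nonneg X
  have hXK : K ≤ X := (le_max_right _ _).trans hX
  have hXX0 : X₀ ≤ X := (le_max_left _ _).trans ((le_max_left _ _).trans hX)
  have hXX1 : X₁ ≤ X := (le_max_right _ _).trans ((le_max_left _ _).trans hX)
  have hτa : min τ₁ (ι * Real.log 2) * X ≤ τ₁ * X :=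
    mul_le_mul_of_nonneg_right (min_le_left _ _) hX0
  have hτb : min τ₁ (ι * Real.log 2) * X ≤ ι * Real.log 2 * X :=
    mul_le_mul_of_nonneg_right (min_le_right _ _) hX0
  have hκ0 := V.κ0
  have he1 : 0 ≤ e₁ := (CH_nonneg h0 _ _).trans dj
  have hre1 : 0 ≤ r * e₁ := by positivity
  have hrd : 0 ≤ r * (d * Real.log 2 + Real.log 5) := by positivity
  have hψ : 0 ≤ ψ * J := by
    have h1 := T.mi (F.T1 W) (fun ω ν _ _ e => (Prod.ext_iff.mp (Prod.ext_iff.mp e).2).2)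
      (fun _ _ _ _ e => e)
    refine le_trans ?_ h1
    rw [MI_eq h0]
    have := CH_mono_cond h0 (X := F.T) (W' := fun ω => (slam F W ω, F.T1 W ω)) (W := F.T1 W)
      (fun ω ν _ _ e => (Prod.ext_iff.mp e).2)
    linarith
  have he0 : 0 ≤ e := by linarith
  have hyv : ∀ {α β : Type} (R : F.Ω → α) (Z : F.Ω → β),
      Det p (fun ω => (Z ω, (R ω, yv c 0 J F ω))) (fun ω => (Z ω, (R ω, F.W ω))) := by
    intro α β R Z ω ν hω hν e
    simp only [Prod.mk.injEq] at e ⊢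
    exact ⟨e.1, e.2.1, yv_W p ω ν hω hν e.2.2⟩
  obtain ⟨q1, q2, q3, q4⟩ := hnum X mm e U Ur hXX1 he0 (heτ.trans hτa) (hmm.trans hτa) grd.U0
    (by linarith) (by linarith)
  have P : PrA F c 0 r ks n q w W X mm D K γ B G H zw Rj Rx (Vv F c r w H fun l => nb l * J) p Nf
      Nn Nn Nu Nv Mf Mn U (r * (X * Real.log 2)) e :=
    { law := hp
      sup := sup
      gd := gd
      wW := wW
      WJ := hW
      deg := deg
      DK := DK
      KX := by
        have h1 : (K : ℝ) ≤ 2 ^ K := by exact_mod_cast Nat.lt_two_pow_self.le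
        exact h1.trans (pow_le_pow_right₀ (by norm_num) (by omega))
      adw := adM_w cls wW hW
      grd := grd
      mU := mU
      ti := by
        have := adM_ti (c := c) (k₀ := 0) (k := r) (n := n) (q := q) (w := w) (X := X) (mm := mm)
          (γ := γ) (G := G) (H := H) hp T zL K
        linarith
      mj := by
        have := pr_mj hp V hM hs
        linarith
      mx := by
        have := pr_mx V
        linarith
      chj := by
        rw [CH_eq_zero h0 hj]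
        exact he0
      chx := by
        rw [CH_eq_zero h0 hx]
        exact he0
      zx := by
        have := V.zx
        linarith
      n0 := fun l _ hl => n0 l (by omega)
      n1 := fun l _ hl => n1 l (by omega)
      x0 := fun l _ hl => n0 l (by omega)
      x1 := fun l _ hl => n1 l (by omega)
      u0 := fun l _ hl => u0 l (by omega)
      u1 := fun l _ hl => u1 l (by omega)
      m0 := by
        rw [hr]
        exact m0
      m1 := by
        rw [hr]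
        exact m1
      mf := by
        rw [hr]
        exact mf
      ac := by
        rw [hr]
        have := (hac (F := F) (c := c) (n := n) (q := q) (w := w) (W := W) (X := X) (mm := mm)
          (γ := γ) (G := G) (H := H) (zw := zw) hp wW hW deg DK he1 hc2).1 Nf f0 f1
        linarith
      va := by
        rw [hr]
        have := (hac (F := F) (c := c) (n := n) (q := q) (w := w) (W := W) (X := X) (mm := mm)
          (γ := γ) (G := G) (H := H) (zw := zw) hp wW hW deg DK he1 hc2).2 Nv v0 v1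
        linarith
      dj := by
        rw [hr]
        have h1 := CH_mono_cond h0 (X := Pool.AVG57.cod F w (fun s => H s r) (c r)
          (γ r + q + X) 1 K) (hyv zw (jet2 F c w H 0 r Nf))
        linarith
      jt := by
        rw [hr]
        have h1 := CH_mono_cond h0 (X := Pool.AVG57.cod F w (fun s => H s r) (c r)
          (γ r + q) 0 K) (hyv Rx (jet2 F c w H 0 r Nu))
        linarith
      vf := by
        have := pr_vf hp V hD hf hv1 hd0 hv0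
        linarith }
  obtain ⟨mu, b1, -, b3⟩ := Hm P nb1 nb2 row T zL hXX0 hWX (by linarith) q1 q2 q3 q4
  exact ⟨mu, b1, b3⟩

end Pool.V0F
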