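import Pool.Agent.H44.V0F.Vcl
import Pool.Agent.H71.V0F.Jt
import Pool.Agent.H71.V0F.Dj

/-!
# The numbers of the class theorem

`NS`: the windows and digits of the class theorem. `NS.vn`: the numbers `VN`; `NS.dj_*`, `NS.jt_*`,
`NS.row_*`: the conditions of the codes of the target and of the rows.
-/

set_option autoImplicit false

namespace Pool.V0F

open Finset Real

/-- **The windows and digits** of the class theorem. -/
structure NS (r K : ℕ) (s : ℝ) (sn : ℕ → ℝ → ℝ) (G : Set ℝ) (b o φ w u y ξ T Λ : ℝ)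
    (lam : ℝ → ℝ) (j x x' xr v₀ w₁ vq oq : ℝ) : Prop where
  r1 : 1 ≤ r
  s1 : 1 < s
  φ0 : 0 < φ
  u0 : 0 < u
  hy : y = ((r : ℝ) + 2 + s) * φ
  hξ : s * ξ = s - 1
  yu : 2000 * y ≤ u
  yξ : 2000 * y ≤ ξ * u
  yd : 2000 * y ≤ (s - 1 - ξ) * u
  hT : T = 4 * (s + K + 2 * r + 9)
  TΛ : 4 * T + 4 * r + 40 ≤ Λ
  bw : b + Λ * u ≤ w
  wo : w + Λ * u ≤ o
  o1 : o + Λ * u ≤ 1
  b0 : Λ * u ≤ b
  lb : ∀ l ≤ r, Λ * u ≤ sn l b
  lo : ∀ l ≤ r, sn l o + Λ * u ≤ 1
  sl : ∀ i < r, ∀ v ∈ G, b ≤ v → v ≤ o → |(sn i v - v) - (sn i w - w)| ≤ 2 * φ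
  st : ∀ v ∈ G, b ≤ v → v ≤ o → |sn r v - sn r w - s * (v - w)| ≤ φ
  sv : ∀ v : ℝ, b ≤ v → v ≤ o → |lam v - sn r w - s * (v - w)| ≤ φ
  bG : b ∈ G
  oG : o ∈ G
  wG : w ∈ G
  jG : j ∈ G
  xG : x ∈ G
  xG' : x' ∈ G
  rG : xr ∈ G
  vG : v₀ ∈ G
  hj : |j - (w + u / s)| ≤ φ
  hx : |x - (w + u)| ≤ φ
  hx' : |x' - (w + T * u)| ≤ φ
  hxr : |xr - (w + (1 + ξ) * u + 600 * y)| ≤ φ
  hv : |v₀ - (w - 3 * u)| ≤ φ
  hw1 : w ≤ w₁
  hw2 : w₁ ≤ w + φ
  hq1 : j ≤ vq
  hq2 : vq ≤ j + φ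
  ho1 : w + ((1 + ξ) * u + 505 * y) / s ≤ oq
  ho2 : oq ≤ w + ((1 + ξ) * u + 505 * y) / s + φ

/-- The near digits of the positions. -/
noncomputable def nnF (r : ℕ) (sn : ℕ → ℝ → ℝ) (w u y φ : ℝ) (l : ℕ) : ℝ :=
  sn l w + u + 200 * y + 20 * ((r : ℝ) - l) * φ

/-- The far digits of the positions. -/
noncomputable def nfF (r : ℕ) (sn : ℕ → ℝ → ℝ) (w x' φ : ℝ) (l : ℕ) : ℝ :=
  sn l w + (x' - w) + (30 * ((r : ℝ) - l) + 5) * φ

/-- The digits of the positions for the codes of the target. -/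
noncomputable def nuF (r : ℕ) (sn : ℕ → ℝ → ℝ) (w x y φ : ℝ) (l : ℕ) : ℝ :=
  sn l w + (x - w) + 100 * y + 30 * ((r : ℝ) - l) * φ

/-- The digits of the positions for the rows. -/
noncomputable def nbF (sn : ℕ → ℝ → ℝ) (w xr φ : ℝ) (l : ℕ) : ℝ := sn l w + (xr - w) + 2 * φ

namespace NS

variable {r K : ℕ} {s : ℝ} {sn : ℕ → ℝ → ℝ} {G : Set ℝ} {b o φ w u y ξ T Λ : ℝ}
  {lam : ℝ → ℝ} {j x x' xr v₀ w₁ vq oq : ℝ}

section

variable (N : NS r K s sn G b o φ w u y ξ T Λ lam j x x' xr v₀ w₁ vq oq)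

include N

theorem rR : (1 : ℝ) ≤ r := by exact_mod_cast N.r1

/-- The small quantities. -/
theorem sm : 0 ≤ (r : ℝ) * φ ∧ 0 ≤ s * φ ∧ 0 < φ ∧ y = r * φ + 2 * φ + s * φ ∧ φ ≤ r * φ ∧
    φ ≤ s * φ := by
  have h1 := N.rR
  have h2 := N.s1
  have h3 := N.φ0
  have h4 := N.hy
  refine ⟨by positivity, by positivity, h3, ?_, ?_, ?_⟩
  · rw [h4]
    ring
  · nlinarith
  · nlinarith

theorem y0 : 0 < y := by
  obtain ⟨h1, h2, h3, h4, -⟩ := N.sm
  linarith

theorem ξ0 : 0 < ξ := by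
  have h1 := N.hξ
  have h2 := N.s1
  by_contra h
  push Not at h
  nlinarith

theorem ξ1 : ξ < 1 := by
  have h1 := N.hξ
  have h2 := N.s1
  by_contra h
  push Not at h
  nlinarith

/-- The unit divided by the slope. -/
theorem us : u / s = u - ξ * u := by
  have h1 := N.hξ
  have h2 := N.s1
  have h3 : s * (u - ξ * u) = u := by
    have : s * (u - ξ * u) = s * u - (s * ξ) * u := by ring
    rw [this, h1]
    ring
  rw [div_eq_iff (by linarith)]
  linarith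

theorem T0 : 4 * (s + 11) ≤ T := by
  have h1 := N.hT
  have h2 : (0 : ℝ) ≤ K := Nat.cast_nonneg K
  have h3 := N.rR
  linarith

/-- Products with the room. -/
theorem room : (4 * T + 4 * r + 40) * u ≤ Λ * u :=
  mul_le_mul_of_nonneg_right N.TΛ N.u0.le

theorem Tu0 : 44 * u ≤ T * u := by
  have h1 := N.T0
  have h2 := N.s1
  exact mul_le_mul_of_nonneg_right (by linarith) N.u0.le

theorem ru0 : 0 ≤ (r : ℝ) * u := by
  have := N.u0
  positivity

/-- The windows are between `b` and `o`. -/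
theorem wins : b ≤ w ∧ w ≤ j ∧ w₁ ≤ j ∧ j ≤ x ∧ x ≤ xr ∧ xr ≤ x' ∧ x' ≤ o ∧ b ≤ v₀ ∧ v₀ < w ∧
    vq ≤ oq ∧ oq ≤ x' ∧ x' ≤ w + T * u + φ ∧ w₁ ≤ x ∧ w ≤ x := by
  obtain ⟨h1, h2, h3, h4, h5, h6⟩ := N.sm
  have us := N.us
  have hj := abs_le.1 N.hj
  have hx := abs_le.1 N.hx
  have hx' := abs_le.1 N.hx'
  have hxr := abs_le.1 N.hxr
  have hv := abs_le.1 N.hv
  have hu := N.u0
  have hyu := N.yu
  have hyξ := N.yξ
  have hr := N.room
  have hT := N.Tu0
  have hru := N.ru0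
  have hξ1 : ξ * u ≤ u := by nlinarith [N.ξ1]
  have hs := N.s1
  have hus : 2000 * y ≤ s * (u / s) := by
    rw [mul_div_cancel₀ _ (by linarith)]
    exact hyu
  -- `u / s` is large: `2000 (s φ) ≤ s (u / s)`
  have hus' : 2000 * φ ≤ u / s := by
    by_contra hc
    push Not at hc
    have : s * (u / s) < s * (2000 * φ) := mul_lt_mul_of_pos_left hc (by linarith)
    nlinarith
  have ho : (((1 + ξ) * u + 505 * y) / s) = u / s + (ξ * u + 505 * y) / s := by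
    rw [← add_div]
    congr 1
    ring
  have ho2 : 505 * φ ≤ (ξ * u + 505 * y) / s := by
    rw [le_div_iff₀ (by linarith)]
    have : 0 ≤ ξ * u := by
      have := N.ξ0
      positivity
    nlinarith
  have ho3 : (ξ * u + 505 * y) / s ≤ ξ * u + 505 * y := by
    refine div_le_self ?_ hs.le
    have := N.ξ0
    have := N.y0
    positivity
  have hω1 := N.ho1
  have hω2 := N.ho2
  rw [ho] at hω1 hω2
  have hq1 := N.hq1
  have hq2 := N.hq2
  have hw1 := N.hw1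
  have hw2 := N.hw2
  have b1 := N.bw
  have b2 := N.wo
  refine ⟨by linarith, by linarith, by linarith, by linarith, by linarith, by linarith,
    by linarith, by linarith, by linarith, by linarith, by linarith, by linarith, by linarith,
    by linarith⟩

/-- The levels of the chain. -/
theorem slv {i : ℕ} (hi : i < r) {v : ℝ} (hv : v ∈ G) (h1 : b ≤ v) (h2 : v ≤ o) :
    sn i v ≤ sn i w + (v - w) + 2 * φ ∧ sn i w + (v - w) - 2 * φ ≤ sn i v := by
  have := abs_le.1 (N.sl i hi v hv h1 h2)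
  constructor <;> linarith [this.1, this.2]

/-- The levels of the target. -/
theorem stv {v : ℝ} (hv : v ∈ G) (h1 : b ≤ v) (h2 : v ≤ o) :
    sn r v ≤ sn r w + s * (v - w) + φ ∧ sn r w + s * (v - w) - φ ≤ sn r v := by
  have := abs_le.1 (N.st v hv h1 h2)
  constructor <;> linarith [this.1, this.2]

theorem lwb {l : ℕ} (hl : l ≤ r) : Λ * u ≤ sn l w ∧ sn l w + 2 * (Λ * u) ≤ 1 + 2 * φ := by
  obtain ⟨w1, -, -, -, -, -, w7, -⟩ := N.wins
  obtain ⟨h1, h2, h3, h4, h5, h6⟩ := N.sm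
  have hbo : b ≤ o := by linarith [N.bw, N.wo, N.room, N.Tu0, N.ru0, N.u0]
  have hwo : w ≤ o := by linarith [N.wo, N.room, N.Tu0, N.ru0, N.u0]
  have c1 := N.lb l hl
  have c2 := N.lo l hl
  have hΛ : 0 ≤ Λ * u := by linarith [N.room, N.Tu0, N.ru0, N.u0]
  rcases Nat.lt_or_eq_of_le hl with h | h
  · have e1 := N.slv h N.bG le_rfl hbo
    have e2 := N.slv h N.oG hbo le_rfl
    have := N.bw
    have := N.wo
    have := N.room
    have := N.Tu0
    have := N.ru0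
    have := N.yu
    have := N.u0
    constructor
    · linarith
    · linarith
  · subst h
    have e1 := N.stv N.bG le_rfl hbo
    have e2 := N.stv N.oG hbo le_rfl
    have a1 : s * (b - w) ≤ 1 * (b - w) := by
      have := N.s1
      nlinarith
    have a2 : 1 * (o - w) ≤ s * (o - w) := by
      have := N.s1
      nlinarith
    have := N.bw
    have := N.wo
    have := N.room
    have := N.Tu0
    have := N.ru0
    have := N.yu
    have := N.u0
    constructor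
    · linarith
    · linarith

end

end NS

end Pool.V0F
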