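import Pool.Agent.H44.V0F.Num2

/-!
# The numbers of the class theorem, third part

`NJ`: the numbers of one event. `NO`: the conditions of `v0_fin`.
-/

set_option autoImplicit false

namespace Pool.V0F

open Finset Real
open Pool.LA91

/-- **The numbers of one event.** -/
structure NJ (r : ℕ) (sn : ℕ → ℝ → ℝ) (φ w u y ξ κ : ℝ) (J : ℕ) (γ : ℕ → ℕ) (q X mm W : ℕ) :
    Prop where
  κ0 : 0 < κ
  big : 10 + 1 / κ ≤ φ * J
  g1 : ∀ l ≤ r, (sn l w - φ) * J ≤ γ l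
  g2 : ∀ l ≤ r, (γ l : ℝ) ≤ sn l w * J
  q1 : (u + 500 * y) * J - 1 ≤ q
  q2 : (q : ℝ) ≤ (u + 500 * y) * J
  X1 : ξ * u * J - 1 ≤ X
  X2 : (X : ℝ) ≤ ξ * u * J
  mm1 : 1000 * y * J + 3 ≤ mm
  mm2 : (mm : ℝ) ≤ u / 2 * J
  W1 : w * J - 1 ≤ W
  W2 : (W : ℝ) ≤ (w + 2 * φ) * J

/-- **The conditions of `v0_fin`.** -/
structure NO (r : ℕ) (sn : ℕ → ℝ → ℝ) (lam : ℝ → ℝ) (P : ℕ → ℝ)
    (φ w u y ξ κ j x x' xr oq : ℝ) (J : ℕ) (γ : ℕ → ℕ) (q X mm W : ℕ) : Prop where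
  WX : W + X ≤ J
  n0 : ∀ l < r, nnF r sn w u y φ l * J ≤ (γ l + q : ℕ)
  u0 : ∀ l < r, nuF r sn w x y φ l * J ≤ (γ l + q : ℕ)
  u1 : ∀ l < r, (nuF r sn w x y φ l - w) * J + W ≤ (γ l + q + (X + mm) : ℕ)
  m0 : (sn r j - 30 * φ) * J ≤ (γ r + q : ℕ)
  mf : ((γ r + q + X : ℕ) : ℝ) ≤ lam oq * J
  f0 : ∀ l < r, ((γ l + q + (X + mm) : ℕ) : ℝ) ≤ nfF r sn w x' φ l * J
  f1 : ∀ l < r, ((γ l + q + (X + mm) : ℕ) : ℝ) ≤ P l * J + W
  d : ∀ l < r, ((γ l + q : ℕ) : ℝ) - nnF r sn w u y φ l * J ≤ 300 * y * J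
  nb1 : ∀ l < r, ((γ l + q + X : ℕ) : ℝ) ≤ nbF sn w xr φ l * J
  nb2 : ∀ l < r, nbF sn w xr φ l * J ≤ (γ l + q + (X + mm) : ℕ)
  dj : ((γ r + q + X : ℕ) : ℝ) ≤ (sn r w + (1 + ξ) * u + 500 * y) * J
  jt : ((γ r + q : ℕ) : ℝ) - (sn r w + u) * J ≤ 500 * y * J
  k9 : ∀ l < r, ((γ l + q + (X + mm) : ℕ) : ℝ) ≤ (sn l w + 3 * u) * J
  row : ∀ a : ℕ, ((a : ℝ) + 1) * κ ≤ 1 →
    (sn r w + u + 500 * y + a * κ * ξ * u - 2 * φ) * J ≤ (γ r + q + a * ⌊κ * X⌋₊ : ℕ) ∧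
    ((γ r + q + (a + 1) * ⌊κ * X⌋₊ : ℕ) : ℝ) ≤
      (sn r w + u + 500 * y + (a + 1) * κ * ξ * u) * J

theorem NS.no {r K : ℕ} {s : ℝ} {sn : ℕ → ℝ → ℝ} {G : Set ℝ} {b o φ w u y ξ T Λ : ℝ}
    {lam : ℝ → ℝ} {j x x' xr v₀ w₁ vq oq κ : ℝ} {J : ℕ} {γ : ℕ → ℕ} {q X mm W : ℕ} {P : ℕ → ℝ}
    (N : NS r K s sn G b o φ w u y ξ T Λ lam j x x' xr v₀ w₁ vq oq)
    (M : NJ r sn φ w u y ξ κ J γ q X mm W)
    (hP : ∀ l < r, sn l w - w + (T + 1) * u ≤ P l) :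
    NO r sn lam P φ w u y ξ κ j x x' xr oq J γ q X mm W := by
  obtain ⟨a1, a2, a3, a4, a5, a6, a7, a8, a9, a10, a11, a12, a13, a14⟩ := N.wins
  obtain ⟨b1, b2, b3, b4, b5, b6, b7, b8, b9, b10, b11, b12, b13, b14, b15, b16, b17⟩ := N.wb
  obtain ⟨h1, h2, h3, h4, h5, h6⟩ := N.sm
  obtain ⟨c1, c2, c3, c4, c5, c6, c7, c8, c9, c10, c11, c12⟩ := N.sw
  obtain ⟨d1, d2⟩ := N.ξu
  have hx := abs_le.1 N.hx
  have hx' := abs_le.1 N.hx'
  have hxr := abs_le.1 N.hxr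
  have hu := N.u0
  have hyu := N.yu
  have hyξ := N.yξ
  have hr := N.room
  have hT := N.Tu0
  have hru := N.ru0
  have hwo := N.wo
  have ho1 := N.o1
  have jt := N.stv N.jG b4 b5
  have ot := abs_le.1 (N.sv oq b16 b17)
  have hJ : (0 : ℝ) ≤ J := Nat.cast_nonneg J
  have hκ := M.κ0
  have hκ' : 0 < 1 / κ := by positivity
  have big := M.big
  have q1 := M.q1
  have q2 := M.q2
  have X1 := M.X1
  have X2 := M.X2
  have m1 := M.mm1
  have m2 := M.mm2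
  have W1 := M.W1
  have W2 := M.W2
  have g1 := M.g1
  have g2 := M.g2
  have hX0 : (0 : ℝ) ≤ X := Nat.cast_nonneg X
  have hm0 : (0 : ℝ) ≤ mm := Nat.cast_nonneg mm
  -- products with `J`
  have mj : ∀ {a a' : ℝ}, a ≤ a' → a * J ≤ a' * J := fun h => mul_le_mul_of_nonneg_right h hJ
  refine ⟨?_, fun l hl => ?_, fun l hl => ?_, fun l hl => ?_, ?_, ?_, fun l hl => ?_,
    fun l hl => ?_, fun l hl => ?_, fun l hl => ?_, fun l hl => ?_, ?_, ?_, fun l hl => ?_,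
    fun a ha => ⟨?_, ?_⟩⟩
  · have e1 := mj (show w + 2 * φ + ξ * u ≤ 1 by linarith)
    have e2 : ((W + X : ℕ) : ℝ) ≤ J := by
      push_cast
      linarith
    exact_mod_cast e2
  · obtain ⟨i1, i2, i3⟩ := N.li hl
    have e1 := g1 l hl.le
    have e2 := mj (show nnF r sn w u y φ l + φ ≤ sn l w - φ + (u + 500 * y) by
      unfold nnF
      linarith)
    push_cast
    linarith
  · obtain ⟨i1, i2, i3⟩ := N.li hl
    have e1 := g1 l hl.le
    have e2 := mj (show nuF r sn w x y φ l + φ ≤ sn l w - φ + (u + 500 * y) by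
      unfold nuF
      linarith)
    push_cast
    linarith
  · obtain ⟨i1, i2, i3⟩ := N.li hl
    have e1 := g1 l hl.le
    have e2 := mj (show nuF r sn w x y φ l - w + (w + 2 * φ) + φ ≤
        sn l w - φ + (u + 500 * y) by
      unfold nuF
      linarith)
    push_cast
    linarith
  · have e1 := g1 r le_rfl
    have e2 := mj (show sn r j - 30 * φ + φ ≤ sn r w - φ + (u + 500 * y) by linarith)
    push_cast
    linarith
  · have e1 := g2 r le_rfl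
    have e2 := mj (show sn r w + (u + 500 * y) + ξ * u ≤ lam oq by linarith)
    push_cast
    linarith
  · obtain ⟨i1, i2, i3⟩ := N.li hl
    have e1 := g2 l hl.le
    have e2 := mj (show sn l w + (u + 500 * y) + ξ * u + u / 2 ≤ nfF r sn w x' φ l by
      unfold nfF
      linarith)
    push_cast
    linarith
  · have e1 := g2 l hl.le
    have e2 := mj (show sn l w + (u + 500 * y) + ξ * u + u / 2 + φ ≤ P l + w by
      have := hP l hl
      linarith)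
    push_cast
    linarith
  · obtain ⟨i1, i2, i3⟩ := N.li hl
    have e1 := g2 l hl.le
    have e2 := mj (show sn l w + (u + 500 * y) ≤ nnF r sn w u y φ l + 300 * y by
      unfold nnF
      linarith)
    push_cast
    linarith
  · have e1 := g2 l hl.le
    have e2 := mj (show sn l w + (u + 500 * y) + ξ * u ≤ nbF sn w xr φ l by
      unfold nbF
      linarith)
    push_cast
    linarith
  · have e1 := g1 l hl.le
    have e2 := mj (show nbF sn w xr φ l ≤ sn l w - φ + (u + 500 * y) + ξ * u + 1000 * y by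
      unfold nbF
      linarith)
    push_cast
    linarith
  · have e1 := g2 r le_rfl
    have e2 := mj (show sn r w + (u + 500 * y) + ξ * u ≤ sn r w + (1 + ξ) * u + 500 * y by
      linarith)
    push_cast
    linarith
  · have e1 := g2 r le_rfl
    push_cast
    linarith
  · have e1 := g2 l hl.le
    have e2 := mj (show sn l w + (u + 500 * y) + ξ * u + u / 2 ≤ sn l w + 3 * u by linarith)
    push_cast
    linarith
  · have e1 := g1 r le_rfl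
    have ha0 : (0 : ℝ) ≤ a := Nat.cast_nonneg a
    have k1 : κ * X - 1 ≤ (⌊κ * X⌋₊ : ℝ) := by
      have := Nat.lt_floor_add_one (κ * (X : ℝ))
      linarith
    have k2 : (a : ℝ) * (κ * X - 1) ≤ a * ⌊κ * X⌋₊ := mul_le_mul_of_nonneg_left k1 ha0
    have k3 : (a : ℝ) * κ * (ξ * u * J - 1) ≤ a * κ * X :=
      mul_le_mul_of_nonneg_left X1 (by positivity)
    have k4 : (a : ℝ) * κ ≤ 1 := by nlinarith
    have k5 : (a : ℝ) ≤ 1 / κ := by
      rw [le_div_iff₀ hκ]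
      exact k4
    push_cast
    linarith
  · have e1 := g2 r le_rfl
    have ha0 : (0 : ℝ) ≤ a := Nat.cast_nonneg a
    have k1 : (⌊κ * X⌋₊ : ℝ) ≤ κ * X := Nat.floor_le (by positivity)
    have k2 : ((a : ℝ) + 1) * ⌊κ * X⌋₊ ≤ (a + 1) * (κ * X) :=
      mul_le_mul_of_nonneg_left k1 (by positivity)
    have k3 : ((a : ℝ) + 1) * κ * X ≤ (a + 1) * κ * (ξ * u * J) :=
      mul_le_mul_of_nonneg_left X2 (by positivity)
    push_cast
    linarith

end Pool.V0F
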