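import Pool.Agent.H44.V0F.S

/-!
# The base coordinates over the charts of an earlier window: statements, third part

`ExjStmt`: heights over a closed label and digits of the position, given the exact positions of the
coordinates of the label (no directions).
-/

set_option autoImplicit false

namespace Pool.V0F

open Finset Real MvPolynomial
open Pool.Agent.H49.Ent Pool.Agent.H32.Dense Pool.STK Pool.KA Pool.KSAT Pool.K2S Pool.PB Pool.GEN
open Pool.S6C Pool.RCD Pool.LA91
open Pool.UNJ (ceI)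

/-- **(EXJ)** The height of the place `i` over a label of the window `w`, to `N` digits, is few bits
given `N` digits of its position, the exact positions of the places `< i` and the record at `w`; and
conversely. -/
def ExjStmt : Prop :=
  ∀ {m : ℕ} {S : PCl m} {c : ℕ → Fin m} {r : ℕ} {sn : ℕ → ℝ → ℝ} {G : Set ℝ} {b o φ : ℝ},
    Lad S c r sn G b o φ → ∀ {i : ℕ} {w pr N : ℝ}, i ≤ r → w ∈ G → b ≤ w → w ≤ o →
    sn i w - φ ≤ pr → 0 ≤ N → N + 20 * φ ≤ 1 → N + 20 * φ ≤ sn i w + (1 - w) →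
    ∀ ε : ℝ, 0 < ε → ∃ k : ℝ, 0 < k ∧ ∃ e₀ : ℝ, 0 < e₀ ∧ ∀ K : ℕ, Bas S (fun J F A =>
      ∀ (V : Type) (z : F.Ω → V), Mx (fun J F => ptr F J) (vg w) k F A z → ∀ u,
      (qJet m ((range i).image c) (c i) 0 w pr N).P K e₀ J F A u →
      CH (Pool.Agent.H49.Ent.cond F.p A True) u (fun ω => (F.X ⌊N * J⌋₊ ω (c i),
          (ceI ((range i).image c) (fun _ => J) (F.x ω), (z ω, F.W ω)))) ≤ ε * J ∧
        CH (Pool.Agent.H49.Ent.cond F.p A True) (fun ω => F.X ⌊N * J⌋₊ ω (c i)) (fun ω =>
          (u ω, (ceI ((range i).image c) (fun _ => J) (F.x ω), (z ω, F.W ω)))) ≤ ε * J)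

end Pool.V0F
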