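import Pool.Agent.H44.V0F.S5

/-!
# The base coordinates over the charts of an earlier window: the class theorem, statement

`V0cStmt`: for all slopes of the chain one and all coordinates of the chain moved, the natural
gradient of the target is closed.
-/

set_option autoImplicit false

namespace Pool.V0F

open Finset Real MvPolynomial
open Pool.Agent.H49.Ent Pool.Agent.H32.Dense Pool.STK Pool.KA Pool.KSAT Pool.K2S Pool.PB Pool.GEN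
open Pool.S6C Pool.RCD Pool.LA91 Pool.OWN68 Pool.AVG96
open Pool.AJW (CfB)
open Pool.D2R (WinB gnh hyb hybH)
open Pool.BFL (Pb)
open Pool.PB.Trl (rt)

/-- **(V0C)** The class theorem: slopes one below the place `r`, slope `s` of the target; the unit
`u`. The charts of the chain are those of the window `b`, the chart of the target is that of `w`. -/
def V0cStmt : Prop := ∀ (D r : ℕ) (s h : ℝ), 1 ≤ D → 1 ≤ r → 1 < s → 0 < h → h ≤ 1 → ∀ ε : ℝ,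
  0 < ε → ∃ Λ κ₂ : ℝ, 1 ≤ Λ ∧ 0 < κ₂ ∧ κ₂ ≤ 1 ∧ ∀ ι : ℝ, 0 < ι → ∃ φ₀ : ℝ, 0 < φ₀ ∧
  ∀ {m : ℕ} {S : PCl m} {c : ℕ → Fin m} {sn : ℕ → ℝ → ℝ} {G : Set ℝ} {b o φ : ℝ},
    Lad S c r sn G b o φ → (range r).image c = univ.erase (c r) →
    (∀ (τ : ℝ) (J : ℕ) (F : Fam m J) (A : F.Ω → Prop), S.St τ J F A → Gd F) →
    ∀ {w u : ℝ} {lam : ℝ → ℝ} {sp : ℕ → ℝ → ℝ}, 0 < u → w ∈ G → φ ≤ φ₀ * u →
    -- the room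
    b + Λ * u ≤ w → w + Λ * u ≤ o → o + Λ * u ≤ 1 → Λ * u ≤ b →
    (∀ l ≤ r, Λ * u ≤ sn l b ∧ sn l o + Λ * u ≤ 1) →
    -- the levels of the target, the digits of its position
    (∀ v ∈ G, b ≤ v → v ≤ o → |sn r v - sn r w - s * (v - w)| ≤ φ) →
    (∀ v : ℝ, b ≤ v → v ≤ o → |lam v - sn r w - s * (v - w)| ≤ φ) →
    -- the rows
    (∀ P₁ P₂ : ℝ, |P₁ - sn r w| ≤ Λ * u → |P₂ - sn r w| ≤ Λ * u → P₁ ≤ P₂ →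
      RawN S (univ.erase (c r)) (c r) P₁ (P₂ - P₁) h φ) →
    -- labels of the degree `D`
    (∀ v ∈ G, b ≤ v → v ≤ o → ∃ (E rd : ℕ → ℝ) (ρ : ℝ), ρ < 1 ∧
      (∀ l ≤ r, 0 ≤ E l ∧ sn l v + E l + Λ * u ≤ 1 ∧ 0 ≤ rd l ∧ rd l ≤ ρ) ∧ ∀ e : ℝ, 0 < e →
      Bas S (fun J F A => ∃ (V : Type) (z : PtT F → V) (z' : LnT F → V)
        (g : V → ℕ → MvPolynomial (Option (Fin m)) ℝ),
        LbE F c (r + 1) D E e v rd (fun l => sn l v) A z z' g)) →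
    (∃ rk E : ℝ, rk < 1 ∧ 0 ≤ E ∧ AttG S ((range r).image c) (c r) w (sn r w) rk E ∧
      sn r w + E + Λ * u ≤ 1) →
    -- free velocities
    (∀ i < r, sp i b ≤ sn i b - φ) →
    (∀ (P : Fin r → ℚ) (w₁ : ℚ) (x' : ℝ), w ≤ w₁ → (w₁ : ℝ) ≤ w + φ → x' ∈ G → w₁ ≤ x' →
      x' ≤ w + Λ * u → (∀ i : Fin r, sn i w - w + u ≤ P i ∧ (P i : ℝ) ≤ sn i w - w + Λ * u) →
      (∀ l i : Fin r, l < i → (P i : ℝ) - (sn i w - w) + u / 2 ≤ P l - (sn l w - w)) →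
      FrI S c r sp b (fun i => (P i : ℝ)) w₁ x' (φ₀ * u)) →
    -- no look-ahead
    (∀ w₁ v y : ℚ, w ≤ w₁ → w₁ ≤ v → v ≤ y → (y : ℝ) ≤ w + Λ * u →
      NlI S (c r) w₁ v (lam v) (lam y) (φ₀ * u)) →
    -- the records
    (∀ w₁ : ℚ, w ≤ w₁ → (w₁ : ℝ) ≤ w + φ →
      ∃ η : ℝ, RNum S (fun J F => ptr F J) (vg (w₁ : ℝ)) η) →
    -- the windows of the charts
    ∀ {Dr N M : ℕ} {C₀ a Eb ηm : ℝ} {ow η σ : ℕ → ℝ} {lv bb : ℕ → ℕ → ℝ} {fb f : ℕ → ℕ}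
      {nb n ks : ℕ}, 1 ≤ n → ks ≤ n → (∀ k ≤ nb, fb k ≤ N) → (∀ k ≤ n, f k ≤ N) →
    f 0 = fb nb → ow (fb 0) = b → ow (f 0) = w → ow (f ks) ≤ ow (f n) →
    |ow (f ks) - (w + u / s)| ≤ φ → |ow (f n) - (w + u)| ≤ φ →
    (∀ k ≤ nb, ow (fb k) ∈ G) → (∀ k ≤ n, ow (f k) ∈ G) →
    (∀ k < nb, ow (fb k) ≤ ow (fb (k + 1)) ∧ ow (fb (k + 1)) ≤ ow (fb k) + φ) →
    (∀ k < n, ow (f k) ≤ ow (f (k + 1)) ∧ ow (f (k + 1)) ≤ ow (f k) + φ) →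
    (∀ k ≤ N, ∀ l ≤ r, lv k l = sn l (ow k)) → C₀ * ηm ≤ φ →
    (∀ l ≤ r, Eb + sn l w + Λ * u ≤ 1) →
    ∀ E : ℝ, Bas S (fun J F A => ∀ {κ : ℝ} {z : ℕ → ℕ → ℕ}
      {g₀ : ℕ → ℕ → ℕ} {Gc : ℕ → PtT F → ℕ → MvPolynomial (Option (Fin m)) ℝ}
      {H : ℕ → LnT F → ℕ → MvPolynomial (Option (Fin m)) ℝ},
      WinB F c r D Dr N M C₀ a Eb ηm ow η σ lv bb κ z A g₀ Gc H →
      (∀ k < nb, ∃ j ≤ M, z (fb k) j = ⌊ow (fb (k + 1)) * J⌋₊ - ⌊ow (fb k) * J⌋₊) →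
      (∀ k < n, ∃ j ≤ M, z (f k) j = ⌊ow (f (k + 1)) * J⌋₊ - ⌊ow (f k) * J⌋₊) →
      (∃ jq ≤ M, ∃ jT ≤ M, (z (fb 0) jq : ℝ) ≤ u * J ∧ z (fb 0) jq + 1 ≤ z (fb 0) jT) →
      (∀ l < r, CfB F ⌊b * J⌋₊ E (c l) A (fun s => s) (fun s => H (fb 0) s l)) →
      CfB F ⌊w * J⌋₊ E (c r) A (fun s => s) (fun s => H (f 0) s r) →
      ∃ (W : ℕ) (mu : LnT F → ℕ → Polynomial ℝ), ⌊w * J⌋₊ ≤ W ∧ (W : ℝ) ≤ (w + 2 * φ) * J ∧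
        (∀ t i, (mu t i).natDegree ≤ D + 1) ∧
        (∀ ω, A ω → ∀ i < r, |gnh F c r (g₀ (f 0)) (hyb Gc (fb 0) (f 0) r) (Gc (f n)) ω i| ≤
          2 ^ (ι * u * J)) ∧
        (∀ ω ν, A ω → A ν → ptr F J ω = ptr F J ν → ∀ i < r,
          |gnh F c r (g₀ (f 0)) (hyb Gc (fb 0) (f 0) r) (Gc (f n)) ω i -
            gnh F c r (g₀ (f 0)) (hyb Gc (fb 0) (f 0) r) (Gc (f n)) ν i| ≤
            2 ^ (-(κ₂ * u * J))) ∧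
        Pb (Pool.Agent.H49.Ent.cond F.p A True) (fun ω => ∃ i < r, (2 : ℝ) ^ (-(κ₂ * u * J)) <
          |gnh F c r (g₀ (f 0)) (hyb Gc (fb 0) (f 0) r) (Gc (f n)) ω i -
            (mu (slam F W ω) i).eval (rt F W ω)|) ≤ ε)

end Pool.V0F
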