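import Pool.Agent.H44.V0F.S6
import Pool.Agent.H44.V0F.V0c1

/-!
# The base coordinates over the charts of an earlier window

`v0c_stmt`: the class theorem `V0cStmt`.
-/

set_option autoImplicit false

namespace Pool.V0F

open Finset Real MvPolynomial
open Pool.Agent.H49.Ent Pool.Agent.H32.Dense
open Pool.STK hiding pr2
open Pool.KA Pool.KSAT Pool.K2S Pool.PB Pool.S6C
open Pool.GEN Pool.CHT Pool.CHX Pool.ISO Pool.LA91 Pool.AVG71 Pool.AVG5 Pool.D2F2 Pool.AVG57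
open Pool.RCD Pool.AVG96 Pool.OWN68
open Pool.PB.Trl (rt rt_mem t_rt)
open Pool.GRD (LbP)
open Pool.AJW (CfB)
open Pool.D2R (WinB gnh hgt hyb hybH GrdE chs hyb_hi hyb_lo)
open Pool.BFL (Pb)
open Pool.KAF (rs Pr)

/-- **(V0C)** -/
theorem v0c_stmt : V0cStmt := by
  intro D r s h hD hr hs hh hh1 ε hε
  obtain ⟨κ₂', κ, π₀, τ, ε₀, Ca, j₀, X₀, a1, a2, a3, a4, a5, a6, a7, a8, HF⟩ :=
    v0_fin r (D + 1) (h / 2) ε (half_pos hh) hε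
  obtain ⟨X₁, hX₁⟩ := kap_le a3
  have hl2 : 0 < Real.log 2 := Real.log_pos one_lt_two
  have hl5 : 0 < Real.log 5 := Real.log_pos (by norm_num)
  have hr1 : (1 : ℝ) ≤ r := by exact_mod_cast hr
  have hs0 : 0 < s := one_pos.trans hs
  obtain ⟨ξ, hξ⟩ : ∃ ξ : ℝ, s * ξ = s - 1 := ⟨(s - 1) / s, mul_div_cancel₀ _ hs0.ne'⟩
  have hξ0 : 0 < ξ := by
    by_contra h'
    push Not at h'
    have := mul_nonpos_of_nonneg_of_nonpos hs0.le h'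
    linarith only [this, hξ, hs]
  have hξ1 : ξ < 1 := by
    by_contra h'
    push Not at h'
    have := mul_le_mul_of_nonneg_left h' hs0.le
    linarith only [this, hξ]
  have hs3 : 0 < s - 1 - ξ := by
    have : 0 < (s - 1) * ξ := mul_pos (by linarith only [hs]) hξ0
    linarith only [this, hξ]
  obtain ⟨T, hT⟩ : ∃ T : ℝ, T = 4 * (s + ((D + 1 : ℕ) : ℝ) + 2 * r + 9) := ⟨_, rfl⟩
  have hT0 : 44 ≤ T := by
    rw [hT]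
    have : (0 : ℝ) ≤ ((D + 1 : ℕ) : ℝ) := Nat.cast_nonneg _
    linarith only [this, hr1, hs]
  obtain ⟨Λ, hΛ⟩ : ∃ Λ : ℝ, Λ = 4 * T + 4 * r + 40 := ⟨_, rfl⟩
  obtain ⟨κ₂, hκ₂⟩ : ∃ κ₂ : ℝ, κ₂ = κ₂' * ξ / 2 := ⟨_, rfl⟩
  have hκ₂1 : κ₂ ≤ 1 := by
    rw [hκ₂]
    have : κ₂' * ξ ≤ 1 * 1 := mul_le_mul a2 hξ1.le hξ0.le zero_le_one
    linarith only [this]
  refine ⟨Λ, κ₂, by rw [hΛ]; linarith only [hT0, hr1], by rw [hκ₂]; positivity, hκ₂1, ?_⟩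
  intro ι hι
  obtain ⟨Cg, hCg, HG⟩ := ev_grd D r
  obtain ⟨Cc, hCc, HC⟩ := ev_cell (r + 1) D r
  obtain ⟨δ₁, hδ₁, HD⟩ := dj_fam D hh hh1 (ε := τ * ξ / (64 * (r + 1) * s)) (by positivity) r
  obtain ⟨δ₂, hδ₂, HJ⟩ := jt_fam D hh hh1 (ε := τ * ξ / (16 * (r + 1))) (by positivity) r
  obtain ⟨θ, β, C⟩ := cs_ex r D Cg Cc (s := s) (τ := τ) (ξ := ξ) (ι := ι) (δ₁ := δ₁) (δ₂ := δ₂)
    hξ0 hs3 a6 hι hδ₁ hδ₂
  have hθ0 := C.θ0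
  refine ⟨θ / (r + 2 + s), by positivity, ?_⟩
  intro m S c sn Gs b o φ L hI hGd w u lam sp hu hw hφ₀ bw wo o1 b0 hlb st sv hraw hlab hatt hspn
    hfr hnl hrn Dr N M C₀ a Eb ηm ow η σ lv bb fb f nb n ks hn hks hfb hf hf0 hob how hjx hj hx gfb
    gf stb stf hlv hC hEb E
  have hm : m = r + 1 := m_eq L.inj hI
  subst hm
  have hφ0 := L.φ0
  obtain ⟨φ₀, hφ₀'⟩ : ∃ φ₀ : ℝ, φ₀ = θ / (r + 2 + s) := ⟨_, rfl⟩
  rw [← hφ₀'] at hφ₀ hfr hnl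
  obtain ⟨y, hy⟩ : ∃ y : ℝ, y = ((r : ℝ) + 2 + s) * φ := ⟨_, rfl⟩
  obtain ⟨hφ₀u, hφ₀u0, hyθ, hy0, hφθ, yu, yξ, yd, hφ1, hφ2, hCc2⟩ :=
    cst_u C hs hφ₀' hu hφ0 hφ₀ hy
  -- the windows
  obtain ⟨x', xr, v₀, w₁, vq, oq, Nn⟩ := ns_ex hr hs (K := D + 1) (T := T) (Λ := Λ) hT
    hΛ.ge L hy hξ yu yξ yd hu hw bw wo o1 b0 hlb st sv (gf ks hks) (gf n le_rfl) hj hx
  obtain ⟨Pq, p1, p2, p3, p4, p5, p6, p7, p8, p9⟩ := pq_ex Nn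
  obtain ⟨b1, b2, b3, b4, b5, b6, b7, b8, b9, b10, b11, b12, b13, b14, b15, b16, b17⟩ := Nn.wb
  obtain ⟨k1, k2, k3, k4⟩ := Nn.k9_c
  have hfr' : FrI S c r sp b (fun i : Fin r => ((Pq i : ℚ) : ℝ)) w₁ x' (φ₀ * u) :=
    hfr (fun i : Fin r => Pq i) w₁ x' Nn.hw1 Nn.hw2 Nn.xG' p5 p6 p3 p4
  have hnl' : NlI S (c r) w₁ vq (lam vq) (lam oq) (φ₀ * u) :=
    hnl w₁ vq oq Nn.hw1 (by exact_mod_cast p7) (by exact_mod_cast p8) p9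
  obtain ⟨C₁, htm⟩ := L.tm
  have hθu : 0 < θ * u := mul_pos hθ0 hu
  have hw3 : w + 3 * φ ≤ 1 := by
    have e1 := Nn.room
    have e2 := Nn.Tu0
    have e3 := Nn.ru0
    have e4 := Nn.sm
    linarith only [e1, e2, e3, e4.1, e4.2.1, e4.2.2.2.1, yu, wo, o1, hu]
  -- the class facts
  have B1 := vl_fam (D := D) (P := fun l => ((Pq l : ℚ) : ℝ)) L hI Nn hatt hfr' hnl' hφ₀u0 hφ₀u0
    hspn (ε := θ * u) hθu E
  have B2 := k9_fam htm L.pos c r D sn (b := b) (w := w) (φ := φ) (u := u) (E := E)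
    (ε := θ * u) k1 k2 k3 k4 hθu
  have B3 := HD L hI Nn (Nat.le_succ D) hφ1 hraw (hlab v₀ Nn.vG b12 b13) (fun _ => 0)
    (fun l => ((Pq l : ℚ) : ℝ)) E p2
  have B4 := HJ L hI Nn hφ2 hraw (hlab w hw b1 b2) E
  have B5 := row_fam (D := D) L hI Nn hraw hatt (hrn w₁ Nn.hw1 Nn.hw2) a3 a5 (ε := θ * u)
    hθu E
  have B6 := alive_cls htm j₀ (ε₀ := ε₀) (δ := φ / 4) (ψ := θ * u) a7 (by positivity) hθu
  have B7 : Bas S (fun _ F _ => Gd F) := ⟨1, one_pos, 0, fun J _ F A hA => hGd 1 J F A hA⟩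
  obtain ⟨J₁, hJ₁⟩ := oj_sm (r + 1) D (E := E)
  obtain ⟨Z, hZ⟩ : ∃ Z : ℝ, Z = 10 + 1 / κ + (1 + Z2 r D Ca) + (2 + 2 * Real.log 5) +
    (4 * (Cg : ℝ) + 1) + (X₀ + 1) + (X₁ + 1) + nb + n + j₀ := ⟨_, rfl⟩
  obtain ⟨J₂, hJ₂⟩ := exists_nat_ge (Z / φ)
  refine Bas.mono (J₁ + J₂ + 1) (((B1.and B2).and (B3.and B4)).and ((B5.and B6).and B7)) ?_
  rintro J hJ F A ⟨⟨⟨H1, H2⟩, H3, H4⟩, ⟨H5, hA, H6⟩, H7⟩ κ₀ z g₀ Gc H WB zb zf zjq cfb cfw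
  clear B1 B2 B3 B4 B5 B6 B7 HD HJ hraw hlab hatt hfr hnl hfr' hnl' hrn
  have hcl := isLaw_cond F.isLaw hA
  have h0 := hcl.nonneg
  have hJ0 : (0 : ℝ) ≤ J := Nat.cast_nonneg J
  have hJp : (0 : ℝ) < J := by
    have : 0 < J := by omega
    exact_mod_cast this
  have hZφ : Z ≤ φ * J := by
    have e1 : (J₂ : ℝ) ≤ J := by
      have : J₂ ≤ J := by omega
      exact_mod_cast this
    have e2 := hJ₂.trans e1
    rw [div_le_iff₀ hφ0] at e2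
    linarith only [e2]
  have mj : ∀ {a a' : ℝ}, a ≤ a' → a * J ≤ a' * J := fun h => mul_le_mul_of_nonneg_right h hJ0
  -- the numbers of the event
  obtain ⟨γ, hγ⟩ : ∃ γ : ℕ → ℕ, γ = g₀ (f 0) := ⟨_, rfl⟩
  obtain ⟨q, hq⟩ : ∃ q : ℕ, q = ⌊(u + 500 * y) * (J : ℝ)⌋₊ := ⟨_, rfl⟩
  obtain ⟨X, hX⟩ : ∃ X : ℕ, X = ⌊ξ * u * (J : ℝ)⌋₊ := ⟨_, rfl⟩
  obtain ⟨Y, hY⟩ : ∃ Y : ℕ, Y = ⌈1000 * y * (J : ℝ)⌉₊ + 3 := ⟨_, rfl⟩
  obtain ⟨I, hI'⟩ : ∃ I : ℕ, I = ⌈φ / 4 * (J : ℝ)⌉₊ := ⟨_, rfl⟩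
  have hFl : Fl u y ξ φ w w₁ J q X Y I := by
    rw [hq, hX, hY, hI']
    exact fl_ex J hu hy0 hξ0 hφ0 (k1.trans k2) Nn.hw1 Nn.hw2
  have hlvw : ∀ l ≤ r, lv (f 0) l = sn l w := fun l hl => by
    rw [hlv (f 0) (hf 0 (Nat.zero_le _)) l hl, how]
  have hηm0 : 0 ≤ ηm := (WB.hη _ (hf 0 (Nat.zero_le _))).1.trans
    (WB.hη _ (hf 0 (Nat.zero_le _))).2
  have hηφ : ηm ≤ φ := (le_mul_of_one_le_left hηm0 WB.C1).trans hC
  have hg1 : ∀ l ≤ r, (sn l w - φ) * J ≤ γ l := fun l hl => by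
    obtain ⟨-, -, g1, -⟩ := WB.g_num (hf 0 (Nat.zero_le _)) hl
    rw [hlvw l hl] at g1
    rw [hγ]
    have := mj hηφ
    linarith only [this, g1]
  have hg2 : ∀ l ≤ r, (γ l : ℝ) ≤ sn l w * J := fun l hl => by
    obtain ⟨-, -, -, g2⟩ := WB.g_num (hf 0 (Nat.zero_le _)) hl
    rw [hlvw l hl] at g2
    rw [hγ]
    exact g2
  have hZ2 := Z2_nonneg r D a8
  have hrest : (10 : ℝ) + j₀ ≤ φ * J := by
    have e1 : 0 < 1 / κ := by positivity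
    have e2 : (0 : ℝ) ≤ Cg := Nat.cast_nonneg _
    have e3 : (0 : ℝ) ≤ X₀ := Nat.cast_nonneg _
    have e4 : (0 : ℝ) ≤ X₁ := Nat.cast_nonneg _
    have e5 : (0 : ℝ) ≤ nb := Nat.cast_nonneg _
    have e6 : (0 : ℝ) ≤ n := Nat.cast_nonneg _
    linarith only [hZφ, hZ, e1, e2, e3, e4, e5, e6, hl5, hZ2]
  have hw3J := mj hw3
  obtain ⟨i₀, hi₀, TW⟩ := H6 ⌊(w₁ : ℝ) * J⌋₊ I hFl.i1 (by
    have e1 : ((⌊(w₁ : ℝ) * J⌋₊ + I + j₀ : ℕ) : ℝ) ≤ (J : ℕ) := by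
      push_cast
      have e2 := hFl.w1
      have e3 := hFl.i2
      linarith only [e2, e3, hw3J, hrest]
    exact_mod_cast e1)
  obtain ⟨MJ, hW2, nX0, nX1, nmm, m3, m4, m5, z1, z2, z3, z4, big10⟩ := nj_of (J := J) (q := q)
    (X := X) (Y := Y) (I := I) (sn := sn) (γ := γ) (X₀ := X₀) (X₁ := X₁) (j₀ := j₀) (nb := nb)
    (n := n) (i₀ := i₀) (Z := Z) (κ := κ) (κ₂ := κ₂) (κ₂' := κ₂') (Ca := Ca) (w₁ := w₁) C hFl a6
    hξ1.le hu a3 hφ0 hyθ hφθ hCg a8 a2 a1 hκ₂ hξ0 hZ hZφ hw3 hg1 hg2 hi₀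
  obtain ⟨W, hW⟩ : ∃ W : ℕ, W = ⌊(w₁ : ℝ) * J⌋₊ + i₀ := ⟨_, rfl⟩
  rw [← hW] at TW MJ hW2
  obtain ⟨mm, hmm⟩ : ∃ mm : ℕ, mm = Cg * Y + 1 := ⟨_, rfl⟩
  rw [← hmm] at MJ nmm
  have hw₁W : ⌊(w₁ : ℝ) * J⌋₊ ≤ W := by omega
  have hwW : ⌊w * J⌋₊ ≤ W := hFl.w2.trans hw₁W
  obtain ⟨P, hP⟩ : ∃ P : ℕ → ℝ, P = fun l => ((Pq l : ℚ) : ℝ) := ⟨_, rfl⟩
  have NOs := Nn.no MJ (P := P) (fun l hl => by
    rw [hP]
    exact p1 l hl)
  have WJ : W ≤ J := by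
    have := NOs.WX
    omega
  -- the labels
  have LDh := ld_of WB (kb := fb 0) (kw := f 0) (hfb 0 (Nat.zero_le _)) (hf 0 (Nat.zero_le _))
    (φ := φ) (E := E) (sn := sn) (by rw [hob, how]; exact b1)
    (by rw [how]; exact k3.le) hC
    (fun l hl => hlv _ (hfb 0 (Nat.zero_le _)) l hl) (fun l hl => hlv _ (hf 0 (Nat.zero_le _)) l hl)
    (by rw [hob]; exact cfb) (by rw [how]; exact cfw)
  rw [hob, how] at LDh
  obtain ⟨H', hH'⟩ : ∃ H' : LnT F → ℕ → MvPolynomial (Option (Fin (r + 1))) ℝ,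
    H' = hybH H (fb 0) (f 0) r ⌊b * J⌋₊ ⌊w * J⌋₊ ⌊w * J⌋₊ := ⟨_, rfl⟩
  rw [← hH'] at LDh
  obtain ⟨G', hG'⟩ : ∃ G' : ℕ → PtT F → ℕ → MvPolynomial (Option (Fin (r + 1))) ℝ,
    G' = fun k => if k = 0 then hyb Gc (fb 0) (f 0) r else Gc (f k) := ⟨_, rfl⟩
  have hG0 : G' 0 = hyb Gc (fb 0) (f 0) r := by rw [hG']; exact if_pos rfl
  have hGn : G' n = Gc (f n) := by rw [hG']; exact if_neg (by omega)
  have hbw' : ⌊b * (J : ℝ)⌋₊ ≤ ⌊w * J⌋₊ := Nat.floor_le_floor (mj b1)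
  have hwJ' : ⌊w * (J : ℝ)⌋₊ ≤ J := hwW.trans WJ
  have hcls0 : ∀ ω, A ω → ∀ l ≤ r, G' 0 (ptr F J ω) l = H' (slam F ⌊w * J⌋₊ ω) l := by
    intro ω hω l hl
    have e1 := Pool.D2R.hyb_cls WB (kb := fb 0) (kw := f 0) (i := r) (W' := ⌊w * J⌋₊)
      (hfb 0 (Nat.zero_le _)) (hf 0 (Nat.zero_le _)) le_rfl (by rw [hob]; exact hbw')
      (by rw [how]) hwJ' hω hl
    rw [hG0, hH', e1, hob, how]
  have hGrd : GrdE F c 0 (0 + r) ks n q X γ (2 ^ (Cg * Y)) A G' := by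
    have e1 := HG WB Nn L.inj hn hks hfb hf hf0 hob how gfb gf stb stf hlv hC zb zf big10
      z3 z4
    rw [Nat.zero_add, hq, hX, hγ, hY, hG']
    exact e1
  -- the records
  have mono := mono_ch fun k hk => (stf k hk).1
  have ho1' : o ≤ 1 := by linarith only [hw3, wo, o1, hu, Nn.room, Nn.Tu0, Nn.ru0]
  have hchs : ∀ k₁ ≤ n, ow (f k₁) ≤ 1 →
      Cl2 (ptr F J) (vg (ow (f k₁)) J F) A (chs F (0 + r) k₁ G') := by
    intro k₁ hk₁ ho1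
    rw [Nat.zero_add]
    refine chs_cl2 ho1 (W := fun k => ⌊ow (f k) * J⌋₊)
      (H := fun k => if k = 0 then H' else H (f k)) (fun k hk => Nat.floor_le_floor
        (mj (mono k k₁ hk hk₁))) (fun k hk ω hω l hl => ?_)
    by_cases hk0 : k = 0
    · subst hk0
      simp only [if_pos rfl, how]
      exact hcls0 ω hω l hl
    · simp only [if_neg hk0, hG']
      exact (WB.ev (f k) (hf k (hk.trans hk₁))).cls ω hω l (by omega)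
  have hsup : ∀ ω, 0 < Pool.Agent.H49.Ent.cond F.p A True ω → A ω := fun ω hω => of_cond_pos hω
  obtain ⟨Nf, hNf⟩ : ∃ Nf : ℕ → ℕ → ℝ, Nf = fun l j' => if j' = 0 then nfF r sn w x' φ l
    else P l := ⟨_, rfl⟩
  obtain ⟨Na, hNa⟩ : ∃ Na : ℕ → ℕ → ℝ, Na = fun l j' => if j' = 0 then nnF r sn w u y φ l
    else (((γ l + q + (X + mm) : ℕ) : ℝ) - W) / J := ⟨_, rfl⟩
  obtain ⟨Nv, hNv⟩ : ∃ Nv : ℕ → ℕ → ℝ, Nv = fun l j' => if j' = 0 then ((γ l + q : ℕ) : ℝ) / J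
    else (((γ l + q + (X + mm) : ℕ) : ℝ) - W) / J := ⟨_, rfl⟩
  obtain ⟨Mn, hMn⟩ : ∃ Mn : ℕ → ℝ, Mn = fun k => if k = 0 then sn r (ow (f ks)) - 30 * φ
    else -(|E| + 3) := ⟨_, rfl⟩
  obtain ⟨Mf, hMf⟩ : ∃ Mf : ℕ → ℝ, Mf = fun k => if k = 0 then lam oq else -(|E| + 3) :=
    ⟨_, rfl⟩
  have Nf0 : ∀ l, Nf l 0 = nfF r sn w x' φ l := fun l => by rw [hNf]; rfl
  have Nf1 : ∀ l, Nf l 1 = P l := fun l => by rw [hNf]; rfl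
  have Na0 : ∀ l, Na l 0 = nnF r sn w u y φ l := fun l => by rw [hNa]; rfl
  have Na1 : ∀ l, Na l 1 = (((γ l + q + (X + mm) : ℕ) : ℝ) - W) / J := fun l => by
    rw [hNa]; rfl
  have Nv0 : ∀ l, Nv l 0 = ((γ l + q : ℕ) : ℝ) / J := fun l => by rw [hNv]; rfl
  have Nv1 : ∀ l, Nv l 1 = (((γ l + q + (X + mm) : ℕ) : ℝ) - W) / J := fun l => by
    rw [hNv]; rfl
  have Mn0 : Mn 0 = sn r (ow (f ks)) - 30 * φ := by rw [hMn]; rfl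
  have Mn1 : Mn 1 = -(|E| + 3) := by rw [hMn]; rfl
  have Mf0 : Mf 0 = lam oq := by rw [hMf]; rfl
  have Mf1 : Mf 1 = -(|E| + 3) := by rw [hMf]; rfl
  obtain ⟨κ', hκe⟩ : ∃ κ' : ℝ, κ' = (r * (35 * y) + 10 * y + 20 * (r : ℝ) ^ 2 * φ + φ₀ * u +
    φ₀ * u + θ * u) * J + r * Real.log 5 := ⟨_, rfl⟩
  obtain ⟨V, hVD, hVF⟩ := H1 _ _ H' LDh Na Nf Mn Mf Na0 Nf0 (fun l hl => by
    have e1 := NOs.f1 l hl
    rw [Na1, div_mul_cancel₀ _ hJp.ne']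
    rw [hP] at e1
    linarith only [e1]) (fun l => by rw [Nf1, hP]) Mn0 Mf0 κ' hκe.ge
  obtain ⟨e₁, he₁⟩ : ∃ e₁ : ℝ, e₁ = θ * u * J + (τ * ξ / (64 * (r + 1) * s) *
    (sn r w - sn r v₀) * J + r * Real.log 5) + (τ * ξ / (16 * (r + 1)) * u * J +
      ((D : ℝ) + 2) * (500 * y * J * Real.log 2 + Real.log 5)) := ⟨_, rfl⟩
  have hsv0 : 0 ≤ sn r w - sn r v₀ := by
    have e1 := Nn.dj_c.2.2.2.2.2.2.2.2.2.2.2.1
    linarith only [e1, hu]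
  have t1 : 0 ≤ θ * u * J := mul_nonneg hθu.le hJ0
  have t2 : 0 ≤ τ * ξ / (64 * (r + 1) * s) * (sn r w - sn r v₀) * J :=
    mul_nonneg (mul_nonneg (by positivity) hsv0) hJ0
  have t3 : 0 ≤ r * Real.log 5 := by positivity
  have t4 : 0 ≤ τ * ξ / (16 * (r + 1)) * u * J := by positivity
  have t5 : 0 ≤ ((D : ℝ) + 2) * (500 * y * J * Real.log 2 + Real.log 5) := by positivity
  have hdv : sn r w - sn r v₀ ≤ 4 * s * u := by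
    obtain ⟨c1, c2, c3, c4, c5, c6, c7, c8, c9, c10, c11, c12⟩ := Nn.sw
    obtain ⟨l1, l2, l3, l4, l5, l6⟩ := Nn.sm
    have e1 := Nn.stv Nn.vG b12 b13
    have e2 : 1 * u ≤ s * u := mul_le_mul_of_nonneg_right hs.le hu.le
    linarith only [c11, e1.2, e2, l4, l1, l2, l3, l5, l6, yu]
  have hmmU : (2 : ℝ) ^ (Cg * Y) + 1 ≤ 2 ^ mm := by
    rw [hmm, pow_succ]
    have : (1 : ℝ) ≤ 2 ^ (Cg * Y) := one_le_pow₀ (by norm_num)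
    linarith only [this]
  have g1 : ∀ l < r, Na l 1 * J + W ≤ (γ l + q + (X + mm) : ℕ) := fun l hl => by
    rw [Na1, div_mul_cancel₀ _ hJp.ne', sub_add_cancel]
  have g2 : ∀ l < r, ((γ l + q + (X + mm) : ℕ) : ℝ) ≤ Nv l 1 * J + W := fun l hl => by
    rw [Nv1, div_mul_cancel₀ _ hJp.ne', sub_add_cancel]
  have g3 : ∀ l < r, (nuF r sn w (ow (f n)) y φ l - ((0 : ℕ) : ℝ) * w) * J ≤
      (γ l + q : ℕ) := fun l hl => by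
    have e1 := NOs.u0 l hl
    rw [Nat.cast_zero, zero_mul, sub_zero]
    exact e1
  have g4 : ∀ l < r, (nuF r sn w (ow (f n)) y φ l - ((1 : ℕ) : ℝ) * w) * J + W ≤
      (γ l + q + (X + mm) : ℕ) := fun l hl => by
    have e1 := NOs.u1 l hl
    rw [Nat.cast_one, one_mul]
    exact e1
  have g5 : Mn 1 * J + W ≤ (γ r + q : ℕ) := by
    rw [Mn1]
    have e1 : (W : ℝ) ≤ J := by exact_mod_cast WJ
    have e2 : (0 : ℝ) ≤ ((γ r + q : ℕ) : ℝ) := Nat.cast_nonneg _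
    have e3 : 0 ≤ |E| * J := by positivity
    linarith only [e1, e2, e3, hJ0]
  have g6 : ∀ ω, 0 < Pool.Agent.H49.Ent.cond F.p A True ω →
      |(2 : ℝ) ^ (Mn 1 * J) * ojet F (c r) 1 (H' (slam F ⌊w * J⌋₊ ω) r) ω| < 1 := by
    intro ω hω
    rw [Mn1, LDh.hw ω]
    exact hJ₁ J (by omega) F (c r) A ⌊w * J⌋₊ (fun s' => H (f 0) s' r) hwJ'
      (fun s' => (WB.ev (f 0) (hf 0 (Nat.zero_le _))).ball.degH _ _) cfw ω (hsup ω hω)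
  have g7 : ∀ l < r, CH (Pool.Agent.H49.Ent.cond F.p A True)
      (Pool.AVG71.cod F W 2 (D + 1) (2 ^ (γ l + q + (X + mm))) (c l)
        (fun s => upw ⌊w * J⌋₊ W s) (fun s => H' s l)) F.W ≤ e₁ := by
    intro l hl
    have e1 := H2 _ _ H' LDh W hwW WJ l hl (γ l + q + (X + mm)) (NOs.k9 l hl)
    rw [he₁]
    linarith only [e1, t2, t3, t4, t5]
  have g8 : ∀ l < r, (Nv l 0 - Na l 0) * J ≤ 300 * y * J := fun l hl => by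
    rw [Nv0, Na0, sub_mul, div_mul_cancel₀ _ hJp.ne']
    exact NOs.d l hl
  have g9 : CH (Pool.Agent.H49.Ent.cond F.p A True)
      (Pool.AVG57.cod F ⌊w * J⌋₊ (fun s => H' s r) (c r) (γ r + q + X) 1 (D + 1))
      (fun ω => (jet2 F c ⌊w * J⌋₊ H' 0 r Nf ω, (cR F A w₁ ω, F.W ω))) ≤ e₁ := by
    have e1 := H3 _ _ H' LDh (γ r + q + X) NOs.dj Nf (fun l _ => Nf0 l)
      (fun l _ => by rw [Nf1, hP])
    rw [he₁]
    linarith only [e1, t1, t4, t5]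
  have g10 : CH (Pool.Agent.H49.Ent.cond F.p A True)
      (Pool.AVG57.cod F ⌊w * J⌋₊ (fun s => H' s r) (c r) (γ r + q) 0 (D + 1))
      (fun ω => (jet2 F c ⌊w * J⌋₊ H' 0 r
        (fun l j' => nuF r sn w (ow (f n)) y φ l - (j' : ℝ) * w) ω,
        (cR F A (ow (f n)) ω, F.W ω))) ≤ e₁ := by
    have e1 := H4 _ _ H' LDh (γ r + q) NOs.jt
    rw [he₁]
    linarith only [e1, t1, t2, t3]
  obtain ⟨Ur, hUr⟩ : ∃ Ur : ℝ, Ur = ((1 - h) * (κ * ξ * u + 2 * φ) * Real.log 2 + φ +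
    40 * ((r : ℝ) + 1) ^ 2 * φ + θ * u) * J + 2 * Real.log 5 := ⟨_, rfl⟩
  have g11 : ∀ a : ℕ, (a + 1) * ⌊κ * X⌋₊ ≤ X → ∀ E' : Set F.Ω,
      π₀ ≤ Pr (Pool.Agent.H49.Ent.cond F.p A True) E' →
      CH (rs (Pool.Agent.H49.Ent.cond F.p A True) E')
        (Mh F c r ⌊w * J⌋₊ H' (γ r + q + (a + 1) * ⌊κ * X⌋₊))
        (fun ω => (Mh F c r ⌊w * J⌋₊ H' (γ r + q + a * ⌊κ * X⌋₊) ω,
          (Vv F c r ⌊w * J⌋₊ H' (fun l => nbF sn w xr φ l * J) ω,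
            (F.W ω, cR F A w₁ ω)))) ≤ Ur := by
    intro a ha E' hE'
    have haκ : ((a : ℝ) + 1) * κ ≤ 1 := by
      have e1 := hX₁ X nX1 (a + 1) ha
      push_cast at e1
      exact e1
    obtain ⟨B', hB'⟩ : ∃ B' : F.Ω → Prop, B' = fun ω => A ω ∧ ω ∈ E' := ⟨_, rfl⟩
    have r1 : rs (Pool.Agent.H49.Ent.cond F.p A True) E' =
        Pool.Agent.H49.Ent.cond F.p B' True := by
      rw [hB']
      exact Pool.RPL.cond_and_ev F.p (E := fun ω => ω ∈ E') hA.ne'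
    have r2 : π₀ * Pe F.p A ≤ Pe F.p B' := by
      have k1 : Pr (Pool.Agent.H49.Ent.cond F.p A True) E' = Pe F.p B' / Pe F.p A := by
        rw [hB']
        exact Pe_cond (fun ω => ω ∈ E')
      rw [k1, le_div_iff₀ hA] at hE'
      exact hE'
    have r3 : Sub B' A := fun ω hω => by
      rw [hB'] at hω
      exact hω.1
    have hPB' : 0 < Pe F.p B' := lt_of_lt_of_le (mul_pos a5 hA) r2
    rw [r1]
    obtain ⟨n1, n2⟩ := NOs.row a haκ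
    have e1 := row_ev (isLaw_cond F.isLaw hPB') (F := F) (c := c) (r := r) (w := ⌊w * J⌋₊)
      (H := H') (nb := nbF sn w xr φ) n1 n2 (cR F A w₁)
    have e2 := H5 _ _ H' LDh a haκ B' r3 r2
    rw [hUr]
    linarith only [e1, e2]
  have g12 := C.u_le a6 hξ0 hu hJ0 hFl.x1 hφ0.le hφθ hh hh1 a3 a4 z2
  rw [← hUr] at g12
  have g13 : 65 * κ' + Real.log 2 + r * (300 * y * J * Real.log 2 + Real.log 5) +
      (r + 1) * e₁ + Ca + θ * u * J ≤ τ * X := by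
    rw [hκe, he₁]
    exact C.e_le hs a6 hξ0 hu hJ0 hFl.x1 hy0 hyθ hφ0.le hφθ hφ₀u hdv z1 a8
  have g14 : ∀ s' l, (H' s' l).totalDegree ≤ D := fun s' l => by
    rw [hH']
    exact Pool.D2R.hybH_deg WB (hfb 0 (Nat.zero_le _)) (hf 0 (Nat.zero_le _)) s' l
  have g15 := det_cR (hchs ks hks (b5.trans ho1')) hsup
  have g16 := det_cR (hchs n le_rfl (b7.trans ho1')) hsup
  have hHF := HF (c := c) (ks := ks) (n := n) (q := q) (w := ⌊w * J⌋₊) (W := W) (X := X)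
    (mm := mm) (D := D) (γ := γ) (B := A) (G := G') (H := H') (zw := cR F A w₁)
    (Rj := cR F A (ow (f ks))) (Rx := cR F A (ow (f n))) (R' := cR F A x')
    (XJ := fun ω => fun l : Fin r => F.X J ω (c l))
    (p := Pool.Agent.H49.Ent.cond F.p A True) (Nf := Nf) (Nn := Na)
    (Nu := fun l j' => nuF r sn w (ow (f n)) y φ l - (j' : ℝ) * w) (Nv := Nv)
    (nb := nbF sn w xr φ) (Mf := Mf) (Mn := Mn) (U := 2 ^ (Cg * Y)) (κ' := κ')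
    (e₁ := e₁) (d := 300 * y * J) (ψ := θ * u) (Ur := Ur)
    (e := 65 * κ' + Real.log 2 + r * (300 * y * J * Real.log 2 + Real.log 5) + (r + 1) * e₁ +
      Ca + θ * u * J) hcl hsup H7 hwW NOs.WX g14 le_rfl
    (fun ω hω l hl => hcls0 ω hω l (by omega)) hGrd hmmU V g15 g16 (det_slam hw₁W WJ hsup)
    (fun l hl => by rw [Na0]; exact NOs.n0 l hl) g1 g3 g4
    (by rw [Mn0]; exact NOs.m0) g5 (by rw [Mf0]; exact NOs.mf) (by rw [Mf1, Mn1]) g6 g7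
    (fun l hl => by rw [Nf0]; exact NOs.f0 l hl)
    (fun l hl => by rw [Nf1]; exact NOs.f1 l hl)
    (fun l hl => by rw [Nv0, div_mul_cancel₀ _ hJp.ne']) g2
    (fun l => by rw [Nv1, Na1]) (by positivity) g8 g9 g10 hVD (hVF X hFl.x2) NOs.nb1 NOs.nb2
    g11 TW nX0 le_rfl g13 nmm g12
  obtain ⟨mu, hmu1, hmu2⟩ := hHF
  have hgn : ∀ ω i, gnh F c r (g₀ (f 0)) (hyb Gc (fb 0) (f 0) r) (Gc (f n)) ω i =
      gnh F c (0 + r) γ (G' 0) (G' n) ω i := by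
    intro ω i
    rw [hG0, hGn, hγ, Nat.zero_add]
  have hU : (2 : ℝ) ^ (Cg * Y) ≤ 2 ^ (ι * u * J) := by
    rw [← Real.rpow_natCast]
    refine Real.rpow_le_rpow_of_exponent_le one_le_two ?_
    push_cast
    exact m3
  refine ⟨W, mu, hwW, hW2, hmu1, fun ω hω i hi => ?_, fun ω ν hω hν hpt i hi => ?_, ?_⟩
  · rw [hgn]
    exact (hGrd.bm ω hω i (by omega) (Nat.zero_le _)).trans hU
  · rw [hgn, hgn]
    have e1 := HC WB Nn L.inj (hfb 0 (Nat.zero_le _)) (hf 0 (Nat.zero_le _)) hob how hlv hC hEb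
      zjq big10 hCc2 (f := f) (n := n)
    have e2 := Pool.D2R.GrdE.cell hGrd (fun ω ν hω hν hpt j hj => by
      rw [hG0, hγ, hq]
      exact e1 ω ν hω hν hpt j (by omega)) ω ν hω hν hpt i (by omega)
    refine e2.trans ?_
    rw [div_le_iff₀ (by positivity), ← Real.rpow_natCast, ← Real.rpow_natCast,
      ← Real.rpow_add two_pos]
    refine Real.rpow_le_rpow_of_exponent_le one_le_two ?_
    push_cast
    linarith only [m4]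
  · refine (pb_le h0 fun ω hω => ?_).trans hmu2
    obtain ⟨i, hi, h1⟩ := hω
    refine ⟨i, hi, ?_⟩
    have e2 : gnh F c r γ (G' 0) (G' n) ω i =
        gnh F c r (g₀ (f 0)) (hyb Gc (fb 0) (f 0) r) (Gc (f n)) ω i := by
      rw [hG0, hGn, hγ]
    rw [e2]
    refine lt_of_le_of_lt ?_ h1
    refine Real.rpow_le_rpow_of_exponent_le one_le_two ?_
    linarith only [m5]

end Pool.V0F
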